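import Mathlib

set_option autoImplicit false

open scoped Matrix.Norms.L2Operator

namespace Pool.Agent.Helper685.OSep

/-- A family of candidate matrix norms on a complex vector space `E`: for each `n`, a real function on
the `n × n` matrices over `E`. -/
abbrev MatNorms (E : Type) : Type := (n : ℕ) → Matrix (Fin n) (Fin n) E → ℝ

/-- The norm of an `n × n` matrix of bounded operators on a Hilbert space `H`: its operator norm as an
operator on the direct sum of `n` copies of `H`, i.e. the least `C ≥ 0` with `‖T ξ‖² ≤ C² ‖ξ‖²`. -/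
noncomputable def opNorm (H : Type) [NormedAddCommGroup H] [InnerProductSpace ℂ H] (n : ℕ)
    (T : Matrix (Fin n) (Fin n) (H →L[ℂ] H)) : ℝ :=
  sInf {C : ℝ | 0 ≤ C ∧ ∀ ξ : Fin n → H, ∑ i, ‖∑ j, T i j (ξ j)‖ ^ 2 ≤ C ^ 2 * ∑ j, ‖ξ j‖ ^ 2}

/-- `N` is an operator space structure on the normed space `E`, compatible with its norm: the matrix
norms `N` are induced by a linear isometric embedding of `E` into `B(H)` for some Hilbert space `H`. -/
def IsOSStructure (E : Type) [NormedAddCommGroup E] [NormedSpace ℂ E] (N : MatNorms E) : Prop :=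
  ∃ (H : Type) (_ : NormedAddCommGroup H) (_ : InnerProductSpace ℂ H) (_ : CompleteSpace H)
    (J : E →ₗᵢ[ℂ] (H →L[ℂ] H)), ∀ (n : ℕ) (x : Matrix (Fin n) (Fin n) E),
      N n x = opNorm H n (x.map J)

/-- The operator space structures on the normed space `E`. -/
structure OS (E : Type) [NormedAddCommGroup E] [NormedSpace ℂ E] where
  /-- the matrix norms -/
  norms : MatNorms E
  isOS : IsOSStructure E norms

/-- `‖u‖_cb ≤ C` for a linear map `u : (E, N) → (E, M)`. -/
def CBLe {E : Type} [AddCommGroup E] [Module ℂ E] (N M : MatNorms E) (u : E →ₗ[ℂ] E) (C : ℝ) : Prop :=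
  0 ≤ C ∧ ∀ (n : ℕ) (x : Matrix (Fin n) (Fin n) E), M n (x.map u) ≤ C * N n x

/-- `(E, N)` and `(E, M)` are completely isometric: some linear bijection `u` of `E` preserves all the
matrix norms. -/
def CompletelyIsometric {E : Type} [AddCommGroup E] [Module ℂ E] (N M : MatNorms E) : Prop :=
  ∃ u : E ≃ₗ[ℂ] E, ∀ (n : ℕ) (x : Matrix (Fin n) (Fin n) E), M n (x.map u) = N n x

/-- The completely bounded Banach–Mazur distance `d_cb((E, N), (E, M))`, the infimum of
`‖u‖_cb ‖u⁻¹‖_cb` over all linear isomorphisms `u`. -/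
noncomputable def dcb {E : Type} [AddCommGroup E] [Module ℂ E] (N M : MatNorms E) : ℝ :=
  sInf {r : ℝ | ∃ (u : E ≃ₗ[ℂ] E) (A B : ℝ),
    CBLe N M (u : E →ₗ[ℂ] E) A ∧ CBLe M N (u.symm : E →ₗ[ℂ] E) B ∧ r = A * B}

/-- The matrix norms induced by a linear map `w : E → M_κ`. -/
noncomputable def matNorm {E : Type} [AddCommGroup E] [Module ℂ E] {κ : Type} [Fintype κ]
    [DecidableEq κ] (w : E →ₗ[ℂ] Matrix κ κ ℂ) : MatNorms E :=
  fun n x => ‖(Matrix.of fun (p q : Fin n × κ) => w (x p.1 q.1) p.2 q.2 :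
    Matrix (Fin n × κ) (Fin n × κ) ℂ)‖

/-- The minimal matrix norms on `E`. -/
noncomputable def minNorm {E : Type} [NormedAddCommGroup E] [NormedSpace ℂ E] : MatNorms E :=
  fun _ x => sSup {r : ℝ | ∃ f : E →L[ℂ] ℂ, ‖f‖ ≤ 1 ∧ r = ‖x.map f‖}

end Pool.Agent.Helper685.OSep
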