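import Mathlib
import Pool.Agent.Helper685.OSep.Defs

set_option autoImplicit false

open scoped Matrix.Norms.L2Operator

namespace Pool.Agent.Helper685.OSep

section aux
variable {m n : Type} [Fintype m] [Fintype n] [DecidableEq n]

lemma l2norm_le (A : Matrix m n ℂ) (C : ℝ) (hC : 0 ≤ C)
    (h : ∀ v : n → ℂ, ∑ i, ‖∑ j, A i j * v j‖ ^ 2 ≤ C ^ 2 * ∑ j, ‖v j‖ ^ 2) : ‖A‖ ≤ C := by
  rw [Matrix.l2_opNorm_def]
  refine ContinuousLinearMap.opNorm_le_bound _ hC fun v => ?_
  refine (sq_le_sq₀ (norm_nonneg _) (by positivity)).1 ?_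
  rw [mul_pow, EuclideanSpace.norm_sq_eq, EuclideanSpace.norm_sq_eq]
  exact h v

lemma l2norm_mulVec_sq (A : Matrix m n ℂ) (v : n → ℂ) :
    ∑ i, ‖∑ j, A i j * v j‖ ^ 2 ≤ ‖A‖ ^ 2 * ∑ j, ‖v j‖ ^ 2 := by
  have h := Matrix.l2_opNorm_mulVec A (WithLp.toLp 2 v)
  have h2 := (sq_le_sq₀ (norm_nonneg _) (by positivity)).2 h
  rw [mul_pow, EuclideanSpace.norm_sq_eq, EuclideanSpace.norm_sq_eq] at h2
  exact h2

end aux

/-- TARGET 1. Compression to a finite dimensional subspace. -/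
theorem exists_compression {E : Type} [NormedAddCommGroup E] [NormedSpace ℂ E]
    (H : Type) [NormedAddCommGroup H] [InnerProductSpace ℂ H] [CompleteSpace H]
    (J : E →ₗᵢ[ℂ] (H →L[ℂ] H)) (n : ℕ) (x : Matrix (Fin n) (Fin n) E) (r : ℝ)
    (hr : 0 ≤ r) (h : r < opNorm H n (x.map J)) :
    ∃ (k : ℕ) (u : E →ₗ[ℂ] Matrix (Fin k) (Fin k) ℂ), (∀ e, ‖u e‖ ≤ ‖e‖) ∧ r < matNorm u n x := by
  classical
  have hrS : r ∉ {C : ℝ | 0 ≤ C ∧ ∀ ξ : Fin n → H,
      ∑ i, ‖∑ j, (x.map J) i j (ξ j)‖ ^ 2 ≤ C ^ 2 * ∑ j, ‖ξ j‖ ^ 2} := by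
    intro hmem
    have : opNorm H n (x.map J) ≤ r := csInf_le ⟨0, fun C hC => hC.1⟩ hmem
    linarith
  simp only [Set.mem_ofPred_eq, not_and, not_forall, not_le] at hrS
  obtain ⟨ξ, hξ⟩ := hrS hr
  simp only [Matrix.map_apply] at hξ
  set y : Fin n → H := fun i => ∑ j, J (x i j) (ξ j) with hy
  let V : Submodule ℂ H := Submodule.span ℂ (Set.range ξ ∪ Set.range y)
  have hfin : FiniteDimensional ℂ V :=
    FiniteDimensional.span_of_finite ℂ ((Set.finite_range ξ).union (Set.finite_range y))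
  have hξV : ∀ j, ξ j ∈ V := fun j => Submodule.subset_span (Or.inl ⟨j, rfl⟩)
  have hyV : ∀ j, y j ∈ V := fun j => Submodule.subset_span (Or.inr ⟨j, rfl⟩)
  let b := stdOrthonormalBasis ℂ V
  let k := Module.finrank ℂ V
  have hbo : Orthonormal ℂ (fun s : Fin k => ((b s : V) : H)) :=
    b.orthonormal.comp_linearIsometry V.subtypeₗᵢ
  let u : E →ₗ[ℂ] Matrix (Fin k) (Fin k) ℂ :=
    { toFun := fun e => Matrix.of fun s t => inner ℂ ((b s : V) : H) (J e ((b t : V) : H))
      map_add' := by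
        intro e f
        ext s t
        simp [inner_add_right]
      map_smul' := by
        intro c e
        ext s t
        simp [inner_smul_right] }
  have hu : ∀ e s t, u e s t = inner ℂ ((b s : V) : H) (J e ((b t : V) : H)) := fun e s t => rfl
  refine ⟨k, u, ?_, ?_⟩
  · intro e
    refine l2norm_le _ _ (norm_nonneg _) fun v => ?_
    set h' : H := ∑ t, v t • ((b t : V) : H) with hh'
    have h1 : ∀ s, ∑ t, u e s t * v t = inner ℂ ((b s : V) : H) (J e h') := by
      intro s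
      rw [hh', map_sum, inner_sum]
      refine Finset.sum_congr rfl fun t _ => ?_
      rw [map_smul, inner_smul_right, hu, mul_comm]
    simp_rw [h1]
    have h2 := hbo.sum_inner_products_le (s := Finset.univ) (x := J e h')
    refine h2.trans ?_
    have h3 : ‖h'‖ ^ 2 = ∑ j, ‖v j‖ ^ 2 := by
      have e1 : h' = ((b.repr.symm (WithLp.toLp 2 v) : V) : H) := by
        rw [← b.sum_repr_symm, hh']
        simp
        rfl
      rw [e1, ← Submodule.coe_norm, LinearIsometryEquiv.norm_map, EuclideanSpace.norm_sq_eq]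
    rw [← h3, ← mul_pow]
    refine pow_le_pow_left₀ (norm_nonneg _) ?_ 2
    refine (ContinuousLinearMap.le_opNorm _ _).trans ?_
    rw [LinearIsometry.norm_map]
  · by_contra hcon
    push Not at hcon
    have hkey := l2norm_mulVec_sq
      (Matrix.of fun (p q : Fin n × Fin k) => u (x p.1 q.1) p.2 q.2 :
        Matrix (Fin n × Fin k) (Fin n × Fin k) ℂ)
      (fun q => inner ℂ ((b q.2 : V) : H) (ξ q.1))
    simp only [Matrix.of_apply, Fintype.sum_prod_type] at hkey
    have h1 : ∀ w : H, w ∈ V → ∑ t, (inner ℂ ((b t : V) : H) w) • ((b t : V) : H) = w := by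
      intro w hw
      have := b.sum_repr' ⟨w, hw⟩
      have h2 := congrArg (Subtype.val) this
      simpa using h2
    have h2 : ∀ w : H, w ∈ V → ∑ t, ‖(inner ℂ ((b t : V) : H) w : ℂ)‖ ^ 2 = ‖w‖ ^ 2 := by
      intro w hw
      have := b.sum_sq_norm_inner_right ⟨w, hw⟩
      simpa using this
    have h3 : ∀ i s, ∑ j, ∑ t, u (x i j) s t * inner ℂ ((b t : V) : H) (ξ j)
        = inner ℂ ((b s : V) : H) (y i) := by
      intro i s
      show _ = inner ℂ ((b s : V) : H) (∑ j, J (x i j) (ξ j))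
      rw [inner_sum]
      refine Finset.sum_congr rfl fun j _ => ?_
      conv_rhs => rw [← h1 (ξ j) (hξV j)]
      rw [map_sum, inner_sum]
      refine Finset.sum_congr rfl fun t _ => ?_
      rw [map_smul, inner_smul_right, hu, mul_comm]
    simp_rw [h3] at hkey
    rw [Finset.sum_congr rfl (fun i _ => h2 (y i) (hyV i)),
      Finset.sum_congr rfl (fun j _ => h2 (ξ j) (hξV j))] at hkey
    have h4 : matNorm u n x ^ 2 ≤ r ^ 2 := pow_le_pow_left₀ (norm_nonneg _) hcon 2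
    have h5 : 0 ≤ ∑ j, ‖ξ j‖ ^ 2 := by positivity
    have h6 : ∑ i, ‖y i‖ ^ 2 ≤ r ^ 2 * ∑ j, ‖ξ j‖ ^ 2 :=
      hkey.trans (mul_le_mul_of_nonneg_right h4 h5)
    linarith

/-- TARGET 2. Every operator space structure dominates the minimal one. -/
theorem minNorm_le_opNorm {E : Type} [NormedAddCommGroup E] [NormedSpace ℂ E]
    (H : Type) [NormedAddCommGroup H] [InnerProductSpace ℂ H] [CompleteSpace H]
    (J : E →ₗᵢ[ℂ] (H →L[ℂ] H)) (n : ℕ) (x : Matrix (Fin n) (Fin n) E) :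
    minNorm n x ≤ opNorm H n (x.map J) := by
  classical
  refine csSup_le ⟨_, 0, by simp, rfl⟩ ?_
  rintro _ ⟨f, hf, rfl⟩
  refine le_csInf ?_ ?_
  · refine ⟨Real.sqrt (∑ i, ∑ j, ‖J (x i j)‖ ^ 2), Real.sqrt_nonneg _, fun ξ => ?_⟩
    rw [Real.sq_sqrt (by positivity), Finset.sum_mul]
    refine Finset.sum_le_sum fun i _ => ?_
    have h1 : ‖∑ j, (x.map J) i j (ξ j)‖ ≤ ∑ j, ‖J (x i j)‖ * ‖ξ j‖ := by
      refine (norm_sum_le _ _).trans (Finset.sum_le_sum fun j _ => ?_)
      exact ContinuousLinearMap.le_opNorm _ _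
    refine (pow_le_pow_left₀ (norm_nonneg _) h1 2).trans ?_
    exact Finset.sum_mul_sq_le_sq_mul_sq _ _ _
  · rintro C ⟨hC, hS⟩
    refine l2norm_le _ _ hC fun β => ?_
    set α : Fin n → ℂ := fun i => ∑ j, f (x i j) * β j with hα
    have hα' : ∀ i, ∑ j, (x.map f) i j * β j = α i := fun i => rfl
    simp_rw [hα']
    set e : E := ∑ i, (starRingEnd ℂ (α i)) • ∑ j, β j • x i j with he
    have h1 : ((∑ i, ‖α i‖ ^ 2 : ℝ) : ℂ) = f e := by
      have hthis : ∀ i, f (∑ j, β j • x i j) = α i := by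
        intro i
        rw [map_sum]
        refine Finset.sum_congr rfl fun j _ => ?_
        rw [map_smul, smul_eq_mul, mul_comm]
      rw [he, map_sum, Complex.ofReal_sum]
      refine Finset.sum_congr rfl fun i _ => ?_
      rw [map_smul, hthis i, smul_eq_mul, Complex.conj_mul', Complex.ofReal_pow]
    have h2 : ∑ i, ‖α i‖ ^ 2 ≤ ‖e‖ := by
      have : ‖f e‖ ≤ 1 * ‖e‖ := f.le_of_opNorm_le hf e
      rw [← h1, Complex.norm_real, Real.norm_of_nonneg (by positivity), one_mul] at this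
      exact this
    set a : ℝ := ∑ i, ‖α i‖ ^ 2 with ha
    set bb : ℝ := ∑ j, ‖β j‖ ^ 2 with hbb
    have ha0 : 0 ≤ a := by positivity
    have hb0 : 0 ≤ bb := by positivity
    have h3 : ‖J e‖ ≤ Real.sqrt a * (C * Real.sqrt bb) := by
      refine ContinuousLinearMap.opNorm_le_bound _ (by positivity) fun h' => ?_
      have e1 : J e h' = ∑ i, (starRingEnd ℂ (α i)) • ∑ j, J (x i j) (β j • h') := by
        rw [he]
        simp only [map_sum, map_smul, _root_.sum_apply, _root_.smul_apply,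
          Finset.smul_sum]
      have hS' := hS (fun j => β j • h')
      have e2 : ‖J e h'‖ ≤ ∑ i, ‖α i‖ * ‖∑ j, J (x i j) (β j • h')‖ := by
        rw [e1]
        refine (norm_sum_le _ _).trans (Finset.sum_le_sum fun i _ => ?_)
        rw [norm_smul, RCLike.norm_conj]
      have e3 := Finset.sum_mul_sq_le_sq_mul_sq Finset.univ (fun i => ‖α i‖)
        (fun i => ‖∑ j, J (x i j) (β j • h')‖)
      have e4 : ∑ j, ‖β j • h'‖ ^ 2 = bb * ‖h'‖ ^ 2 := by
        rw [hbb, Finset.sum_mul]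
        refine Finset.sum_congr rfl fun j _ => ?_
        rw [norm_smul, mul_pow]
      have e5 : ‖J e h'‖ ^ 2 ≤ (Real.sqrt a * (C * Real.sqrt bb) * ‖h'‖) ^ 2 := by
        calc ‖J e h'‖ ^ 2 ≤ (∑ i, ‖α i‖ * ‖∑ j, J (x i j) (β j • h')‖) ^ 2 :=
              pow_le_pow_left₀ (norm_nonneg _) e2 2
          _ ≤ a * ∑ i, ‖∑ j, J (x i j) (β j • h')‖ ^ 2 := e3
          _ ≤ a * (C ^ 2 * (bb * ‖h'‖ ^ 2)) := by
              rw [← e4]
              exact mul_le_mul_of_nonneg_left hS' ha0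
          _ = _ := by
              rw [mul_pow, mul_pow, mul_pow, Real.sq_sqrt ha0, Real.sq_sqrt hb0]
              ring
      exact (sq_le_sq₀ (norm_nonneg _) (by positivity)).1 e5
    rw [LinearIsometry.norm_map] at h3
    have h4 : a ≤ Real.sqrt a * (C * Real.sqrt bb) := h2.trans h3
    rcases ha0.eq_or_lt with h0 | hpos
    · rw [← h0]; positivity
    · have h5 : Real.sqrt a ≤ C * Real.sqrt bb := by
        have hs : 0 < Real.sqrt a := Real.sqrt_pos.2 hpos
        have h6 : Real.sqrt a * Real.sqrt a ≤ Real.sqrt a * (C * Real.sqrt bb) := by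
          rwa [Real.mul_self_sqrt ha0]
        exact le_of_mul_le_mul_left h6 hs
      have h7 := pow_le_pow_left₀ (Real.sqrt_nonneg _) h5 2
      rwa [mul_pow, Real.sq_sqrt ha0, Real.sq_sqrt hb0] at h7

end Pool.Agent.Helper685.OSep
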