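import Mathlib

set_option autoImplicit false

namespace Pool.Agent.Helper685.OSep

/-- `T` has the simple largest singular value `c`, with right and left singular unit vectors `ξ`, `η`
and gap `g`. -/
structure SimpleTop {ι : Type} [Fintype ι] (T : Matrix ι ι ℂ) (c g : ℝ) (ξ η : ι → ℂ) : Prop where
  c_pos : 0 < c
  g_pos : 0 < g
  g_le : g ≤ c ^ 2
  xi_norm : ∑ a, ‖ξ a‖ ^ 2 = 1
  eta_norm : ∑ a, ‖η a‖ ^ 2 = 1
  T_xi : T.mulVec ξ = fun a => (c : ℂ) * η a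
  Tt_eta : T.conjTranspose.mulVec η = fun a => (c : ℂ) * ξ a
  gap : ∀ v : ι → ℂ, ∑ a, star (ξ a) * v a = 0 →
    ∑ a, ‖T.mulVec v a‖ ^ 2 ≤ (c ^ 2 - g) * ∑ a, ‖v a‖ ^ 2

/-- The operator `M ⊗ S` on `ℂ^ι ⊗ Y = (ι → Y)`. -/
def act {ι : Type} [Fintype ι] {Y : Type} [AddCommGroup Y] [Module ℂ Y] (M : Matrix ι ι ℂ)
    (S : Y →ₗ[ℂ] Y) (Φ : ι → Y) : ι → Y :=
  fun a => ∑ b, M a b • S (Φ b)

end Pool.Agent.Helper685.OSep
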