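import Mathlib

set_option autoImplicit false

open scoped BigOperators Matrix ComplexOrder

namespace Pool.Agent.Helper685.OSep.PS

/-- Hilbert–Schmidt norm squared. -/
noncomputable def hs {m n : Type} [Fintype m] [Fintype n] (A : Matrix m n ℂ) : ℝ :=
  ∑ i, ∑ j, ‖A i j‖ ^ 2

variable {κ ι : Type} [Fintype κ] [Fintype ι] [DecidableEq κ] [DecidableEq ι]


omit [DecidableEq κ] [DecidableEq ι] in
theorem hs_trace (A : Matrix κ ι ℂ) : ((hs A : ℝ) : ℂ) = (Aᴴ * A).trace := by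
  unfold hs
  rw [Matrix.trace]
  simp only [Matrix.diag_apply, Matrix.mul_apply, Matrix.conjTranspose_apply]
  rw [Finset.sum_comm]
  push_cast
  refine Finset.sum_congr rfl fun i _ => Finset.sum_congr rfl fun j _ => ?_
  rw [Complex.star_def, ← Complex.normSq_eq_conj_mul_self, Complex.normSq_eq_norm_sq]
  push_cast; rfl

omit [DecidableEq κ] in
theorem hs_mul_right (A : Matrix κ ι ℂ) {U : Matrix ι ι ℂ} (hU : U * Uᴴ = 1) :
    hs (A * U) = hs A := by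
  have h : ((hs (A * U) : ℝ) : ℂ) = ((hs A : ℝ) : ℂ) := by
    rw [hs_trace, hs_trace, Matrix.conjTranspose_mul, Matrix.mul_assoc, Matrix.trace_mul_comm,
      Matrix.mul_assoc, Matrix.mul_assoc, hU, Matrix.mul_one]
  exact_mod_cast h

omit [DecidableEq ι] in
theorem hs_mul_left (A : Matrix κ ι ℂ) {U : Matrix κ κ ℂ} (hU : Uᴴ * U = 1) :
    hs (U * A) = hs A := by
  have h : ((hs (U * A) : ℝ) : ℂ) = ((hs A : ℝ) : ℂ) := by
    rw [hs_trace, hs_trace, Matrix.conjTranspose_mul, Matrix.mul_assoc, ← Matrix.mul_assoc Uᴴ, hU,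
      Matrix.one_mul]
  exact_mod_cast h

omit [DecidableEq κ] [DecidableEq ι] in
theorem hs_neg (A : Matrix κ ι ℂ) : hs (-A) = hs A := by
  simp [hs]

omit [DecidableEq κ] [DecidableEq ι] in
theorem hs_nonneg (A : Matrix κ ι ℂ) : 0 ≤ hs A := by
  unfold hs; positivity

/-- Diagonalisation. -/
theorem exists_diag {H : Matrix ι ι ℂ} (hH : H.IsHermitian) :
    ∃ U : Matrix ι ι ℂ, Uᴴ * U = 1 ∧ U * Uᴴ = 1 ∧
      Uᴴ * H * U = Matrix.diagonal (fun i => ((hH.eigenvalues i : ℝ) : ℂ)) := by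
  refine ⟨(hH.eigenvectorUnitary : Matrix ι ι ℂ), ?_, ?_, ?_⟩
  · have := Unitary.coe_star_mul_self hH.eigenvectorUnitary
    exact this
  · have := Unitary.coe_mul_star_self hH.eigenvectorUnitary
    exact this
  · have := hH.conjStarAlgAut_star_eigenvectorUnitary
    rw [Unitary.conjStarAlgAut_star_apply] at this
    exact this

theorem hs_diagonal (c : ι → ℝ) :
    hs (Matrix.diagonal (fun i => ((c i : ℝ) : ℂ))) = ∑ i, c i ^ 2 := by
  unfold hs
  refine Finset.sum_congr rfl fun i _ => ?_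
  rw [Finset.sum_eq_single i]
  · rw [Matrix.diagonal_apply_eq, Complex.norm_real, Real.norm_eq_abs, sq_abs]
  · intro j _ hj
    rw [Matrix.diagonal_apply_ne _ (Ne.symm hj)]; simp
  · intro h; exact absurd (Finset.mem_univ i) h

theorem hs_hermitian {H : Matrix ι ι ℂ} (hH : H.IsHermitian) :
    hs H = ∑ i, hH.eigenvalues i ^ 2 := by
  obtain ⟨U, hU1, hU2, hU3⟩ := exists_diag hH
  rw [← hs_diagonal, ← hU3, hs_mul_right _ hU2]
  have : hs (Uᴴ * H) = hs H := hs_mul_left H (U := Uᴴ) (by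
    rw [Matrix.conjTranspose_conjTranspose]; exact hU2)
  exact this.symm

omit [DecidableEq κ] in
/-- Cauchy-Schwarz on the diagonal. -/
theorem cs_diag (A B : Matrix κ ι ℂ) {U : Matrix ι ι ℂ} (hU : U * Uᴴ = 1) :
    ∑ j, ‖(Uᴴ * (Aᴴ * B) * U) j j‖ ≤ Real.sqrt (hs A) * Real.sqrt (hs B) := by
  have e : Uᴴ * (Aᴴ * B) * U = (A * U)ᴴ * (B * U) := by
    rw [Matrix.conjTranspose_mul]; simp only [Matrix.mul_assoc]
  rw [e, ← hs_mul_right A hU, ← hs_mul_right B hU]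
  generalize A * U = A'
  generalize B * U = B'
  have h1 : ∀ j, ‖(A'ᴴ * B') j j‖ ≤ ∑ i, ‖A' i j‖ * ‖B' i j‖ := by
    intro j
    rw [Matrix.mul_apply]
    refine (norm_sum_le _ _).trans (Finset.sum_le_sum fun i _ => ?_)
    rw [norm_mul, Matrix.conjTranspose_apply, norm_star]
  have h2 : ∑ j, ∑ i, ‖A' i j‖ * ‖B' i j‖ =
      ∑ p : κ × ι, ‖A' p.1 p.2‖ * ‖B' p.1 p.2‖ := by
    rw [Fintype.sum_prod_type, Finset.sum_comm]
  have h3 := Real.sum_mul_le_sqrt_mul_sqrt Finset.univ (fun p : κ × ι => ‖A' p.1 p.2‖)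
    (fun p : κ × ι => ‖B' p.1 p.2‖)
  have h4 : ∀ M : Matrix κ ι ℂ, ∑ p : κ × ι, ‖M p.1 p.2‖ ^ 2 = hs M := by
    intro M
    rw [Fintype.sum_prod_type]; rfl
  rw [h4, h4] at h3
  calc ∑ j, ‖(A'ᴴ * B') j j‖ ≤ ∑ j, ∑ i, ‖A' i j‖ * ‖B' i j‖ := Finset.sum_le_sum fun j _ => h1 j
    _ = _ := h2
    _ ≤ _ := h3

/-- TARGET 1 (Powers–Størmer type estimate). -/
theorem ps (a w : Matrix ι ι ℂ) (y : Matrix κ ι ℂ) (x : Matrix κ κ ℂ)
    (ha : a.PosSemidef) (hay : a * a = yᴴ * y) (hw : w ∈ Matrix.unitaryGroup ι ℂ)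
    (τ : ℝ) (hτ : 0 ≤ τ)
    (h1 : hs (x * y - y * w) ≤ τ ^ 2 * hs y) (h2 : hs (xᴴ * y - y * wᴴ) ≤ τ ^ 2 * hs y) :
    hs (wᴴ * a * w - a) ≤ 2 * τ * hs y := by
  have hw1 : w * wᴴ = 1 := (Matrix.mem_unitaryGroup_iff).1 hw
  have hw2 : wᴴ * w = 1 := (Matrix.mem_unitaryGroup_iff').1 hw
  have hb : (wᴴ * a * w).PosSemidef := ha.conjTranspose_mul_mul_same w
  obtain ⟨b, hbd⟩ : ∃ b, b = wᴴ * a * w := ⟨_, rfl⟩
  rw [← hbd] at hb ⊢
  have hbb : b * b = (y * w)ᴴ * (y * w) := by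
    have e1 : b * b = wᴴ * (a * (w * wᴴ) * a) * w := by
      rw [hbd]; simp only [Matrix.mul_assoc]
    rw [e1, hw1, Matrix.mul_one, hay, Matrix.conjTranspose_mul]
    simp only [Matrix.mul_assoc]
  have hM : b * b - a * a = (y * w)ᴴ * (y * w - x * y) +
      ((xᴴ * y - y * wᴴ) * w)ᴴ * y := by
    rw [hbb, hay, Matrix.mul_sub, Matrix.sub_mul, Matrix.mul_assoc y wᴴ w, hw2, Matrix.mul_one,
      Matrix.conjTranspose_sub, Matrix.sub_mul]
    have e2 : (xᴴ * y * w)ᴴ * y = (y * w)ᴴ * (x * y) := by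
      rw [Matrix.mul_assoc, Matrix.conjTranspose_mul, Matrix.conjTranspose_conjTranspose,
        Matrix.mul_assoc]
    rw [e2]; abel
  have hH : (b - a).IsHermitian := hb.1.sub ha.1
  obtain ⟨U, hU1, hU2, hU3⟩ := exists_diag hH
  -- entrywise bound
  have hent : ∀ j, hH.eigenvalues j ^ 2 ≤ ‖(Uᴴ * (b * b - a * a) * U) j j‖ := by
    intro j
    have hb' : (Uᴴ * b * U).PosSemidef := hb.conjTranspose_mul_mul_same U
    have ha' : (Uᴴ * a * U).PosSemidef := ha.conjTranspose_mul_mul_same U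
    have hbj := hb'.diag_nonneg (i := j)
    have haj := ha'.diag_nonneg (i := j)
    have hD : Uᴴ * b * U - Uᴴ * a * U =
        Matrix.diagonal (fun i => ((hH.eigenvalues i : ℝ) : ℂ)) := by
      rw [← hU3, Matrix.mul_sub, Matrix.sub_mul]
    have hprod : Uᴴ * (b * b - a * a) * U = (Uᴴ * b * U) *
        Matrix.diagonal (fun i => ((hH.eigenvalues i : ℝ) : ℂ)) +
        Matrix.diagonal (fun i => ((hH.eigenvalues i : ℝ) : ℂ)) * (Uᴴ * a * U) := by
      have e3 : ∀ c c' : Matrix ι ι ℂ, (Uᴴ * c * U) * (Uᴴ * c' * U) = Uᴴ * (c * c') * U := by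
        intro c c'
        have : (Uᴴ * c * U) * (Uᴴ * c' * U) = Uᴴ * c * (U * Uᴴ) * c' * U := by
          simp only [Matrix.mul_assoc]
        rw [this, hU2, Matrix.mul_one]
        simp only [Matrix.mul_assoc]
      rw [← hD, Matrix.mul_sub (Uᴴ * b * U), Matrix.sub_mul (Uᴴ * b * U) _ (Uᴴ * a * U), e3, e3, e3,
        Matrix.mul_sub, Matrix.sub_mul]
      abel
    have hDj := congrFun (congrFun hD j) j
    rw [Matrix.sub_apply, Matrix.diagonal_apply_eq] at hDj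
    rw [hprod, Matrix.add_apply, Matrix.mul_diagonal, Matrix.diagonal_mul]
    obtain ⟨β, hβ⟩ : ∃ β, β = (Uᴴ * b * U) j j := ⟨_, rfl⟩
    obtain ⟨γ, hγ⟩ : ∃ γ, γ = (Uᴴ * a * U) j j := ⟨_, rfl⟩
    obtain ⟨l, hl⟩ : ∃ l, l = hH.eigenvalues j := ⟨_, rfl⟩
    rw [← hβ, ← hγ, ← hl] at hDj
    rw [← hβ] at hbj
    rw [← hγ] at haj
    rw [← hβ, ← hγ, ← hl]
    obtain ⟨hβ1, hβ2⟩ := Complex.le_def.1 hbj
    obtain ⟨hγ1, hγ2⟩ := Complex.le_def.1 haj
    simp only [Complex.zero_re, Complex.zero_im] at hβ1 hβ2 hγ1 hγ2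
    have hβr : β = (β.re : ℂ) := Complex.ext (by simp) (by simp [← hβ2])
    have hγr : γ = (γ.re : ℂ) := Complex.ext (by simp) (by simp [← hγ2])
    have hlr : l = β.re - γ.re := by
      have := congrArg Complex.re hDj
      simpa using this.symm
    have e4 : β * (l : ℂ) + (l : ℂ) * γ = ((l * (β.re + γ.re) : ℝ) : ℂ) := by
      rw [hβr, hγr]; push_cast; simp; ring
    rw [e4, Complex.norm_real, Real.norm_eq_abs, abs_mul, abs_of_nonneg (add_nonneg hβ1 hγ1),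
      ← sq_abs, sq]
    refine mul_le_mul_of_nonneg_left ?_ (abs_nonneg _)
    rw [hlr, abs_le]
    constructor <;> linarith
  have hy0 := hs_nonneg y
  have hsq : Real.sqrt (τ ^ 2 * hs y) = τ * Real.sqrt (hs y) := by
    rw [Real.sqrt_mul (sq_nonneg τ), Real.sqrt_sq hτ]
  have hsy : Real.sqrt (hs y) * Real.sqrt (hs y) = hs y := Real.mul_self_sqrt hy0
  have b1 : Real.sqrt (hs (y * w - x * y)) ≤ τ * Real.sqrt (hs y) := by
    rw [← hsq]
    apply Real.sqrt_le_sqrt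
    have : y * w - x * y = -(x * y - y * w) := by abel
    rw [this, hs_neg]; exact h1
  have b2 : Real.sqrt (hs ((xᴴ * y - y * wᴴ) * w)) ≤ τ * Real.sqrt (hs y) := by
    rw [← hsq]
    apply Real.sqrt_le_sqrt
    rw [hs_mul_right _ hw1]; exact h2
  calc hs (b - a) = ∑ j, hH.eigenvalues j ^ 2 := hs_hermitian hH
    _ ≤ ∑ j, ‖(Uᴴ * (b * b - a * a) * U) j j‖ := Finset.sum_le_sum fun j _ => hent j
    _ ≤ ∑ j, (‖(Uᴴ * ((y * w)ᴴ * (y * w - x * y)) * U) j j‖ +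
        ‖(Uᴴ * (((xᴴ * y - y * wᴴ) * w)ᴴ * y) * U) j j‖) := by
      refine Finset.sum_le_sum fun j _ => ?_
      rw [hM, Matrix.mul_add, Matrix.add_mul, Matrix.add_apply]
      exact norm_add_le _ _
    _ = ∑ j, ‖(Uᴴ * ((y * w)ᴴ * (y * w - x * y)) * U) j j‖ +
        ∑ j, ‖(Uᴴ * (((xᴴ * y - y * wᴴ) * w)ᴴ * y) * U) j j‖ := Finset.sum_add_distrib
    _ ≤ Real.sqrt (hs (y * w)) * Real.sqrt (hs (y * w - x * y)) +
        Real.sqrt (hs ((xᴴ * y - y * wᴴ) * w)) * Real.sqrt (hs y) :=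
      add_le_add (cs_diag _ _ hU2) (cs_diag _ _ hU2)
    _ ≤ Real.sqrt (hs y) * (τ * Real.sqrt (hs y)) + (τ * Real.sqrt (hs y)) * Real.sqrt (hs y) := by
      rw [hs_mul_right y hw1]
      exact add_le_add (mul_le_mul_of_nonneg_left b1 (Real.sqrt_nonneg _))
        (mul_le_mul_of_nonneg_right b2 (Real.sqrt_nonneg _))
    _ = 2 * τ * (Real.sqrt (hs y) * Real.sqrt (hs y)) := by ring
    _ = 2 * τ * hs y := by rw [hsy]

/-- TARGET 2 (trace versus rank). -/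
theorem trace_le_card (a : Matrix ι ι ℂ) (y : Matrix κ ι ℂ)
    (ha : a.PosSemidef) (hay : a * a = yᴴ * y) :
    ‖a.trace‖ ^ 2 ≤ (Fintype.card κ : ℝ) * hs a := by
  classical
  have hrank : a.rank ≤ Fintype.card κ := by
    have h1 : a.rank = (aᴴ * a).rank := (Matrix.rank_conjTranspose_mul_self a).symm
    rw [h1, ha.1.eq, hay, Matrix.rank_conjTranspose_mul_self]
    exact Matrix.rank_le_card_height y
  rw [ha.1.rank_eq_card_non_zero_eigs] at hrank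
  rw [hs_hermitian ha.1, ha.1.trace_eq_sum_eigenvalues]
  have e1 : (∑ i, ((ha.1.eigenvalues i : ℝ) : ℂ)) =
      ((∑ i ∈ Finset.univ.filter (fun i => ha.1.eigenvalues i ≠ 0), ha.1.eigenvalues i : ℝ) : ℂ) := by
    rw [Finset.sum_filter_ne_zero]; push_cast; rfl
  have e2 : ∑ i, ha.1.eigenvalues i ^ 2 =
      ∑ i ∈ Finset.univ.filter (fun i => ha.1.eigenvalues i ≠ 0), ha.1.eigenvalues i ^ 2 := by
    rw [Finset.sum_filter]
    refine Finset.sum_congr rfl fun i _ => ?_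
    split_ifs with h
    · rfl
    · push Not at h; rw [h]; ring
  have e3 : (∑ i, ((ha.1.eigenvalues i : ℝ) : ℂ)) = ∑ i, (RCLike.ofReal (ha.1.eigenvalues i) : ℂ) :=
    rfl
  rw [← e3, e1, Complex.norm_real, Real.norm_eq_abs, sq_abs, e2]
  refine (sq_sum_le_card_mul_sum_sq).trans ?_
  refine mul_le_mul_of_nonneg_right ?_ (Finset.sum_nonneg fun i _ => sq_nonneg _)
  rw [Fintype.card_subtype] at hrank
  exact_mod_cast hrank

/-- TARGET 3 (existence of the square root, and its norm). -/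
theorem exists_sqrt (y : Matrix κ ι ℂ) :
    ∃ a : Matrix ι ι ℂ, a.PosSemidef ∧ a * a = yᴴ * y ∧ hs a = hs y := by
  have hP : (yᴴ * y).PosSemidef := Matrix.posSemidef_conjTranspose_mul_self y
  obtain ⟨U, hU1, hU2, hU3⟩ := exists_diag hP.1
  obtain ⟨D, hD⟩ : ∃ D : Matrix ι ι ℂ,
      D = Matrix.diagonal (fun i => ((Real.sqrt (hP.1.eigenvalues i) : ℝ) : ℂ)) := ⟨_, rfl⟩
  have hDp : D.PosSemidef := by
    rw [hD]
    apply Matrix.PosSemidef.diagonal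
    intro i
    simp only [Pi.zero_apply]
    exact_mod_cast Real.sqrt_nonneg _
  have ha : (U * D * Uᴴ).PosSemidef := hDp.mul_mul_conjTranspose_same U
  have hDD : D * D = Uᴴ * (yᴴ * y) * U := by
    rw [hU3, hD, Matrix.diagonal_mul_diagonal]
    congr 1
    funext i
    rw [← Complex.ofReal_mul, Real.mul_self_sqrt (hP.eigenvalues_nonneg i)]
  have haa : (U * D * Uᴴ) * (U * D * Uᴴ) = yᴴ * y := by
    have e1 : (U * D * Uᴴ) * (U * D * Uᴴ) = U * D * (Uᴴ * U) * D * Uᴴ := by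
      simp only [Matrix.mul_assoc]
    have e2 : U * D * 1 * D * Uᴴ = U * (D * D) * Uᴴ := by
      simp only [Matrix.mul_assoc, Matrix.one_mul, Matrix.mul_one]
    have e3 : U * (Uᴴ * (yᴴ * y) * U) * Uᴴ = (U * Uᴴ) * (yᴴ * y) * (U * Uᴴ) := by
      simp only [Matrix.mul_assoc]
    rw [e1, hU1, e2, hDD, e3, hU2, Matrix.one_mul, Matrix.mul_one]
  refine ⟨U * D * Uᴴ, ha, haa, ?_⟩
  have h : ((hs (U * D * Uᴴ) : ℝ) : ℂ) = ((hs y : ℝ) : ℂ) := by
    rw [hs_trace, hs_trace, ha.1.eq, haa]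
  exact_mod_cast h

end Pool.Agent.Helper685.OSep.PS
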