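import Mathlib
import Pool.Agent.Helper685.OSep.QE
import Pool.Agent.Helper685.OSep.PS

set_option autoImplicit false

open scoped BigOperators Matrix ComplexOrder

namespace Pool.Agent.Helper685.OSep

open PS (hs hs_mul_left hs_mul_right hs_nonneg hs_neg)

theorem hs_eq {m n : Type} [Fintype m] [Fintype n] (A : Matrix m n ℂ) : QE.hs A = hs A := rfl

/-- The three unitaries. -/
noncomputable def W3 (N : ℕ) [NeZero N] (l : Fin 3) : Matrix (ZMod N) (ZMod N) ℂ :=
  ![QE.wZ N, QE.wC N, QE.wF N] l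

theorem star_diag_mul {N : ℕ} [NeZero N] (f : ZMod N → ℂ) (hf : ∀ p, ‖f p‖ = 1) :
    (Matrix.diagonal f)ᴴ * Matrix.diagonal f = 1 := by
  rw [Matrix.diagonal_conjTranspose, Matrix.diagonal_mul_diagonal, ← Matrix.diagonal_one]
  congr 1
  funext p
  have : (starRingEnd ℂ) (f p) * f p = 1 := by
    rw [mul_comm, Complex.mul_conj, Complex.normSq_eq_norm_sq, hf p]
    norm_num
  simpa using this

theorem wF_unit (N : ℕ) [NeZero N] : (QE.wF N)ᴴ * QE.wF N = 1 := by
  have hN0 : (0 : ℝ) < N := by exact_mod_cast Nat.pos_of_ne_zero (NeZero.ne N)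
  have hs0 : ((Real.sqrt N : ℝ) : ℂ) * ((Real.sqrt N : ℝ) : ℂ) = (N : ℂ) := by
    rw [← Complex.ofReal_mul, Real.mul_self_sqrt hN0.le]
    norm_cast
  have hN1 : (N : ℂ) ≠ 0 := by exact_mod_cast (NeZero.ne N)
  have hs1 : ((Real.sqrt N : ℝ) : ℂ) ≠ 0 := by
    intro h
    rw [h] at hs0
    simp at hs0
    exact hN1 hs0.symm
  ext i j
  rw [Matrix.mul_apply]
  have hterm : ∀ k : ZMod N, (QE.wF N)ᴴ i k * QE.wF N k j =
      (ZMod.stdAddChar (k * (j - i)) : ℂ) / N := by
    intro k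
    rw [Matrix.conjTranspose_apply]
    unfold QE.wF
    rw [Matrix.of_apply, Matrix.of_apply]
    rw [Complex.star_def, map_div₀, QE.conj_chi, Complex.conj_ofReal, div_mul_div_comm, QE.chi_mul,
      hs0]
    congr 3
    ring
  rw [Finset.sum_congr rfl fun k _ => hterm k, ← Finset.sum_div, QE.sum_chi]
  by_cases h : i = j
  · subst h
    simp [hN1]
  · rw [if_neg (fun h' => h (by rw [sub_eq_zero] at h'; exact h'.symm)), Matrix.one_apply_ne h]
    simp

theorem W3_unit (N : ℕ) [NeZero N] (l : Fin 3) : (W3 N l)ᴴ * W3 N l = 1 := by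
  fin_cases l
  · exact star_diag_mul _ fun p => QE.norm_chi _
  · exact star_diag_mul _ fun p => QE.norm_chi _
  · exact wF_unit N

theorem W3_unit' (N : ℕ) [NeZero N] (l : Fin 3) : W3 N l * (W3 N l)ᴴ = 1 :=
  mul_eq_one_comm.mp (W3_unit N l)

/-- Basic gap: `N' < N / 2`, `y` maps the large space to the small one. -/
theorem gap_small {N N' : ℕ} [NeZero N] [NeZero N'] (hN : Odd N) (hlt : 2 * N' < N)
    (y : Matrix (ZMod N') (ZMod N) ℂ) :
    ∃ l : Fin 3, (1 / 5000) ^ 2 * hs y ≤ hs (W3 N' l * y - y * W3 N l) := by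
  by_contra hcon
  push Not at hcon
  have hy : 0 < hs y := by
    rcases (hs_nonneg y).lt_or_eq with h | h
    · exact h
    · exfalso
      have := hcon 0
      rw [← h] at this
      have h2 := hs_nonneg (W3 N' 0 * y - y * W3 N 0)
      linarith
  obtain ⟨a, ha, hay, hsa⟩ := PS.exists_sqrt y
  have key : ∀ l : Fin 3, hs ((W3 N l)ᴴ * a * W3 N l - a) ≤ (1 / 2500) * hs a := by
    intro l
    have h1 := (hcon l).le
    have h2 : hs ((W3 N' l)ᴴ * y - y * (W3 N l)ᴴ) ≤ (1 / 5000) ^ 2 * hs y := by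
      have e : W3 N' l * ((W3 N' l)ᴴ * y - y * (W3 N l)ᴴ) * W3 N l =
          -(W3 N' l * y - y * W3 N l) := by
        rw [Matrix.mul_sub, Matrix.sub_mul, ← Matrix.mul_assoc, W3_unit' N' l, Matrix.one_mul,
          Matrix.mul_assoc, Matrix.mul_assoc y, W3_unit N l, Matrix.mul_one]
        abel
      have e2 : hs (W3 N' l * ((W3 N' l)ᴴ * y - y * (W3 N l)ᴴ) * W3 N l) =
          hs ((W3 N' l)ᴴ * y - y * (W3 N l)ᴴ) := by
        rw [hs_mul_right _ (W3_unit' N l), hs_mul_left _ (W3_unit N' l)]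
      rw [← e2, e, hs_neg]
      exact h1
    have h3 := PS.ps a (W3 N l) y (W3 N' l) ha hay
      (Matrix.mem_unitaryGroup_iff.mpr (W3_unit' N l)) (1 / 5000) (by norm_num) h1 h2
    rw [hsa]
    linarith
  have h4 := QE.qe N hN a (key 0) (key 1) (key 2)
  have h5 := PS.trace_le_card a y ha hay
  rw [hs_eq, hsa] at h4
  rw [hsa, ZMod.card] at h5
  have h6 : (N : ℝ) * hs y ≤ 2 * ((N' : ℝ) * hs y) := by linarith
  have h7 : (N : ℝ) ≤ 2 * N' := by
    by_contra h8
    push Not at h8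
    nlinarith
  have h9 : (N : ℕ) ≤ 2 * N' := by exact_mod_cast h7
  omega

theorem hs_conjTranspose {m n : Type} [Fintype m] [Fintype n] (A : Matrix m n ℂ) :
    hs Aᴴ = hs A := by
  unfold PS.hs
  rw [Finset.sum_comm]
  simp [Matrix.conjTranspose_apply]

/-- Gap in both directions. -/
theorem gap_both {N N' : ℕ} [NeZero N] [NeZero N'] (hN : Odd N) (hN' : Odd N')
    (h : 2 * N' < N ∨ 2 * N < N') (y : Matrix (ZMod N') (ZMod N) ℂ) :
    ∃ l : Fin 3, (1 / 5000) ^ 2 * hs y ≤ hs (W3 N' l * y - y * W3 N l) := by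
  rcases h with h | h
  · exact gap_small hN h y
  · obtain ⟨l, hl⟩ := gap_small hN' h yᴴ
    refine ⟨l, ?_⟩
    rw [hs_conjTranspose] at hl
    have e : W3 N l * (W3 N' l * y - y * W3 N l)ᴴ * W3 N' l =
        W3 N l * yᴴ - yᴴ * W3 N' l := by
      rw [Matrix.conjTranspose_sub, Matrix.conjTranspose_mul, Matrix.conjTranspose_mul,
        Matrix.mul_sub, Matrix.sub_mul, Matrix.mul_assoc (W3 N l), Matrix.mul_assoc yᴴ,
        W3_unit N' l, Matrix.mul_one, ← Matrix.mul_assoc (W3 N l), W3_unit' N l, Matrix.one_mul]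
    have e2 : hs (W3 N l * (W3 N' l * y - y * W3 N l)ᴴ * W3 N' l) =
        hs (W3 N' l * y - y * W3 N l) := by
      rw [hs_mul_right _ (W3_unit' N' l), hs_mul_left _ (W3_unit N l), hs_conjTranspose]
    rw [← e2, e]
    exact hl

end Pool.Agent.Helper685.OSep
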