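import Mathlib

set_option autoImplicit false

open scoped RealInnerProductSpace

namespace Pool.Agent.Helper685.OSep

variable {X : Type} [NormedAddCommGroup X] [InnerProductSpace ℝ X]

/-- distance of labels -/
noncomputable def nn (c d : Fin 4) : ℝ := |(c : ℝ) - (d : ℝ)|

theorem nn_self (c : Fin 4) : nn c c = 0 := by simp [nn]

theorem nn_comm (c d : Fin 4) : nn c d = nn d c := by unfold nn; exact abs_sub_comm _ _

theorem nn_one_le (c d : Fin 4) (h : c ≠ d) : 1 ≤ nn c d := by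
  unfold nn
  fin_cases c <;> fin_cases d <;> first | (exfalso; exact h rfl) | (norm_num [abs_le])

theorem nn01 : nn 0 1 = 1 := by norm_num [nn]
theorem nn02 : nn 0 2 = 2 := by norm_num [nn]
theorem nn03 : nn 0 3 = 3 := by norm_num [nn]
theorem nn12 : nn 1 2 = 1 := by norm_num [nn]
theorem nn13 : nn 1 3 = 2 := by norm_num [nn]
theorem nn23 : nn 2 3 = 1 := by norm_num [nn]
theorem nn10 : nn 1 0 = 1 := by norm_num [nn]
theorem nn20 : nn 2 0 = 2 := by norm_num [nn]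
theorem nn30 : nn 3 0 = 3 := by norm_num [nn]
theorem nn21 : nn 2 1 = 1 := by norm_num [nn]
theorem nn31 : nn 3 1 = 2 := by norm_num [nn]
theorem nn32 : nn 3 2 = 1 := by norm_num [nn]

/-- coupling of one index, isolated base label `d0` -/
theorem coupling (L : Fin 4 → Fin 4 → X →ₗ[ℝ] X)
    (hadj : ∀ c d x y, ⟪L c d x, y⟫ = ⟪x, L d c y⟫) (hiso : ∀ c d x, ‖L c d x‖ = ‖x‖)
    (d0 : Fin 4) (z : Fin 4 → X) :
    |∑ c, ∑ c', nn c c' * ⟪z c, L c c' (z c')⟫ - 2 * ∑ c, nn c d0 * ⟪z c, L c d0 (z d0)⟫| ≤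
      6 * ∑ c, (if c = d0 then 0 else ‖z c‖ ^ 2) := by
  have hs : ∀ c d, ⟪z c, L c d (z d)⟫ = ⟪z d, L d c (z c)⟫ := by
    intro c d
    rw [← hadj d c, real_inner_comm]
  have hb : ∀ c d, |⟪z c, L c d (z d)⟫| ≤ (‖z c‖ ^ 2 + ‖z d‖ ^ 2) / 2 := by
    intro c d
    have h1 := abs_real_inner_le_norm (z c) (L c d (z d))
    rw [hiso] at h1
    nlinarith [sq_nonneg (‖z c‖ - ‖z d‖)]
  have e01 := hs 0 1
  have e02 := hs 0 2
  have e03 := hs 0 3
  have e12 := hs 1 2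
  have e13 := hs 1 3
  have e23 := hs 2 3
  have b01 := abs_le.mp (hb 0 1)
  have b02 := abs_le.mp (hb 0 2)
  have b03 := abs_le.mp (hb 0 3)
  have b12 := abs_le.mp (hb 1 2)
  have b13 := abs_le.mp (hb 1 3)
  have b23 := abs_le.mp (hb 2 3)
  have p0 := sq_nonneg ‖z 0‖
  have p1 := sq_nonneg ‖z 1‖
  have p2 := sq_nonneg ‖z 2‖
  have p3 := sq_nonneg ‖z 3‖
  simp only [Fin.sum_univ_four, nn_self, nn01, nn02, nn03, nn12, nn13, nn23, nn10, nn20, nn30, nn21,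
    nn31, nn32]
  fin_cases d0
  · simp only [Fin.isValue, Fin.zero_eta, nn_self, nn10, nn20, nn30, if_true,
      show ((1 : Fin 4) = 0) = False by decide, show ((2 : Fin 4) = 0) = False by decide,
      show ((3 : Fin 4) = 0) = False by decide, if_false]
    rw [abs_le]
    constructor <;> linarith [b12.1, b12.2, b13.1, b13.2, b23.1, b23.2]
  · simp only [Fin.isValue, Fin.mk_one, nn_self, nn01, nn21, nn31, if_true,
      show ((0 : Fin 4) = 1) = False by decide, show ((2 : Fin 4) = 1) = False by decide,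
      show ((3 : Fin 4) = 1) = False by decide, if_false]
    rw [abs_le]
    constructor <;> linarith [b02.1, b02.2, b03.1, b03.2, b23.1, b23.2]
  · simp only [Fin.isValue, Fin.reduceFinMk, nn_self, nn02, nn12, nn32, if_true,
      show ((0 : Fin 4) = 2) = False by decide, show ((1 : Fin 4) = 2) = False by decide,
      show ((3 : Fin 4) = 2) = False by decide, if_false]
    rw [abs_le]
    constructor <;> linarith [b01.1, b01.2, b03.1, b03.2, b13.1, b13.2]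
  · simp only [Fin.isValue, Fin.reduceFinMk, nn_self, nn03, nn13, nn23, if_true,
      show ((0 : Fin 4) = 3) = False by decide, show ((1 : Fin 4) = 3) = False by decide,
      show ((2 : Fin 4) = 3) = False by decide, if_false]
    rw [abs_le]
    constructor <;> linarith [b01.1, b01.2, b02.1, b02.2, b12.1, b12.2]

/-- the block energy -/
noncomputable def en (Q : ℝ) (L R : Fin 4 → Fin 4 → X →ₗ[ℝ] X) (Y : Fin 4 → Fin 4 → X) : ℝ :=
  ∑ c, ∑ d, (-(Q / 2) * (nn c d ^ 2 * ‖Y c d‖ ^ 2)) +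
    ∑ d, ∑ c, ∑ c', nn c c' * ⟪Y c d, L c c' (Y c' d)⟫ +
    ∑ c, ∑ d, ∑ d', nn d d' * ⟪Y c d, R d d' (Y c d')⟫

/-- the coupling vector -/
def bb (L R : Fin 4 → Fin 4 → X →ₗ[ℝ] X) (Y : Fin 4 → Fin 4 → X) (c d : Fin 4) : X :=
  L c d (Y d d) + R d c (Y c c)

theorem en_approx (Q : ℝ) (L R : Fin 4 → Fin 4 → X →ₗ[ℝ] X)
    (hadjL : ∀ c d x y, ⟪L c d x, y⟫ = ⟪x, L d c y⟫) (hisoL : ∀ c d x, ‖L c d x‖ = ‖x‖)
    (hadjR : ∀ c d x y, ⟪R c d x, y⟫ = ⟪x, R d c y⟫) (hisoR : ∀ c d x, ‖R c d x‖ = ‖x‖)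
    (Y : Fin 4 → Fin 4 → X) :
    |en Q L R Y - ∑ c, ∑ d, (-(Q / 2) * (nn c d ^ 2 * ‖Y c d‖ ^ 2) +
      2 * (nn c d * ⟪Y c d, bb L R Y c d⟫))| ≤
      ∑ c, ∑ d, (if c = d then 0 else 12 * ‖Y c d‖ ^ 2) := by
  have h1 : ∀ d, |∑ c, ∑ c', nn c c' * ⟪Y c d, L c c' (Y c' d)⟫ -
      2 * ∑ c, nn c d * ⟪Y c d, L c d (Y d d)⟫| ≤ 6 * ∑ c, (if c = d then 0 else ‖Y c d‖ ^ 2) :=
    fun d => coupling L hadjL hisoL d fun c => Y c d
  have h2 : ∀ c, |∑ d, ∑ d', nn d d' * ⟪Y c d, R d d' (Y c d')⟫ -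
      2 * ∑ d, nn d c * ⟪Y c d, R d c (Y c c)⟫| ≤ 6 * ∑ d, (if d = c then 0 else ‖Y c d‖ ^ 2) :=
    fun c => coupling R hadjR hisoR c fun d => Y c d
  have e : en Q L R Y - ∑ c, ∑ d, (-(Q / 2) * (nn c d ^ 2 * ‖Y c d‖ ^ 2) +
      2 * (nn c d * ⟪Y c d, bb L R Y c d⟫)) =
      ∑ d, (∑ c, ∑ c', nn c c' * ⟪Y c d, L c c' (Y c' d)⟫ -
        2 * ∑ c, nn c d * ⟪Y c d, L c d (Y d d)⟫) +
      ∑ c, (∑ d, ∑ d', nn d d' * ⟪Y c d, R d d' (Y c d')⟫ -
        2 * ∑ d, nn d c * ⟪Y c d, R d c (Y c c)⟫) := by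
    have e1 : ∑ c, ∑ d, (-(Q / 2) * (nn c d ^ 2 * ‖Y c d‖ ^ 2) +
        2 * (nn c d * ⟪Y c d, bb L R Y c d⟫)) =
        ∑ c, ∑ d, (-(Q / 2) * (nn c d ^ 2 * ‖Y c d‖ ^ 2)) +
        (∑ d, ∑ c, 2 * (nn c d * ⟪Y c d, L c d (Y d d)⟫)) +
        ∑ c, ∑ d, 2 * (nn d c * ⟪Y c d, R d c (Y c c)⟫) := by
      rw [Finset.sum_comm (f := fun d c => 2 * (nn c d * ⟪Y c d, L c d (Y d d)⟫)),
        ← Finset.sum_add_distrib, ← Finset.sum_add_distrib]
      refine Finset.sum_congr rfl fun c _ => ?_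
      rw [← Finset.sum_add_distrib, ← Finset.sum_add_distrib]
      refine Finset.sum_congr rfl fun d _ => ?_
      rw [bb, inner_add_right, nn_comm d c]
      ring
    rw [e1, en, Finset.sum_sub_distrib, Finset.sum_sub_distrib]
    simp only [Finset.mul_sum]
    ring
  have e2 : ∑ c : Fin 4, ∑ d : Fin 4, (if c = d then 0 else 12 * ‖Y c d‖ ^ 2) =
      ∑ d, 6 * ∑ c, (if c = d then 0 else ‖Y c d‖ ^ 2) +
      ∑ c, 6 * ∑ d, (if d = c then 0 else ‖Y c d‖ ^ 2) := by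
    simp only [Finset.mul_sum]
    rw [Finset.sum_comm (f := fun d c => 6 * (if c = d then 0 else ‖Y c d‖ ^ 2)),
      ← Finset.sum_add_distrib]
    refine Finset.sum_congr rfl fun c _ => ?_
    rw [← Finset.sum_add_distrib]
    refine Finset.sum_congr rfl fun d _ => ?_
    by_cases h : c = d
    · simp [h]
    · rw [if_neg h, if_neg h, if_neg (fun h' => h h'.symm)]
      ring
  rw [e, e2]
  refine (abs_add_le _ _).trans (add_le_add ?_ ?_)
  · exact (Finset.abs_sum_le_sum_abs _ _).trans (Finset.sum_le_sum fun d _ => h1 d)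
  · exact (Finset.abs_sum_le_sum_abs _ _).trans (Finset.sum_le_sum fun c _ => h2 c)

/-- Upper bound of the energy. -/
theorem en_upper (Q : ℝ) (hQ : 24 < Q) (L R : Fin 4 → Fin 4 → X →ₗ[ℝ] X)
    (hadjL : ∀ c d x y, ⟪L c d x, y⟫ = ⟪x, L d c y⟫) (hisoL : ∀ c d x, ‖L c d x‖ = ‖x‖)
    (hadjR : ∀ c d x y, ⟪R c d x, y⟫ = ⟪x, R d c y⟫) (hisoR : ∀ c d x, ‖R c d x‖ = ‖x‖)
    (Y : Fin 4 → Fin 4 → X) :
    (Q / 2 - 12) * en Q L R Y ≤ ∑ c, ∑ d, (if c = d then 0 else ‖bb L R Y c d‖ ^ 2) := by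
  have hα : 0 < Q / 2 - 12 := by linarith
  have h := (abs_le.mp (en_approx Q L R hadjL hisoL hadjR hisoR Y)).2
  have h2 : en Q L R Y ≤ ∑ c, ∑ d, ((-(Q / 2) * (nn c d ^ 2 * ‖Y c d‖ ^ 2) +
      2 * (nn c d * ⟪Y c d, bb L R Y c d⟫)) + (if c = d then 0 else 12 * ‖Y c d‖ ^ 2)) := by
    simp only [Finset.sum_add_distrib] at h ⊢
    linarith
  refine (mul_le_mul_of_nonneg_left h2 hα.le).trans ?_
  rw [Finset.mul_sum]
  refine Finset.sum_le_sum fun c _ => ?_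
  rw [Finset.mul_sum]
  refine Finset.sum_le_sum fun d _ => ?_
  by_cases hcd : c = d
  · subst hcd
    simp [nn_self]
  · rw [if_neg hcd, if_neg hcd]
    have hn := nn_one_le c d hcd
    have h3 : 0 ≤ ‖((Q / 2 - 12) * nn c d) • Y c d - bb L R Y c d‖ ^ 2 := sq_nonneg _
    rw [norm_sub_sq_real, norm_smul, inner_smul_left] at h3
    simp only [conj_trivial, Real.norm_eq_abs, mul_pow, sq_abs] at h3
    have h4 : ‖Y c d‖ ^ 2 ≤ nn c d ^ 2 * ‖Y c d‖ ^ 2 := by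
      have : 1 ≤ nn c d ^ 2 := by nlinarith
      nlinarith [sq_nonneg ‖Y c d‖]
    nlinarith

theorem bb_norm (L R : Fin 4 → Fin 4 → X →ₗ[ℝ] X)
    (hisoL : ∀ c d x, ‖L c d x‖ = ‖x‖) (hisoR : ∀ c d x, ‖R c d x‖ = ‖x‖)
    (Y : Fin 4 → Fin 4 → X) (c d : Fin 4) :
    ‖bb L R Y c d‖ ^ 2 = 2 * ‖Y d d‖ ^ 2 + 2 * ‖Y c c‖ ^ 2 -
      ‖L c d (Y d d) - R d c (Y c c)‖ ^ 2 := by
  have h := parallelogram_law_with_norm ℝ (L c d (Y d d)) (R d c (Y c c))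
  rw [hisoL, hisoR] at h
  unfold bb
  nlinarith

theorem sum_bb (L R : Fin 4 → Fin 4 → X →ₗ[ℝ] X)
    (hisoL : ∀ c d x, ‖L c d x‖ = ‖x‖) (hisoR : ∀ c d x, ‖R c d x‖ = ‖x‖)
    (Y : Fin 4 → Fin 4 → X) :
    ∑ c, ∑ d, (if c = d then 0 else ‖bb L R Y c d‖ ^ 2) =
      12 * ∑ c, ‖Y c c‖ ^ 2 -
      ∑ c, ∑ d, (if c = d then 0 else ‖L c d (Y d d) - R d c (Y c c)‖ ^ 2) := by
  simp only [bb_norm L R hisoL hisoR]
  simp only [Fin.sum_univ_four, if_true,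
      show ((1 : Fin 4) = 0) = False by decide, show ((2 : Fin 4) = 0) = False by decide,
      show ((3 : Fin 4) = 0) = False by decide, show ((0 : Fin 4) = 1) = False by decide,
      show ((2 : Fin 4) = 1) = False by decide, show ((3 : Fin 4) = 1) = False by decide,
      show ((0 : Fin 4) = 2) = False by decide, show ((1 : Fin 4) = 2) = False by decide,
      show ((3 : Fin 4) = 2) = False by decide, show ((0 : Fin 4) = 3) = False by decide,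
      show ((1 : Fin 4) = 3) = False by decide, show ((2 : Fin 4) = 3) = False by decide, if_false]
  ring

/-- The deficit. -/
theorem deficit (L R : Fin 4 → Fin 4 → X →ₗ[ℝ] X)
    (hisoL : ∀ c d x, ‖L c d x‖ = ‖x‖) (hisoR : ∀ c d x, ‖R c d x‖ = ‖x‖)
    (hL0 : ∀ c x, L c 0 x = x) (hR0 : ∀ c x, R 0 c x = x)
    (hgap : ∀ x : X, ((1 / 5000) ^ 2 * ‖x‖ ^ 2 ≤ ‖L 1 2 x - R 2 1 x‖ ^ 2) ∨
      ((1 / 5000) ^ 2 * ‖x‖ ^ 2 ≤ ‖L 1 3 x - R 3 1 x‖ ^ 2) ∨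
      ((1 / 5000) ^ 2 * ‖x‖ ^ 2 ≤ ‖L 2 3 x - R 3 2 x‖ ^ 2))
    (Y : Fin 4 → Fin 4 → X) :
    (1 / 10 ^ 9) * ∑ c, ‖Y c c‖ ^ 2 ≤
      ∑ c, ∑ d, (if c = d then 0 else ‖L c d (Y d d) - R d c (Y c c)‖ ^ 2) := by
  set S := ∑ c, ∑ d, (if c = d then 0 else ‖L c d (Y d d) - R d c (Y c c)‖ ^ 2) with hS
  have hterm : ∀ c d : Fin 4, c ≠ d → ‖L c d (Y d d) - R d c (Y c c)‖ ^ 2 ≤ S := by
    intro c d hcd
    have h1 : (if c = d then 0 else ‖L c d (Y d d) - R d c (Y c c)‖ ^ 2) ≤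
        ∑ d, (if c = d then 0 else ‖L c d (Y d d) - R d c (Y c c)‖ ^ 2) :=
      Finset.single_le_sum (f := fun d => (if c = d then 0 else ‖L c d (Y d d) - R d c (Y c c)‖ ^ 2))
        (fun d _ => by positivity) (Finset.mem_univ d)
    have h2 : ∑ d, (if c = d then 0 else ‖L c d (Y d d) - R d c (Y c c)‖ ^ 2) ≤ S :=
      Finset.single_le_sum
        (f := fun c => ∑ d, (if c = d then 0 else ‖L c d (Y d d) - R d c (Y c c)‖ ^ 2))
        (fun c _ => by positivity) (Finset.mem_univ c)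
    rw [if_neg hcd] at h1
    exact h1.trans h2
  have hS0 : 0 ≤ S := le_trans (sq_nonneg _) (hterm 0 1 (by decide))
  set D := Real.sqrt S with hD
  have hD0 : 0 ≤ D := Real.sqrt_nonneg _
  have hDS : D ^ 2 = S := Real.sq_sqrt hS0
  have ht : ∀ c d : Fin 4, c ≠ d → ‖L c d (Y d d) - R d c (Y c c)‖ ≤ D := by
    intro c d hcd
    have := hterm c d hcd
    rw [← hDS] at this
    exact le_of_sq_le_sq this hD0
  have h0 : ∀ c : Fin 4, ‖Y c c - Y 0 0‖ ≤ D := by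
    intro c
    by_cases hc : c = 0
    · subst hc; simpa using hD0
    · have := ht c 0 hc
      rwa [hL0, hR0, norm_sub_rev] at this
  have hstep : ∀ c d : Fin 4, c ≠ d → ‖L c d (Y 0 0) - R d c (Y 0 0)‖ ≤ 3 * D := by
    intro c d hcd
    have e : L c d (Y 0 0) - R d c (Y 0 0) =
        -(L c d (Y d d - Y 0 0)) + (L c d (Y d d) - R d c (Y c c)) + R d c (Y c c - Y 0 0) := by
      rw [map_sub, map_sub]; abel
    rw [e]
    have n1 := norm_add₃_le (a := -(L c d (Y d d - Y 0 0)))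
      (b := (L c d (Y d d) - R d c (Y c c))) (c := R d c (Y c c - Y 0 0))
    rw [norm_neg, hisoL, hisoR] at n1
    have := ht c d hcd
    have := h0 c
    have := h0 d
    linarith
  have hy0 : ‖Y 0 0‖ ≤ 15000 * D := by
    have gen : ∀ a : ℝ, 0 ≤ a → a ≤ 3 * D → (1 / 5000) ^ 2 * ‖Y 0 0‖ ^ 2 ≤ a ^ 2 →
        ‖Y 0 0‖ ≤ 15000 * D := by
      intro a ha ha3 h
      have h1 : ((1 / 5000) * ‖Y 0 0‖) ^ 2 ≤ a ^ 2 := by rw [mul_pow]; exact h
      have h2 := le_of_sq_le_sq h1 ha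
      linarith
    rcases hgap (Y 0 0) with h | h | h
    · exact gen _ (norm_nonneg _) (hstep 1 2 (by decide)) h
    · exact gen _ (norm_nonneg _) (hstep 1 3 (by decide)) h
    · exact gen _ (norm_nonneg _) (hstep 2 3 (by decide)) h
  have hyc : ∀ c, ‖Y c c‖ ^ 2 ≤ (15001 : ℝ) ^ 2 * S := by
    intro c
    have h1 : ‖Y c c‖ ≤ 15001 * D := by
      have h2 : ‖Y c c‖ ≤ ‖Y c c - Y 0 0‖ + ‖Y 0 0‖ := by
        have := norm_add_le (Y c c - Y 0 0) (Y 0 0)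
        rwa [sub_add_cancel] at this
      have := h0 c
      linarith
    rw [← hDS, ← mul_pow]
    exact pow_le_pow_left₀ (norm_nonneg _) h1 2
  have hsum : ∑ c, ‖Y c c‖ ^ 2 ≤ 4 * ((15001 : ℝ) ^ 2 * S) := by
    have := Finset.sum_le_sum fun c (_ : c ∈ (Finset.univ : Finset (Fin 4))) => hyc c
    simpa using this
  nlinarith

end Pool.Agent.Helper685.OSep
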