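import Mathlib
import Pool.Agent.Helper685.OSep.Gap2

set_option autoImplicit false

open scoped RealInnerProductSpace

namespace Pool.Agent.Helper685.OSep

variable {X : Type} [NormedAddCommGroup X] [InnerProductSpace ℝ X]

/-- Final upper bound. -/
theorem en_gap (Q : ℝ) (hQ : 24 < Q) (L R : Fin 4 → Fin 4 → X →ₗ[ℝ] X)
    (hadjL : ∀ c d x y, ⟪L c d x, y⟫ = ⟪x, L d c y⟫) (hisoL : ∀ c d x, ‖L c d x‖ = ‖x‖)
    (hadjR : ∀ c d x y, ⟪R c d x, y⟫ = ⟪x, R d c y⟫) (hisoR : ∀ c d x, ‖R c d x‖ = ‖x‖)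
    (hL0 : ∀ c x, L c 0 x = x) (hR0 : ∀ c x, R 0 c x = x)
    (hgap : ∀ x : X, ((1 / 5000) ^ 2 * ‖x‖ ^ 2 ≤ ‖L 1 2 x - R 2 1 x‖ ^ 2) ∨
      ((1 / 5000) ^ 2 * ‖x‖ ^ 2 ≤ ‖L 1 3 x - R 3 1 x‖ ^ 2) ∨
      ((1 / 5000) ^ 2 * ‖x‖ ^ 2 ≤ ‖L 2 3 x - R 3 2 x‖ ^ 2))
    (Y : Fin 4 → Fin 4 → X) :
    en Q L R Y ≤ (12 - 1 / 10 ^ 9) / (Q / 2 - 12) * ∑ c, ∑ d, ‖Y c d‖ ^ 2 := by
  have hα : 0 < Q / 2 - 12 := by linarith
  have h1 := en_upper Q hQ L R hadjL hisoL hadjR hisoR Y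
  rw [sum_bb L R hisoL hisoR] at h1
  have h2 := deficit L R hisoL hisoR hL0 hR0 hgap Y
  have h3 : ∑ c, ‖Y c c‖ ^ 2 ≤ ∑ c, ∑ d, ‖Y c d‖ ^ 2 := by
    refine Finset.sum_le_sum fun c _ => ?_
    exact Finset.single_le_sum (f := fun d => ‖Y c d‖ ^ 2) (fun d _ => by positivity)
      (Finset.mem_univ c)
  rw [div_mul_eq_mul_div, le_div_iff₀ hα]
  nlinarith

/-- Lower bound by an explicit vector. -/
theorem en_lower (Q : ℝ) (hQ : 24 < Q) (L R : Fin 4 → Fin 4 → X →ₗ[ℝ] X)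
    (hadjL : ∀ c d x y, ⟪L c d x, y⟫ = ⟪x, L d c y⟫) (hisoL : ∀ c d x, ‖L c d x‖ = ‖x‖)
    (hadjR : ∀ c d x y, ⟪R c d x, y⟫ = ⟪x, R d c y⟫) (hisoR : ∀ c d x, ‖R c d x‖ = ‖x‖)
    (e : X) (he : ∀ c d, R d c e = L c d e) (he0 : e ≠ 0) :
    ∃ Y : Fin 4 → Fin 4 → X, 0 < ∑ c, ∑ d, ‖Y c d‖ ^ 2 ∧
      (12 * (8 / Q - 192 / Q ^ 2)) / (4 + 192 / Q ^ 2) * ∑ c, ∑ d, ‖Y c d‖ ^ 2 ≤ en Q L R Y := by
  have hQ0 : 0 < Q := by linarith
  set t : ℝ := 2 / Q with ht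
  have ht0 : 0 < t := by positivity
  let Y : Fin 4 → Fin 4 → X := fun c d => if c = d then e else (2 * t / nn c d) • L c d e
  have hYd : ∀ c, Y c c = e := fun c => by simp [Y]
  have hYo : ∀ c d, c ≠ d → Y c d = (2 * t / nn c d) • L c d e := fun c d h => by simp [Y, h]
  have hb : ∀ c d, bb L R Y c d = (2 : ℝ) • L c d e := by
    intro c d
    rw [bb, hYd, hYd, he, two_smul]
  have hE : 0 < ‖e‖ ^ 2 := by positivity
  have hn2 : ∀ c d, c ≠ d → ‖Y c d‖ ^ 2 = (2 * t / nn c d) ^ 2 * ‖e‖ ^ 2 := by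
    intro c d h
    rw [hYo c d h, norm_smul, hisoL, mul_pow, Real.norm_eq_abs, sq_abs]
  have hterm : ∀ c d : Fin 4, (if c = d then 0 else (8 / Q - 192 / Q ^ 2) * ‖e‖ ^ 2) ≤
      (-(Q / 2) * (nn c d ^ 2 * ‖Y c d‖ ^ 2) + 2 * (nn c d * ⟪Y c d, bb L R Y c d⟫)) -
      (if c = d then 0 else 12 * ‖Y c d‖ ^ 2) := by
    intro c d
    by_cases h : c = d
    · subst h; simp [nn_self]
    · rw [if_neg h, if_neg h, hn2 c d h, hb, hYo c d h, inner_smul_left, inner_smul_right,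
        real_inner_self_eq_norm_sq, hisoL]
      have hn := nn_one_le c d h
      have hn0 : 0 < nn c d := by linarith
      simp only [conj_trivial]
      have e1 : nn c d ^ 2 * ((2 * t / nn c d) ^ 2 * ‖e‖ ^ 2) = 4 * t ^ 2 * ‖e‖ ^ 2 := by
        field_simp; ring
      have e2 : nn c d * (2 * t / nn c d * (2 * ‖e‖ ^ 2)) = 4 * t * ‖e‖ ^ 2 := by
        field_simp; ring
      have e3 : (2 * t / nn c d) ^ 2 ≤ 4 * t ^ 2 := by
        rw [div_pow, div_le_iff₀ (by positivity)]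
        nlinarith [mul_nonneg (sq_nonneg t) (by nlinarith : (0:ℝ) ≤ nn c d ^ 2 - 1)]
      rw [e1, e2]
      have e4 : 12 * ((2 * t / nn c d) ^ 2 * ‖e‖ ^ 2) ≤ 12 * (4 * t ^ 2 * ‖e‖ ^ 2) := by
        gcongr
      have e5 : (8 / Q - 192 / Q ^ 2) * ‖e‖ ^ 2 =
          -(Q / 2) * (4 * t ^ 2 * ‖e‖ ^ 2) + 2 * (4 * t * ‖e‖ ^ 2) - 12 * (4 * t ^ 2 * ‖e‖ ^ 2) := by
        rw [ht]; field_simp; ring
      linarith
  have hsum0 : ∑ c : Fin 4, ∑ d : Fin 4, (if c = d then (0 : ℝ) else (8 / Q - 192 / Q ^ 2) * ‖e‖ ^ 2) =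
      12 * (8 / Q - 192 / Q ^ 2) * ‖e‖ ^ 2 := by
    simp only [Fin.sum_univ_four, if_true,
      show ((1 : Fin 4) = 0) = False by decide, show ((2 : Fin 4) = 0) = False by decide,
      show ((3 : Fin 4) = 0) = False by decide, show ((0 : Fin 4) = 1) = False by decide,
      show ((2 : Fin 4) = 1) = False by decide, show ((3 : Fin 4) = 1) = False by decide,
      show ((0 : Fin 4) = 2) = False by decide, show ((1 : Fin 4) = 2) = False by decide,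
      show ((3 : Fin 4) = 2) = False by decide, show ((0 : Fin 4) = 3) = False by decide,
      show ((1 : Fin 4) = 3) = False by decide, show ((2 : Fin 4) = 3) = False by decide, if_false]
    ring
  have hA := (abs_le.mp (en_approx Q L R hadjL hisoL hadjR hisoR Y)).1
  have hB : 12 * (8 / Q - 192 / Q ^ 2) * ‖e‖ ^ 2 ≤ en Q L R Y := by
    rw [← hsum0]
    refine (Finset.sum_le_sum fun c _ => Finset.sum_le_sum fun d _ => hterm c d).trans ?_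
    simp only [Finset.sum_sub_distrib]
    linarith
  have hN : ∑ c, ∑ d, ‖Y c d‖ ^ 2 ≤ (4 + 192 / Q ^ 2) * ‖e‖ ^ 2 := by
    have hle : ∀ c d : Fin 4, ‖Y c d‖ ^ 2 ≤ (if c = d then ‖e‖ ^ 2 else 4 * t ^ 2 * ‖e‖ ^ 2) := by
      intro c d
      by_cases h : c = d
      · subst h; rw [hYd, if_pos rfl]
      · rw [if_neg h, hn2 c d h]
        have hn := nn_one_le c d h
        have hn0 : 0 < nn c d := by linarith
        have e3 : (2 * t / nn c d) ^ 2 ≤ 4 * t ^ 2 := by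
          rw [div_pow, div_le_iff₀ (by positivity)]
          nlinarith [mul_nonneg (sq_nonneg t) (by nlinarith : (0:ℝ) ≤ nn c d ^ 2 - 1)]
        gcongr
    refine (Finset.sum_le_sum fun c _ => Finset.sum_le_sum fun d _ => hle c d).trans ?_
    simp only [Fin.sum_univ_four, if_true,
      show ((1 : Fin 4) = 0) = False by decide, show ((2 : Fin 4) = 0) = False by decide,
      show ((3 : Fin 4) = 0) = False by decide, show ((0 : Fin 4) = 1) = False by decide,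
      show ((2 : Fin 4) = 1) = False by decide, show ((3 : Fin 4) = 1) = False by decide,
      show ((0 : Fin 4) = 2) = False by decide, show ((1 : Fin 4) = 2) = False by decide,
      show ((3 : Fin 4) = 2) = False by decide, show ((0 : Fin 4) = 3) = False by decide,
      show ((1 : Fin 4) = 3) = False by decide, show ((2 : Fin 4) = 3) = False by decide, if_false]
    have : (4 + 192 / Q ^ 2) * ‖e‖ ^ 2 = 4 * ‖e‖ ^ 2 + 12 * (4 * t ^ 2 * ‖e‖ ^ 2) := by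
      rw [ht]; field_simp; ring
    rw [this]
    linarith
  refine ⟨Y, ?_, ?_⟩
  · have h1 : ‖Y 0 0‖ ^ 2 ≤ ∑ d, ‖Y 0 d‖ ^ 2 :=
      Finset.single_le_sum (f := fun d => ‖Y 0 d‖ ^ 2) (fun d _ => by positivity) (Finset.mem_univ 0)
    have h2 : ∑ d, ‖Y 0 d‖ ^ 2 ≤ ∑ c, ∑ d, ‖Y c d‖ ^ 2 :=
      Finset.single_le_sum (f := fun c => ∑ d, ‖Y c d‖ ^ 2) (fun c _ => by positivity)
        (Finset.mem_univ 0)
    rw [hYd] at h1
    linarith
  · have hc : 0 < 4 + 192 / Q ^ 2 := by positivity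
    have hc2 : 0 ≤ 12 * (8 / Q - 192 / Q ^ 2) := by
      have : 8 / Q - 192 / Q ^ 2 = (8 * Q - 192) / Q ^ 2 := by field_simp
      rw [this]
      have : 0 ≤ (8 * Q - 192) / Q ^ 2 := div_nonneg (by linarith) (by positivity)
      linarith
    calc (12 * (8 / Q - 192 / Q ^ 2)) / (4 + 192 / Q ^ 2) * ∑ c, ∑ d, ‖Y c d‖ ^ 2
        ≤ (12 * (8 / Q - 192 / Q ^ 2)) / (4 + 192 / Q ^ 2) * ((4 + 192 / Q ^ 2) * ‖e‖ ^ 2) := by
          gcongr
      _ = 12 * (8 / Q - 192 / Q ^ 2) * ‖e‖ ^ 2 := by field_simp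
      _ ≤ _ := hB

end Pool.Agent.Helper685.OSep
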