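import Mathlib
import Pool.Agent.Helper685.OSep.Gap1
import Pool.Agent.Helper685.OSep.Gap3

set_option autoImplicit false
set_option linter.unusedSectionVars false

open scoped BigOperators Matrix InnerProductSpace

namespace Pool.Agent.Helper685.OSep

open PS (hs hs_mul_left hs_mul_right hs_nonneg hs_neg)

section lr

variable {I J : Type} [Fintype I] [Fintype J]

/-- left multiplication -/
noncomputable def lm (A : Matrix I I ℂ) : EuclideanSpace ℂ (I × J) →ₗ[ℂ] EuclideanSpace ℂ (I × J) where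
  toFun y := WithLp.toLp 2 fun p => ∑ i', A p.1 i' * y (i', p.2)
  map_add' y z := by
    ext p
    simp [mul_add, Finset.sum_add_distrib]
  map_smul' c y := by
    ext p
    simp only [PiLp.smul_apply, smul_eq_mul, RingHom.id_apply, Finset.mul_sum]
    refine Finset.sum_congr rfl fun i _ => ?_
    ring

/-- right multiplication -/
noncomputable def rm (B : Matrix J J ℂ) : EuclideanSpace ℂ (I × J) →ₗ[ℂ] EuclideanSpace ℂ (I × J) where
  toFun y := WithLp.toLp 2 fun p => ∑ j', y (p.1, j') * B j' p.2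
  map_add' y z := by
    ext p
    simp [add_mul, Finset.sum_add_distrib]
  map_smul' c y := by
    ext p
    simp only [PiLp.smul_apply, smul_eq_mul, RingHom.id_apply, Finset.mul_sum]
    refine Finset.sum_congr rfl fun i _ => ?_
    ring

theorem lm_apply (A : Matrix I I ℂ) (y : EuclideanSpace ℂ (I × J)) (p : I × J) :
    lm A y p = ∑ i', A p.1 i' * y (i', p.2) := rfl

theorem rm_apply (B : Matrix J J ℂ) (y : EuclideanSpace ℂ (I × J)) (p : I × J) :
    rm B y p = ∑ j', y (p.1, j') * B j' p.2 := rfl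

/-- the matrix of a vector -/
def mt (y : EuclideanSpace ℂ (I × J)) : Matrix I J ℂ := Matrix.of fun i j => y (i, j)

omit [Fintype I] [Fintype J] in
theorem mt_sub (y z : EuclideanSpace ℂ (I × J)) : mt (y - z) = mt y - mt z := by
  ext i j; simp [mt]

theorem mt_lm (A : Matrix I I ℂ) (y : EuclideanSpace ℂ (I × J)) : mt (lm A y) = A * mt y := by
  ext i j
  simp [mt, lm_apply, Matrix.mul_apply]

theorem mt_rm (B : Matrix J J ℂ) (y : EuclideanSpace ℂ (I × J)) : mt (rm B y) = mt y * B := by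
  ext i j
  simp [mt, rm_apply, Matrix.mul_apply]

theorem norm_sq_mt (y : EuclideanSpace ℂ (I × J)) : ‖y‖ ^ 2 = hs (mt y) := by
  rw [EuclideanSpace.norm_sq_eq, Fintype.sum_prod_type]
  rfl

theorem inner_lm (A : Matrix I I ℂ) (y z : EuclideanSpace ℂ (I × J)) :
    ⟪lm A y, z⟫_ℂ = ⟪y, lm Aᴴ z⟫_ℂ := by
  simp only [PiLp.inner_apply, RCLike.inner_apply, lm_apply, Fintype.sum_prod_type, map_sum, map_mul,
    Matrix.conjTranspose_apply, Finset.mul_sum, Finset.sum_mul, RCLike.star_def]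
  rw [Finset.sum_congr rfl fun x _ => Finset.sum_comm, Finset.sum_comm]
  refine Finset.sum_congr rfl fun x _ => ?_
  rw [Finset.sum_comm]
  refine Finset.sum_congr rfl fun z _ => Finset.sum_congr rfl fun w _ => ?_
  ring

theorem inner_rm (B : Matrix J J ℂ) (y z : EuclideanSpace ℂ (I × J)) :
    ⟪rm B y, z⟫_ℂ = ⟪y, rm Bᴴ z⟫_ℂ := by
  simp only [PiLp.inner_apply, RCLike.inner_apply, rm_apply, Fintype.sum_prod_type, map_sum, map_mul,
    Matrix.conjTranspose_apply, Finset.mul_sum, Finset.sum_mul, RCLike.star_def]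
  refine Finset.sum_congr rfl fun x _ => ?_
  rw [Finset.sum_comm]
  refine Finset.sum_congr rfl fun z _ => Finset.sum_congr rfl fun w _ => ?_
  ring

theorem lm_norm_of_unit [DecidableEq I] {A : Matrix I I ℂ} (hA : Aᴴ * A = 1)
    (y : EuclideanSpace ℂ (I × J)) :
    ‖lm A y‖ = ‖y‖ := by
  have h : ‖lm A y‖ ^ 2 = ‖y‖ ^ 2 := by
    rw [norm_sq_mt, norm_sq_mt, mt_lm]
    classical
    exact hs_mul_left _ hA
  exact (sq_eq_sq₀ (norm_nonneg _) (norm_nonneg _)).mp h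

theorem rm_norm_of_unit [DecidableEq J] {B : Matrix J J ℂ} (hB : B * Bᴴ = 1)
    (y : EuclideanSpace ℂ (I × J)) :
    ‖rm B y‖ = ‖y‖ := by
  have h : ‖rm B y‖ ^ 2 = ‖y‖ ^ 2 := by
    rw [norm_sq_mt, norm_sq_mt, mt_rm]
    classical
    exact hs_mul_right _ hB
  exact (sq_eq_sq₀ (norm_nonneg _) (norm_nonneg _)).mp h

end lr

/-- the unitaries on the edges of `K₄` -/
noncomputable def UU (N : ℕ) [NeZero N] (c d : Fin 4) : Matrix (ZMod N) (ZMod N) ℂ :=
  match c, d with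
  | 1, 2 => W3 N 0
  | 2, 1 => (W3 N 0)ᴴ
  | 1, 3 => W3 N 1
  | 3, 1 => (W3 N 1)ᴴ
  | 2, 3 => W3 N 2
  | 3, 2 => (W3 N 2)ᴴ
  | _, _ => 1

theorem UU_unit (N : ℕ) [NeZero N] (c d : Fin 4) : (UU N c d)ᴴ * UU N c d = 1 := by
  have a := W3_unit N 0
  have b := W3_unit N 1
  have e := W3_unit N 2
  have a' := W3_unit' N 0
  have b' := W3_unit' N 1
  have e' := W3_unit' N 2
  fin_cases c <;> fin_cases d <;> simp [UU, a, b, e, a', b', e']

theorem UU_unit' (N : ℕ) [NeZero N] (c d : Fin 4) : UU N c d * (UU N c d)ᴴ = 1 :=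
  mul_eq_one_comm.mp (UU_unit N c d)

theorem UU_star (N : ℕ) [NeZero N] (c d : Fin 4) : (UU N c d)ᴴ = UU N d c := by
  fin_cases c <;> fin_cases d <;> simp [UU]

theorem UU_zero_left (N : ℕ) [NeZero N] (c : Fin 4) : UU N 0 c = 1 := by
  fin_cases c <;> simp [UU]

theorem UU_zero_right (N : ℕ) [NeZero N] (c : Fin 4) : UU N c 0 = 1 := by
  fin_cases c <;> simp [UU]

/-- the label parameter -/
noncomputable def Lam : ℝ := 10 ^ 7

/-- hopping matrix -/
noncomputable def Vm (N : ℕ) [NeZero N] : Matrix (Fin 4 × ZMod N) (Fin 4 × ZMod N) ℂ :=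
  Matrix.of fun p q => ((nn p.1 q.1 : ℝ) : ℂ) * UU N p.1 q.1 p.2 q.2

/-- label matrix -/
noncomputable def Hm (N : ℕ) : Matrix (Fin 4 × ZMod N) (Fin 4 × ZMod N) ℂ :=
  Matrix.diagonal fun p => ((Lam * (p.1 : ℝ) : ℝ) : ℂ)

/-- the local matrix -/
noncomputable def Am (N : ℕ) [NeZero N] : Matrix (Fin 4 × ZMod N) (Fin 4 × ZMod N) ℂ :=
  Vm N - (1 / 2 : ℂ) • (Hm N * Hm N)

theorem Vm_herm (N : ℕ) [NeZero N] : (Vm N)ᴴ = Vm N := by
  ext p q
  rw [Matrix.conjTranspose_apply]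
  simp only [Vm, Matrix.of_apply, star_mul']
  rw [← UU_star N q.1 p.1, Matrix.conjTranspose_apply, nn_comm]
  simp

theorem Hm_herm (N : ℕ) : (Hm N)ᴴ = Hm N := by
  rw [Hm, Matrix.diagonal_conjTranspose]
  congr 1
  funext p
  simp

theorem Am_herm (N : ℕ) [NeZero N] : (Am N)ᴴ = Am N := by
  rw [Am, Matrix.conjTranspose_sub, Vm_herm, Matrix.conjTranspose_smul, Matrix.conjTranspose_mul,
    Hm_herm]
  norm_num

section blocks

variable {N N' : ℕ} [NeZero N] [NeZero N']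

/-- block `(c, d)` of a vector -/
noncomputable def bl (y : EuclideanSpace ℂ ((Fin 4 × ZMod N) × (Fin 4 × ZMod N'))) (c d : Fin 4) :
    EuclideanSpace ℂ (ZMod N × ZMod N') :=
  WithLp.toLp 2 fun q => y ((c, q.1), (d, q.2))

omit [NeZero N] [NeZero N'] in
theorem bl_apply (y : EuclideanSpace ℂ ((Fin 4 × ZMod N) × (Fin 4 × ZMod N'))) (c d : Fin 4)
    (q : ZMod N × ZMod N') : bl y c d q = y ((c, q.1), (d, q.2)) := rfl

theorem inner_bl (y z : EuclideanSpace ℂ ((Fin 4 × ZMod N) × (Fin 4 × ZMod N'))) :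
    ⟪y, z⟫_ℂ = ∑ c, ∑ d, ⟪bl y c d, bl z c d⟫_ℂ := by
  simp only [PiLp.inner_apply, Fintype.sum_prod_type, bl_apply]
  refine Finset.sum_congr rfl fun c _ => ?_
  rw [Finset.sum_comm]

theorem norm_bl (y : EuclideanSpace ℂ ((Fin 4 × ZMod N) × (Fin 4 × ZMod N'))) :
    ‖y‖ ^ 2 = ∑ c, ∑ d, ‖bl y c d‖ ^ 2 := by
  have h := inner_bl y y
  rw [inner_self_eq_norm_sq_to_K] at h
  simp only [inner_self_eq_norm_sq_to_K] at h
  exact_mod_cast h

omit [NeZero N] [NeZero N'] in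
theorem bl_smul (a : ℂ) (y : EuclideanSpace ℂ ((Fin 4 × ZMod N) × (Fin 4 × ZMod N'))) (c d : Fin 4) :
    bl (a • y) c d = a • bl y c d := by
  ext q; simp [bl_apply]

omit [NeZero N] [NeZero N'] in
theorem bl_sub (y z : EuclideanSpace ℂ ((Fin 4 × ZMod N) × (Fin 4 × ZMod N'))) (c d : Fin 4) :
    bl (y - z) c d = bl y c d - bl z c d := by
  ext q; simp [bl_apply]

theorem bl_lmV (y : EuclideanSpace ℂ ((Fin 4 × ZMod N) × (Fin 4 × ZMod N'))) (c d : Fin 4) :
    bl (lm (Vm N) y) c d = ∑ c', ((nn c c' : ℝ) : ℂ) • lm (UU N c c') (bl y c' d) := by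
  ext q
  rw [bl_apply, lm_apply, Fintype.sum_prod_type]
  simp only [PiLp.smul_apply, WithLp.ofLp_sum, Finset.sum_apply, smul_eq_mul, lm_apply, bl_apply,
    Vm, Matrix.of_apply, Finset.mul_sum, mul_assoc]

theorem bl_rmV (y : EuclideanSpace ℂ ((Fin 4 × ZMod N) × (Fin 4 × ZMod N'))) (c d : Fin 4) :
    bl (rm (Vm N') y) c d = ∑ d', ((nn d d' : ℝ) : ℂ) • rm (UU N' d' d) (bl y c d') := by
  ext q
  rw [bl_apply, rm_apply, Fintype.sum_prod_type]
  simp only [PiLp.smul_apply, WithLp.ofLp_sum, Finset.sum_apply, smul_eq_mul, rm_apply, bl_apply,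
    Vm, Matrix.of_apply, Finset.mul_sum]
  refine Finset.sum_congr rfl fun d' _ => Finset.sum_congr rfl fun w _ => ?_
  rw [nn_comm]
  ring

theorem bl_lmH (y : EuclideanSpace ℂ ((Fin 4 × ZMod N) × (Fin 4 × ZMod N'))) (c d : Fin 4) :
    bl (lm (Hm N) y) c d = ((Lam * (c : ℝ) : ℝ) : ℂ) • bl y c d := by
  ext q
  rw [bl_apply, lm_apply, PiLp.smul_apply, bl_apply, smul_eq_mul]
  rw [Finset.sum_eq_single (c, q.1)]
  · simp [Hm]
  · intro b _ hb
    rw [Hm, Matrix.diagonal_apply_ne _ (Ne.symm hb), zero_mul]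
  · intro h; exact absurd (Finset.mem_univ _) h

theorem bl_rmH (y : EuclideanSpace ℂ ((Fin 4 × ZMod N) × (Fin 4 × ZMod N'))) (c d : Fin 4) :
    bl (rm (Hm N') y) c d = ((Lam * (d : ℝ) : ℝ) : ℂ) • bl y c d := by
  ext q
  rw [bl_apply, rm_apply, PiLp.smul_apply, bl_apply, smul_eq_mul]
  rw [Finset.sum_eq_single (d, q.2)]
  · simp [Hm, mul_comm]
  · intro b _ hb
    rw [Hm, Matrix.diagonal_apply_ne _ hb, mul_zero]
  · intro h; exact absurd (Finset.mem_univ _) h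

end blocks

end Pool.Agent.Helper685.OSep
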