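import Mathlib
import Pool.Agent.Helper685.OSep.Gap4

set_option autoImplicit false
set_option linter.unusedSectionVars false

open scoped BigOperators Matrix InnerProductSpace

namespace Pool.Agent.Helper685.OSep

open PS (hs hs_mul_left hs_mul_right hs_nonneg hs_neg)

theorem nn_nonneg (c d : Fin 4) : 0 ≤ nn c d := abs_nonneg _

theorem re_sq_ofReal (a : ℝ) : ((a : ℂ) ^ 2).re = a ^ 2 := by
  rw [← Complex.ofReal_pow, Complex.ofReal_re]

/-- energy -/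
noncomputable def energy {I J : Type} [Fintype I] [Fintype J] (A H : Matrix I I ℂ)
    (B L : Matrix J J ℂ) (y : EuclideanSpace ℂ (I × J)) : ℝ :=
  (⟪y, lm A y⟫_ℂ).re + (⟪y, rm B y⟫_ℂ).re + (⟪lm H y, rm L y⟫_ℂ).re

section

variable {N N' : ℕ} [NeZero N] [NeZero N']

/-- the real linear maps for the block energy -/
noncomputable def LL (N N' : ℕ) [NeZero N] [NeZero N'] (c d : Fin 4) :
    EuclideanSpace ℂ (ZMod N × ZMod N') →ₗ[ℝ] EuclideanSpace ℂ (ZMod N × ZMod N') :=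
  (lm (UU N c d)).restrictScalars ℝ

noncomputable def RR (N N' : ℕ) [NeZero N] [NeZero N'] (c d : Fin 4) :
    EuclideanSpace ℂ (ZMod N × ZMod N') →ₗ[ℝ] EuclideanSpace ℂ (ZMod N × ZMod N') :=
  (rm (UU N' d c)).restrictScalars ℝ

theorem real_inner_eq' (x y : EuclideanSpace ℂ (ZMod N × ZMod N')) :
    ⟪x, y⟫_ℝ = (⟪x, y⟫_ℂ).re := by
  rw [PiLp.inner_apply, PiLp.inner_apply, Complex.re_sum]
  refine Finset.sum_congr rfl fun i _ => ?_
  rw [Complex.inner, RCLike.inner_apply, mul_comm]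

theorem LL_adj (c d : Fin 4) (x y : EuclideanSpace ℂ (ZMod N × ZMod N')) :
    ⟪LL N N' c d x, y⟫_ℝ = ⟪x, LL N N' d c y⟫_ℝ := by
  rw [real_inner_eq', real_inner_eq']
  change (⟪lm (UU N c d) x, y⟫_ℂ).re = (⟪x, lm (UU N d c) y⟫_ℂ).re
  rw [inner_lm, UU_star]

theorem RR_adj (c d : Fin 4) (x y : EuclideanSpace ℂ (ZMod N × ZMod N')) :
    ⟪RR N N' c d x, y⟫_ℝ = ⟪x, RR N N' d c y⟫_ℝ := by
  rw [real_inner_eq', real_inner_eq']
  change (⟪rm (UU N' d c) x, y⟫_ℂ).re = (⟪x, rm (UU N' c d) y⟫_ℂ).re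
  rw [inner_rm, UU_star]

theorem LL_iso (c d : Fin 4) (x : EuclideanSpace ℂ (ZMod N × ZMod N')) :
    ‖LL N N' c d x‖ = ‖x‖ := lm_norm_of_unit (UU_unit N c d) x

theorem RR_iso (c d : Fin 4) (x : EuclideanSpace ℂ (ZMod N × ZMod N')) :
    ‖RR N N' c d x‖ = ‖x‖ := rm_norm_of_unit (UU_unit' N' d c) x

theorem lm_one (x : EuclideanSpace ℂ (ZMod N × ZMod N')) : lm (1 : Matrix (ZMod N) (ZMod N) ℂ) x = x := by
  ext p
  simp [lm_apply, Matrix.one_apply]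

theorem rm_one (x : EuclideanSpace ℂ (ZMod N × ZMod N')) :
    rm (1 : Matrix (ZMod N') (ZMod N') ℂ) x = x := by
  ext p
  simp [rm_apply, Matrix.one_apply]

theorem LL_zero (c : Fin 4) (x : EuclideanSpace ℂ (ZMod N × ZMod N')) : LL N N' c 0 x = x := by
  change lm (UU N c 0) x = x
  rw [UU_zero_right, lm_one]

theorem RR_zero (c : Fin 4) (x : EuclideanSpace ℂ (ZMod N × ZMod N')) : RR N N' 0 c x = x := by
  change rm (UU N' c 0) x = x
  rw [UU_zero_right, rm_one]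

theorem energy_eq (y : EuclideanSpace ℂ ((Fin 4 × ZMod N) × (Fin 4 × ZMod N'))) :
    energy (Am N) (Hm N) (Am N') (Hm N') y =
      en (Lam ^ 2) (LL N N') (RR N N') (fun c d => bl y c d) := by
  have hA : ∀ z : EuclideanSpace ℂ ((Fin 4 × ZMod N) × (Fin 4 × ZMod N')),
      lm (Am N) z = lm (Vm N) z - (1 / 2 : ℂ) • lm (Hm N) (lm (Hm N) z) := by
    intro z
    have e1 : mt (lm (Am N) z) = mt (lm (Vm N) z - (1 / 2 : ℂ) • lm (Hm N) (lm (Hm N) z)) := by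
      rw [mt_sub, mt_lm, mt_lm]
      have : mt ((1 / 2 : ℂ) • lm (Hm N) (lm (Hm N) z)) = (1 / 2 : ℂ) • (Hm N * (Hm N * mt z)) := by
        rw [← mt_lm, ← mt_lm]; rfl
      rw [this, Am, Matrix.sub_mul, Matrix.smul_mul, Matrix.mul_assoc]
    ext p
    have := congrFun (congrFun e1 p.1) p.2
    simpa [mt] using this
  have hB : ∀ z : EuclideanSpace ℂ ((Fin 4 × ZMod N) × (Fin 4 × ZMod N')),
      rm (Am N') z = rm (Vm N') z - (1 / 2 : ℂ) • rm (Hm N') (rm (Hm N') z) := by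
    intro z
    have e1 : mt (rm (Am N') z) = mt (rm (Vm N') z - (1 / 2 : ℂ) • rm (Hm N') (rm (Hm N') z)) := by
      rw [mt_sub, mt_rm, mt_rm]
      have : mt ((1 / 2 : ℂ) • rm (Hm N') (rm (Hm N') z)) = (1 / 2 : ℂ) • (mt z * Hm N' * Hm N') := by
        rw [← mt_rm, ← mt_rm]; rfl
      rw [this, Am, Matrix.mul_sub, Matrix.mul_smul, Matrix.mul_assoc]
    ext p
    have := congrFun (congrFun e1 p.1) p.2
    simpa [mt] using this
  have h1 : (⟪y, lm (Am N) y⟫_ℂ).re = (⟪y, lm (Vm N) y⟫_ℂ).re - (1 / 2) * ‖lm (Hm N) y‖ ^ 2 := by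
    rw [hA, inner_sub_right, inner_smul_right, ← Hm_herm N, ← inner_lm, Hm_herm,
      inner_self_eq_norm_sq_to_K]
    norm_cast
    simp [re_sq_ofReal]
  have h2 : (⟪y, rm (Am N') y⟫_ℂ).re = (⟪y, rm (Vm N') y⟫_ℂ).re - (1 / 2) * ‖rm (Hm N') y‖ ^ 2 := by
    rw [hB, inner_sub_right, inner_smul_right, ← Hm_herm N', ← inner_rm, Hm_herm,
      inner_self_eq_norm_sq_to_K]
    norm_cast
    simp [re_sq_ofReal]
  have h3 : ‖lm (Hm N) y - rm (Hm N') y‖ ^ 2 = ‖lm (Hm N) y‖ ^ 2 -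
      2 * (⟪lm (Hm N) y, rm (Hm N') y⟫_ℂ).re + ‖rm (Hm N') y‖ ^ 2 := by
    have := @norm_sub_sq ℂ _ _ _ _ (lm (Hm N) y) (rm (Hm N') y)
    simpa using this
  have h4 : ‖lm (Hm N) y - rm (Hm N') y‖ ^ 2 = ∑ c, ∑ d, Lam ^ 2 * (nn c d ^ 2 * ‖bl y c d‖ ^ 2) := by
    rw [norm_bl]
    refine Finset.sum_congr rfl fun c _ => Finset.sum_congr rfl fun d _ => ?_
    rw [bl_sub, bl_lmH, bl_rmH, ← sub_smul, norm_smul, mul_pow]
    have : ((Lam * (c : ℝ) : ℝ) : ℂ) - ((Lam * (d : ℝ) : ℝ) : ℂ) = ((Lam * ((c : ℝ) - d) : ℝ) : ℂ) := by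
      push_cast; ring
    rw [this, Complex.norm_real, Real.norm_eq_abs, sq_abs, nn, sq_abs]
    ring
  have h5 : (⟪y, lm (Vm N) y⟫_ℂ).re = ∑ d, ∑ c, ∑ c', nn c c' *
      ⟪bl y c d, LL N N' c c' (bl y c' d)⟫_ℝ := by
    rw [inner_bl, Finset.sum_comm, Complex.re_sum]
    refine Finset.sum_congr rfl fun d _ => ?_
    rw [Complex.re_sum]
    refine Finset.sum_congr rfl fun c _ => ?_
    rw [bl_lmV, inner_sum, Complex.re_sum]
    refine Finset.sum_congr rfl fun c' _ => ?_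
    rw [inner_smul_right, Complex.re_ofReal_mul, real_inner_eq']
    rfl
  have h6 : (⟪y, rm (Vm N') y⟫_ℂ).re = ∑ c, ∑ d, ∑ d', nn d d' *
      ⟪bl y c d, RR N N' d d' (bl y c d')⟫_ℝ := by
    rw [inner_bl, Complex.re_sum]
    refine Finset.sum_congr rfl fun c _ => ?_
    rw [Complex.re_sum]
    refine Finset.sum_congr rfl fun d _ => ?_
    rw [bl_rmV, inner_sum, Complex.re_sum]
    refine Finset.sum_congr rfl fun d' _ => ?_
    rw [inner_smul_right, Complex.re_ofReal_mul, real_inner_eq']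
    rfl
  rw [energy, h1, h2, h5, h6, en]
  have h7 : ∑ c, ∑ d, (-(Lam ^ 2 / 2) * (nn c d ^ 2 * ‖bl y c d‖ ^ 2)) =
      -(1 / 2) * ‖lm (Hm N) y - rm (Hm N') y‖ ^ 2 := by
    rw [h4, Finset.mul_sum]
    refine Finset.sum_congr rfl fun c _ => ?_
    rw [Finset.mul_sum]
    refine Finset.sum_congr rfl fun d _ => ?_
    ring
  rw [h7, h3]
  ring

/-- vector with given blocks -/
noncomputable def unbl (Y : Fin 4 → Fin 4 → EuclideanSpace ℂ (ZMod N × ZMod N')) :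
    EuclideanSpace ℂ ((Fin 4 × ZMod N) × (Fin 4 × ZMod N')) :=
  WithLp.toLp 2 fun q => Y q.1.1 q.2.1 (q.1.2, q.2.2)

theorem bl_unbl (Y : Fin 4 → Fin 4 → EuclideanSpace ℂ (ZMod N × ZMod N')) (c d : Fin 4) :
    bl (unbl Y) c d = Y c d := by
  ext q
  simp [bl_apply, unbl]

end

theorem lmV_bound {N N' : ℕ} [NeZero N] [NeZero N']
    (y : EuclideanSpace ℂ ((Fin 4 × ZMod N) × (Fin 4 × ZMod N'))) : ‖lm (Vm N) y‖ ≤ 7 * ‖y‖ := by
  apply le_of_sq_le_sq _ (by positivity)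
  rw [norm_bl, mul_pow, norm_bl]
  have h : ∀ c d, ‖bl (lm (Vm N) y) c d‖ ^ 2 ≤ (∑ c', nn c c' ^ 2) * ∑ c', ‖bl y c' d‖ ^ 2 := by
    intro c d
    have h1 : ‖bl (lm (Vm N) y) c d‖ ≤ ∑ c', nn c c' * ‖bl y c' d‖ := by
      rw [bl_lmV]
      refine (norm_sum_le _ _).trans (Finset.sum_le_sum fun c' _ => ?_)
      rw [norm_smul, Complex.norm_real, Real.norm_eq_abs, abs_of_nonneg (nn_nonneg _ _),
        lm_norm_of_unit (UU_unit N c c')]
    refine (pow_le_pow_left₀ (norm_nonneg _) h1 2).trans ?_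
    exact Finset.sum_mul_sq_le_sq_mul_sq _ _ _
  have hn : ∀ c : Fin 4, ∑ c', nn c c' ^ 2 ≤ 14 := by
    intro c
    fin_cases c <;> simp [Fin.sum_univ_four, nn_self, nn01, nn02, nn03, nn12, nn13, nn23, nn10, nn20,
      nn30, nn21, nn31, nn32] <;> norm_num
  have hn2 : ∑ c : Fin 4, ∑ c' : Fin 4, nn c c' ^ 2 = 40 := by
    simp only [Fin.sum_univ_four, nn_self, nn01, nn02, nn03, nn12, nn13, nn23, nn10, nn20,
      nn30, nn21, nn31, nn32]
    norm_num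
  calc ∑ c, ∑ d, ‖bl (lm (Vm N) y) c d‖ ^ 2
      ≤ ∑ c, ∑ d, (∑ c', nn c c' ^ 2) * ∑ c', ‖bl y c' d‖ ^ 2 :=
        Finset.sum_le_sum fun c _ => Finset.sum_le_sum fun d _ => h c d
    _ = (∑ c, ∑ c', nn c c' ^ 2) * ∑ c', ∑ d, ‖bl y c' d‖ ^ 2 := by
        rw [Finset.sum_mul]
        refine Finset.sum_congr rfl fun c _ => ?_
        rw [← Finset.mul_sum, Finset.sum_comm]
    _ ≤ 7 ^ 2 * ∑ c, ∑ d, ‖bl y c d‖ ^ 2 := by
        rw [hn2]
        have : 0 ≤ ∑ c, ∑ d, ‖bl y c d‖ ^ 2 := by positivity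
        nlinarith

theorem rmV_bound {N N' : ℕ} [NeZero N] [NeZero N']
    (y : EuclideanSpace ℂ ((Fin 4 × ZMod N) × (Fin 4 × ZMod N'))) : ‖rm (Vm N') y‖ ≤ 7 * ‖y‖ := by
  apply le_of_sq_le_sq _ (by positivity)
  rw [norm_bl, mul_pow, norm_bl]
  have h : ∀ c d, ‖bl (rm (Vm N') y) c d‖ ^ 2 ≤ (∑ d', nn d d' ^ 2) * ∑ d', ‖bl y c d'‖ ^ 2 := by
    intro c d
    have h1 : ‖bl (rm (Vm N') y) c d‖ ≤ ∑ d', nn d d' * ‖bl y c d'‖ := by
      rw [bl_rmV]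
      refine (norm_sum_le _ _).trans (Finset.sum_le_sum fun d' _ => ?_)
      rw [norm_smul, Complex.norm_real, Real.norm_eq_abs, abs_of_nonneg (nn_nonneg _ _),
        rm_norm_of_unit (UU_unit' N' d' d)]
    refine (pow_le_pow_left₀ (norm_nonneg _) h1 2).trans ?_
    exact Finset.sum_mul_sq_le_sq_mul_sq _ _ _
  have hn2 : ∑ c : Fin 4, ∑ c' : Fin 4, nn c c' ^ 2 = 40 := by
    simp only [Fin.sum_univ_four, nn_self, nn01, nn02, nn03, nn12, nn13, nn23, nn10, nn20,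
      nn30, nn21, nn31, nn32]
    norm_num
  calc ∑ c, ∑ d, ‖bl (rm (Vm N') y) c d‖ ^ 2
      ≤ ∑ c, ∑ d, (∑ d', nn d d' ^ 2) * ∑ d', ‖bl y c d'‖ ^ 2 :=
        Finset.sum_le_sum fun c _ => Finset.sum_le_sum fun d _ => h c d
    _ = (∑ d, ∑ d', nn d d' ^ 2) * ∑ c, ∑ d, ‖bl y c d‖ ^ 2 := by
        rw [Finset.mul_sum]
        refine Finset.sum_congr rfl fun c _ => ?_
        rw [Finset.sum_mul]
    _ ≤ 7 ^ 2 * ∑ c, ∑ d, ‖bl y c d‖ ^ 2 := by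
        rw [hn2]
        have : 0 ≤ ∑ c, ∑ d, ‖bl y c d‖ ^ 2 := by positivity
        nlinarith

theorem fin4_le (c : Fin 4) : (c : ℝ) ≤ 3 := by
  have : (c : ℕ) ≤ 3 := by omega
  exact_mod_cast this

theorem lmH_bound {N N' : ℕ} [NeZero N] [NeZero N']
    (y : EuclideanSpace ℂ ((Fin 4 × ZMod N) × (Fin 4 × ZMod N'))) : ‖lm (Hm N) y‖ ≤ 3 * Lam * ‖y‖ := by
  have hL : 0 ≤ Lam := by unfold Lam; norm_num
  apply le_of_sq_le_sq _ (by positivity)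
  rw [norm_bl, mul_pow, norm_bl, Finset.mul_sum]
  refine Finset.sum_le_sum fun c _ => ?_
  rw [Finset.mul_sum]
  refine Finset.sum_le_sum fun d _ => ?_
  rw [bl_lmH, norm_smul, mul_pow, Complex.norm_real, Real.norm_eq_abs, sq_abs]
  have h1 : (0 : ℝ) ≤ (c : ℝ) := by positivity
  have := fin4_le c
  have h2 : Lam * (c : ℝ) ≤ 3 * Lam := by nlinarith
  gcongr

theorem rmH_bound {N N' : ℕ} [NeZero N] [NeZero N']
    (y : EuclideanSpace ℂ ((Fin 4 × ZMod N) × (Fin 4 × ZMod N'))) : ‖rm (Hm N') y‖ ≤ 3 * Lam * ‖y‖ := by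
  have hL : 0 ≤ Lam := by unfold Lam; norm_num
  apply le_of_sq_le_sq _ (by positivity)
  rw [norm_bl, mul_pow, norm_bl, Finset.mul_sum]
  refine Finset.sum_le_sum fun c _ => ?_
  rw [Finset.mul_sum]
  refine Finset.sum_le_sum fun d _ => ?_
  rw [bl_rmH, norm_smul, mul_pow, Complex.norm_real, Real.norm_eq_abs, sq_abs]
  have h1 : (0 : ℝ) ≤ (d : ℝ) := by positivity
  have := fin4_le d
  have h2 : Lam * (d : ℝ) ≤ 3 * Lam := by nlinarith
  gcongr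

end Pool.Agent.Helper685.OSep
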