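import Mathlib
import Pool.Agent.Helper685.OSep.Gap5

set_option autoImplicit false
set_option linter.unusedSectionVars false

open scoped BigOperators Matrix InnerProductSpace

namespace Pool.Agent.Helper685.OSep

open PS (hs hs_mul_left hs_mul_right hs_nonneg hs_neg)

/-- the sizes -/
def Nn (i : ℕ) : ℕ := 3 ^ (i + 1)

instance (i : ℕ) : NeZero (Nn i) := ⟨by unfold Nn; positivity⟩

theorem Nn_odd (i : ℕ) : Odd (Nn i) := by
  unfold Nn
  exact Odd.pow (by decide)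

theorem Nn_lt {i j : ℕ} (h : i < j) : 2 * Nn i < Nn j := by
  unfold Nn
  have h1 : 3 ^ (i + 1 + 1) ≤ 3 ^ (j + 1) := Nat.pow_le_pow_right (by norm_num) (by omega)
  have h2 : 0 < 3 ^ (i + 1) := by positivity
  have h3 : 3 ^ (i + 1 + 1) = 3 * 3 ^ (i + 1) := by ring
  omega

/-- the constants -/
noncomputable def Etop : ℝ := (12 * (8 / Lam ^ 2 - 192 / (Lam ^ 2) ^ 2)) / (4 + 192 / (Lam ^ 2) ^ 2)

noncomputable def Elow : ℝ := (12 - 1 / 10 ^ 9) / (Lam ^ 2 / 2 - 12)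

theorem Elow_lt : Elow < Etop := by
  unfold Elow Etop Lam
  norm_num

theorem Etop_abs : |Etop| ≤ 1 := by
  unfold Etop Lam
  norm_num [abs_le]

theorem Elow_abs : |Elow| ≤ 1 := by
  unfold Elow Lam
  norm_num [abs_le]

theorem energy_gap {i j : ℕ} (hij : i ≠ j)
    (y : EuclideanSpace ℂ ((Fin 4 × ZMod (Nn i)) × (Fin 4 × ZMod (Nn j)))) :
    energy (Am (Nn i)) (Hm (Nn i)) (Am (Nn j)) (Hm (Nn j)) y ≤ Elow * ‖y‖ ^ 2 := by
  rw [energy_eq, norm_bl]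
  refine en_gap (Lam ^ 2) (by unfold Lam; norm_num) (LL (Nn i) (Nn j)) (RR (Nn i) (Nn j))
    LL_adj LL_iso RR_adj RR_iso LL_zero RR_zero ?_ _
  intro x
  have h : 2 * Nn i < Nn j ∨ 2 * Nn j < Nn i := by
    rcases Nat.lt_or_gt_of_ne hij with h | h
    · exact Or.inl (Nn_lt h)
    · exact Or.inr (Nn_lt h)
  obtain ⟨l, hl⟩ := gap_both (Nn_odd j) (Nn_odd i) h (mt x)
  have key : ∀ c d : Fin 4, ‖LL (Nn i) (Nn j) c d x - RR (Nn i) (Nn j) d c x‖ ^ 2 =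
      hs (UU (Nn i) c d * mt x - mt x * UU (Nn j) c d) := by
    intro c d
    change ‖lm (UU (Nn i) c d) x - rm (UU (Nn j) c d) x‖ ^ 2 = _
    rw [norm_sq_mt, mt_sub, mt_lm, mt_rm]
  rw [key, key, key, norm_sq_mt]
  fin_cases l
  · exact Or.inl hl
  · exact Or.inr (Or.inl hl)
  · exact Or.inr (Or.inr hl)

theorem energy_top (i : ℕ) :
    ∃ y : EuclideanSpace ℂ ((Fin 4 × ZMod (Nn i)) × (Fin 4 × ZMod (Nn i))), y ≠ 0 ∧
      Etop * ‖y‖ ^ 2 ≤ energy (Am (Nn i)) (Hm (Nn i)) (Am (Nn i)) (Hm (Nn i)) y := by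
  set e : EuclideanSpace ℂ (ZMod (Nn i) × ZMod (Nn i)) :=
    WithLp.toLp 2 fun p => (1 : Matrix (ZMod (Nn i)) (ZMod (Nn i)) ℂ) p.1 p.2 with he
  have hmt : mt e = 1 := by ext a b; rfl
  have he0 : e ≠ 0 := by
    intro h
    have h1 : e (0, 0) = 1 := by simp [he]
    rw [h] at h1
    simp at h1
  have hLR : ∀ c d, RR (Nn i) (Nn i) d c e = LL (Nn i) (Nn i) c d e := by
    intro c d
    change rm (UU (Nn i) c d) e = lm (UU (Nn i) c d) e
    have e1 : mt (rm (UU (Nn i) c d) e) = mt (lm (UU (Nn i) c d) e) := by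
      rw [mt_rm, mt_lm, hmt, Matrix.one_mul, Matrix.mul_one]
    ext p
    have := congrFun (congrFun e1 p.1) p.2
    simpa [mt] using this
  obtain ⟨Y, hY0, hY⟩ := en_lower (Lam ^ 2) (by unfold Lam; norm_num) (LL (Nn i) (Nn i))
    (RR (Nn i) (Nn i)) LL_adj LL_iso RR_adj RR_iso e hLR he0
  refine ⟨unbl Y, ?_, ?_⟩
  · intro h
    have h1 := norm_bl (unbl Y)
    rw [h] at h1
    simp only [norm_zero] at h1
    rw [← h] at h1
    simp only [bl_unbl] at h1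
    rw [← h1] at hY0
    norm_num at hY0
  · rw [energy_eq, norm_bl]
    simp only [bl_unbl]
    exact hY

theorem lmA_bound {N N' : ℕ} [NeZero N] [NeZero N']
    (y : EuclideanSpace ℂ ((Fin 4 × ZMod N) × (Fin 4 × ZMod N'))) : ‖lm (Am N) y‖ ≤ 10 ^ 15 * ‖y‖ := by
  have hA : lm (Am N) y = lm (Vm N) y - (1 / 2 : ℂ) • lm (Hm N) (lm (Hm N) y) := by
    have e1 : mt (lm (Am N) y) = mt (lm (Vm N) y - (1 / 2 : ℂ) • lm (Hm N) (lm (Hm N) y)) := by
      rw [mt_sub, mt_lm, mt_lm]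
      have : mt ((1 / 2 : ℂ) • lm (Hm N) (lm (Hm N) y)) = (1 / 2 : ℂ) • (Hm N * (Hm N * mt y)) := by
        rw [← mt_lm, ← mt_lm]; rfl
      rw [this, Am, Matrix.sub_mul, Matrix.smul_mul, Matrix.mul_assoc]
    ext p
    have := congrFun (congrFun e1 p.1) p.2
    simpa [mt] using this
  rw [hA]
  refine (norm_sub_le _ _).trans ?_
  rw [norm_smul]
  have h1 := lmV_bound y
  have h2 := lmH_bound (lm (Hm N) y)
  have h3 := lmH_bound y
  have h4 : ‖(1 / 2 : ℂ)‖ = 1 / 2 := by norm_num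
  rw [h4]
  unfold Lam at h2 h3
  have := norm_nonneg y
  nlinarith

theorem rmA_bound {N N' : ℕ} [NeZero N] [NeZero N']
    (y : EuclideanSpace ℂ ((Fin 4 × ZMod N) × (Fin 4 × ZMod N'))) :
    ‖rm (Am N') y‖ ≤ 10 ^ 15 * ‖y‖ := by
  have hB : rm (Am N') y = rm (Vm N') y - (1 / 2 : ℂ) • rm (Hm N') (rm (Hm N') y) := by
    have e1 : mt (rm (Am N') y) = mt (rm (Vm N') y - (1 / 2 : ℂ) • rm (Hm N') (rm (Hm N') y)) := by
      rw [mt_sub, mt_rm, mt_rm]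
      have : mt ((1 / 2 : ℂ) • rm (Hm N') (rm (Hm N') y)) = (1 / 2 : ℂ) • (mt y * Hm N' * Hm N') := by
        rw [← mt_rm, ← mt_rm]; rfl
      rw [this, Am, Matrix.mul_sub, Matrix.mul_smul, Matrix.mul_assoc]
    ext p
    have := congrFun (congrFun e1 p.1) p.2
    simpa [mt] using this
  rw [hB]
  refine (norm_sub_le _ _).trans ?_
  rw [norm_smul]
  have h1 := rmV_bound y
  have h2 := rmH_bound (rm (Hm N') y)
  have h3 := rmH_bound y
  have h4 : ‖(1 / 2 : ℂ)‖ = 1 / 2 := by norm_num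
  rw [h4]
  unfold Lam at h2 h3
  have := norm_nonneg y
  nlinarith

end Pool.Agent.Helper685.OSep
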