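import Mathlib
import Pool.Agent.Helper685.OSep.Defs2
import Pool.Agent.Helper685.OSep.B
import Pool.Agent.Helper685.OSep.Gap6

set_option autoImplicit false
set_option linter.unusedSectionVars false

open scoped Matrix.Norms.L2Operator InnerProductSpace Kronecker

namespace Pool.Agent.Helper685.OSep

section norms

variable {a b : Type} [Fintype a] [Fintype b] [DecidableEq a] [DecidableEq b]

theorem norm_kron_one_right (A : Matrix a a ℂ) : ‖A ⊗ₖ (1 : Matrix b b ℂ)‖ ≤ ‖A‖ := by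
  refine l2norm_le _ _ (norm_nonneg _) fun v => ?_
  rw [Fintype.sum_prod_type_right, Fintype.sum_prod_type_right, Finset.mul_sum]
  refine Finset.sum_le_sum fun j _ => ?_
  have h := l2norm_mulVec_sq A fun i => v (i, j)
  refine le_trans (le_of_eq ?_) h
  refine Finset.sum_congr rfl fun i _ => ?_
  congr 2
  rw [Fintype.sum_prod_type]
  refine Finset.sum_congr rfl fun i' _ => ?_
  rw [Finset.sum_eq_single j]
  · simp [Matrix.kroneckerMap_apply]
  · intro j' _ hj'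
    simp [Matrix.kroneckerMap_apply, Matrix.one_apply_ne (Ne.symm hj')]
  · intro h; exact absurd (Finset.mem_univ _) h

theorem norm_kron_one_left (B : Matrix b b ℂ) : ‖(1 : Matrix a a ℂ) ⊗ₖ B‖ ≤ ‖B‖ := by
  refine l2norm_le _ _ (norm_nonneg _) fun v => ?_
  rw [Fintype.sum_prod_type, Fintype.sum_prod_type, Finset.mul_sum]
  refine Finset.sum_le_sum fun i _ => ?_
  have h := l2norm_mulVec_sq B fun j => v (i, j)
  refine le_trans (le_of_eq ?_) h
  refine Finset.sum_congr rfl fun j _ => ?_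
  congr 2
  rw [Fintype.sum_prod_type_right]
  refine Finset.sum_congr rfl fun j' _ => ?_
  rw [Finset.sum_eq_single i]
  · simp [Matrix.kroneckerMap_apply]
  · intro i' _ hi'
    simp [Matrix.kroneckerMap_apply, Matrix.one_apply_ne (Ne.symm hi')]
  · intro h; exact absurd (Finset.mem_univ _) h

theorem norm_kron_le (A : Matrix a a ℂ) (B : Matrix b b ℂ) : ‖A ⊗ₖ B‖ ≤ ‖A‖ * ‖B‖ := by
  have h : A ⊗ₖ B = (A ⊗ₖ (1 : Matrix b b ℂ)) * ((1 : Matrix a a ℂ) ⊗ₖ B) := by
    rw [← Matrix.mul_kronecker_mul, Matrix.mul_one, Matrix.one_mul]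
  rw [h]
  refine (Matrix.l2_opNorm_mul _ _).trans ?_
  exact mul_le_mul (norm_kron_one_right A) (norm_kron_one_left B) (norm_nonneg _) (norm_nonneg _)

end norms

section bridge

variable {μ κ I J : Type} [Fintype μ] [Fintype κ] [Fintype I] [Fintype J]
  [DecidableEq μ] [DecidableEq κ] [DecidableEq I] [DecidableEq J]
variable {E : Type} [NormedAddCommGroup E] [NormedSpace ℂ E]

/-- `e ↦ G (u e ⊗ 1)` -/
noncomputable def uG (G : Matrix (κ × I) (κ × I) ℂ) (u : E →ₗ[ℂ] Matrix κ κ ℂ) :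
    E →ₗ[ℂ] Matrix (κ × I) (κ × I) ℂ where
  toFun e := G * (u e ⊗ₖ (1 : Matrix I I ℂ))
  map_add' x y := by rw [map_add, Matrix.add_kronecker, Matrix.mul_add]
  map_smul' c x := by rw [map_smul, Matrix.smul_kronecker, Matrix.mul_smul]; rfl

/-- `D (x ⊗ 1)` -/
noncomputable def xD (D : Matrix (μ × J) (μ × J) ℂ) (x : Matrix μ μ E) : Matrix (μ × J) (μ × J) E :=
  Matrix.of fun P P' => ∑ a'', D P (a'', P'.2) • x a'' P'.1

/-- the big matrix -/
noncomputable def bigM (G : Matrix (κ × I) (κ × I) ℂ) (D : Matrix (μ × J) (μ × J) ℂ)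
    (u : E →ₗ[ℂ] Matrix κ κ ℂ) (x : Matrix μ μ E) :
    Matrix ((μ × J) × (κ × I)) ((μ × J) × (κ × I)) ℂ :=
  Matrix.of fun p q => uG G u (xD D x p.1 q.1) p.2 q.2

/-- left operator -/
noncomputable def Gop (G : Matrix (κ × I) (κ × I) ℂ) (Φ : μ × κ → EuclideanSpace ℂ (I × J)) :
    μ × κ → EuclideanSpace ℂ (I × J) :=
  fun ab => WithLp.toLp 2 fun pq => ∑ b'', ∑ p'', G (ab.2, pq.1) (b'', p'') * Φ (ab.1, b'') (p'', pq.2)

/-- right operator -/
noncomputable def Dop (D : Matrix (μ × J) (μ × J) ℂ) (Φ : μ × κ → EuclideanSpace ℂ (I × J)) :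
    μ × κ → EuclideanSpace ℂ (I × J) :=
  fun ab => WithLp.toLp 2 fun pq => ∑ a'', ∑ q'', D (ab.1, pq.2) (a'', q'') * Φ (a'', ab.2) (pq.1, q'')

/-- rearrangement -/
noncomputable def vec (Φ : μ × κ → EuclideanSpace ℂ (I × J)) : (μ × J) × (κ × I) → ℂ :=
  fun P => Φ (P.1.1, P.2.1) (P.2.2, P.1.2)

noncomputable def unvec (v : (μ × J) × (κ × I) → ℂ) : μ × κ → EuclideanSpace ℂ (I × J) :=
  fun ab => WithLp.toLp 2 fun pq => v ((ab.1, pq.2), (ab.2, pq.1))

theorem vec_unvec (v : (μ × J) × (κ × I) → ℂ) : vec (unvec v) = v := rfl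

theorem norm_vec (Φ : μ × κ → EuclideanSpace ℂ (I × J)) : ∑ P, ‖vec Φ P‖ ^ 2 = ∑ ab, ‖Φ ab‖ ^ 2 := by
  simp only [EuclideanSpace.norm_sq_eq, Fintype.sum_prod_type, vec]
  refine Finset.sum_congr rfl fun a _ => ?_
  rw [Finset.sum_comm]
  refine Finset.sum_congr rfl fun b _ => ?_
  rw [Finset.sum_comm]

theorem uG_apply (G : Matrix (κ × I) (κ × I) ℂ) (u : E →ₗ[ℂ] Matrix κ κ ℂ) (e : E) (b : κ) (p : I)
    (b' : κ) (p' : I) :
    uG G u e (b, p) (b', p') = ∑ b'', G (b, p) (b'', p') * u e b'' b' := by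
  change (G * (u e ⊗ₖ (1 : Matrix I I ℂ))) (b, p) (b', p') = _
  rw [Matrix.mul_apply, Fintype.sum_prod_type]
  refine Finset.sum_congr rfl fun b'' _ => ?_
  rw [Finset.sum_eq_single p']
  · simp [Matrix.kroneckerMap_apply]
  · intro j' _ hj'
    simp [Matrix.kroneckerMap_apply, Matrix.one_apply_ne hj']
  · intro h; exact absurd (Finset.mem_univ _) h

theorem bigM_apply (G : Matrix (κ × I) (κ × I) ℂ) (D : Matrix (μ × J) (μ × J) ℂ)
    (u : E →ₗ[ℂ] Matrix κ κ ℂ) (x : Matrix μ μ E) (a : μ) (q : J) (b : κ) (p : I)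
    (a' : μ) (q' : J) (b' : κ) (p' : I) :
    bigM G D u x ((a, q), (b, p)) ((a', q'), (b', p')) =
      ∑ a'', D (a, q) (a'', q') * ∑ b'', G (b, p) (b'', p') * u (x a'' a') b'' b' := by
  change uG G u (∑ a'', D (a, q) (a'', q') • x a'' a') (b, p) (b', p') = _
  rw [map_sum, Matrix.sum_apply]
  refine Finset.sum_congr rfl fun a'' _ => ?_
  rw [map_smul, Matrix.smul_apply, smul_eq_mul, uG_apply]

theorem vec_op (G : Matrix (κ × I) (κ × I) ℂ) (D : Matrix (μ × J) (μ × J) ℂ)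
    (u : E →ₗ[ℂ] Matrix κ κ ℂ) (x : Matrix μ μ E) (Ξ : μ × κ → EuclideanSpace ℂ (I × J))
    (P : (μ × J) × (κ × I)) :
    vec (Gop G (Dop D (act (Matrix.of fun (p q : μ × κ) => u (x p.1 q.1) p.2 q.2)
      LinearMap.id Ξ))) P = ∑ Q, bigM G D u x P Q * vec Ξ Q := by
  obtain ⟨⟨a, q⟩, ⟨b, p⟩⟩ := P
  have hact : ∀ (ab : μ × κ) (pq : I × J),
      (act (Matrix.of fun (p q : μ × κ) => u (x p.1 q.1) p.2 q.2) LinearMap.id Ξ ab) pq =
        ∑ a', ∑ b', u (x ab.1 a') ab.2 b' * Ξ (a', b') pq := by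
    intro ab pq
    simp only [act, Matrix.of_apply, LinearMap.id_coe, id_eq, WithLp.ofLp_sum,
      Finset.sum_apply, PiLp.smul_apply, smul_eq_mul, Fintype.sum_prod_type]
  have hL : vec (Gop G (Dop D (act (Matrix.of fun (p q : μ × κ) => u (x p.1 q.1) p.2 q.2)
      LinearMap.id Ξ))) ((a, q), (b, p)) =
      ∑ b'', ∑ p'', G (b, p) (b'', p'') * ∑ a'', ∑ q'', D (a, q) (a'', q'') *
        ∑ a', ∑ b', u (x a'' a') b'' b' * Ξ (a', b') (p'', q'') := by
    change ∑ b'', ∑ p'', G (b, p) (b'', p'') * ∑ a'', ∑ q'', D (a, q) (a'', q'') *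
      (act (Matrix.of fun (p q : μ × κ) => u (x p.1 q.1) p.2 q.2) LinearMap.id Ξ (a'', b''))
        (p'', q'') = _
    simp only [hact]
  have hR : ∑ Q, bigM G D u x ((a, q), (b, p)) Q * vec Ξ Q =
      ∑ a', ∑ q', ∑ b', ∑ p', (∑ a'', D (a, q) (a'', q') * ∑ b'', G (b, p) (b'', p') *
        u (x a'' a') b'' b') * Ξ (a', b') (p', q') := by
    simp only [Fintype.sum_prod_type, bigM_apply]
    rfl
  rw [hL, hR]
  simp only [Finset.mul_sum, Finset.sum_mul]
  calc ∑ b'', ∑ p'', ∑ a'', ∑ q'', ∑ a', ∑ b', G (b, p) (b'', p'') *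
        (D (a, q) (a'', q'') * (u (x a'' a') b'' b' * (Ξ (a', b')).ofLp (p'', q'')))
      = ∑ a', ∑ q'', ∑ b', ∑ p'', ∑ a'', ∑ b'', G (b, p) (b'', p'') *
        (D (a, q) (a'', q'') * (u (x a'' a') b'' b' * (Ξ (a', b')).ofLp (p'', q''))) := by
        simp only [← Fintype.sum_prod_type']
        refine Fintype.sum_equiv
          ⟨fun t => ⟨t.2.2.2.2.1, t.2.2.2.1, t.2.2.2.2.2, t.2.1, t.2.2.1, t.1⟩,
           fun s => ⟨s.2.2.2.2.2, s.2.2.2.1, s.2.2.2.2.1, s.2.1, s.1, s.2.2.1⟩,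
           fun t => rfl, fun s => rfl⟩ _ _ fun t => rfl
    _ = _ := by
        refine Finset.sum_congr rfl fun a' _ => Finset.sum_congr rfl fun q'' _ =>
          Finset.sum_congr rfl fun b' _ => Finset.sum_congr rfl fun p'' _ =>
          Finset.sum_congr rfl fun a'' _ => Finset.sum_congr rfl fun b'' _ => ?_
        ring

theorem bigM_norm_le (G : Matrix (κ × I) (κ × I) ℂ) (D : Matrix (μ × J) (μ × J) ℂ)
    (u : E →ₗ[ℂ] Matrix κ κ ℂ) (x : Matrix μ μ E) (K : ℝ) (hK : 0 ≤ K)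
    (h : ∀ Ξ : μ × κ → EuclideanSpace ℂ (I × J),
      ∑ ab, ‖Gop G (Dop D (act (Matrix.of fun (p q : μ × κ) => u (x p.1 q.1) p.2 q.2)
        LinearMap.id Ξ)) ab‖ ^ 2 ≤ K ^ 2 * ∑ ab, ‖Ξ ab‖ ^ 2) :
    ‖bigM G D u x‖ ≤ K := by
  refine l2norm_le _ _ hK fun v => ?_
  have h1 := h (unvec v)
  rw [← norm_vec, ← norm_vec, vec_unvec] at h1
  simp only [vec_op, vec_unvec] at h1
  exact h1

theorem le_bigM_norm (G : Matrix (κ × I) (κ × I) ℂ) (D : Matrix (μ × J) (μ × J) ℂ)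
    (u : E →ₗ[ℂ] Matrix κ κ ℂ) (x : Matrix μ μ E) (K : ℝ)
    (Ξ : μ × κ → EuclideanSpace ℂ (I × J)) (hΞ : 0 < ∑ ab, ‖Ξ ab‖ ^ 2)
    (h : K * ∑ ab, ‖Ξ ab‖ ^ 2 ≤
      ∑ ab, ‖Gop G (Dop D (act (Matrix.of fun (p q : μ × κ) => u (x p.1 q.1) p.2 q.2)
        LinearMap.id Ξ)) ab‖ ^ 2) :
    K ≤ ‖bigM G D u x‖ ^ 2 := by
  rw [← norm_vec] at h hΞ
  rw [← norm_vec (Gop G _)] at h
  simp only [vec_op] at h
  have h2 := l2norm_mulVec_sq (bigM G D u x) (vec Ξ)
  by_contra hcon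
  push Not at hcon
  nlinarith

/-- the left matrix -/
noncomputable def Gmat (ρ : Matrix κ κ ℂ) (H A : Matrix I I ℂ) (ε : ℂ) : Matrix (κ × I) (κ × I) ℂ :=
  1 + ε • (ρ ⊗ₖ H) + ε ^ 2 • ((1 : Matrix κ κ ℂ) ⊗ₖ A)

/-- the right matrix -/
noncomputable def Dmat (lam : Matrix μ μ ℂ) (L B : Matrix J J ℂ) (ε : ℂ) : Matrix (μ × J) (μ × J) ℂ :=
  1 + ε • (lam ⊗ₖ L.transpose) + ε ^ 2 • ((1 : Matrix μ μ ℂ) ⊗ₖ B.transpose)

theorem Gop_Gmat (ρ : Matrix κ κ ℂ) (H A : Matrix I I ℂ) (ε : ℂ)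
    (Φ : μ × κ → EuclideanSpace ℂ (I × J)) :
    Gop (Gmat ρ H A ε) Φ = Φ + ε • act ((1 : Matrix μ μ ℂ) ⊗ₖ ρ) (lm H) Φ +
      (ε ^ 2) • act 1 (lm A) Φ := by
  funext ⟨a, b⟩
  ext ⟨p, q⟩
  simp only [Gop, Gmat, act, Pi.add_apply, Pi.smul_apply, PiLp.add_apply, PiLp.smul_apply,
    WithLp.ofLp_sum, Finset.sum_apply, smul_eq_mul, lm_apply, Matrix.add_apply, Matrix.smul_apply,
    Matrix.kroneckerMap_apply, add_mul, Finset.sum_add_distrib]
  congr 1
  · congr 1
    · rw [Finset.sum_eq_single b]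
      · rw [Finset.sum_eq_single p]
        · simp
        · intro p'' _ hp
          rw [Matrix.one_apply_ne (by intro h; exact hp (Prod.ext_iff.mp h).2.symm), zero_mul]
        · intro h; exact absurd (Finset.mem_univ _) h
      · intro b'' _ hb
        refine Finset.sum_eq_zero fun p'' _ => ?_
        rw [Matrix.one_apply_ne (by intro h; exact hb (Prod.ext_iff.mp h).1.symm), zero_mul]
      · intro h; exact absurd (Finset.mem_univ _) h
    · rw [Fintype.sum_prod_type, Finset.sum_eq_single a]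
      · simp only [Matrix.one_apply_eq, one_mul, Finset.mul_sum]
        refine Finset.sum_congr rfl fun b'' _ => Finset.sum_congr rfl fun p'' _ => ?_
        ring
      · intro a'' _ ha
        refine Finset.sum_eq_zero fun b'' _ => ?_
        rw [Matrix.one_apply_ne (Ne.symm ha)]
        simp
      · intro h; exact absurd (Finset.mem_univ _) h
  · rw [Finset.sum_eq_single (a, b)]
    · rw [Finset.sum_eq_single b]
      · simp only [Matrix.one_apply_eq, one_mul, Finset.mul_sum]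
        refine Finset.sum_congr rfl fun p'' _ => ?_
        ring
      · intro b'' _ hb
        refine Finset.sum_eq_zero fun p'' _ => ?_
        rw [Matrix.one_apply_ne (Ne.symm hb)]
        simp
      · intro h; exact absurd (Finset.mem_univ _) h
    · intro ab _ hab
      rw [Matrix.one_apply_ne (Ne.symm hab)]
      simp
    · intro h; exact absurd (Finset.mem_univ _) h

theorem Dop_Dmat (lam : Matrix μ μ ℂ) (L B : Matrix J J ℂ) (ε : ℂ)
    (Φ : μ × κ → EuclideanSpace ℂ (I × J)) :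
    Dop (Dmat lam L B ε) Φ = Φ + ε • act (lam ⊗ₖ (1 : Matrix κ κ ℂ)) (rm L) Φ +
      (ε ^ 2) • act 1 (rm B) Φ := by
  funext ⟨a, b⟩
  ext ⟨p, q⟩
  simp only [Dop, Dmat, act, Pi.add_apply, Pi.smul_apply, PiLp.add_apply, PiLp.smul_apply,
    WithLp.ofLp_sum, Finset.sum_apply, smul_eq_mul, rm_apply, Matrix.add_apply, Matrix.smul_apply,
    Matrix.kroneckerMap_apply, add_mul, Finset.sum_add_distrib, Matrix.transpose_apply]
  congr 1
  · congr 1
    · rw [Finset.sum_eq_single a]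
      · rw [Finset.sum_eq_single q]
        · simp
        · intro p'' _ hp
          rw [Matrix.one_apply_ne (by intro h; exact hp (Prod.ext_iff.mp h).2.symm), zero_mul]
        · intro h; exact absurd (Finset.mem_univ _) h
      · intro b'' _ hb
        refine Finset.sum_eq_zero fun p'' _ => ?_
        rw [Matrix.one_apply_ne (by intro h; exact hb (Prod.ext_iff.mp h).1.symm), zero_mul]
      · intro h; exact absurd (Finset.mem_univ _) h
    · rw [Fintype.sum_prod_type_right, Finset.sum_eq_single b]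
      · simp only [Matrix.one_apply_eq, mul_one, Finset.mul_sum]
        refine Finset.sum_congr rfl fun b'' _ => Finset.sum_congr rfl fun p'' _ => ?_
        ring
      · intro a'' _ ha
        refine Finset.sum_eq_zero fun b'' _ => ?_
        rw [Matrix.one_apply_ne (Ne.symm ha)]
        simp
      · intro h; exact absurd (Finset.mem_univ _) h
  · rw [Finset.sum_eq_single (a, b)]
    · rw [Finset.sum_eq_single a]
      · simp only [Matrix.one_apply_eq, one_mul, Finset.mul_sum]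
        refine Finset.sum_congr rfl fun p'' _ => ?_
        ring
      · intro b'' _ hb
        refine Finset.sum_eq_zero fun p'' _ => ?_
        rw [Matrix.one_apply_ne (Ne.symm hb)]
        simp
      · intro h; exact absurd (Finset.mem_univ _) h
    · intro ab _ hab
      rw [Matrix.one_apply_ne (Ne.symm hab)]
      simp
    · intro h; exact absurd (Finset.mem_univ _) h

end bridge

end Pool.Agent.Helper685.OSep
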