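import Mathlib
import Pool.Agent.Helper685.OSep.Defs2

set_option autoImplicit false

open scoped Matrix.Norms.L2Operator

namespace Pool.Agent.Helper685.OSep

section aux

variable {ι : Type} [Fintype ι]

/-- squared Euclidean norm -/
noncomputable def N2 (v : ι → ℂ) : ℝ := ∑ a, ‖v a‖ ^ 2

theorem N2_nonneg (v : ι → ℂ) : 0 ≤ N2 v := Finset.sum_nonneg fun _ _ => by positivity

theorem star_dot_self (v : ι → ℂ) : star v ⬝ᵥ v = (N2 v : ℂ) := by
  unfold N2 dotProduct
  push_cast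
  apply Finset.sum_congr rfl
  intro a _
  simp only [Pi.star_apply, Complex.star_def]
  rw [mul_comm, Complex.mul_conj, Complex.normSq_eq_norm_sq]
  push_cast
  rfl

theorem N2_eq_zero {v : ι → ℂ} (h : N2 v ≤ 0) : v = 0 := by
  have h1 : ∑ a, ‖v a‖ ^ 2 = 0 := le_antisymm h (N2_nonneg v)
  rw [Finset.sum_eq_zero_iff_of_nonneg (fun _ _ => by positivity)] at h1
  funext a
  have := h1 a (Finset.mem_univ a)
  simpa using this

theorem N2_sub (a b : ι → ℂ) : N2 (a - b) = N2 a + N2 b - 2 * (star b ⬝ᵥ a).re := by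
  have h : ((N2 (a - b) : ℝ) : ℂ) = (N2 a : ℂ) + N2 b - (star b ⬝ᵥ a + star (star b ⬝ᵥ a)) := by
    rw [← star_dot_self, ← star_dot_self, ← star_dot_self]
    have : star (star b ⬝ᵥ a) = star a ⬝ᵥ b := by
      rw [Matrix.star_dotProduct, star_star]
    rw [this, star_sub, sub_dotProduct, dotProduct_sub, dotProduct_sub]
    ring
  have h2 := congrArg Complex.re h
  simp only [Complex.ofReal_re, Complex.sub_re, Complex.add_re, Complex.star_def,
    Complex.conj_re] at h2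
  rw [h2]; ring

theorem N2_add (a b : ι → ℂ) : N2 (a + b) = N2 a + N2 b + 2 * (star b ⬝ᵥ a).re := by
  have h := N2_sub a (-b)
  have h1 : N2 (-b) = N2 b := by unfold N2; simp
  rw [sub_neg_eq_add, h1, star_neg, neg_dotProduct] at h
  rw [h]
  simp only [Complex.neg_re]
  ring

theorem N2_smul (z : ℂ) (a : ι → ℂ) : N2 (z • a) = ‖z‖ ^ 2 * N2 a := by
  unfold N2
  rw [Finset.mul_sum]
  apply Finset.sum_congr rfl
  intro i _
  simp [mul_pow]

theorem norm_toLp_sq (v : ι → ℂ) : ‖(WithLp.toLp 2 v : EuclideanSpace ℂ ι)‖ ^ 2 = N2 v := by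
  rw [EuclideanSpace.norm_sq_eq]
  rfl

variable [DecidableEq ι]

theorem N2_mulVec_le (A : Matrix ι ι ℂ) (v : ι → ℂ) : N2 (A.mulVec v) ≤ ‖A‖ ^ 2 * N2 v := by
  have h := (Matrix.toEuclideanCLM (n := ι) (𝕜 := ℂ) A).le_opNorm (WithLp.toLp 2 v)
  rw [Matrix.l2_opNorm_toEuclideanCLM, Matrix.toEuclideanCLM_toLp] at h
  have h2 := pow_le_pow_left₀ (norm_nonneg _) h 2
  rw [mul_pow, norm_toLp_sq, norm_toLp_sq] at h2
  exact h2

theorem re_dot_le (A : Matrix ι ι ℂ) (u v : ι → ℂ) (hu : N2 u = 1) (hv : N2 v = 1) :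
    (star u ⬝ᵥ A.mulVec v).re ≤ ‖A‖ := by
  have h := re_inner_le_norm (𝕜 := ℂ) (WithLp.toLp 2 u : EuclideanSpace ℂ ι)
    (Matrix.toEuclideanCLM (n := ι) (𝕜 := ℂ) A (WithLp.toLp 2 v))
  have h1 := (Matrix.toEuclideanCLM (n := ι) (𝕜 := ℂ) A).le_opNorm (WithLp.toLp 2 v)
  rw [Matrix.l2_opNorm_toEuclideanCLM] at h1
  have hu' : ‖(WithLp.toLp 2 u : EuclideanSpace ℂ ι)‖ = 1 := by
    have := norm_toLp_sq u
    rw [hu] at this
    nlinarith [norm_nonneg (WithLp.toLp 2 u : EuclideanSpace ℂ ι)]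
  have hv' : ‖(WithLp.toLp 2 v : EuclideanSpace ℂ ι)‖ = 1 := by
    have := norm_toLp_sq v
    rw [hv] at this
    nlinarith [norm_nonneg (WithLp.toLp 2 v : EuclideanSpace ℂ ι)]
  rw [hu', one_mul] at h
  rw [hv', mul_one] at h1
  have h2 : inner ℂ (WithLp.toLp 2 u : EuclideanSpace ℂ ι)
    (Matrix.toEuclideanCLM (n := ι) (𝕜 := ℂ) A (WithLp.toLp 2 v)) = star u ⬝ᵥ A.mulVec v := by
    rw [Matrix.toEuclideanCLM_toLp, EuclideanSpace.inner_eq_star_dotProduct]
    rw [dotProduct_comm]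
  rw [h2] at h
  exact h.trans h1

theorem exists_top [Nonempty ι] (A : Matrix ι ι ℂ) :
    ∃ v : ι → ℂ, N2 v = 1 ∧ N2 (A.mulVec v) = ‖A‖ ^ 2 := by
  set L := Matrix.toEuclideanCLM (n := ι) (𝕜 := ℂ) A with hL
  have hcomp : IsCompact (Metric.sphere (0 : EuclideanSpace ℂ ι) 1) := isCompact_sphere _ _
  have hne : (Metric.sphere (0 : EuclideanSpace ℂ ι) 1).Nonempty := by
    obtain ⟨i⟩ := ‹Nonempty ι›
    exact ⟨EuclideanSpace.single i 1, by simp⟩
  obtain ⟨x, hx, hmax⟩ := hcomp.exists_isMaxOn hne (f := fun x => ‖L x‖) (by fun_prop)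
  have hx1 : ‖x‖ = 1 := by simpa using hx
  have hle : ‖L‖ ≤ ‖L x‖ := by
    apply ContinuousLinearMap.opNorm_le_bound _ (norm_nonneg _)
    intro y
    by_cases hy : y = 0
    · simp [hy]
    · have hyn : 0 < ‖y‖ := norm_pos_iff.mpr hy
      have h1 : ((‖y‖⁻¹ : ℂ) • y) ∈ Metric.sphere (0 : EuclideanSpace ℂ ι) 1 := by
        simp [norm_smul, hyn.ne']
      have h2 := hmax h1
      simp only [Set.mem_ofPred_eq, map_smul, norm_smul, norm_inv, Complex.norm_real, norm_norm] at h2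
      rw [inv_mul_le_iff₀ hyn] at h2
      linarith
  have heq : ‖L x‖ = ‖A‖ := by
    apply le_antisymm
    · have := L.le_opNorm x
      rw [hx1, mul_one] at this
      exact this
    · exact hle
  refine ⟨WithLp.ofLp x, ?_, ?_⟩
  · rw [← norm_toLp_sq]
    simp [hx1]
  · have : N2 (A.mulVec (WithLp.ofLp x)) = ‖L x‖ ^ 2 := by
      rw [← norm_toLp_sq, ← Matrix.toEuclideanCLM_toLp]
    rw [this, heq]

/-- eigenvector equation for a top vector -/
theorem top_eq (A : Matrix ι ι ℂ) (v : ι → ℂ) (hv : N2 (A.mulVec v) = ‖A‖ ^ 2 * N2 v) :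
    A.conjTranspose.mulVec (A.mulVec v) = ((‖A‖ ^ 2 : ℝ) : ℂ) • v := by
  rw [← sub_eq_zero]
  apply N2_eq_zero
  rw [N2_sub, N2_smul]
  have h1 := N2_mulVec_le A.conjTranspose (A.mulVec v)
  rw [Matrix.l2_opNorm_conjTranspose, hv] at h1
  have h2 : (star (((‖A‖ ^ 2 : ℝ) : ℂ) • v) ⬝ᵥ A.conjTranspose.mulVec (A.mulVec v)).re
      = ‖A‖ ^ 2 * (‖A‖ ^ 2 * N2 v) := by
    rw [star_smul, smul_dotProduct, Matrix.dotProduct_mulVec, ← Matrix.star_mulVec, star_dot_self, hv]
    simp only [Complex.star_def, Complex.conj_ofReal, smul_eq_mul]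
    rw [← Complex.ofReal_mul, Complex.ofReal_re]
  rw [h2]
  have h3 : ‖((‖A‖ ^ 2 : ℝ) : ℂ)‖ = ‖A‖ ^ 2 := by
    rw [Complex.norm_real, Real.norm_of_nonneg (by positivity)]
  rw [h3]
  nlinarith

end aux


section aux2

variable {ι : Type} [Fintype ι] [DecidableEq ι]

/-- first order condition at a point where the norm is touched from above -/
theorem pert (T1 B : Matrix ι ι ℂ) (hc : 0 < ‖T1‖) (a b s0 : ℝ) (hs0 : 0 < s0)
    (h : ∀ s : ℝ, |s| < s0 → ‖T1 + (s : ℂ) • B‖ ≤ ‖T1‖ + (s * a + s ^ 2 * b))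
    (v : ι → ℂ) (hv : N2 v = 1) (hv2 : N2 (T1.mulVec v) = ‖T1‖ ^ 2) :
    (star (T1.mulVec v) ⬝ᵥ B.mulVec v).re = ‖T1‖ * a := by
  set c := ‖T1‖ with hcdef
  have hη : N2 (((c⁻¹ : ℝ) : ℂ) • T1.mulVec v) = 1 := by
    rw [N2_smul, hv2, Complex.norm_real, Real.norm_of_nonneg (by positivity)]
    field_simp
  have key : ∀ s : ℝ, |s| < s0 →
      s * (c⁻¹ * (star (T1.mulVec v) ⬝ᵥ B.mulVec v).re - a) ≤ s ^ 2 * b := by
    intro s hs
    have h1 := re_dot_le (T1 + (s : ℂ) • B) _ v hη hv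
    have h2 := h s hs
    have h3 : (star (((c⁻¹ : ℝ) : ℂ) • T1.mulVec v) ⬝ᵥ (T1 + (s : ℂ) • B).mulVec v).re
        = c + s * (c⁻¹ * (star (T1.mulVec v) ⬝ᵥ B.mulVec v).re) := by
      rw [star_smul, smul_dotProduct, Matrix.add_mulVec, Matrix.smul_mulVec, dotProduct_add,
        dotProduct_smul, star_dot_self, hv2]
      simp only [Complex.star_def, Complex.conj_ofReal, smul_eq_mul, Complex.mul_re,
        Complex.ofReal_re, Complex.ofReal_im, Complex.add_re, Complex.add_im, Complex.mul_im]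
      field_simp
      ring
    rw [h3] at h1
    linarith
  set d := c⁻¹ * (star (T1.mulVec v) ⬝ᵥ B.mulVec v).re - a with hd
  have hd0 : d = 0 := by
    have h1 : ∀ s : ℝ, 0 < s → s < s0 → |d| ≤ s * |b| := by
      intro s hs hs'
      have k1 := key s (by rw [abs_of_pos hs]; exact hs')
      have k2 := key (-s) (by rw [abs_neg, abs_of_pos hs]; exact hs')
      have k3 : d ≤ s * b := by
        have : s * d ≤ s * (s * b) := by nlinarith
        exact le_of_mul_le_mul_left this hs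
      have k4 : -d ≤ s * b := by
        have : s * (-d) ≤ s * (s * b) := by nlinarith
        exact le_of_mul_le_mul_left this hs
      have k5 : s * b ≤ s * |b| := mul_le_mul_of_nonneg_left (le_abs_self b) hs.le
      rw [abs_le]
      constructor <;> linarith
    by_contra hne
    have hdp : 0 < |d| := abs_pos.mpr hne
    obtain ⟨s, hs, hs'⟩ : ∃ s : ℝ, 0 < s ∧ s < min s0 (|d| / (|b| + 1)) :=
      exists_between (by positivity)
    have h2 := h1 s hs (lt_of_lt_of_le hs' (min_le_left _ _))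
    have h3 : s < |d| / (|b| + 1) := lt_of_lt_of_le hs' (min_le_right _ _)
    rw [lt_div_iff₀ (by positivity)] at h3
    nlinarith [abs_nonneg b]
  have : c⁻¹ * (star (T1.mulVec v) ⬝ᵥ B.mulVec v).re = a := by linarith
  rw [← this]
  field_simp

end aux2

section kron

variable {m k : ℕ}

open scoped Kronecker

theorem dot_kron_left (w : Fin m × Fin k → ℂ) (i0 i1 : Fin m) (z : ℂ) :
    star w ⬝ᵥ ((Matrix.single i0 i1 z ⊗ₖ (1 : Matrix (Fin k) (Fin k) ℂ)).mulVec w)
      = z * ∑ j, star (w (i0, j)) * w (i1, j) := by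
  simp only [dotProduct, Matrix.mulVec, Fintype.sum_prod_type, Matrix.kroneckerMap_apply,
    Pi.star_apply]
  rw [Finset.sum_eq_single i0]
  · rw [Finset.mul_sum]
    apply Finset.sum_congr rfl
    intro j _
    rw [Finset.sum_eq_single i1]
    · rw [Finset.sum_eq_single j]
      · simp
        ring
      · intro b _ hb
        simp [Matrix.one_apply_ne hb.symm]
      · simp
    · intro b _ hb
      apply Finset.sum_eq_zero
      intro j' _
      simp [hb.symm]
    · simp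
  · intro b _ hb
    apply Finset.sum_eq_zero
    intro j _
    have : ∑ x : Fin m, ∑ x_1 : Fin k, Matrix.single i0 i1 z b x * (1 : Matrix (Fin k) (Fin k) ℂ) j x_1 * w (x, x_1) = 0 := by
      apply Finset.sum_eq_zero
      intro x _
      apply Finset.sum_eq_zero
      intro x1 _
      simp [hb.symm]
    rw [this, mul_zero]
  · simp

theorem dot_kron_right (w : Fin m × Fin k → ℂ) (j0 j1 : Fin k) (z : ℂ) :
    star w ⬝ᵥ (((1 : Matrix (Fin m) (Fin m) ℂ) ⊗ₖ Matrix.single j0 j1 z).mulVec w)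
      = z * ∑ i, star (w (i, j0)) * w (i, j1) := by
  simp only [dotProduct, Matrix.mulVec, Fintype.sum_prod_type, Matrix.kroneckerMap_apply,
    Pi.star_apply]
  rw [Finset.mul_sum]
  apply Finset.sum_congr rfl
  intro i _
  rw [Finset.sum_eq_single j0]
  · rw [Finset.sum_eq_single i]
    · rw [Finset.sum_eq_single j1]
      · simp
        ring
      · intro b _ hb
        simp [hb.symm]
      · simp
    · intro b _ hb
      apply Finset.sum_eq_zero
      intro j' _
      simp [Matrix.one_apply_ne hb.symm]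
    · simp
  · intro b _ hb
    have : ∑ x : Fin m, ∑ x_1 : Fin k, (1 : Matrix (Fin m) (Fin m) ℂ) i x * Matrix.single j0 j1 z b x_1 * w (x, x_1) = 0 := by
      apply Finset.sum_eq_zero
      intro x _
      apply Finset.sum_eq_zero
      intro x1 _
      simp [hb.symm]
    rw [this, mul_zero]
  · simp

/-- a vector as a matrix -/
def Ym (w : Fin m × Fin k → ℂ) : Matrix (Fin m) (Fin k) ℂ := Matrix.of fun i j => w (i, j)

theorem Ym_smul (z : ℂ) (w : Fin m × Fin k → ℂ) : Ym (z • w) = z • Ym w := rfl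
theorem Ym_add (w w' : Fin m × Fin k → ℂ) : Ym (w + w') = Ym w + Ym w' := rfl

theorem Ym_eq_left {w w' : Fin m × Fin k → ℂ}
    (h : ∀ M : Matrix (Fin m) (Fin m) ℂ,
      (star w ⬝ᵥ ((M ⊗ₖ (1 : Matrix (Fin k) (Fin k) ℂ)).mulVec w)).re =
      (star w' ⬝ᵥ ((M ⊗ₖ (1 : Matrix (Fin k) (Fin k) ℂ)).mulVec w')).re) :
    Ym w * (Ym w).conjTranspose = Ym w' * (Ym w').conjTranspose := by
  ext i1 i0
  have h1 := h (Matrix.single i0 i1 1)
  have h2 := h (Matrix.single i0 i1 Complex.I)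
  rw [dot_kron_left, dot_kron_left] at h1 h2
  have h3 : ∑ j, star (w (i0, j)) * w (i1, j) = ∑ j, star (w' (i0, j)) * w' (i1, j) := by
    apply Complex.ext
    · simpa using h1
    · simpa using h2
  simp only [Matrix.mul_apply, Matrix.conjTranspose_apply, Ym, Matrix.of_apply]
  calc ∑ j, w (i1, j) * star (w (i0, j)) = ∑ j, star (w (i0, j)) * w (i1, j) := by
        apply Finset.sum_congr rfl; intro j _; ring
    _ = ∑ j, star (w' (i0, j)) * w' (i1, j) := h3
    _ = _ := by apply Finset.sum_congr rfl; intro j _; ring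

theorem Ym_eq_right {w w' : Fin m × Fin k → ℂ}
    (h : ∀ M : Matrix (Fin k) (Fin k) ℂ,
      (star w ⬝ᵥ (((1 : Matrix (Fin m) (Fin m) ℂ) ⊗ₖ M).mulVec w)).re =
      (star w' ⬝ᵥ (((1 : Matrix (Fin m) (Fin m) ℂ) ⊗ₖ M).mulVec w')).re) :
    (Ym w).conjTranspose * Ym w = (Ym w').conjTranspose * Ym w' := by
  ext j0 j1
  have h1 := h (Matrix.single j0 j1 1)
  have h2 := h (Matrix.single j0 j1 Complex.I)
  rw [dot_kron_right, dot_kron_right] at h1 h2
  have h3 : ∑ i, star (w (i, j0)) * w (i, j1) = ∑ i, star (w' (i, j0)) * w' (i, j1) := by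
    apply Complex.ext
    · simpa using h1
    · simpa using h2
  simp only [Matrix.mul_apply, Matrix.conjTranspose_apply, Ym, Matrix.of_apply]
  exact h3

open scoped ComplexOrder in
theorem Y_contra (Y1 Y2 : Matrix (Fin m) (Fin k) ℂ) (r : ℂ) (hr : r * star r = 1 / 2)
    (h12 : Y1 * Y1.conjTranspose = Y2 * Y2.conjTranspose)
    (hQ : Y1.conjTranspose * Y1 = Y2.conjTranspose * Y2)
    (hp : (r • (Y1 + (1 : ℂ) • Y2)) * (r • (Y1 + (1 : ℂ) • Y2)).conjTranspose
      = Y1 * Y1.conjTranspose)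
    (hi : (r • (Y1 + Complex.I • Y2)) * (r • (Y1 + Complex.I • Y2)).conjTranspose
      = Y1 * Y1.conjTranspose) : Y2 = 0 := by
  have e : ∀ z : ℂ, z * star z = 1 → (r • (Y1 + z • Y2)) * (r • (Y1 + z • Y2)).conjTranspose
      = Y1 * Y1.conjTranspose → star z • (Y1 * Y2.conjTranspose) + z • (Y2 * Y1.conjTranspose) = 0 := by
    intro z hz h
    simp only [Matrix.conjTranspose_smul, Matrix.conjTranspose_add, Matrix.smul_mul,
      Matrix.mul_smul, Matrix.add_mul, Matrix.mul_add, smul_smul] at h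
    rw [← h12] at h
    have hz' : star z * z = 1 := by rw [mul_comm]; exact hz
    have hr' : r * star r = 1 / 2 := hr
    have h4 : (r * star r) • ((2 : ℂ) • (Y1 * Y1.conjTranspose) +
        (star z • (Y1 * Y2.conjTranspose) + z • (Y2 * Y1.conjTranspose)))
        = Y1 * Y1.conjTranspose := by
      ext i j
      have h' := congrFun (congrFun h i) j
      simp only [Matrix.smul_apply, Matrix.add_apply, smul_eq_mul] at h' ⊢
      have hA : (Y1 * Y1.conjTranspose) i j = (z * star z) * (Y1 * Y1.conjTranspose) i j := by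
        rw [hz, one_mul]
      linear_combination h' + (r * star r) * hA
    rw [hr'] at h4
    ext i j
    have h5 := congrFun (congrFun h4 i) j
    simp only [Matrix.smul_apply, Matrix.add_apply, smul_eq_mul, Matrix.zero_apply] at h5 ⊢
    linear_combination 2 * h5
  have e1 := e 1 (by simp) hp
  have e2 := e Complex.I (by simp) hi
  have h6 : Y1 * Y2.conjTranspose = 0 := by
    ext i j
    have a1 := congrFun (congrFun e1 i) j
    have a2 := congrFun (congrFun e2 i) j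
    simp only [Matrix.smul_apply, Matrix.add_apply, smul_eq_mul, Matrix.zero_apply, star_one,
      one_mul, Complex.star_def, Complex.conj_I] at a1 a2 ⊢
    have hI : Complex.I * Complex.I = -1 := Complex.I_mul_I
    linear_combination (1/2 : ℂ) * a1 + (Complex.I / 2) * a2 +
      ((Y1 * Y2.conjTranspose) i j / 2 - (Y2 * Y1.conjTranspose) i j / 2) * hI
  have h7 : Y2.conjTranspose * (Y2 * Y2.conjTranspose) = 0 := by
    rw [← Matrix.mul_assoc, ← hQ, Matrix.mul_assoc, h6, Matrix.mul_zero]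
  have h8 : (Y2 * Y2.conjTranspose).conjTranspose * (Y2 * Y2.conjTranspose) = 0 := by
    rw [Matrix.conjTranspose_mul, Matrix.conjTranspose_conjTranspose, Matrix.mul_assoc, h7,
      Matrix.mul_zero]
  have h9 : Y2 * Y2.conjTranspose = 0 := Matrix.conjTranspose_mul_self_eq_zero.mp h8
  exact Matrix.self_mul_conjTranspose_eq_zero.mp h9

end kron

set_option maxHeartbeats 1000000 in
/-- TARGET. Local operators arbitrarily close to the identity make the largest singular value of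
`T` simple. -/
theorem exists_simpleTop {m k : ℕ} (T : Matrix (Fin m × Fin k) (Fin m × Fin k) ℂ) (hT : T ≠ 0)
    (ε : ℝ) (hε : 0 < ε) :
    ∃ (lam : Matrix (Fin m) (Fin m) ℂ) (rho : Matrix (Fin k) (Fin k) ℂ) (c g : ℝ)
      (ξ η : Fin m × Fin k → ℂ), ‖lam - 1‖ < ε ∧ ‖rho - 1‖ < ε ∧
        SimpleTop (Matrix.kroneckerMap (· * ·) lam rho * T) c g ξ η := by
  classical
  have hne : Nonempty (Fin m × Fin k) := by
    by_contra h
    rw [not_nonempty_iff] at h
    apply hT
    ext a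
    exact (h.false a).elim
  have : ProperSpace (Matrix (Fin m) (Fin m) ℂ) := FiniteDimensional.proper ℂ _
  have : ProperSpace (Matrix (Fin k) (Fin k) ℂ) := FiniteDimensional.proper ℂ _
  let vm : Matrix (Fin m) (Fin m) ℂ → (Fin m × Fin m → ℂ) := fun A a => A a.1 a.2
  let vk : Matrix (Fin k) (Fin k) ℂ → (Fin k × Fin k → ℂ) := fun A a => A a.1 a.2
  let F : Matrix (Fin m) (Fin m) ℂ × Matrix (Fin k) (Fin k) ℂ → ℝ :=
    fun x => ‖Matrix.kroneckerMap (· * ·) x.1 x.2 * T‖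
  let q : Matrix (Fin m) (Fin m) ℂ × Matrix (Fin k) (Fin k) ℂ → ℝ :=
    fun x => N2 (vm (x.1 - 1)) + N2 (vk (x.2 - 1))
  have hFc : Continuous F := by
    apply Continuous.norm
    apply Continuous.matrix_mul
    · apply continuous_matrix
      intro i j
      simp only [Matrix.kroneckerMap_apply]
      fun_prop
    · exact continuous_const
  have hqc : Continuous q := by
    show Continuous fun x : Matrix (Fin m) (Fin m) ℂ × Matrix (Fin k) (Fin k) ℂ =>
      ∑ a : Fin m × Fin m, ‖(x.1 - 1) a.1 a.2‖ ^ 2 + ∑ a : Fin k × Fin k, ‖(x.2 - 1) a.1 a.2‖ ^ 2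
    simp only [Matrix.sub_apply]
    fun_prop
  set x1 : Matrix (Fin m) (Fin m) ℂ × Matrix (Fin k) (Fin k) ℂ := (1, 1) with hx1
  have hq1 : q x1 = 0 := by
    show N2 (vm (1 - 1)) + N2 (vk (1 - 1)) = 0
    simp [vm, vk, N2]
  have hqn : ∀ x, 0 ≤ q x := fun x => add_nonneg (N2_nonneg _) (N2_nonneg _)
  have hq0 : ∀ x, q x ≤ 0 → x = x1 := by
    intro x hx
    have h1 : N2 (vm (x.1 - 1)) ≤ 0 := by
      have : N2 (vm (x.1 - 1)) + N2 (vk (x.2 - 1)) ≤ 0 := hx
      linarith [N2_nonneg (vk (x.2 - 1))]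
    have h2 : N2 (vk (x.2 - 1)) ≤ 0 := by
      have : N2 (vm (x.1 - 1)) + N2 (vk (x.2 - 1)) ≤ 0 := hx
      linarith [N2_nonneg (vm (x.1 - 1))]
    have h3 := N2_eq_zero h1
    have h4 := N2_eq_zero h2
    apply Prod.ext
    · rw [← sub_eq_zero]
      ext i j
      exact congrFun h3 (i, j)
    · rw [← sub_eq_zero]
      ext i j
      exact congrFun h4 (i, j)
  have hF1 : F x1 = ‖T‖ := by
    show ‖Matrix.kroneckerMap (· * ·) (1 : Matrix (Fin m) (Fin m) ℂ) (1 : Matrix (Fin k) (Fin k) ℂ) * T‖ = ‖T‖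
    rw [Matrix.one_kronecker_one, one_mul]
  have hTpos : 0 < ‖T‖ := norm_pos_iff.mpr hT
  obtain ⟨r, hr0, hrε⟩ : ∃ r : ℝ, 0 < r ∧ r < ε := exists_between hε
  obtain ⟨C, hC0, hC⟩ : ∃ C : ℝ, 0 ≤ C ∧ ∀ x ∈ Metric.sphere x1 r, F x ≤ C * q x := by
    have hcomp : IsCompact (Metric.sphere x1 r) := isCompact_sphere _ _
    have hqpos : ∀ x ∈ Metric.sphere x1 r, 0 < q x := by
      intro x hx
      by_contra h
      push Not at h
      have := hq0 x h
      rw [this] at hx
      simp at hx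
      linarith
    have hcont : ContinuousOn (fun x => F x / q x) (Metric.sphere x1 r) :=
      hFc.continuousOn.div hqc.continuousOn (fun x hx => (hqpos x hx).ne')
    obtain ⟨C0, hC0⟩ := hcomp.bddAbove_image hcont
    refine ⟨max C0 0, le_max_right _ _, fun x hx => ?_⟩
    have h1 : F x / q x ≤ C0 := hC0 ⟨x, hx, rfl⟩
    rw [div_le_iff₀ (hqpos x hx)] at h1
    exact h1.trans (mul_le_mul_of_nonneg_right (le_max_left _ _) (hqn x))
  obtain ⟨x0, hx0K, hx0max⟩ := (isCompact_closedBall x1 r).exists_isMaxOn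
    ⟨x1, Metric.mem_closedBall_self hr0.le⟩
    (f := fun x => F x - C * q x) (hFc.sub (continuous_const.mul hqc)).continuousOn
  have hG1 : ‖T‖ ≤ F x0 - C * q x0 := by
    have := hx0max (Metric.mem_closedBall_self hr0.le : x1 ∈ Metric.closedBall x1 r)
    simp only [Set.mem_ofPred_eq, hq1, hF1] at this
    linarith
  have hx0r : dist x0 x1 < r := by
    rcases (Metric.mem_closedBall.mp hx0K).lt_or_eq with h | h
    · exact h
    · exfalso
      have := hC x0 (Metric.mem_sphere.mpr h)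
      linarith
  obtain ⟨T1, hT1⟩ : ∃ T1, T1 = Matrix.kroneckerMap (· * ·) x0.1 x0.2 * T := ⟨_, rfl⟩
  have hcF : F x0 = ‖T1‖ := by rw [hT1]
  have hcpos : 0 < ‖T1‖ := by
    rw [← hcF]
    have : 0 ≤ C * q x0 := mul_nonneg hC0 (hqn _)
    linarith
  -- perturbations
  have hpert : ∀ (D : Matrix (Fin m) (Fin m) ℂ × Matrix (Fin k) (Fin k) ℂ)
      (B : Matrix (Fin m × Fin k) (Fin m × Fin k) ℂ),
      (∀ s : ℝ, Matrix.kroneckerMap (· * ·) (x0.1 + (s : ℂ) • D.1) (x0.2 + (s : ℂ) • D.2) * T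
        = T1 + (s : ℂ) • B) →
      ∃ a : ℝ, ∀ v, N2 v = 1 → N2 (T1.mulVec v) = ‖T1‖ ^ 2 →
        (star (T1.mulVec v) ⬝ᵥ B.mulVec v).re = a := by
    intro D B hB
    have hqs : ∀ s : ℝ, q (x0.1 + (s : ℂ) • D.1, x0.2 + (s : ℂ) • D.2) = q x0 +
        (s * (2 * (star (vm D.1) ⬝ᵥ vm (x0.1 - 1)).re + 2 * (star (vk D.2) ⬝ᵥ vk (x0.2 - 1)).re)
          + s ^ 2 * (N2 (vm D.1) + N2 (vk D.2))) := by
      intro s
      show N2 (vm (x0.1 + (s : ℂ) • D.1 - 1)) + N2 (vk (x0.2 + (s : ℂ) • D.2 - 1)) = _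
      have e1 : vm (x0.1 + (s : ℂ) • D.1 - 1) = vm (x0.1 - 1) + (s : ℂ) • vm D.1 := by
        funext a
        simp only [vm, Matrix.sub_apply, Matrix.add_apply, Matrix.smul_apply, Pi.add_apply,
          Pi.smul_apply]
        ring
      have e2 : vk (x0.2 + (s : ℂ) • D.2 - 1) = vk (x0.2 - 1) + (s : ℂ) • vk D.2 := by
        funext a
        simp only [vk, Matrix.sub_apply, Matrix.add_apply, Matrix.smul_apply, Pi.add_apply,
          Pi.smul_apply]
        ring
      rw [e1, e2, N2_add, N2_add, N2_smul, N2_smul, star_smul, star_smul, smul_dotProduct,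
        smul_dotProduct, Complex.norm_real, Real.norm_eq_abs, sq_abs]
      simp only [Complex.star_def, Complex.conj_ofReal, smul_eq_mul, Complex.mul_re,
        Complex.ofReal_re, Complex.ofReal_im, zero_mul, sub_zero]
      show _ = N2 (vm (x0.1 - 1)) + N2 (vk (x0.2 - 1)) + _
      ring
    refine ⟨‖T1‖ * (C * (2 * (star (vm D.1) ⬝ᵥ vm (x0.1 - 1)).re +
      2 * (star (vk D.2) ⬝ᵥ vk (x0.2 - 1)).re)), fun v hv hv2 => ?_⟩
    refine pert T1 B hcpos _ (C * (N2 (vm D.1) + N2 (vk D.2)))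
      ((r - dist x0 x1) / (‖D‖ + 1)) (div_pos (by linarith) (by positivity)) ?_ v hv hv2
    intro s hs
    have hmem : ((x0.1 + (s : ℂ) • D.1, x0.2 + (s : ℂ) • D.2) :
        Matrix (Fin m) (Fin m) ℂ × Matrix (Fin k) (Fin k) ℂ) ∈ Metric.closedBall x1 r := by
      rw [Metric.mem_closedBall]
      have e : ((x0.1 + (s : ℂ) • D.1, x0.2 + (s : ℂ) • D.2) :
        Matrix (Fin m) (Fin m) ℂ × Matrix (Fin k) (Fin k) ℂ) = x0 + (s : ℂ) • D := rfl
      rw [e]
      have h1 : dist (x0 + (s : ℂ) • D) x0 ≤ |s| * ‖D‖ := by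
        rw [dist_eq_norm, add_sub_cancel_left, norm_smul, Complex.norm_real, Real.norm_eq_abs]
      have h2 : |s| * ‖D‖ ≤ r - dist x0 x1 := by
        rw [lt_div_iff₀ (by positivity)] at hs
        nlinarith [abs_nonneg s]
      linarith [dist_triangle (x0 + (s : ℂ) • D) x0 x1]
    have h3 := hx0max hmem
    simp only [Set.mem_ofPred_eq] at h3
    rw [hqs] at h3
    have h4 : F (x0.1 + (s : ℂ) • D.1, x0.2 + (s : ℂ) • D.2) = ‖T1 + (s : ℂ) • B‖ := by
      show ‖Matrix.kroneckerMap (· * ·) (x0.1 + (s : ℂ) • D.1) (x0.2 + (s : ℂ) • D.2) * T‖ = _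
      rw [hB]
    rw [h4, hcF] at h3
    nlinarith
  have hleft : ∀ v v', N2 v = 1 → N2 (T1.mulVec v) = ‖T1‖ ^ 2 → N2 v' = 1 →
      N2 (T1.mulVec v') = ‖T1‖ ^ 2 →
      Ym (T1.mulVec v) * (Ym (T1.mulVec v)).conjTranspose =
        Ym (T1.mulVec v') * (Ym (T1.mulVec v')).conjTranspose := by
    intro v v' h1 h2 h3 h4
    apply Ym_eq_left
    intro M
    obtain ⟨a, ha⟩ := hpert (M * x0.1, 0)
      (Matrix.kroneckerMap (· * ·) M (1 : Matrix (Fin k) (Fin k) ℂ) * T1) (by
        intro s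
        simp only [smul_zero, add_zero]
        rw [Matrix.add_kronecker, Matrix.add_mul, Matrix.smul_kronecker, Matrix.smul_mul, hT1]
        congr 2
        rw [← Matrix.mul_assoc, ← Matrix.mul_kronecker_mul, one_mul])
    have e1 := ha v h1 h2
    have e2 := ha v' h3 h4
    rw [← Matrix.mulVec_mulVec] at e1 e2
    rw [e1, e2]
  have hright : ∀ v v', N2 v = 1 → N2 (T1.mulVec v) = ‖T1‖ ^ 2 → N2 v' = 1 →
      N2 (T1.mulVec v') = ‖T1‖ ^ 2 →
      (Ym (T1.mulVec v)).conjTranspose * Ym (T1.mulVec v) =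
        (Ym (T1.mulVec v')).conjTranspose * Ym (T1.mulVec v') := by
    intro v v' h1 h2 h3 h4
    apply Ym_eq_right
    intro M
    obtain ⟨a, ha⟩ := hpert (0, M * x0.2)
      (Matrix.kroneckerMap (· * ·) (1 : Matrix (Fin m) (Fin m) ℂ) M * T1) (by
        intro s
        simp only [smul_zero, add_zero]
        rw [Matrix.kronecker_add, Matrix.add_mul, Matrix.kronecker_smul, Matrix.smul_mul, hT1]
        congr 2
        rw [← Matrix.mul_assoc, ← Matrix.mul_kronecker_mul, one_mul])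
    have e1 := ha v h1 h2
    have e2 := ha v' h3 h4
    rw [← Matrix.mulVec_mulVec] at e1 e2
    rw [e1, e2]
  -- the top vector
  obtain ⟨ξ, hξ1, hξ2⟩ := exists_top T1
  have hξeq := top_eq T1 ξ (by rw [hξ1, mul_one, hξ2])
  -- no second top vector
  have hno : ∀ ξ2, N2 ξ2 = 1 → star ξ ⬝ᵥ ξ2 = 0 → N2 (T1.mulVec ξ2) = ‖T1‖ ^ 2 → False := by
    intro ξ2 h1 h2 h3
    have h2' : star ξ2 ⬝ᵥ ξ = 0 := by
      have := congrArg star h2
      rw [Matrix.star_dotProduct, star_star, star_zero] at this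
      exact this
    have hT0 : star (T1.mulVec ξ2) ⬝ᵥ T1.mulVec ξ = 0 := by
      rw [Matrix.star_mulVec, ← Matrix.dotProduct_mulVec, hξeq, dotProduct_smul, h2', smul_zero]
    -- combination
    have hcomb : ∀ z : ℂ, ‖z‖ = 1 →
        N2 (((Real.sqrt (1/2) : ℝ) : ℂ) • (ξ + z • ξ2)) = 1 ∧
        N2 (T1.mulVec (((Real.sqrt (1/2) : ℝ) : ℂ) • (ξ + z • ξ2))) = ‖T1‖ ^ 2 := by
      intro z hz
      have hs : ‖((Real.sqrt (1/2) : ℝ) : ℂ)‖ ^ 2 = 1/2 := by
        rw [Complex.norm_real, Real.norm_of_nonneg (Real.sqrt_nonneg _),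
          Real.sq_sqrt (by norm_num)]
      constructor
      · rw [N2_smul, N2_add, N2_smul, hz, hs, star_smul, smul_dotProduct, h2', hξ1, h1]
        simp
        norm_num
      · rw [Matrix.mulVec_smul, Matrix.mulVec_add, Matrix.mulVec_smul, N2_smul, N2_add, N2_smul,
          hz, hs, star_smul, smul_dotProduct, hT0, hξ2, h3]
        simp
        ring
    obtain ⟨p1, p2⟩ := hcomb 1 (by simp)
    obtain ⟨i1, i2⟩ := hcomb Complex.I (by simp)
    have hY2 : Ym (T1.mulVec ξ2) = 0 := by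
      apply Y_contra (Ym (T1.mulVec ξ)) (Ym (T1.mulVec ξ2)) ((Real.sqrt (1/2) : ℝ) : ℂ)
      · simp only [Complex.star_def, Complex.conj_ofReal]
        rw [← Complex.ofReal_mul, Real.mul_self_sqrt (by norm_num)]
        norm_num
      · exact hleft _ _ hξ1 hξ2 h1 h3
      · exact hright _ _ hξ1 hξ2 h1 h3
      · have := hleft _ _ p1 p2 hξ1 hξ2
        rwa [Matrix.mulVec_smul, Matrix.mulVec_add, Matrix.mulVec_smul] at this
      · have := hleft _ _ i1 i2 hξ1 hξ2
        rwa [Matrix.mulVec_smul, Matrix.mulVec_add, Matrix.mulVec_smul] at this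
    have : N2 (T1.mulVec ξ2) = 0 := by
      unfold N2
      apply Finset.sum_eq_zero
      intro a _
      have : T1.mulVec ξ2 a = 0 := congrFun (congrFun hY2 a.1) a.2
      rw [this]
      simp
    rw [h3] at this
    have h5 : 0 < ‖T1‖ ^ 2 := by positivity
    linarith
  -- the gap
  obtain ⟨g, hg0, hgc, hgap⟩ : ∃ g : ℝ, 0 < g ∧ g ≤ ‖T1‖ ^ 2 ∧
      ∀ v, N2 v = 1 → star ξ ⬝ᵥ v = 0 → N2 (T1.mulVec v) ≤ ‖T1‖ ^ 2 - g := by
    by_cases hS : ∃ v, N2 v = 1 ∧ star ξ ⬝ᵥ v = 0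
    · have hcomp : IsCompact {v : Fin m × Fin k → ℂ | N2 v = 1 ∧ star ξ ⬝ᵥ v = 0} := by
        apply Metric.isCompact_of_isClosed_isBounded
        · apply IsClosed.inter
          · apply isClosed_eq
            · unfold N2; fun_prop
            · exact continuous_const
          · apply isClosed_eq
            · unfold dotProduct; fun_prop
            · exact continuous_const
        · apply (Metric.isBounded_closedBall (x := (0 : Fin m × Fin k → ℂ)) (r := 1)).subset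
          rintro v ⟨hv, _⟩
          rw [mem_closedBall_zero_iff, pi_norm_le_iff_of_nonneg (by norm_num)]
          intro a
          have h1 : ‖v a‖ ^ 2 ≤ 1 := by
            rw [← hv]
            exact Finset.single_le_sum (f := fun a => ‖v a‖ ^ 2) (fun _ _ => by positivity)
              (Finset.mem_univ a)
          nlinarith [norm_nonneg (v a)]
      obtain ⟨v0, ⟨hv0, hv0'⟩, hmax⟩ := hcomp.exists_isMaxOn hS
        (f := fun v => N2 (T1.mulVec v)) (by
          apply Continuous.continuousOn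
          unfold N2 Matrix.mulVec dotProduct
          fun_prop)
      have hle := N2_mulVec_le T1 v0
      rw [hv0, mul_one] at hle
      have hlt : N2 (T1.mulVec v0) < ‖T1‖ ^ 2 :=
        lt_of_le_of_ne hle (fun h => hno v0 hv0 hv0' h)
      refine ⟨‖T1‖ ^ 2 - N2 (T1.mulVec v0), by linarith, by linarith [N2_nonneg (T1.mulVec v0)], ?_⟩
      intro v hv hv'
      have := hmax (show v ∈ {v : Fin m × Fin k → ℂ | N2 v = 1 ∧ star ξ ⬝ᵥ v = 0} from ⟨hv, hv'⟩)
      simp only [Set.mem_ofPred_eq] at this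
      linarith
    · exact ⟨‖T1‖ ^ 2, by positivity, le_rfl, fun v h1 h2 => absurd ⟨v, h1, h2⟩ hS⟩
  refine ⟨x0.1, x0.2, ‖T1‖, g, ξ, ((‖T1‖⁻¹ : ℝ) : ℂ) • T1.mulVec ξ, ?_, ?_, ?_⟩
  · have h1 : dist x0.1 1 ≤ dist x0 x1 := by
      rw [Prod.dist_eq]; exact le_max_left _ _
    rw [dist_eq_norm] at h1
    linarith
  · have h1 : dist x0.2 1 ≤ dist x0 x1 := by
      rw [Prod.dist_eq]; exact le_max_right _ _
    rw [dist_eq_norm] at h1
    linarith
  · rw [← hT1]
    refine ⟨hcpos, hg0, hgc, hξ1, ?_, ?_, ?_, ?_⟩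
    · show N2 (((‖T1‖⁻¹ : ℝ) : ℂ) • T1.mulVec ξ) = 1
      rw [N2_smul, hξ2, Complex.norm_real, Real.norm_of_nonneg (by positivity)]
      field_simp
    · funext a
      simp only [Pi.smul_apply, smul_eq_mul]
      rw [← mul_assoc, ← Complex.ofReal_mul, mul_inv_cancel₀ hcpos.ne', Complex.ofReal_one, one_mul]
    · rw [Matrix.mulVec_smul]
      funext a
      have h1 := congrFun hξeq a
      simp only [Pi.smul_apply, smul_eq_mul] at h1 ⊢
      rw [h1, ← mul_assoc, ← Complex.ofReal_mul]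
      congr 2
      field_simp
    · intro v hv
      show N2 (T1.mulVec v) ≤ (‖T1‖ ^ 2 - g) * N2 v
      have hv' : star ξ ⬝ᵥ v = 0 := hv
      by_cases h0 : N2 v ≤ 0
      · rw [N2_eq_zero h0]
        simp [N2]
      · push Not at h0
        have hs : ‖((Real.sqrt (N2 v))⁻¹ : ℂ)‖ ^ 2 = (N2 v)⁻¹ := by
          rw [norm_inv, Complex.norm_real, Real.norm_of_nonneg (Real.sqrt_nonneg _), inv_pow,
            Real.sq_sqrt h0.le]
        have h1 := hgap (((Real.sqrt (N2 v))⁻¹ : ℂ) • v) (by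
          rw [N2_smul, hs, inv_mul_cancel₀ h0.ne']) (by
          rw [dotProduct_smul, hv', smul_zero])
        rw [Matrix.mulVec_smul, N2_smul, hs, inv_mul_le_iff₀ h0] at h1
        linarith

end Pool.Agent.Helper685.OSep
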