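import Mathlib
import Pool.Agent.Helper685.OSep.Defs

set_option autoImplicit false

open scoped Matrix.Norms.L2Operator

namespace Pool.Agent.Helper685.OSep

/-- flatten a tuple of vectors -/
noncomputable def flatH {κ : Type} {n : ℕ} (v : Fin n → EuclideanSpace ℂ κ) :
    EuclideanSpace ℂ (Fin n × κ) := WithLp.toLp 2 (fun p => v p.1 p.2)

theorem norm_flatH {κ : Type} [Fintype κ] {n : ℕ} (v : Fin n → EuclideanSpace ℂ κ) :
    ‖flatH v‖ ^ 2 = ∑ j, ‖v j‖ ^ 2 := by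
  rw [EuclideanSpace.norm_sq_eq, Fintype.sum_prod_type]
  refine Finset.sum_congr rfl fun j _ => ?_
  rw [EuclideanSpace.norm_sq_eq]
  rfl

theorem clm_flatH {κ : Type} [Fintype κ] [DecidableEq κ] {n : ℕ}
    (B : Fin n → Fin n → Matrix κ κ ℂ) (v : Fin n → EuclideanSpace ℂ κ) :
    Matrix.toEuclideanCLM (n := Fin n × κ) (𝕜 := ℂ)
      (Matrix.of fun (p q : Fin n × κ) => B p.1 q.1 p.2 q.2) (flatH v) =
    flatH (fun i => ∑ j, Matrix.toEuclideanCLM (n := κ) (𝕜 := ℂ) (B i j) (v j)) := by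
  ext p
  rw [flatH, Matrix.toEuclideanCLM_toLp]
  simp only [flatH, Matrix.mulVec, dotProduct, Matrix.of_apply, Fintype.sum_prod_type,
    PiLp.toLp_apply, WithLp.ofLp_sum, Finset.sum_apply, Matrix.ofLp_toEuclideanCLM]

theorem sum_le_normH {κ : Type} [Fintype κ] [DecidableEq κ] {n : ℕ}
    (B : Fin n → Fin n → Matrix κ κ ℂ) (v : Fin n → EuclideanSpace ℂ κ) :
    ∑ i, ‖∑ j, Matrix.toEuclideanCLM (n := κ) (𝕜 := ℂ) (B i j) (v j)‖ ^ 2 ≤
      ‖(Matrix.of fun (p q : Fin n × κ) => B p.1 q.1 p.2 q.2)‖ ^ 2 * ∑ j, ‖v j‖ ^ 2 := by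
  rw [← norm_flatH, ← clm_flatH, ← norm_flatH, ← mul_pow]
  refine pow_le_pow_left₀ (norm_nonneg _) ?_ 2
  rw [← Matrix.l2_opNorm_toEuclideanCLM]
  exact ContinuousLinearMap.le_opNorm _ _

theorem norm_le_ofH {κ : Type} [Fintype κ] [DecidableEq κ] {n : ℕ}
    (B : Fin n → Fin n → Matrix κ κ ℂ) (C : ℝ) (hC : 0 ≤ C)
    (h : ∀ v : Fin n → EuclideanSpace ℂ κ,
      ∑ i, ‖∑ j, Matrix.toEuclideanCLM (n := κ) (𝕜 := ℂ) (B i j) (v j)‖ ^ 2 ≤
        C ^ 2 * ∑ j, ‖v j‖ ^ 2) :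
    ‖(Matrix.of fun (p q : Fin n × κ) => B p.1 q.1 p.2 q.2)‖ ≤ C := by
  rw [← Matrix.l2_opNorm_toEuclideanCLM]
  refine ContinuousLinearMap.opNorm_le_bound _ hC fun u => ?_
  obtain ⟨v, rfl⟩ : ∃ v : Fin n → EuclideanSpace ℂ κ, u = flatH v :=
    ⟨fun j => WithLp.toLp 2 (fun q => u (j, q)), by ext p; rfl⟩
  rw [clm_flatH]
  have h1 := h v
  rw [← norm_flatH, ← norm_flatH, ← mul_pow] at h1
  exact le_of_sq_le_sq h1 (by positivity)

section lpstuff

variable {E : Type} [NormedAddCommGroup E] [NormedSpace ℂ E] {ι : Type}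
    {κ : ι → ℕ} (w : (i : ι) → E →ₗ[ℂ] Matrix (Fin (κ i)) (Fin (κ i)) ℂ)

abbrev HH (κ : ι → ℕ) : Type := lp (fun i : ι => EuclideanSpace ℂ (Fin (κ i))) 2

theorem hasSum_sqH (f : HH κ) : HasSum (fun i => ‖f i‖ ^ 2) (‖f‖ ^ 2) := by
  have := lp.hasSum_norm (p := 2) (by norm_num) f
  simpa using this

theorem norm_block_leH (hle : ∀ i e, ‖w i e‖ ≤ ‖e‖) (e : E) (i : ι)
    (v : EuclideanSpace ℂ (Fin (κ i))) :
    ‖Matrix.toEuclideanCLM (n := Fin (κ i)) (𝕜 := ℂ) (w i e) v‖ ≤ ‖e‖ * ‖v‖ := by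
  refine (ContinuousLinearMap.le_opNorm _ _).trans ?_
  rw [Matrix.l2_opNorm_toEuclideanCLM]
  exact mul_le_mul_of_nonneg_right (hle i e) (norm_nonneg _)

/-- block diagonal operator -/
noncomputable def JfunH (hle : ∀ i e, ‖w i e‖ ≤ ‖e‖) (e : E) : HH κ →L[ℂ] HH κ :=
  LinearMap.mkContinuous
    { toFun := fun f => ⟨fun i => Matrix.toEuclideanCLM (n := Fin (κ i)) (𝕜 := ℂ) (w i e) (f i),
        Memℓp.mono ((lp.memℓp f).norm.const_mul ‖e‖) (fun i => norm_block_leH w hle e i (f i))⟩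
      map_add' := by
        intro f g
        ext i : 2
        first
          | (simp [lp.coeFn_add]; done)
          | (simp [lp.coeFn_add]; rfl)
      map_smul' := by
        intro c f
        ext i : 2
        simp [lp.coeFn_smul] } ‖e‖ (by
      intro f
      apply le_of_sq_le_sq _ (by positivity)
      rw [mul_pow]
      refine hasSum_le ?_ (hasSum_sqH _) ((hasSum_sqH f).mul_left (‖e‖ ^ 2))
      intro i
      rw [← mul_pow]
      exact pow_le_pow_left₀ (norm_nonneg _) (norm_block_leH w hle e i (f i)) 2)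

theorem JfunH_apply (hle : ∀ i e, ‖w i e‖ ≤ ‖e‖) (e : E) (f : HH κ) (i : ι) :
    (JfunH w hle e f) i = Matrix.toEuclideanCLM (n := Fin (κ i)) (𝕜 := ℂ) (w i e) (f i) := rfl

theorem JfunH_norm_le (hle : ∀ i e, ‖w i e‖ ≤ ‖e‖) (e : E) : ‖JfunH w hle e‖ ≤ ‖e‖ :=
  LinearMap.mkContinuous_norm_le _ (norm_nonneg _) _

open Classical in
theorem le_JfunH_norm (hle : ∀ i e, ‖w i e‖ ≤ ‖e‖) (e : E) (i : ι) : ‖w i e‖ ≤ ‖JfunH w hle e‖ := by
  rw [← Matrix.l2_opNorm_toEuclideanCLM]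
  refine ContinuousLinearMap.opNorm_le_bound _ (norm_nonneg _) fun v => ?_
  have h1 : Matrix.toEuclideanCLM (n := Fin (κ i)) (𝕜 := ℂ) (w i e) v =
      (JfunH w hle e (lp.single 2 i v)) i := by
    rw [JfunH_apply, lp.single_apply_self]
  rw [h1]
  refine (lp.norm_apply_le_norm (by norm_num) _ i).trans ?_
  refine (ContinuousLinearMap.le_opNorm _ _).trans ?_
  rw [lp.norm_single (by norm_num)]

/-- the isometric embedding -/
noncomputable def JH (hle : ∀ i e, ‖w i e‖ ≤ ‖e‖)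
    (hsup : ∀ e : E, ∀ r < ‖e‖, ∃ i, r < ‖w i e‖) : E →ₗᵢ[ℂ] (HH κ →L[ℂ] HH κ) where
  toFun := JfunH w hle
  map_add' := by
    intro e e'
    ext f i : 3
    simp only [ContinuousLinearMap.add_apply, lp.coeFn_add, Pi.add_apply, JfunH_apply, map_add]
  map_smul' := by
    intro c e
    ext f i : 3
    simp only [ContinuousLinearMap.smul_apply, lp.coeFn_smul, Pi.smul_apply, JfunH_apply, map_smul,
      RingHom.id_apply]
  norm_map' := by
    intro e
    refine le_antisymm (JfunH_norm_le w hle e) ?_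
    refine le_of_forall_lt fun r hr => ?_
    obtain ⟨i, hi⟩ := hsup e r hr
    exact hi.trans_le (le_JfunH_norm w hle e i)

end lpstuff

/-- TARGET 2. The supremum above is over a bounded set. -/
theorem bddAbove_family {E : Type} [NormedAddCommGroup E] [NormedSpace ℂ E] (ι : Type)
    (κ : ι → ℕ) (w : (i : ι) → E →ₗ[ℂ] Matrix (Fin (κ i)) (Fin (κ i)) ℂ)
    (hle : ∀ i e, ‖w i e‖ ≤ ‖e‖) (n : ℕ) (x : Matrix (Fin n) (Fin n) E) :
    BddAbove (Set.range fun i => matNorm (w i) n x) := by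
  set X : ℝ := ∑ a, ∑ b, ‖x a b‖ with hX
  have hX0 : 0 ≤ X := by positivity
  refine ⟨Real.sqrt n * X, ?_⟩
  rintro _ ⟨i, rfl⟩
  refine norm_le_ofH (fun a b => w i (x a b)) _ (by positivity) fun v => ?_
  have hS : ∀ b, ‖v b‖ ≤ Real.sqrt (∑ j, ‖v j‖ ^ 2) := by
    intro b
    apply Real.le_sqrt_of_sq_le
    exact Finset.single_le_sum (f := fun j => ‖v j‖ ^ 2) (fun j _ => by positivity)
      (Finset.mem_univ b)
  have h1 : ∀ a, ‖∑ b, Matrix.toEuclideanCLM (n := Fin (κ i)) (𝕜 := ℂ) (w i (x a b)) (v b)‖ ≤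
      X * Real.sqrt (∑ j, ‖v j‖ ^ 2) := by
    intro a
    calc _ ≤ ∑ b, ‖Matrix.toEuclideanCLM (n := Fin (κ i)) (𝕜 := ℂ) (w i (x a b)) (v b)‖ :=
          norm_sum_le _ _
      _ ≤ ∑ b, ‖x a b‖ * Real.sqrt (∑ j, ‖v j‖ ^ 2) := by
          refine Finset.sum_le_sum fun b _ => ?_
          exact (norm_block_leH w hle _ i _).trans
            (mul_le_mul_of_nonneg_left (hS b) (norm_nonneg _))
      _ = (∑ b, ‖x a b‖) * Real.sqrt (∑ j, ‖v j‖ ^ 2) := by rw [Finset.sum_mul]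
      _ ≤ X * Real.sqrt (∑ j, ‖v j‖ ^ 2) := by
          refine mul_le_mul_of_nonneg_right ?_ (Real.sqrt_nonneg _)
          exact Finset.single_le_sum (f := fun a => ∑ b, ‖x a b‖) (fun j _ => by positivity)
            (Finset.mem_univ a)
  calc _ ≤ ∑ _a : Fin n, (X * Real.sqrt (∑ j, ‖v j‖ ^ 2)) ^ 2 :=
        Finset.sum_le_sum fun a _ => pow_le_pow_left₀ (norm_nonneg _) (h1 a) 2
    _ = (Real.sqrt n * X) ^ 2 * ∑ j, ‖v j‖ ^ 2 := by
        rw [Finset.sum_const, Finset.card_univ, Fintype.card_fin, nsmul_eq_mul, mul_pow, mul_pow,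
          Real.sq_sqrt (by positivity), Real.sq_sqrt (by positivity)]
        ring

/-- TARGET. A family of contractive linear maps `w i : E → M_{κ i}` with `‖e‖ = sup_i ‖w i e‖`
gives an operator space structure with matrix norms `sup_i matNorm (w i)`. -/
theorem isOS_of_family {E : Type} [NormedAddCommGroup E] [NormedSpace ℂ E] (ι : Type) [Nonempty ι]
    (κ : ι → ℕ) (w : (i : ι) → E →ₗ[ℂ] Matrix (Fin (κ i)) (Fin (κ i)) ℂ)
    (hle : ∀ i e, ‖w i e‖ ≤ ‖e‖) (hsup : ∀ e : E, ∀ r < ‖e‖, ∃ i, r < ‖w i e‖) :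
    IsOSStructure E (fun n x => ⨆ i, matNorm (w i) n x) := by
  classical
  refine ⟨HH κ, inferInstance, inferInstance, inferInstance, JH w hle hsup, ?_⟩
  intro n x
  have hbdd := bddAbove_family ι κ w hle n x
  have hJ : ∀ (a b : Fin n) (f : HH κ) (i : ι), ((x.map (JH w hle hsup)) a b f) i =
      Matrix.toEuclideanCLM (n := Fin (κ i)) (𝕜 := ℂ) (w i (x a b)) (f i) := fun a b f i => rfl
  have hmem : (⨆ i, matNorm (w i) n x) ∈ {C : ℝ | 0 ≤ C ∧ ∀ ξ : Fin n → HH κ,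
      ∑ i, ‖∑ j, (x.map (JH w hle hsup)) i j (ξ j)‖ ^ 2 ≤ C ^ 2 * ∑ j, ‖ξ j‖ ^ 2} := by
    have h0 : ∀ i, 0 ≤ matNorm (w i) n x := fun i => norm_nonneg _
    refine ⟨Real.iSup_nonneg h0, fun ξ => ?_⟩
    have h1 : HasSum (fun i => ∑ a, ‖(∑ b, (x.map (JH w hle hsup)) a b (ξ b)) i‖ ^ 2)
        (∑ a, ‖∑ b, (x.map (JH w hle hsup)) a b (ξ b)‖ ^ 2) :=
      hasSum_sum fun a _ => hasSum_sqH _
    have h2 : HasSum (fun i => (⨆ i, matNorm (w i) n x) ^ 2 * ∑ b, ‖ξ b i‖ ^ 2)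
        ((⨆ i, matNorm (w i) n x) ^ 2 * ∑ b, ‖ξ b‖ ^ 2) :=
      (hasSum_sum fun a _ => hasSum_sqH _).mul_left _
    refine hasSum_le (fun i => ?_) h1 h2
    have h3 := sum_le_normH (fun a b => w i (x a b)) (fun b => ξ b i)
    have h4 : ∀ a, (∑ b, (x.map (JH w hle hsup)) a b (ξ b)) i =
        ∑ b, Matrix.toEuclideanCLM (n := Fin (κ i)) (𝕜 := ℂ) (w i (x a b)) (ξ b i) := by
      intro a
      rw [lp.coeFn_sum, Finset.sum_apply]
      exact Finset.sum_congr rfl fun b _ => hJ a b _ i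
    simp only [h4]
    refine h3.trans ?_
    refine mul_le_mul_of_nonneg_right ?_ (by positivity)
    exact pow_le_pow_left₀ (norm_nonneg _) (le_ciSup hbdd i) 2
  refine le_antisymm ?_ ?_
  · refine le_csInf ⟨_, hmem⟩ ?_
    rintro C ⟨hC, hCξ⟩
    refine ciSup_le fun i => ?_
    refine norm_le_ofH (fun a b => w i (x a b)) C hC fun v => ?_
    have h1 := hCξ (fun b => lp.single 2 i (v b))
    simp only [lp.norm_single (E := fun i : ι => EuclideanSpace ℂ (Fin (κ i)))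
      (by norm_num : (0:ENNReal) < 2)] at h1
    refine le_trans (Finset.sum_le_sum fun a _ => ?_) h1
    refine pow_le_pow_left₀ (norm_nonneg _) ?_ 2
    have h4 : (∑ b, (x.map (JH w hle hsup)) a b (lp.single 2 i (v b))) i =
        ∑ b, Matrix.toEuclideanCLM (n := Fin (κ i)) (𝕜 := ℂ) (w i (x a b)) (v b) := by
      rw [lp.coeFn_sum, Finset.sum_apply]
      refine Finset.sum_congr rfl fun b _ => ?_
      rw [hJ, lp.single_apply_self]
    rw [← h4]
    exact lp.norm_apply_le_norm (by norm_num) _ i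
  · exact csInf_le ⟨0, fun C hC => hC.1⟩ hmem

end Pool.Agent.Helper685.OSep
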