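import Mathlib
import Pool.Agent.Helper685.OSep.H

set_option autoImplicit false
set_option linter.unusedSectionVars false



namespace Pool.Agent.Helper685.OSep

open scoped Matrix.Norms.L2Operator

theorem f52_norm_reindex {a b : Type} [Fintype a] [DecidableEq a] [Fintype b] [DecidableEq b]
    (e : a ≃ b) (M : Matrix b b ℂ) : ‖M.submatrix e e‖ ≤ ‖M‖ := by
  rw [← Matrix.l2_opNorm_toEuclideanCLM]
  refine ContinuousLinearMap.opNorm_le_bound _ (norm_nonneg _) fun u => ?_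
  set v : EuclideanSpace ℂ b := WithLp.toLp 2 (fun j => u (e.symm j)) with hv
  have h1 : ‖v‖ = ‖u‖ := by
    rw [EuclideanSpace.norm_eq, EuclideanSpace.norm_eq]
    congr 1
    exact Fintype.sum_equiv e.symm _ _ (fun j => rfl)
  have h2 : ‖Matrix.toEuclideanCLM (n := a) (𝕜 := ℂ) (M.submatrix e e) u‖ =
      ‖Matrix.toEuclideanCLM (n := b) (𝕜 := ℂ) M v‖ := by
    rw [EuclideanSpace.norm_eq, EuclideanSpace.norm_eq]
    congr 1
    refine Fintype.sum_equiv e _ _ (fun i => ?_)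
    congr 2
    rw [Matrix.ofLp_toEuclideanCLM, Matrix.ofLp_toEuclideanCLM]
    simp only [Matrix.mulVec, dotProduct, Matrix.submatrix_apply]
    refine Fintype.sum_equiv e _ _ (fun j => ?_)
    simp [hv]
  rw [h2, ← h1, ← Matrix.l2_opNorm_toEuclideanCLM]
  exact ContinuousLinearMap.le_opNorm _ _

/-- a functional as a map to the one by one matrices -/
noncomputable def f52_phi {E : Type} [NormedAddCommGroup E] [NormedSpace ℂ E] (f : E →L[ℂ] ℂ) :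
    E →ₗ[ℂ] Matrix (Fin 1) (Fin 1) ℂ where
  toFun := fun e => Matrix.of fun _ _ => f e
  map_add' := by
    intro a b
    ext i j
    simp
  map_smul' := by
    intro c a
    ext i j
    simp

theorem f52_phi_norm {E : Type} [NormedAddCommGroup E] [NormedSpace ℂ E] (f : E →L[ℂ] ℂ) (e : E) :
    ‖f52_phi f e‖ = ‖f e‖ := by
  have h : f52_phi f e = (f e) • (1 : Matrix (Fin 1) (Fin 1) ℂ) := by
    ext i j
    have : i = j := Subsingleton.elim _ _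
    subst this
    simp [f52_phi]
  rw [h, norm_smul, CStarRing.norm_one, mul_one]

theorem f52_matNorm_phi {E : Type} [NormedAddCommGroup E] [NormedSpace ℂ E] (f : E →L[ℂ] ℂ)
    (n : ℕ) (x : Matrix (Fin n) (Fin n) E) : matNorm (f52_phi f) n x = ‖x.map f‖ := by
  apply le_antisymm
  · exact f52_norm_reindex (Equiv.prodUnique (Fin n) (Fin 1)) (x.map f)
  · exact f52_norm_reindex (Equiv.prodUnique (Fin n) (Fin 1)).symm
      (Matrix.of fun (p q : Fin n × Fin 1) => f52_phi f (x p.1 q.1) p.2 q.2)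

theorem f52_le_min {E : Type} [NormedAddCommGroup E] [NormedSpace ℂ E] (f : E →L[ℂ] ℂ)
    (hf : ‖f‖ ≤ 1) (n : ℕ) (x : Matrix (Fin n) (Fin n) E) :
    matNorm (f52_phi f) n x ≤ minNorm n x := by
  have hb := bddAbove_family {f : E →L[ℂ] ℂ // ‖f‖ ≤ 1} (fun _ => 1) (fun f => f52_phi f.1)
    (by
      intro f e
      rw [f52_phi_norm]
      exact (f.1.le_of_opNorm_le f.2 e).trans (by rw [one_mul])) n x
  have hs : {r : ℝ | ∃ f : E →L[ℂ] ℂ, ‖f‖ ≤ 1 ∧ r = ‖x.map f‖} =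
      Set.range fun i : {f : E →L[ℂ] ℂ // ‖f‖ ≤ 1} => matNorm (f52_phi i.1) n x := by
    ext r
    constructor
    · rintro ⟨g, hg, rfl⟩
      exact ⟨⟨g, hg⟩, f52_matNorm_phi g n x⟩
    · rintro ⟨g, rfl⟩
      exact ⟨g.1, g.2, f52_matNorm_phi g.1 n x⟩
  unfold minNorm
  rw [hs]
  exact le_csSup hb ⟨⟨f, hf⟩, rfl⟩

/-- sizes of the family -/
def f52_k (E : Type) [NormedAddCommGroup E] [NormedSpace ℂ E] (κ : ℕ → ℕ) (J : Set ℕ) :
    {f : E →L[ℂ] ℂ // ‖f‖ ≤ 1} ⊕ J → ℕ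
  | Sum.inl _ => 1
  | Sum.inr j => κ j

/-- maps of the family -/
noncomputable def f52_w {E : Type} [NormedAddCommGroup E] [NormedSpace ℂ E] {κ : ℕ → ℕ}
    (w : (i : ℕ) → E →ₗ[ℂ] Matrix (Fin (κ i)) (Fin (κ i)) ℂ) (J : Set ℕ) :
    (i : {f : E →L[ℂ] ℂ // ‖f‖ ≤ 1} ⊕ J) →
      E →ₗ[ℂ] Matrix (Fin (f52_k E κ J i)) (Fin (f52_k E κ J i)) ℂ
  | Sum.inl f => f52_phi f.1
  | Sum.inr j => w j

theorem f52_hle {E : Type} [NormedAddCommGroup E] [NormedSpace ℂ E] {κ : ℕ → ℕ}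
    (w : (i : ℕ) → E →ₗ[ℂ] Matrix (Fin (κ i)) (Fin (κ i)) ℂ) (h1 : ∀ i e, ‖w i e‖ ≤ ‖e‖)
    (J : Set ℕ) (i : {f : E →L[ℂ] ℂ // ‖f‖ ≤ 1} ⊕ J) (e : E) : ‖f52_w w J i e‖ ≤ ‖e‖ := by
  rcases i with f | j
  · show ‖f52_phi f.1 e‖ ≤ ‖e‖
    rw [f52_phi_norm]
    exact (f.1.le_of_opNorm_le f.2 e).trans (by rw [one_mul])
  · exact h1 j e

theorem f52_sep (E : Type) [NormedAddCommGroup E] [NormedSpace ℂ E] (δ : ℝ) (hδ : 0 < δ)
    (κ n : ℕ → ℕ) (w : (i : ℕ) → E →ₗ[ℂ] Matrix (Fin (κ i)) (Fin (κ i)) ℂ)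
    (X : (i : ℕ) → Matrix (Fin (n i)) (Fin (n i)) E) (h1 : ∀ i e, ‖w i e‖ ≤ ‖e‖)
    (h2 : ∀ i, 0 < matNorm (w i) (n i) (X i))
    (h3 : ∀ i, (1 + δ) * minNorm (n i) (X i) ≤ matNorm (w i) (n i) (X i))
    (h4 : ∀ i j, i ≠ j → (1 + δ) * matNorm (w i) (n j) (X j) ≤ matNorm (w j) (n j) (X j))
    (J J' : Set ℕ) (j : ℕ) (hj : j ∈ J) (hj' : j ∉ J') :
    ¬ CBLe (fun n x => ⨆ i, matNorm (f52_w w J' i) n x) (fun n x => ⨆ i, matNorm (f52_w w J i) n x)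
      (LinearMap.id : E →ₗ[ℂ] E) (1 + δ / 2) := by
  rintro ⟨_, hcb⟩
  have hc := hcb (n j) (X j)
  have hx : (X j).map (LinearMap.id : E →ₗ[ℂ] E) = X j := by
    ext a b
    rfl
  rw [hx] at hc
  have hd : 0 < 1 + δ := by linarith
  have e1 : matNorm (w j) (n j) (X j) ≤ ⨆ i, matNorm (f52_w w J i) (n j) (X j) :=
    le_ciSup (bddAbove_family _ _ (f52_w w J) (f52_hle w h1 J) (n j) (X j)) (Sum.inr ⟨j, hj⟩)
  haveI : Nonempty ({f : E →L[ℂ] ℂ // ‖f‖ ≤ 1} ⊕ J') := ⟨Sum.inl ⟨0, by simp⟩⟩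
  have e2 : (⨆ i, matNorm (f52_w w J' i) (n j) (X j)) ≤ matNorm (w j) (n j) (X j) / (1 + δ) := by
    refine ciSup_le fun i => ?_
    rw [le_div_iff₀ hd]
    rcases i with f | i
    · have := f52_le_min f.1 f.2 (n j) (X j)
      have h3' := h3 j
      calc matNorm (f52_phi f.1) (n j) (X j) * (1 + δ) ≤ minNorm (n j) (X j) * (1 + δ) :=
            mul_le_mul_of_nonneg_right this hd.le
        _ ≤ _ := by rw [mul_comm]; exact h3'
    · have hne : (i : ℕ) ≠ j := by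
        rintro rfl
        exact hj' i.2
      have h4' := h4 i j hne
      show matNorm (w i) (n j) (X j) * (1 + δ) ≤ _
      rw [mul_comm]
      exact h4'
  have ht := h2 j
  have e3 : matNorm (w j) (n j) (X j) ≤
      (1 + δ / 2) * (matNorm (w j) (n j) (X j) / (1 + δ)) := by
    refine e1.trans (hc.trans ?_)
    exact mul_le_mul_of_nonneg_left e2 (by linarith)
  have e4 : matNorm (w j) (n j) (X j) * (1 + δ) ≤ (1 + δ / 2) * matNorm (w j) (n j) (X j) := by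
    rw [← mul_div_assoc, le_div_iff₀ hd] at e3
    exact e3
  nlinarith

/-- TARGET. -/
theorem separated_family (E : Type) [NormedAddCommGroup E] [NormedSpace ℂ E] (δ : ℝ) (hδ : 0 < δ)
    (κ n : ℕ → ℕ) (w : (i : ℕ) → E →ₗ[ℂ] Matrix (Fin (κ i)) (Fin (κ i)) ℂ)
    (X : (i : ℕ) → Matrix (Fin (n i)) (Fin (n i)) E) (h1 : ∀ i e, ‖w i e‖ ≤ ‖e‖)
    (h2 : ∀ i, 0 < matNorm (w i) (n i) (X i))
    (h3 : ∀ i, (1 + δ) * minNorm (n i) (X i) ≤ matNorm (w i) (n i) (X i))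
    (h4 : ∀ i j, i ≠ j → (1 + δ) * matNorm (w i) (n j) (X j) ≤ matNorm (w j) (n j) (X j)) :
    ∃ NN : Set ℕ → MatNorms E, (∀ J, IsOSStructure E (NN J)) ∧ ∀ J J', J ≠ J' →
      ¬ (CBLe (NN J) (NN J') LinearMap.id (1 + δ / 2) ∧
        CBLe (NN J') (NN J) LinearMap.id (1 + δ / 2)) := by
  refine ⟨fun J => fun n x => ⨆ i, matNorm (f52_w w J i) n x, fun J => ?_, fun J J' hne => ?_⟩
  · haveI : Nonempty ({f : E →L[ℂ] ℂ // ‖f‖ ≤ 1} ⊕ J) := ⟨Sum.inl ⟨0, by simp⟩⟩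
    refine isOS_of_family _ _ (f52_w w J) (f52_hle w h1 J) ?_
    intro e r hr
    obtain ⟨g, hg, hge⟩ := exists_dual_vector'' ℂ e
    refine ⟨Sum.inl ⟨g, hg⟩, ?_⟩
    show r < ‖f52_phi g e‖
    rw [f52_phi_norm, hge]
    simpa using hr
  · rintro ⟨hA, hB⟩
    have : ∃ j, (j ∈ J ∧ j ∉ J') ∨ (j ∈ J' ∧ j ∉ J) := by
      by_contra hcon
      push_neg at hcon
      apply hne
      ext j
      exact ⟨fun h => (hcon j).1 h, fun h => (hcon j).2 h⟩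
    obtain ⟨j, ⟨hj, hj'⟩ | ⟨hj, hj'⟩⟩ := this
    · exact f52_sep E δ hδ κ n w X h1 h2 h3 h4 J J' j hj hj' hB
    · exact f52_sep E δ hδ κ n w X h1 h2 h3 h4 J' J j hj hj' hA

end Pool.Agent.Helper685.OSep
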