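import Mathlib
import Pool.Agent.Helper685.OSep.Defs

set_option autoImplicit false

open scoped Matrix.Norms.L2Operator

namespace Pool.Agent.Helper685.OSep

section op
variable {H : Type} [NormedAddCommGroup H] [InnerProductSpace ℂ H]

/-- the operator on `H^n` given by a matrix of operators -/
noncomputable def opM (n : ℕ) (T : Matrix (Fin n) (Fin n) (H →L[ℂ] H)) :
    PiLp 2 (fun _ : Fin n => H) →L[ℂ] PiLp 2 (fun _ : Fin n => H) :=
  ((PiLp.continuousLinearEquiv 2 ℂ (fun _ : Fin n => H)).symm.toContinuousLinearMap).comp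
   ((ContinuousLinearMap.pi (fun i => ∑ j, (T i j).comp (ContinuousLinearMap.proj j))).comp
   ((PiLp.continuousLinearEquiv 2 ℂ (fun _ : Fin n => H)).toContinuousLinearMap))

theorem opM_apply (n : ℕ) (T : Matrix (Fin n) (Fin n) (H →L[ℂ] H))
    (x : PiLp 2 (fun _ : Fin n => H)) (i : Fin n) : (opM n T x) i = ∑ j, T i j (x j) := by
  simp [opM]

theorem norm_opM_sq (n : ℕ) (T : Matrix (Fin n) (Fin n) (H →L[ℂ] H))
    (x : PiLp 2 (fun _ : Fin n => H)) : ‖opM n T x‖ ^ 2 = ∑ i, ‖∑ j, T i j (x j)‖ ^ 2 := by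
  rw [PiLp.norm_sq_eq_of_L2]
  simp only [opM_apply]

theorem opNorm_eq (n : ℕ) (T : Matrix (Fin n) (Fin n) (H →L[ℂ] H)) :
    opNorm H n T = ‖opM n T‖ := by
  rw [ContinuousLinearMap.norm_def, opNorm]
  congr 1
  ext C
  constructor
  · rintro ⟨hC, h⟩
    refine ⟨hC, fun x => ?_⟩
    rw [← pow_le_pow_iff_left₀ (norm_nonneg _) (by positivity) two_ne_zero, norm_opM_sq, mul_pow,
      PiLp.norm_sq_eq_of_L2]
    exact h (fun j => x j)
  · rintro ⟨hC, h⟩
    refine ⟨hC, fun ξ => ?_⟩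
    have h1 := h (WithLp.toLp 2 ξ)
    rw [← pow_le_pow_iff_left₀ (norm_nonneg _) (by positivity) two_ne_zero, norm_opM_sq, mul_pow,
      PiLp.norm_sq_eq_of_L2] at h1
    exact h1

theorem opM_add (n : ℕ) (T T' : Matrix (Fin n) (Fin n) (H →L[ℂ] H)) :
    opM n (T + T') = opM n T + opM n T' := by
  ext x i
  rw [add_apply, PiLp.add_apply, opM_apply, opM_apply, opM_apply,
    ← Finset.sum_add_distrib]
  simp

theorem opM_smul (n : ℕ) (c : ℂ) (T : Matrix (Fin n) (Fin n) (H →L[ℂ] H)) :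
    opM n (c • T) = c • opM n T := by
  ext x i
  rw [smul_apply, PiLp.smul_apply, opM_apply, opM_apply, Finset.smul_sum]
  simp

/-- amplification -/
theorem ampl (n : ℕ) (a : Matrix (Fin n) (Fin n) ℂ) (c : ℝ)
    (h : ∀ β : Fin n → ℂ, ∑ i, ‖∑ j, a i j * β j‖ ^ 2 ≤ c ^ 2 * ∑ j, ‖β j‖ ^ 2) (ξ : Fin n → H) :
    ∑ i, ‖∑ j, a i j • ξ j‖ ^ 2 ≤ c ^ 2 * ∑ j, ‖ξ j‖ ^ 2 := by
  set W : Submodule ℂ H := Submodule.span ℂ (Set.range ξ) with hW
  have hfin : FiniteDimensional ℂ W := FiniteDimensional.span_of_finite ℂ (Set.finite_range ξ)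
  set b := stdOrthonormalBasis ℂ W with hb
  set ξ' : Fin n → W := fun j => ⟨ξ j, Submodule.subset_span ⟨j, rfl⟩⟩ with hξ'
  have h1 : ∀ i, ‖∑ j, a i j • ξ j‖ ^ 2 = ∑ l, ‖∑ j, a i j * inner ℂ (b l) (ξ' j)‖ ^ 2 := by
    intro i
    have e1 : ∑ j, a i j • ξ j = ((∑ j, a i j • ξ' j : W) : H) := by
      simp [hξ']
    rw [e1, Submodule.norm_coe, ← b.sum_sq_norm_inner_right]
    apply Finset.sum_congr rfl
    intro l _
    rw [inner_sum]
    simp only [inner_smul_right]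
  have h2 : ∀ j, ‖ξ j‖ ^ 2 = ∑ l, ‖inner ℂ (b l) (ξ' j)‖ ^ 2 := by
    intro j
    rw [b.sum_sq_norm_inner_right]
    rfl
  simp only [h1, h2]
  rw [Finset.sum_comm, Finset.sum_comm (s := Finset.univ (α := Fin n)) (t := Finset.univ),
    Finset.mul_sum]
  apply Finset.sum_le_sum
  intro l _
  exact h (fun j => inner ℂ (b l) (ξ' j))

end op

section str
variable {E : Type} [NormedAddCommGroup E] [NormedSpace ℂ E]

theorem str_nonneg {N : MatNorms E} (hN : IsOSStructure E N) (n : ℕ)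
    (x : Matrix (Fin n) (Fin n) E) : 0 ≤ N n x := by
  obtain ⟨H, _, _, _, J, hJ⟩ := hN
  rw [hJ, opNorm_eq]
  exact norm_nonneg _

theorem str_add {N : MatNorms E} (hN : IsOSStructure E N) (n : ℕ)
    (x y : Matrix (Fin n) (Fin n) E) : N n (x + y) ≤ N n x + N n y := by
  obtain ⟨H, _, _, _, J, hJ⟩ := hN
  rw [hJ, hJ, hJ, opNorm_eq, opNorm_eq, opNorm_eq]
  have : (x + y).map J = x.map J + y.map J := by
    ext1 i j; simp
  rw [this, opM_add]
  exact norm_add_le _ _

theorem str_smul {N : MatNorms E} (hN : IsOSStructure E N) (n : ℕ) (c : ℂ)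
    (x : Matrix (Fin n) (Fin n) E) : N n (c • x) = ‖c‖ * N n x := by
  obtain ⟨H, _, _, _, J, hJ⟩ := hN
  rw [hJ, hJ, opNorm_eq, opNorm_eq]
  have : (c • x).map J = c • x.map J := by
    ext1 i j; simp
  rw [this, opM_smul, norm_smul]

theorem str_zero {N : MatNorms E} (hN : IsOSStructure E N) (n : ℕ) :
    N n (0 : Matrix (Fin n) (Fin n) E) = 0 := by
  have := str_smul hN n 0 (0 : Matrix (Fin n) (Fin n) E)
  rw [zero_smul, norm_zero, zero_mul] at this
  exact this

theorem str_sum {N : MatNorms E} (hN : IsOSStructure E N) (n : ℕ) {ι : Type*} (s : Finset ι)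
    (x : ι → Matrix (Fin n) (Fin n) E) : N n (∑ i ∈ s, x i) ≤ ∑ i ∈ s, N n (x i) := by
  classical
  induction s using Finset.induction_on with
  | empty => rw [Finset.sum_empty, Finset.sum_empty, str_zero hN]
  | insert a s ha ih =>
    rw [Finset.sum_insert ha, Finset.sum_insert ha]
    exact (str_add hN n _ _).trans (by linarith)

theorem str_scal {N : MatNorms E} (hN : IsOSStructure E N) (n : ℕ)
    (x : Matrix (Fin n) (Fin n) E) (f : E →L[ℂ] ℂ) (β : Fin n → ℂ) :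
    ∑ i, ‖∑ j, f (x i j) * β j‖ ^ 2 ≤ (‖f‖ * N n x) ^ 2 * ∑ j, ‖β j‖ ^ 2 := by
  obtain ⟨H, _, _, _, J, hJ⟩ := hN
  have hNx : N n x = ‖opM n (x.map J)‖ := by rw [hJ, opNorm_eq]
  set α : Fin n → ℂ := fun i => ∑ j, f (x i j) * β j with hα
  set P : ℝ := ∑ i, ‖α i‖ ^ 2 with hP
  set Q : ℝ := ∑ j, ‖β j‖ ^ 2 with hQ
  have hP0 : 0 ≤ P := Finset.sum_nonneg (fun i _ => by positivity)
  have hQ0 : 0 ≤ Q := Finset.sum_nonneg (fun i _ => by positivity)
  set z : E := ∑ i, ∑ j, ((starRingEnd ℂ) (α i) * β j) • x i j with hz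
  have hfz : f z = (P : ℂ) := by
    rw [hz, map_sum, hP]
    push_cast
    apply Finset.sum_congr rfl
    intro i _
    rw [map_sum]
    have : ∀ j, f (((starRingEnd ℂ) (α i) * β j) • x i j) =
        (starRingEnd ℂ) (α i) * (f (x i j) * β j) := by
      intro j
      rw [map_smul, smul_eq_mul]; ring
    simp only [this]
    rw [← Finset.mul_sum]
    show (starRingEnd ℂ) (α i) * α i = _
    rw [mul_comm, Complex.mul_conj, Complex.normSq_eq_norm_sq]
    push_cast; rfl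
  have hJz : ‖J z‖ ≤ Real.sqrt P * Real.sqrt Q * N n x := by
    apply ContinuousLinearMap.opNorm_le_bound
    · rw [hNx]; positivity
    intro h
    set η := opM n (x.map J) (WithLp.toLp 2 (fun j => β j • h)) with hη
    have e1 : J z h = ∑ i, (starRingEnd ℂ) (α i) • η i := by
      rw [hz, map_sum, sum_apply]
      apply Finset.sum_congr rfl
      intro i _
      rw [hη, opM_apply, map_sum, sum_apply, Finset.smul_sum]
      apply Finset.sum_congr rfl
      intro j _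
      rw [map_smul, smul_apply]
      simp [mul_smul]
    rw [e1]
    have e2 : ‖∑ i, (starRingEnd ℂ) (α i) • η i‖ ≤ Real.sqrt P * ‖η‖ := by
      refine (norm_sum_le _ _).trans ?_
      have e3 : ∀ i, ‖(starRingEnd ℂ) (α i) • η i‖ = ‖α i‖ * ‖η i‖ := by
        intro i; rw [norm_smul, RCLike.norm_conj]
      simp only [e3]
      have e4 : ‖η‖ = Real.sqrt (∑ i, ‖η i‖ ^ 2) := by
        rw [← PiLp.norm_sq_eq_of_L2, Real.sqrt_sq (norm_nonneg _)]
      rw [e4]
      exact Real.sum_mul_le_sqrt_mul_sqrt _ _ _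
    have e5 : ‖η‖ ≤ N n x * (Real.sqrt Q * ‖h‖) := by
      rw [hNx]
      refine (ContinuousLinearMap.le_opNorm _ _).trans ?_
      apply mul_le_mul_of_nonneg_left _ (norm_nonneg _)
      apply le_of_eq
      have e6 : ‖(WithLp.toLp 2 (fun j => β j • h) : PiLp 2 (fun _ : Fin n => H))‖ ^ 2 =
          (Real.sqrt Q * ‖h‖) ^ 2 := by
        rw [PiLp.norm_sq_eq_of_L2, mul_pow, Real.sq_sqrt hQ0, hQ, Finset.sum_mul]
        apply Finset.sum_congr rfl
        intro j _
        show ‖β j • h‖ ^ 2 = _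
        rw [norm_smul, mul_pow]
      exact (pow_left_inj₀ (norm_nonneg _) (by positivity) two_ne_zero).1 e6
    calc ‖∑ i, (starRingEnd ℂ) (α i) • η i‖ ≤ Real.sqrt P * ‖η‖ := e2
      _ ≤ Real.sqrt P * (N n x * (Real.sqrt Q * ‖h‖)) := by gcongr
      _ = Real.sqrt P * Real.sqrt Q * N n x * ‖h‖ := by ring
  have hP1 : P ≤ ‖f‖ * (Real.sqrt P * Real.sqrt Q * N n x) := by
    calc P = ‖f z‖ := by
          rw [hfz, Complex.norm_real, Real.norm_of_nonneg hP0]
      _ ≤ ‖f‖ * ‖z‖ := f.le_opNorm z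
      _ = ‖f‖ * ‖J z‖ := by rw [J.norm_map]
      _ ≤ _ := by gcongr
  have hNx0 : 0 ≤ N n x := by rw [hNx]; exact norm_nonneg _
  rcases hP0.lt_or_eq with hPpos | hP00
  · have hs : 0 < Real.sqrt P := Real.sqrt_pos.2 hPpos
    have h3 : Real.sqrt P ≤ ‖f‖ * N n x * Real.sqrt Q := by
      have h4 : Real.sqrt P * Real.sqrt P ≤ (‖f‖ * N n x * Real.sqrt Q) * Real.sqrt P := by
        rw [Real.mul_self_sqrt hP0]
        calc P ≤ ‖f‖ * (Real.sqrt P * Real.sqrt Q * N n x) := hP1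
          _ = _ := by ring
      exact le_of_mul_le_mul_right h4 hs
    calc P = Real.sqrt P ^ 2 := (Real.sq_sqrt hP0).symm
      _ ≤ (‖f‖ * N n x * Real.sqrt Q) ^ 2 := pow_le_pow_left₀ hs.le h3 2
      _ = (‖f‖ * N n x) ^ 2 * Q := by rw [mul_pow, Real.sq_sqrt hQ0]
  · rw [← hP00]; positivity

theorem str_rankone {N M : MatNorms E} (hN : IsOSStructure E N) (hM : IsOSStructure E M) (n : ℕ)
    (x : Matrix (Fin n) (Fin n) E) (f : E →L[ℂ] ℂ) (e : E) :
    M n (x.map (fun z => f z • e)) ≤ ‖f‖ * ‖e‖ * N n x := by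
  have hs := str_scal hN n x f
  have hNx0 := str_nonneg hN n x
  obtain ⟨H, _, _, _, J, hJ⟩ := hM
  rw [hJ, opNorm_eq]
  apply ContinuousLinearMap.opNorm_le_bound
  · positivity
  intro ξ
  rw [← pow_le_pow_iff_left₀ (norm_nonneg _) (by positivity) two_ne_zero, norm_opM_sq, mul_pow,
    PiLp.norm_sq_eq_of_L2]
  have h1 : ∀ i, ‖∑ j, ((x.map (fun z => f z • e)).map J) i j (ξ j)‖ ^ 2 ≤
      ‖e‖ ^ 2 * ‖∑ j, (x.map f) i j • ξ j‖ ^ 2 := by
    intro i
    have e1 : ∑ j, ((x.map (fun z => f z • e)).map J) i j (ξ j) =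
        J e (∑ j, (x.map f) i j • ξ j) := by
      rw [map_sum]
      apply Finset.sum_congr rfl
      intro j _
      simp
    rw [e1, ← mul_pow]
    apply pow_le_pow_left₀ (norm_nonneg _)
    refine (ContinuousLinearMap.le_opNorm _ _).trans ?_
    rw [J.norm_map]
  have h2 := ampl n (x.map f) (‖f‖ * N n x) hs (fun j => ξ j)
  calc ∑ i, ‖∑ j, ((x.map (fun z => f z • e)).map J) i j (ξ j)‖ ^ 2
      ≤ ∑ i, ‖e‖ ^ 2 * ‖∑ j, (x.map f) i j • ξ j‖ ^ 2 := Finset.sum_le_sum (fun i _ => h1 i)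
    _ = ‖e‖ ^ 2 * ∑ i, ‖∑ j, (x.map f) i j • ξ j‖ ^ 2 := by rw [Finset.mul_sum]
    _ ≤ ‖e‖ ^ 2 * ((‖f‖ * N n x) ^ 2 * ∑ j, ‖ξ j‖ ^ 2) := by gcongr
    _ = (‖f‖ * ‖e‖ * N n x) ^ 2 * ∑ j, ‖ξ j‖ ^ 2 := by ring

theorem str_one {N : MatNorms E} (hN : IsOSStructure E N) (e : E) :
    N 1 (Matrix.of (fun _ _ => e)) = ‖e‖ := by
  obtain ⟨H, _, _, _, J, hJ⟩ := hN
  rw [hJ, opNorm_eq]
  have hop : ∀ x : PiLp 2 (fun _ : Fin 1 => H),
      ‖opM 1 ((Matrix.of (fun _ _ => e) : Matrix (Fin 1) (Fin 1) E).map J) x‖ = ‖J e (x 0)‖ := by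
    intro x
    have h1 := norm_opM_sq 1 ((Matrix.of (fun _ _ => e) : Matrix (Fin 1) (Fin 1) E).map J) x
    rw [Fin.sum_univ_one, Fin.sum_univ_one] at h1
    exact (pow_left_inj₀ (norm_nonneg _) (norm_nonneg _) two_ne_zero).1 h1
  have hx : ∀ x : PiLp 2 (fun _ : Fin 1 => H), ‖x‖ = ‖x 0‖ := by
    intro x
    have h1 := PiLp.norm_sq_eq_of_L2 (fun _ : Fin 1 => H) x
    rw [Fin.sum_univ_one] at h1
    exact (pow_left_inj₀ (norm_nonneg _) (norm_nonneg _) two_ne_zero).1 h1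
  apply le_antisymm
  · apply ContinuousLinearMap.opNorm_le_bound _ (norm_nonneg _)
    intro x
    rw [hop, hx]
    refine (ContinuousLinearMap.le_opNorm _ _).trans ?_
    rw [J.norm_map]
  · rw [← J.norm_map]
    apply ContinuousLinearMap.opNorm_le_bound _ (norm_nonneg _)
    intro h
    have h1 := ContinuousLinearMap.le_opNorm
      (opM 1 ((Matrix.of (fun _ _ => e) : Matrix (Fin 1) (Fin 1) E).map J))
      (WithLp.toLp 2 (fun _ => h))
    rw [hop, hx] at h1
    exact h1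

end str
section cb
variable {E : Type} [NormedAddCommGroup E] [NormedSpace ℂ E]

theorem CBLe.mono' {N M : MatNorms E} (hN : IsOSStructure E N) {u : E →ₗ[ℂ] E} {C C' : ℝ}
    (h : CBLe N M u C) (hC : C ≤ C') : CBLe N M u C' := by
  refine ⟨h.1.trans hC, fun n x => (h.2 n x).trans ?_⟩
  have := str_nonneg hN n x
  gcongr

theorem CBLe.comp' {N M P : MatNorms E} {u v : E →ₗ[ℂ] E} {A B : ℝ}
    (hu : CBLe N M u A) (hv : CBLe M P v B) : CBLe N P (v.comp u) (A * B) := by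
  refine ⟨mul_nonneg hu.1 hv.1, fun n x => ?_⟩
  have e : x.map (v.comp u) = (x.map u).map v := by
    ext1 i j; rfl
  rw [e]
  calc P n ((x.map u).map v) ≤ B * M n (x.map u) := hv.2 n _
    _ ≤ B * (A * N n x) := by
        have := hv.1
        have := hu.2 n x
        gcongr
    _ = A * B * N n x := by ring

theorem CBLe.add' {N M : MatNorms E} (hM : IsOSStructure E M) {u v : E →ₗ[ℂ] E} {A B : ℝ}
    (hu : CBLe N M u A) (hv : CBLe N M v B) : CBLe N M (u + v) (A + B) := by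
  refine ⟨add_nonneg hu.1 hv.1, fun n x => ?_⟩
  have e : x.map (u + v) = x.map u + x.map v := by
    ext1 i j; simp
  rw [e]
  refine (str_add hM n _ _).trans ?_
  have := hu.2 n x
  have := hv.2 n x
  linarith

theorem CBLe.smul' {N M : MatNorms E} (hM : IsOSStructure E M) {u : E →ₗ[ℂ] E} {A : ℝ}
    (c : ℂ) (hu : CBLe N M u A) : CBLe N M (c • u) (‖c‖ * A) := by
  refine ⟨mul_nonneg (norm_nonneg _) hu.1, fun n x => ?_⟩
  have e : x.map (c • u) = c • x.map u := by
    ext1 i j; simp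
  rw [e, str_smul hM, mul_assoc]
  exact mul_le_mul_of_nonneg_left (hu.2 n x) (norm_nonneg _)

theorem CBLe.id' (N : MatNorms E) : CBLe N N LinearMap.id 1 := by
  refine ⟨zero_le_one, fun n x => ?_⟩
  have e : x.map (LinearMap.id : E →ₗ[ℂ] E) = x := by
    ext1 i j; rfl
  rw [e, one_mul]

theorem CBLe.norm_le {N M : MatNorms E} (hN : IsOSStructure E N) (hM : IsOSStructure E M)
    {u : E →ₗ[ℂ] E} {A : ℝ} (hu : CBLe N M u A) (e : E) : ‖u e‖ ≤ A * ‖e‖ := by
  have h := hu.2 1 (Matrix.of (fun _ _ => e))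
  have e1 : (Matrix.of (fun _ _ => e) : Matrix (Fin 1) (Fin 1) E).map u =
      Matrix.of (fun _ _ => u e) := by
    ext1 i j; rfl
  rw [e1, str_one hM, str_one hN] at h
  exact h

end cb

/-- TARGET 1. -/
theorem exists_cb_const (E : Type) [NormedAddCommGroup E] [NormedSpace ℂ E] [FiniteDimensional ℂ E] :
    ∃ K : ℝ, 0 ≤ K ∧ ∀ N M : MatNorms E, IsOSStructure E N → IsOSStructure E M →
      ∀ (u : E →ₗ[ℂ] E) (r : ℝ), 0 ≤ r → (∀ e, ‖u e‖ ≤ r * ‖e‖) → CBLe N M u (K * r) := by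
  set b := Module.finBasis ℂ E with hb
  set f : Fin (Module.finrank ℂ E) → (E →L[ℂ] ℂ) := fun i =>
    LinearMap.toContinuousLinearMap (b.coord i) with hf
  set K : ℝ := ∑ i, ‖f i‖ * ‖b i‖ with hK
  have hK0 : 0 ≤ K := Finset.sum_nonneg (fun i _ => by positivity)
  refine ⟨K, hK0, ?_⟩
  intro N M hN hM u r hr hu
  refine ⟨mul_nonneg hK0 hr, fun n x => ?_⟩
  have hNx := str_nonneg hN n x
  have e : x.map u = ∑ i, x.map (fun z => f i z • u (b i)) := by
    ext1 a c
    rw [Matrix.sum_apply]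
    simp only [Matrix.map_apply]
    conv_lhs => rw [← b.sum_repr (x a c)]
    rw [map_sum]
    apply Finset.sum_congr rfl
    intro i _
    rw [map_smul]
    rfl
  rw [e]
  refine (str_sum hM n _ _).trans ?_
  calc ∑ i, M n (x.map (fun z => f i z • u (b i))) ≤ ∑ i, ‖f i‖ * ‖u (b i)‖ * N n x :=
        Finset.sum_le_sum (fun i _ => str_rankone hN hM n x (f i) (u (b i)))
    _ ≤ ∑ i, ‖f i‖ * (r * ‖b i‖) * N n x := by
        apply Finset.sum_le_sum
        intro i _
        have := hu (b i)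
        gcongr
    _ = K * r * N n x := by
        rw [hK, Finset.sum_mul, Finset.sum_mul]
        apply Finset.sum_congr rfl
        intro i _
        ring

section pseudo
variable {E : Type} [NormedAddCommGroup E] [NormedSpace ℂ E] [FiniteDimensional ℂ E]

/-- the set in the definition of dcb -/
def dset (N M : MatNorms E) : Set ℝ := {r : ℝ | ∃ (u : E ≃ₗ[ℂ] E) (A B : ℝ),
    CBLe N M (u : E →ₗ[ℂ] E) A ∧ CBLe M N (u.symm : E →ₗ[ℂ] E) B ∧ r = A * B}

omit [FiniteDimensional ℂ E] in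
theorem dcb_def' (N M : MatNorms E) : dcb N M = sInf (dset N M) := rfl

omit [FiniteDimensional ℂ E] in
theorem dset_symm (N M : MatNorms E) : dset N M = dset M N := by
  have h : ∀ N M : MatNorms E, dset N M ⊆ dset M N := by
    rintro N M r ⟨u, A, B, h1, h2, rfl⟩
    refine ⟨u.symm, B, A, h2, ?_, mul_comm _ _⟩
    rwa [LinearEquiv.symm_symm]
  exact Set.Subset.antisymm (h _ _) (h _ _)

theorem dset_nonempty {N M : MatNorms E} (hN : IsOSStructure E N) (hM : IsOSStructure E M) :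
    (dset N M).Nonempty := by
  obtain ⟨K, hK, h⟩ := exists_cb_const E
  refine ⟨K * 1 * (K * 1), LinearEquiv.refl ℂ E, K * 1, K * 1, ?_, ?_, rfl⟩
  · exact h N M hN hM _ 1 zero_le_one (fun e => by simp)
  · exact h M N hM hN _ 1 zero_le_one (fun e => by simp)

omit [FiniteDimensional ℂ E] in
theorem dset_ge_one [Nontrivial E] {N M : MatNorms E} (hN : IsOSStructure E N)
    (hM : IsOSStructure E M) {r : ℝ} (hr : r ∈ dset N M) : 1 ≤ r := by
  obtain ⟨u, A, B, h1, h2, rfl⟩ := hr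
  obtain ⟨e, he⟩ := exists_ne (0 : E)
  have hepos : 0 < ‖e‖ := norm_pos_iff.2 he
  have h3 := h1.norm_le hN hM e
  have h4 := h2.norm_le hM hN (u e)
  have h5 : ((u.symm : E ≃ₗ[ℂ] E) : E →ₗ[ℂ] E) (u e) = e := u.symm_apply_apply e
  rw [h5] at h4
  have h6 : ‖u e‖ ≤ A * ‖e‖ := h3
  have h7 : ‖e‖ ≤ B * (A * ‖e‖) := h4.trans (mul_le_mul_of_nonneg_left h6 h2.1)
  have h8 : 1 * ‖e‖ ≤ (A * B) * ‖e‖ := by rw [one_mul]; linarith
  exact le_of_mul_le_mul_right h8 hepos

theorem dcb_ge_one [Nontrivial E] {N M : MatNorms E} (hN : IsOSStructure E N)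
    (hM : IsOSStructure E M) : 1 ≤ dcb N M :=
  le_csInf (dset_nonempty hN hM) (fun _ hr => dset_ge_one hN hM hr)

omit [FiniteDimensional ℂ E] in
theorem dset_bdd (N M : MatNorms E) : BddBelow (dset N M) := by
  refine ⟨0, ?_⟩
  rintro r ⟨u, A, B, h1, h2, rfl⟩
  exact mul_nonneg h1.1 h2.1

omit [FiniteDimensional ℂ E] in
theorem cble_subsingleton [Subsingleton E] {N M : MatNorms E} (hN : IsOSStructure E N)
    (hM : IsOSStructure E M) (u : E →ₗ[ℂ] E) {C : ℝ} (hC : 0 ≤ C) : CBLe N M u C := by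
  refine ⟨hC, fun n x => ?_⟩
  have h1 : x = 0 := by ext1 i j; exact Subsingleton.elim _ _
  have h2 : x.map u = 0 := by ext1 i j; exact Subsingleton.elim _ _
  rw [h2, h1, str_zero hN, str_zero hM, mul_zero]

omit [FiniteDimensional ℂ E] in
theorem dcb_subsingleton [Subsingleton E] {N M : MatNorms E} (hN : IsOSStructure E N)
    (hM : IsOSStructure E M) : dcb N M = 0 := by
  rw [dcb_def']
  apply le_antisymm
  · apply csInf_le (dset_bdd N M)
    exact ⟨LinearEquiv.refl ℂ E, 0, 0, cble_subsingleton hN hM _ le_rfl,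
      cble_subsingleton hM hN _ le_rfl, by simp⟩
  · apply Real.sInf_nonneg
    rintro r ⟨u, A, B, h1, h2, rfl⟩
    exact mul_nonneg h1.1 h2.1

theorem dcb_triangle [Nontrivial E] {N M P : MatNorms E} (hN : IsOSStructure E N)
    (hM : IsOSStructure E M) (hP : IsOSStructure E P) : dcb N P ≤ dcb N M * dcb M P := by
  have hmul : ∀ r₁ ∈ dset N M, ∀ r₂ ∈ dset M P, dcb N P ≤ r₁ * r₂ := by
    rintro _ ⟨u, A, B, h1, h2, rfl⟩ _ ⟨v, A', B', h3, h4, rfl⟩
    apply csInf_le (dset_bdd N P)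
    refine ⟨u.trans v, A * A', B' * B, ?_, ?_, by ring⟩
    · exact h1.comp' h3
    · exact h4.comp' h2
  have h1 : ∀ r₂ ∈ dset M P, dcb N P ≤ dcb N M * r₂ := by
    intro r₂ hr₂
    have hr₂pos : 0 < r₂ := lt_of_lt_of_le one_pos (dset_ge_one hM hP hr₂)
    rw [← div_le_iff₀ hr₂pos]
    apply le_csInf (dset_nonempty hN hM)
    intro r₁ hr₁
    rw [div_le_iff₀ hr₂pos]
    exact hmul r₁ hr₁ r₂ hr₂
  have hpos : 0 < dcb N M := lt_of_lt_of_le one_pos (dcb_ge_one hN hM)
  rw [mul_comm, ← div_le_iff₀ hpos]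
  apply le_csInf (dset_nonempty hM hP)
  intro r₂ hr₂
  rw [div_le_iff₀ hpos, mul_comm]
  exact h1 r₂ hr₂

end pseudo

/-- TARGET 2. `log dcb` is a pseudometric. -/
theorem log_dcb_pseudo (E : Type) [NormedAddCommGroup E] [NormedSpace ℂ E] [FiniteDimensional ℂ E] :
    (∀ N : MatNorms E, IsOSStructure E N → Real.log (dcb N N) = 0) ∧
    (∀ N M : MatNorms E, IsOSStructure E N → IsOSStructure E M →
      Real.log (dcb N M) = Real.log (dcb M N)) ∧
    (∀ N M P : MatNorms E, IsOSStructure E N → IsOSStructure E M → IsOSStructure E P →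
      Real.log (dcb N P) ≤ Real.log (dcb N M) + Real.log (dcb M P)) := by
  refine ⟨?_, ?_, ?_⟩
  · intro N hN
    rcases subsingleton_or_nontrivial E with hE | hE
    · rw [dcb_subsingleton hN hN, Real.log_zero]
    · have h : dcb N N = 1 := by
        apply le_antisymm _ (dcb_ge_one hN hN)
        apply csInf_le (dset_bdd N N)
        exact ⟨LinearEquiv.refl ℂ E, 1, 1, CBLe.id' N, CBLe.id' N, by norm_num⟩
      rw [h, Real.log_one]
  · intro N M _ _
    rw [dcb_def', dcb_def', dset_symm]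
  · intro N M P hN hM hP
    rcases subsingleton_or_nontrivial E with hE | hE
    · rw [dcb_subsingleton hN hP, dcb_subsingleton hN hM, dcb_subsingleton hM hP, Real.log_zero]
      norm_num
    · have h1 := dcb_ge_one hN hM
      have h2 := dcb_ge_one hM hP
      have h3 := dcb_ge_one hN hP
      rw [← Real.log_mul (by positivity) (by positivity)]
      exact Real.log_le_log (by positivity) (dcb_triangle hN hM hP)

/-- balanced data -/
theorem near_data {E : Type} [NormedAddCommGroup E] [NormedSpace ℂ E] [FiniteDimensional ℂ E]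
    [Nontrivial E] {N M : MatNorms E} (hN : IsOSStructure E N) (hM : IsOSStructure E M) {c : ℝ}
    (h : dcb N M < c) : ∃ (u v : E →ₗ[ℂ] E) (s : ℝ), v.comp u = LinearMap.id ∧
      CBLe N M u s ∧ CBLe M N v s ∧ 0 ≤ s ∧ s ^ 2 < c := by
  obtain ⟨r, hr, hrc⟩ := exists_lt_of_csInf_lt (dset_nonempty hN hM) h
  have hr1 := dset_ge_one hN hM hr
  obtain ⟨u, A, B, h1, h2, rfl⟩ := hr
  have hA : 0 < A := by
    rcases h1.1.lt_or_eq with h | h
    · exact h
    · rw [← h, zero_mul] at hr1; linarith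
  have hB : 0 < B := by
    rcases h2.1.lt_or_eq with h | h
    · exact h
    · rw [← h, mul_zero] at hr1; linarith
  set t := Real.sqrt (B / A) with ht
  have htpos : 0 < t := Real.sqrt_pos.2 (by positivity)
  have ht2 : t ^ 2 = B / A := Real.sq_sqrt (by positivity)
  set s := Real.sqrt (A * B) with hs
  have hspos : 0 < s := Real.sqrt_pos.2 (by positivity)
  have hs2 : s ^ 2 = A * B := Real.sq_sqrt (by positivity)
  have e1 : t * A = s := by
    apply (pow_left_inj₀ (by positivity) hspos.le two_ne_zero).1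
    rw [mul_pow, ht2, hs2]; field_simp
  have e2 : t⁻¹ * B = s := by
    apply (pow_left_inj₀ (by positivity) hspos.le two_ne_zero).1
    rw [mul_pow, inv_pow, ht2, hs2]; field_simp
  refine ⟨(t : ℂ) • (u : E →ₗ[ℂ] E), ((t⁻¹ : ℝ) : ℂ) • (u.symm : E →ₗ[ℂ] E), s, ?_, ?_, ?_,
    hspos.le, by rw [hs2]; exact hrc⟩
  · apply LinearMap.ext
    intro e
    have hne : (t : ℂ) ≠ 0 := by exact_mod_cast htpos.ne'
    show ((t⁻¹ : ℝ) : ℂ) • u.symm ((t : ℂ) • u e) = e
    rw [map_smul, u.symm_apply_apply, smul_smul, Complex.ofReal_inv, inv_mul_cancel₀ hne, one_smul]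
  · have := h1.smul' hM (t : ℂ)
    rwa [Complex.norm_real, Real.norm_of_nonneg htpos.le, e1] at this
  · have := h2.smul' hN ((t⁻¹ : ℝ) : ℂ)
    rwa [Complex.norm_real, Real.norm_of_nonneg (by positivity), e2] at this

/-- TARGET 3. Only finitely many elements of a separated set are close to a given structure. -/
theorem finite_near (E : Type) [NormedAddCommGroup E] [NormedSpace ℂ E] [FiniteDimensional ℂ E]
    (ε : ℝ) (hε : 0 < ε) : ∃ δ : ℝ, 0 < δ ∧ ∀ S : Set (MatNorms E), (∀ N ∈ S, IsOSStructure E N) →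
      (∀ N ∈ S, ∀ N' ∈ S, N ≠ N' →
        ¬ (CBLe N N' LinearMap.id (1 + ε) ∧ CBLe N' N LinearMap.id (1 + ε))) →
      ∀ M : MatNorms E, IsOSStructure E M → {N ∈ S | Real.log (dcb N M) < δ}.Finite := by
  rcases subsingleton_or_nontrivial E with hE | hE
  · refine ⟨1, one_pos, fun S hS hsep M hM => ?_⟩
    have hsub : S.Subsingleton := by
      intro N hN N' hN'
      by_contra hne
      exact hsep N hN N' hN' hne ⟨cble_subsingleton (hS N hN) (hS N' hN') _ (by positivity),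
        cble_subsingleton (hS N' hN') (hS N hN) _ (by positivity)⟩
    exact hsub.finite.subset (fun N hN => hN.1)
  obtain ⟨K, hK, hcb⟩ := exists_cb_const E
  set c : ℝ := min (1 + ε / 2) 4 with hc
  have hc1 : 1 < c := by rw [hc]; exact lt_min (by linarith) (by norm_num)
  refine ⟨Real.log c, Real.log_pos hc1, fun S hS hsep M hM => ?_⟩
  by_contra hinf
  rw [← Set.Infinite] at hinf
  set S' := {N ∈ S | Real.log (dcb N M) < Real.log c} with hS'
  have hdata : ∀ N : MatNorms E, ∃ (u v : E →ₗ[ℂ] E) (s : ℝ), N ∈ S' → (v.comp u = LinearMap.id ∧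
      CBLe N M u s ∧ CBLe M N v s ∧ 0 ≤ s ∧ s ^ 2 < c) := by
    intro N
    by_cases hN : N ∈ S'
    · have h1 := dcb_ge_one (hS N hN.1) hM
      have h2 : dcb N M < c := (Real.log_lt_log_iff (by linarith) (by linarith)).1 hN.2
      obtain ⟨u, v, s, h⟩ := near_data (hS N hN.1) hM h2
      exact ⟨u, v, s, fun _ => h⟩
    · exact ⟨0, 0, 0, fun h => absurd h hN⟩
  choose u v s hdat using hdata
  set δ' : ℝ := ε / (4 * (K + 1)) with hδ'
  have hδ'pos : 0 < δ' := by rw [hδ']; positivity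
  have hproper : ProperSpace (E →L[ℂ] E) := FiniteDimensional.proper ℂ _
  set U : MatNorms E → (E →L[ℂ] E) := fun N => LinearMap.toContinuousLinearMap (u N) with hU
  have hs2 : ∀ N ∈ S', s N ≤ 2 := by
    intro N hN
    obtain ⟨-, -, -, h4, h5⟩ := hdat N hN
    have : s N ^ 2 < 4 := h5.trans_le (min_le_right _ _)
    nlinarith
  have hball : ∀ N ∈ S', U N ∈ Metric.closedBall (0 : E →L[ℂ] E) 2 := by
    intro N hN
    rw [mem_closedBall_zero_iff]
    apply ContinuousLinearMap.opNorm_le_bound _ (by norm_num)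
    intro e
    have h1 := (hdat N hN).2.1.norm_le (hS N hN.1) hM e
    have h2 := hs2 N hN
    calc ‖U N e‖ = ‖u N e‖ := rfl
      _ ≤ s N * ‖e‖ := h1
      _ ≤ 2 * ‖e‖ := by gcongr
  have htb := (isCompact_closedBall (0 : E →L[ℂ] E) 2).totallyBounded
  obtain ⟨t, htfin, htcov⟩ := Metric.totallyBounded_iff.1 htb (δ' / 2) (by positivity)
  have hcen : ∀ N : MatNorms E, ∃ y : E →L[ℂ] E, N ∈ S' → (y ∈ t ∧ dist (U N) y < δ' / 2) := by
    intro N
    by_cases hN : N ∈ S'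
    · have := htcov (hball N hN)
      simp only [Set.mem_iUnion, Metric.mem_ball] at this
      obtain ⟨y, hy, hd⟩ := this
      exact ⟨y, fun _ => ⟨hy, hd⟩⟩
    · exact ⟨0, fun h => absurd h hN⟩
  choose y hy using hcen
  obtain ⟨N, hN, N', hN', hne, hyy⟩ := hinf.exists_ne_map_eq_of_mapsTo
    (fun N hN => (hy N hN).1 : Set.MapsTo y S' t) htfin
  have key : ∀ N ∈ S', ∀ N' ∈ S', y N = y N' → CBLe N N' LinearMap.id (1 + ε) := by
    intro N hN N' hN' hyy
    have hd : dist (U N) (U N') < δ' := by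
      have h1 := (hy N hN).2
      have h2 := (hy N' hN').2
      rw [hyy] at h1
      calc dist (U N) (U N') ≤ dist (U N) (y N') + dist (U N') (y N') := dist_triangle_right _ _ _
        _ < δ' := by linarith
    obtain ⟨a1, a2, a3, a4, a5⟩ := hdat N hN
    obtain ⟨b1, b2, b3, b4, b5⟩ := hdat N' hN'
    have hdiff : CBLe N M (u N - u N') (K * δ') := by
      apply hcb N M (hS N hN.1) hM _ _ hδ'pos.le
      intro e
      have h1 : ‖(U N - U N') e‖ ≤ ‖U N - U N'‖ * ‖e‖ := ContinuousLinearMap.le_opNorm _ _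
      rw [dist_eq_norm] at hd
      calc ‖(u N - u N') e‖ = ‖(U N - U N') e‖ := rfl
        _ ≤ ‖U N - U N'‖ * ‖e‖ := h1
        _ ≤ δ' * ‖e‖ := by gcongr
    have e1 : CBLe N N' ((v N').comp (u N)) (s N * s N') := a2.comp' b3
    have e2 : CBLe N N' ((v N').comp (u N - u N')) (K * δ' * s N') := hdiff.comp' b3
    have e2' := e2.smul' (hS N' hN'.1) (-1)
    have e3 := e1.add' (hS N' hN'.1) e2'
    have e4 : (v N').comp (u N) + (-1 : ℂ) • (v N').comp (u N - u N') = LinearMap.id := by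
      rw [← b1]
      ext e
      simp
    rw [e4] at e3
    refine e3.mono' (hS N hN.1) ?_
    rw [norm_neg, norm_one, one_mul]
    have h5 : s N ^ 2 < 1 + ε / 2 := a5.trans_le (min_le_left _ _)
    have h6 : s N' ^ 2 < 1 + ε / 2 := b5.trans_le (min_le_left _ _)
    have h7 : s N * s N' ≤ 1 + ε / 2 := by nlinarith [sq_nonneg (s N - s N')]
    have h8 : K * δ' * s N' ≤ ε / 2 := by
      have h9 := hs2 N' hN'
      have h10 : K * δ' ≤ ε / 4 := by
        rw [hδ', ← mul_div_assoc, div_le_div_iff₀ (by positivity) (by norm_num)]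
        nlinarith
      have h11 : 0 ≤ K * δ' := by positivity
      nlinarith
    linarith
  exact hsep N hN.1 N' hN'.1 hne ⟨key N hN N' hN' hyy, key N' hN' N hN hyy.symm⟩

end Pool.Agent.Helper685.OSep
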