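import Mathlib
import Pool.Agent.Helper685.OSep.Defs2

set_option autoImplicit false

open scoped Matrix.Norms.L2Operator

namespace Pool.Agent.Helper685.OSep

section J3aux
variable {ι : Type} [Fintype ι]

theorem J3.norm_sq_eu (v : ι → ℂ) : ‖(WithLp.toLp 2 v : EuclideanSpace ℂ ι)‖ ^ 2 = ∑ a, ‖v a‖ ^ 2 := by
  rw [EuclideanSpace.norm_sq_eq]

theorem J3.mulVec_le [DecidableEq ι] (T : Matrix ι ι ℂ) (v : ι → ℂ) :
    ∑ a, ‖T.mulVec v a‖ ^ 2 ≤ ‖T‖ ^ 2 * ∑ a, ‖v a‖ ^ 2 := by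
  have h := Matrix.l2_opNorm_mulVec T (WithLp.toLp 2 v : EuclideanSpace ℂ ι)
  have h2 := pow_le_pow_left₀ (norm_nonneg _) h 2
  rw [mul_pow, J3.norm_sq_eu v] at h2
  rw [← J3.norm_sq_eu (T.mulVec v)]
  exact h2

theorem J3.opNorm_le [DecidableEq ι] (T : Matrix ι ι ℂ) (C : ℝ) (hC : 0 ≤ C)
    (h : ∀ v : ι → ℂ, ∑ a, ‖T.mulVec v a‖ ^ 2 ≤ C ^ 2 * ∑ a, ‖v a‖ ^ 2) : ‖T‖ ≤ C := by
  rw [Matrix.l2_opNorm_def]
  refine ContinuousLinearMap.opNorm_le_bound _ hC ?_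
  intro x
  have h1 := h x.ofLp
  rw [← J3.norm_sq_eu, ← J3.norm_sq_eu] at h1
  have h2 : (‖(WithLp.toLp 2 (T.mulVec x.ofLp) : EuclideanSpace ℂ ι)‖) ^ 2 ≤
    (C * ‖(WithLp.toLp 2 x.ofLp : EuclideanSpace ℂ ι)‖) ^ 2 := by rw [mul_pow]; exact h1
  exact le_of_sq_le_sq h2 (mul_nonneg hC (norm_nonneg _))

theorem J3.cs (x y : ι → ℂ) :
    ‖star x ⬝ᵥ y‖ ^ 2 ≤ (∑ a, ‖x a‖ ^ 2) * ∑ a, ‖y a‖ ^ 2 := by
  have h1 : ‖star x ⬝ᵥ y‖ ≤ ∑ a, ‖x a‖ * ‖y a‖ := by
    unfold dotProduct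
    refine (norm_sum_le _ _).trans (Finset.sum_le_sum fun a _ => ?_)
    rw [norm_mul, Pi.star_apply, norm_star]
  calc ‖star x ⬝ᵥ y‖ ^ 2 ≤ (∑ a, ‖x a‖ * ‖y a‖) ^ 2 := pow_le_pow_left₀ (norm_nonneg _) h1 2
    _ ≤ _ := Finset.sum_mul_sq_le_sq_mul_sq _ _ _

theorem J3.self (x : ι → ℂ) : star x ⬝ᵥ x = ((∑ a, ‖x a‖ ^ 2 : ℝ) : ℂ) := by
  unfold dotProduct
  rw [Complex.ofReal_sum]
  apply Finset.sum_congr rfl
  intro a _
  rw [Pi.star_apply, Complex.star_def, Complex.conj_mul', Complex.ofReal_pow]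

theorem J3.add_sq (x y : ι → ℂ) (h : star x ⬝ᵥ y = 0) :
    ∑ a, ‖x a + y a‖ ^ 2 = ∑ a, ‖x a‖ ^ 2 + ∑ a, ‖y a‖ ^ 2 := by
  have h' : star y ⬝ᵥ x = 0 := by
    rw [Matrix.star_dotProduct, h, star_zero]
  have h1 := J3.self (x + y)
  rw [star_add, add_dotProduct, dotProduct_add, dotProduct_add, h, h', J3.self, J3.self] at h1
  rw [add_zero, zero_add] at h1
  have h2 := h1.symm
  rw [← Complex.ofReal_add] at h2
  have h3 := Complex.ofReal_injective h2
  simpa using h3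

theorem J3.adj (T : Matrix ι ι ℂ) (x y : ι → ℂ) :
    star x ⬝ᵥ T.mulVec y = star (T.conjTranspose.mulVec x) ⬝ᵥ y := by
  rw [Matrix.dotProduct_mulVec, Matrix.star_mulVec, Matrix.conjTranspose_conjTranspose]

theorem J3.adj' (T : Matrix ι ι ℂ) (x y : ι → ℂ) :
    star x ⬝ᵥ T.conjTranspose.mulVec y = star (T.mulVec x) ⬝ᵥ y := by
  rw [J3.adj, Matrix.conjTranspose_conjTranspose]

end J3aux

theorem SimpleTop.norm_eq {ι : Type} [Fintype ι] [DecidableEq ι] {T : Matrix ι ι ℂ} {c g : ℝ}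
    {ξ η : ι → ℂ} (h : SimpleTop T c g ξ η) : ‖T‖ = c := by
  apply le_antisymm
  · apply J3.opNorm_le T c h.c_pos.le
    intro v
    set a := star ξ ⬝ᵥ v with ha
    set w : ι → ℂ := v - a • ξ with hw
    have hξξ : star ξ ⬝ᵥ ξ = 1 := by rw [J3.self, h.xi_norm, Complex.ofReal_one]
    have hξw : star ξ ⬝ᵥ w = 0 := by
      rw [hw, dotProduct_sub, dotProduct_smul, hξξ, ← ha, smul_eq_mul, mul_one, sub_self]
    have hg := h.gap w hξw
    have hηw : star η ⬝ᵥ T.mulVec w = 0 := by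
      rw [J3.adj, h.Tt_eta]
      have : star (fun a => (c:ℂ) * ξ a) = (c:ℂ) • star ξ := by
        ext i
        simp
      rw [this, smul_dotProduct, hξw, smul_zero]
    have hv : v = a • ξ + w := by rw [hw]; abel
    have hTv : T.mulVec v = (a * c) • η + T.mulVec w := by
      conv_lhs => rw [hv]
      rw [Matrix.mulVec_add, Matrix.mulVec_smul, h.T_xi]
      congr 1
      ext i
      simp [mul_assoc]
    have e1 : ∑ i, ‖T.mulVec v i‖ ^ 2 = ‖a‖ ^ 2 * c ^ 2 + ∑ i, ‖T.mulVec w i‖ ^ 2 := by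
      rw [hTv]
      simp only [Pi.add_apply]
      rw [J3.add_sq]
      · congr 1
        simp only [Pi.smul_apply, smul_eq_mul, norm_mul, mul_pow]
        rw [← Finset.mul_sum, h.eta_norm, mul_one, Complex.norm_real, Real.norm_eq_abs, sq_abs]
      · rw [star_smul, smul_dotProduct, hηw, smul_zero]
    have e2 : ∑ i, ‖v i‖ ^ 2 = ‖a‖ ^ 2 + ∑ i, ‖w i‖ ^ 2 := by
      conv_lhs => rw [hv]
      simp only [Pi.add_apply]
      rw [J3.add_sq]
      · congr 1
        simp only [Pi.smul_apply, smul_eq_mul, norm_mul, mul_pow]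
        rw [← Finset.mul_sum, h.xi_norm, mul_one]
      · rw [star_smul, smul_dotProduct, hξw, smul_zero]
    rw [e1, e2]
    have h1 : 0 ≤ ∑ i, ‖w i‖ ^ 2 := Finset.sum_nonneg fun i _ => by positivity
    nlinarith [mul_nonneg h.g_pos.le h1]
  · have h1 := J3.mulVec_le T ξ
    rw [h.T_xi, h.xi_norm, mul_one] at h1
    simp only [norm_mul, mul_pow] at h1
    rw [← Finset.mul_sum, h.eta_norm, mul_one, Complex.norm_real, Real.norm_eq_abs, sq_abs] at h1
    exact le_of_sq_le_sq h1 (norm_nonneg _)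

/-- TARGET 2. Transposition. -/
theorem SimpleTop.transpose {ι : Type} [Fintype ι] [DecidableEq ι] {T : Matrix ι ι ℂ} {c g : ℝ}
    {ξ η : ι → ℂ} (h : SimpleTop T c g ξ η) :
    SimpleTop T.transpose c g (fun a => star (η a)) (fun a => star (ξ a)) where
  c_pos := h.c_pos
  g_pos := h.g_pos
  g_le := h.g_le
  xi_norm := by simpa using h.eta_norm
  eta_norm := by simpa using h.xi_norm
  T_xi := by
    have h1 := congrArg star h.Tt_eta
    rw [Matrix.star_mulVec, Matrix.conjTranspose_conjTranspose] at h1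
    rw [Matrix.mulVec_transpose]
    change Matrix.vecMul (star η) T = _
    rw [h1]
    ext i
    simp
  Tt_eta := by
    have h1 := congrArg star h.T_xi
    rw [Matrix.star_mulVec] at h1
    have hTT : T.transpose.conjTranspose = T.conjTranspose.transpose := rfl
    rw [hTT, Matrix.mulVec_transpose]
    change Matrix.vecMul (star ξ) T.conjTranspose = _
    rw [h1]
    ext i
    simp
  gap := by
    intro v hv
    set w : ι → ℂ := star v with hw
    set z : ι → ℂ := T.conjTranspose.mulVec w with hz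
    have hηw : star η ⬝ᵥ w = 0 := by
      have h1 := congrArg star hv
      rw [star_zero, star_sum] at h1
      rw [← h1]
      unfold dotProduct
      apply Finset.sum_congr rfl
      intro i _
      simp [hw]
    have hξz : star ξ ⬝ᵥ z = 0 := by
      rw [hz, J3.adj', h.T_xi]
      have : star (fun a => (c:ℂ) * η a) = (c:ℂ) • star η := by
        ext i
        simp
      rw [this, smul_dotProduct, hηw, smul_zero]
    have hg := h.gap z hξz
    have hn1 : ∑ i, ‖T.transpose.mulVec v i‖ ^ 2 = ∑ i, ‖z i‖ ^ 2 := by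
      apply Finset.sum_congr rfl
      intro i _
      have h1 : T.transpose.mulVec v = star z := by
        rw [hz, Matrix.star_mulVec, Matrix.conjTranspose_conjTranspose, hw, star_star,
          Matrix.mulVec_transpose]
      rw [h1, Pi.star_apply, norm_star]
    have hn2 : ∑ i, ‖w i‖ ^ 2 = ∑ i, ‖v i‖ ^ 2 := by
      apply Finset.sum_congr rfl
      intro i _
      rw [hw, Pi.star_apply, norm_star]
    rw [hn1, ← hn2]
    set Nz := ∑ i, ‖z i‖ ^ 2 with hNz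
    set Nw := ∑ i, ‖w i‖ ^ 2 with hNw
    set NT := ∑ i, ‖T.mulVec z i‖ ^ 2 with hNT
    have hNz0 : 0 ≤ Nz := Finset.sum_nonneg fun i _ => by positivity
    have hNw0 : 0 ≤ Nw := Finset.sum_nonneg fun i _ => by positivity
    have hcs : Nz ^ 2 ≤ NT * Nw := by
      have h1 := J3.cs (T.mulVec z) w
      rw [← J3.adj', ← hz, J3.self, Complex.norm_real, Real.norm_eq_abs, sq_abs] at h1
      exact h1
    have hcg : 0 ≤ c ^ 2 - g := by linarith [h.g_le]
    rcases hNz0.eq_or_lt with h0 | h0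
    · rw [← h0]; exact mul_nonneg hcg hNw0
    · have h2 : Nz * Nz ≤ ((c ^ 2 - g) * Nw) * Nz := by
        calc Nz * Nz = Nz ^ 2 := by ring
          _ ≤ NT * Nw := hcs
          _ ≤ ((c ^ 2 - g) * Nz) * Nw := mul_le_mul_of_nonneg_right hg hNw0
          _ = _ := by ring
      exact le_of_mul_le_mul_right h2 h0

/-- TARGET 3. If both singular vectors are product vectors then `c` is at most the product of the
norm of `u` and the minimal norm of `x`. -/
theorem SimpleTop.le_of_product {E : Type} [NormedAddCommGroup E] [NormedSpace ℂ E] {m k : ℕ}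
    (u : E →ₗ[ℂ] Matrix (Fin k) (Fin k) ℂ) (K : ℝ) (hK : 0 ≤ K) (hu : ∀ e, ‖u e‖ ≤ K * ‖e‖)
    (x : Matrix (Fin m) (Fin m) E) {c g : ℝ} {ξ η : Fin m × Fin k → ℂ}
    (h : SimpleTop (Matrix.of fun (p q : Fin m × Fin k) => u (x p.1 q.1) p.2 q.2) c g ξ η)
    (α γ : Fin m → ℂ) (β δ : Fin k → ℂ) (hη : ∀ p, η p = α p.1 * β p.2)
    (hξ : ∀ p, ξ p = γ p.1 * δ p.2) :
    c ≤ K * sSup {r : ℝ | ∃ f : E →L[ℂ] ℂ, ‖f‖ ≤ 1 ∧ r = ‖x.map f‖} := by
  set S := sSup {r : ℝ | ∃ f : E →L[ℂ] ℂ, ‖f‖ ≤ 1 ∧ r = ‖x.map f‖} with hS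
  have hbdd : BddAbove {r : ℝ | ∃ f : E →L[ℂ] ℂ, ‖f‖ ≤ 1 ∧ r = ‖x.map f‖} := by
    refine ⟨√(∑ a, ∑ b, ‖x a b‖ ^ 2), ?_⟩
    rintro r ⟨f, hf, rfl⟩
    apply J3.opNorm_le _ _ (Real.sqrt_nonneg _)
    intro v
    rw [Real.sq_sqrt (Finset.sum_nonneg fun a _ => Finset.sum_nonneg fun b _ => by positivity),
      Finset.sum_mul]
    apply Finset.sum_le_sum
    intro a _
    have h1 : (x.map f).mulVec v a = star (fun b => star (f (x a b))) ⬝ᵥ v := by
      unfold Matrix.mulVec dotProduct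
      apply Finset.sum_congr rfl
      intro b _
      simp
    rw [h1]
    refine (J3.cs _ _).trans ?_
    apply mul_le_mul_of_nonneg_right _ (Finset.sum_nonneg fun b _ => by positivity)
    apply Finset.sum_le_sum
    intro b _
    rw [norm_star]
    apply pow_le_pow_left₀ (norm_nonneg _)
    calc ‖f (x a b)‖ ≤ ‖f‖ * ‖x a b‖ := f.le_opNorm _
      _ ≤ 1 * ‖x a b‖ := mul_le_mul_of_nonneg_right hf (norm_nonneg _)
      _ = ‖x a b‖ := one_mul _
  set y : E := ∑ a, ∑ a', (star (α a) * γ a') • x a a' with hy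
  obtain ⟨f, hf1, hfy⟩ := exists_dual_vector'' ℂ y
  have hfS : ‖x.map f‖ ≤ S := le_csSup hbdd ⟨f, hf1, rfl⟩
  have hS0 : 0 ≤ S := (norm_nonneg _).trans hfS
  -- bilinear bound
  have hbil : ∀ {n : ℕ} (M : Matrix (Fin n) (Fin n) ℂ) (p q : Fin n → ℂ),
      ‖star p ⬝ᵥ M.mulVec q‖ ^ 2 ≤ (∑ a, ‖p a‖ ^ 2) * (‖M‖ ^ 2 * ∑ a, ‖q a‖ ^ 2) := by
    intro n M p q
    refine (J3.cs _ _).trans ?_
    exact mul_le_mul_of_nonneg_left (J3.mulVec_le _ _) (Finset.sum_nonneg fun a _ => by positivity)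
  have hyb : ‖y‖ ^ 2 ≤ (∑ a, ‖α a‖ ^ 2) * (S ^ 2 * ∑ a, ‖γ a‖ ^ 2) := by
    have h1 : star α ⬝ᵥ (x.map f).mulVec γ = f y := by
      rw [hy, map_sum]
      unfold Matrix.mulVec dotProduct
      apply Finset.sum_congr rfl
      intro a _
      rw [map_sum, Finset.mul_sum]
      apply Finset.sum_congr rfl
      intro b _
      rw [map_smul, smul_eq_mul, Pi.star_apply]
      change star (α a) * (f (x a b) * γ b) = star (α a) * γ b * f (x a b)
      ring
    have h2 := hbil (x.map f) α γ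
    have h3 : ‖f y‖ = ‖y‖ := by
      rw [hfy]
      simp
    rw [h1, h3] at h2
    refine h2.trans ?_
    apply mul_le_mul_of_nonneg_left _ (Finset.sum_nonneg fun a _ => by positivity)
    apply mul_le_mul_of_nonneg_right _ (Finset.sum_nonneg fun a _ => by positivity)
    exact pow_le_pow_left₀ (norm_nonneg _) hfS 2
  have hcb : c ^ 2 ≤ (∑ a, ‖β a‖ ^ 2) * ((K * ‖y‖) ^ 2 * ∑ a, ‖δ a‖ ^ 2) := by
    have h1 : star β ⬝ᵥ (u y).mulVec δ = (c : ℂ) := by
      have h2 : star η ⬝ᵥ (Matrix.of fun (p q : Fin m × Fin k) => u (x p.1 q.1) p.2 q.2).mulVec ξ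
          = (c : ℂ) := by
        rw [h.T_xi]
        have : (fun a => (c:ℂ) * η a) = (c:ℂ) • η := by ext i; simp
        rw [this, dotProduct_smul, J3.self, h.eta_norm]
        simp
      rw [← h2]
      unfold Matrix.mulVec dotProduct
      simp only [Fintype.sum_prod_type, Matrix.of_apply, Pi.star_apply, hη, hξ]
      rw [hy, map_sum]
      simp only [map_sum, map_smul, Matrix.sum_apply, Matrix.smul_apply, smul_eq_mul, star_mul',
        Finset.mul_sum, Finset.sum_mul]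
      symm
      rw [Finset.sum_comm]
      apply Finset.sum_congr rfl
      intro b _
      symm
      rw [Finset.sum_comm]
      apply Finset.sum_congr rfl
      intro a _
      rw [Finset.sum_comm]
      apply Finset.sum_congr rfl
      intro a' _
      apply Finset.sum_congr rfl
      intro b' _
      ring
    have h2 := hbil (u y) β δ
    rw [h1, Complex.norm_real, Real.norm_eq_abs, sq_abs] at h2
    refine h2.trans ?_
    apply mul_le_mul_of_nonneg_left _ (Finset.sum_nonneg fun a _ => by positivity)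
    apply mul_le_mul_of_nonneg_right _ (Finset.sum_nonneg fun a _ => by positivity)
    exact pow_le_pow_left₀ (norm_nonneg _) (hu y) 2
  have hηn : (∑ a, ‖α a‖ ^ 2) * (∑ b, ‖β b‖ ^ 2) = 1 := by
    rw [← h.eta_norm, Fintype.sum_prod_type, Finset.sum_mul_sum]
    simp only [hη, norm_mul, mul_pow]
  have hξn : (∑ a, ‖γ a‖ ^ 2) * (∑ b, ‖δ b‖ ^ 2) = 1 := by
    rw [← h.xi_norm, Fintype.sum_prod_type, Finset.sum_mul_sum]
    simp only [hξ, norm_mul, mul_pow]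
  have hfin : c ^ 2 ≤ (K * S) ^ 2 := by
    have hβ0 : 0 ≤ ∑ b, ‖β b‖ ^ 2 := Finset.sum_nonneg fun b _ => by positivity
    have hδ0 : 0 ≤ ∑ b, ‖δ b‖ ^ 2 := Finset.sum_nonneg fun b _ => by positivity
    calc c ^ 2 ≤ (∑ a, ‖β a‖ ^ 2) * ((K * ‖y‖) ^ 2 * ∑ a, ‖δ a‖ ^ 2) := hcb
      _ = K ^ 2 * ((∑ a, ‖β a‖ ^ 2) * (∑ a, ‖δ a‖ ^ 2)) * ‖y‖ ^ 2 := by ring
      _ ≤ K ^ 2 * ((∑ a, ‖β a‖ ^ 2) * (∑ a, ‖δ a‖ ^ 2)) *
          ((∑ a, ‖α a‖ ^ 2) * (S ^ 2 * ∑ a, ‖γ a‖ ^ 2)) :=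
          mul_le_mul_of_nonneg_left hyb (by positivity)
      _ = (K * S) ^ 2 * ((∑ a, ‖α a‖ ^ 2) * (∑ a, ‖β a‖ ^ 2)) *
          ((∑ a, ‖γ a‖ ^ 2) * (∑ a, ‖δ a‖ ^ 2)) := by ring
      _ = (K * S) ^ 2 := by rw [hηn, hξn, mul_one, mul_one]
  exact le_of_sq_le_sq hfin (mul_nonneg hK hS0)

end Pool.Agent.Helper685.OSep
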