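import Mathlib

set_option autoImplicit false

namespace Pool.Agent.Helper685.OSep

/-- TARGET. A unit vector of `ℂ^m ⊗ ℂ^k` which is not a product vector is moved in the same direction
`ζ`, orthogonal to it, by suitable local Hermitian matrices. -/
theorem exists_local {m k : ℕ} (η : Fin m × Fin k → ℂ) (hη : ∑ p, ‖η p‖ ^ 2 = 1)
    (hnp : ¬ ∃ (α : Fin m → ℂ) (β : Fin k → ℂ), ∀ p, η p = α p.1 * β p.2) :
    ∃ (lam : Matrix (Fin m) (Fin m) ℂ) (rho : Matrix (Fin k) (Fin k) ℂ) (ζ : Fin m × Fin k → ℂ),
      lam.IsHermitian ∧ rho.IsHermitian ∧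
      (Matrix.kroneckerMap (· * ·) (1 : Matrix (Fin m) (Fin m) ℂ) rho).mulVec η = ζ ∧
      (Matrix.kroneckerMap (· * ·) lam (1 : Matrix (Fin k) (Fin k) ℂ)).mulVec η = ζ ∧
      ∑ p, star (η p) * ζ p = 0 ∧ ζ ≠ 0 := by
  classical
  -- the matrix of η
  set Y : Matrix (Fin m) (Fin k) ℂ := fun a b => η (a, b) with hY
  have hA : (Y * Y.conjTranspose).IsHermitian := Matrix.isHermitian_mul_conjTranspose_self Y
  have hη' : ∑ p, star (η p) * η p = 1 := by
    have h1 : ∀ p, star (η p) * η p = ((‖η p‖ ^ 2 : ℝ) : ℂ) := by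
      intro p
      rw [Complex.star_def, ← Complex.normSq_eq_conj_mul_self, Complex.normSq_eq_norm_sq]
    rw [Finset.sum_congr rfl (fun p _ => h1 p), ← Complex.ofReal_sum, hη, Complex.ofReal_one]
  have htr : (Y * Y.conjTranspose).trace = 1 := by
    rw [← hη', Matrix.trace, Fintype.sum_prod_type]
    refine Finset.sum_congr rfl fun a _ => ?_
    rw [Matrix.diag_apply, Matrix.mul_apply]
    refine Finset.sum_congr rfl fun b _ => ?_
    rw [Matrix.conjTranspose_apply, mul_comm]
  obtain ⟨i, hi⟩ : ∃ i, hA.eigenvalues i ≠ 0 := by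
    by_contra hcon
    push Not at hcon
    have h2 := hA.trace_eq_sum_eigenvalues
    rw [htr] at h2
    simp [hcon] at h2
  set s : ℝ := hA.eigenvalues i with hs
  have hsC : (s : ℂ) ≠ 0 := by exact_mod_cast hi
  obtain ⟨g, hg1, hg2⟩ : ∃ g : Fin m → ℂ, (∑ a, star (g a) * g a = 1) ∧
      (Y * Y.conjTranspose).mulVec g = fun a => (s : ℂ) * g a := by
    refine ⟨fun a => hA.eigenvectorBasis i a, ?_, ?_⟩
    · have hn : ‖hA.eigenvectorBasis i‖ = 1 := hA.eigenvectorBasis.orthonormal.1 i
      have h3 : ‖hA.eigenvectorBasis i‖ ^ 2 = 1 := by rw [hn]; norm_num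
      rw [EuclideanSpace.norm_sq_eq] at h3
      have h1 : ∀ a, star (hA.eigenvectorBasis i a) * hA.eigenvectorBasis i a
          = ((‖hA.eigenvectorBasis i a‖ ^ 2 : ℝ) : ℂ) := by
        intro p
        rw [Complex.star_def, ← Complex.normSq_eq_conj_mul_self, Complex.normSq_eq_norm_sq]
      rw [Finset.sum_congr rfl (fun p _ => h1 p), ← Complex.ofReal_sum, h3, Complex.ofReal_one]
    · have h4 := hA.mulVec_eigenvectorBasis i
      rw [h4]
      funext a
      simp [hs]
  set f : Fin k → ℂ := fun b => ∑ a, star (η (a, b)) * g a with hf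
  have hYf : ∀ a, ∑ b, η (a, b) * f b = (s : ℂ) * g a := by
    intro a
    have h5 := congrFun hg2 a
    rw [← h5, Matrix.mulVec, dotProduct]
    simp only [hf, Matrix.mul_apply, Matrix.conjTranspose_apply, Finset.mul_sum, Finset.sum_mul]
    rw [Finset.sum_comm]
    refine Finset.sum_congr rfl fun x _ => Finset.sum_congr rfl fun b _ => ?_
    rw [hY]; ring
  have hfs : ∀ b, star (f b) = ∑ a, star (g a) * η (a, b) := by
    intro b
    simp only [hf, star_sum, star_mul', star_star]
    refine Finset.sum_congr rfl fun a _ => ?_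
    ring
  have hff : ∑ b, star (f b) * f b = (s : ℂ) := by
    have : ∑ b, star (f b) * f b = ∑ a, star (g a) * ∑ b, η (a, b) * f b := by
      simp only [hfs, Finset.sum_mul, Finset.mul_sum]
      rw [Finset.sum_comm]
      refine Finset.sum_congr rfl fun x _ => Finset.sum_congr rfl fun b _ => ?_
      ring
    rw [this]
    simp only [hYf]
    have h6 : ∀ a, star (g a) * ((s : ℂ) * g a) = (s : ℂ) * (star (g a) * g a) := fun a => by ring
    rw [Finset.sum_congr rfl (fun a _ => h6 a), ← Finset.mul_sum, hg1, mul_one]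
  refine ⟨Matrix.of (fun a a' => g a * star (g a') - if a = a' then (s : ℂ) else 0),
    Matrix.of (fun b b' => f b' * star (f b) / s - if b = b' then (s : ℂ) else 0),
    fun p => g p.1 * star (f p.2) - s * η p, ?_, ?_, ?_, ?_, ?_, ?_⟩
  · ext a a'
    rw [Matrix.conjTranspose_apply, Matrix.of_apply, Matrix.of_apply]
    rw [star_sub, star_mul', star_star]
    congr 1
    · ring
    · by_cases h : a = a'
      · subst h; simp
      · have h' : ¬ a' = a := fun h' => h h'.symm
        rw [if_neg h, if_neg h']; simp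
  · ext b b'
    rw [Matrix.conjTranspose_apply, Matrix.of_apply, Matrix.of_apply]
    rw [star_sub]
    congr 1
    · rw [star_div₀, star_mul', star_star]
      simp only [Complex.star_def, Complex.conj_ofReal]
      ring
    · by_cases h : b = b'
      · subst h; simp
      · have h' : ¬ b' = b := fun h' => h h'.symm
        rw [if_neg h, if_neg h']; simp
  · funext p
    obtain ⟨a, b⟩ := p
    rw [Matrix.mulVec, dotProduct, Fintype.sum_prod_type]
    simp only [Matrix.kroneckerMap_apply, Matrix.one_apply, Matrix.of_apply]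
    rw [Finset.sum_eq_single a]
    · simp only [if_true, one_mul, sub_mul, Finset.sum_sub_distrib, ite_mul, zero_mul]
      rw [Finset.sum_ite_eq]
      simp only [Finset.mem_univ, if_true]
      congr 1
      have h7 : ∀ x, f x * star (f b) / (s : ℂ) * η (a, x)
          = star (f b) / s * (η (a, x) * f x) := fun x => by ring
      rw [Finset.sum_congr rfl (fun x _ => h7 x), ← Finset.mul_sum, hYf]
      field_simp
    · intro a' _ h
      refine Finset.sum_eq_zero fun b' _ => ?_
      have h' : ¬ a = a' := fun h' => h h'.symm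
      rw [if_neg h']; ring
    · intro h; exact absurd (Finset.mem_univ _) h
  · funext p
    obtain ⟨a, b⟩ := p
    rw [Matrix.mulVec, dotProduct, Fintype.sum_prod_type]
    simp only [Matrix.kroneckerMap_apply, Matrix.one_apply, Matrix.of_apply]
    have h8 : ∀ a', ∑ b', ((g a * star (g a') - if a = a' then (s : ℂ) else 0) *
        if b = b' then (1 : ℂ) else 0) * η (a', b')
        = (g a * star (g a') - if a = a' then (s : ℂ) else 0) * η (a', b) := by
      intro a'
      rw [Finset.sum_eq_single b]
      · rw [if_pos rfl]; ring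
      · intro b' _ h
        have h' : ¬ b = b' := fun h' => h h'.symm
        rw [if_neg h']; ring
      · intro h; exact absurd (Finset.mem_univ _) h
    rw [Finset.sum_congr rfl (fun a' _ => h8 a')]
    simp only [sub_mul, Finset.sum_sub_distrib, ite_mul, zero_mul]
    rw [Finset.sum_ite_eq]
    simp only [Finset.mem_univ, if_true]
    congr 1
    rw [hfs, Finset.mul_sum]
    refine Finset.sum_congr rfl fun x _ => ?_
    ring
  · have h9 : ∀ p : Fin m × Fin k, star (η p) * (g p.1 * star (f p.2) - s * η p)
        = star (η p) * g p.1 * star (f p.2) - s * (star (η p) * η p) := fun p => by ring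
    rw [Finset.sum_congr rfl (fun p _ => h9 p), Finset.sum_sub_distrib, ← Finset.mul_sum, hη',
      mul_one, sub_eq_zero, ← hff, Fintype.sum_prod_type, Finset.sum_comm]
    refine Finset.sum_congr rfl fun b _ => ?_
    simp only
    rw [← Finset.sum_mul, mul_comm]
  · intro h0
    apply hnp
    refine ⟨g, fun b => star (f b) / s, fun p => ?_⟩
    have h10 := congrFun h0 p
    simp only [Pi.zero_apply] at h10
    have h11 : (s : ℂ) * η p = g p.1 * star (f p.2) := by
      rw [sub_eq_zero] at h10; exact h10.symm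
    field_simp
    rw [← h11]; ring

end Pool.Agent.Helper685.OSep
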