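import Mathlib
import Pool.Agent.Helper685.OSep.I

set_option autoImplicit false
set_option linter.unusedSectionVars false



namespace Pool.Agent.Helper685.OSep


theorem k1_limit {E : Type} [NormedAddCommGroup E] [NormedSpace ℂ E] [FiniteDimensional ℂ E]
    {N M : MatNorms E} (hN : IsOSStructure E N) (hM : IsOSStructure E M)
    (u : ℕ → E →ₗ[ℂ] E) (s : ℕ → ℝ) (hu : ∀ k, CBLe N M (u k) (s k))
    (hs : ∀ k, s k ≤ 1 + 1 / ((k : ℝ) + 1)) (φ : ℕ → ℕ) (hφ : StrictMono φ) (U : E →L[ℂ] E)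
    (ht : Filter.Tendsto (fun k => LinearMap.toContinuousLinearMap (u (φ k))) Filter.atTop
      (nhds U)) : CBLe N M (U : E →ₗ[ℂ] E) 1 := by
  obtain ⟨K, hK, hcb⟩ := exists_cb_const E
  refine ⟨zero_le_one, fun n x => ?_⟩
  have hNx := str_nonneg hN n x
  have hb : ∀ k : ℕ, M n (x.map (U : E →ₗ[ℂ] E)) ≤
      (K * ‖U - LinearMap.toContinuousLinearMap (u (φ k))‖ + (1 + 1 / (((φ k : ℕ) : ℝ) + 1))) *
        N n x := by
    intro k
    set W : E →L[ℂ] E := U - LinearMap.toContinuousLinearMap (u (φ k)) with hW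
    have h1 : CBLe N M (W : E →ₗ[ℂ] E) (K * ‖W‖) :=
      hcb N M hN hM _ _ (norm_nonneg _) (fun e => W.le_opNorm e)
    have h2 := h1.add' hM (hu (φ k))
    have e : (W : E →ₗ[ℂ] E) + u (φ k) = (U : E →ₗ[ℂ] E) := by
      ext e
      simp [hW]
    rw [e] at h2
    have h3 := h2.2 n x
    refine h3.trans ?_
    have := hs (φ k)
    gcongr
  have hlim : Filter.Tendsto (fun k : ℕ =>
      (K * ‖U - LinearMap.toContinuousLinearMap (u (φ k))‖ + (1 + 1 / (((φ k : ℕ) : ℝ) + 1))) *
        N n x) Filter.atTop (nhds ((K * ‖U - U‖ + (1 + 0)) * N n x)) := by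
    apply Filter.Tendsto.mul_const
    apply Filter.Tendsto.add
    · exact ((tendsto_const_nhds.sub ht).norm).const_mul K
    · apply Filter.Tendsto.const_add
      have h0 : Filter.Tendsto (fun n : ℕ => 1 / ((n : ℝ) + 1)) Filter.atTop (nhds 0) :=
        tendsto_one_div_add_atTop_nhds_zero_nat
      exact h0.comp hφ.tendsto_atTop
  have := ge_of_tendsto' hlim hb
  simpa using this

/-- TARGET 1. -/
theorem completelyIsometric_of_log_dcb {E : Type} [NormedAddCommGroup E] [NormedSpace ℂ E]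
    [FiniteDimensional ℂ E] (N M : MatNorms E) (hN : IsOSStructure E N) (hM : IsOSStructure E M)
    (h : Real.log (dcb N M) = 0) : CompletelyIsometric N M := by
  rcases subsingleton_or_nontrivial E with hE | hE
  · refine ⟨LinearEquiv.refl ℂ E, fun n x => ?_⟩
    have h1 : x = 0 := by ext1 i j; exact Subsingleton.elim _ _
    have h2 : x.map (LinearEquiv.refl ℂ E) = 0 := by ext1 i j; exact Subsingleton.elim _ _
    rw [h2, h1, str_zero hN, str_zero hM]
  have hge := dcb_ge_one hN hM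
  have hone : dcb N M = 1 := Real.eq_one_of_pos_of_log_eq_zero (by linarith) h
  have hdat : ∀ k : ℕ, ∃ (u v : E →ₗ[ℂ] E) (s : ℝ), v.comp u = LinearMap.id ∧
      CBLe N M u s ∧ CBLe M N v s ∧ 0 ≤ s ∧ s ^ 2 < 1 + 1 / ((k : ℝ) + 1) := by
    intro k
    apply near_data hN hM
    rw [hone]
    have : 0 < 1 / ((k : ℝ) + 1) := by positivity
    linarith
  choose u v s hd using hdat
  have hs : ∀ k, s k ≤ 1 + 1 / ((k : ℝ) + 1) := by
    intro k
    obtain ⟨-, -, -, h4, h5⟩ := hd k
    have h0 : 0 < 1 / ((k : ℝ) + 1) := by positivity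
    by_contra hcon
    push Not at hcon
    nlinarith
  have hs2 : ∀ k, s k ≤ 2 := by
    intro k
    refine (hs k).trans ?_
    have : 1 / ((k : ℝ) + 1) ≤ 1 := by
      rw [div_le_one (by positivity)]
      have : (0 : ℝ) ≤ k := Nat.cast_nonneg k
      linarith
    linarith
  have hproper : ProperSpace (E →L[ℂ] E) := FiniteDimensional.proper ℂ _
  set U : ℕ → (E →L[ℂ] E) := fun k => LinearMap.toContinuousLinearMap (u k) with hU
  set V : ℕ → (E →L[ℂ] E) := fun k => LinearMap.toContinuousLinearMap (v k) with hV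
  have hUb : ∀ k, U k ∈ Metric.closedBall (0 : E →L[ℂ] E) 2 := by
    intro k
    rw [mem_closedBall_zero_iff]
    apply ContinuousLinearMap.opNorm_le_bound _ (by norm_num)
    intro e
    have h1 := (hd k).2.1.norm_le hN hM e
    have h2 := hs2 k
    calc ‖U k e‖ = ‖u k e‖ := rfl
      _ ≤ s k * ‖e‖ := h1
      _ ≤ 2 * ‖e‖ := by gcongr
  have hVb : ∀ k, V k ∈ Metric.closedBall (0 : E →L[ℂ] E) 2 := by
    intro k
    rw [mem_closedBall_zero_iff]
    apply ContinuousLinearMap.opNorm_le_bound _ (by norm_num)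
    intro e
    have h1 := (hd k).2.2.1.norm_le hM hN e
    have h2 := hs2 k
    calc ‖V k e‖ = ‖v k e‖ := rfl
      _ ≤ s k * ‖e‖ := h1
      _ ≤ 2 * ‖e‖ := by gcongr
  have hcomp := (isCompact_closedBall (0 : E →L[ℂ] E) 2).prod
    (isCompact_closedBall (0 : E →L[ℂ] E) 2)
  obtain ⟨⟨U0, V0⟩, -, φ, hφ, hlim⟩ := hcomp.tendsto_subseq
    (x := fun k => (U k, V k)) (fun k => ⟨hUb k, hVb k⟩)
  have hlim' := (Prod.tendsto_iff _ _).mp hlim
  have hUl : Filter.Tendsto (fun k => U (φ k)) Filter.atTop (nhds U0) := hlim'.1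
  have hVl : Filter.Tendsto (fun k => V (φ k)) Filter.atTop (nhds V0) := hlim'.2
  have hA := k1_limit hN hM u s (fun k => (hd k).2.1) hs φ hφ U0 hUl
  have hB := k1_limit hM hN v s (fun k => (hd k).2.2.1) hs φ hφ V0 hVl
  have hVU : (V0 : E →ₗ[ℂ] E).comp (U0 : E →ₗ[ℂ] E) = LinearMap.id := by
    ext e
    have h1 : Filter.Tendsto (fun k => V (φ k) (U (φ k) e)) Filter.atTop (nhds (V0 (U0 e))) :=
      (isBoundedBilinearMap_apply.continuous.tendsto (V0, U0 e)).comp
        (hVl.prodMk_nhds ((isBoundedBilinearMap_apply.continuous.tendsto (U0, e)).comp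
          (hUl.prodMk_nhds tendsto_const_nhds)))
    have h2 : (fun k => V (φ k) (U (φ k) e)) = fun _ => e := by
      funext k
      have := LinearMap.congr_fun (hd (φ k)).1 e
      exact this
    rw [h2] at h1
    exact (tendsto_nhds_unique h1 tendsto_const_nhds)
  have hUV : (U0 : E →ₗ[ℂ] E).comp (V0 : E →ₗ[ℂ] E) = LinearMap.id :=
    mul_eq_one_comm.mp hVU
  refine ⟨LinearEquiv.ofLinearMap _ _ hUV hVU, fun n x => ?_⟩
  apply le_antisymm
  · have := hA.2 n x
    rw [one_mul] at this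
    exact this
  · have := hB.2 n (x.map (U0 : E →ₗ[ℂ] E))
    rw [one_mul] at this
    have e : (x.map (U0 : E →ₗ[ℂ] E)).map (V0 : E →ₗ[ℂ] E) = x := by
      ext1 i j
      exact LinearMap.congr_fun hVU (x i j)
    rw [e] at this
    exact this

/-- TARGET 2. -/
theorem log_dcb_of_completelyIsometric {E : Type} [NormedAddCommGroup E] [NormedSpace ℂ E]
    [FiniteDimensional ℂ E] (N M : MatNorms E) (hN : IsOSStructure E N) (hM : IsOSStructure E M)
    (h : CompletelyIsometric N M) : Real.log (dcb N M) = 0 := by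
  rcases subsingleton_or_nontrivial E with hE | hE
  · rw [dcb_subsingleton hN hM, Real.log_zero]
  obtain ⟨u, hu⟩ := h
  have h1 : dcb N M = 1 := by
    apply le_antisymm _ (dcb_ge_one hN hM)
    apply csInf_le (dset_bdd N M)
    refine ⟨u, 1, 1, ⟨zero_le_one, fun n x => ?_⟩, ⟨zero_le_one, fun n x => ?_⟩, by norm_num⟩
    · rw [one_mul]
      exact (hu n x).le
    · rw [one_mul]
      have e := hu n (x.map u.symm)
      have e2 : (x.map u.symm).map u = x := by
        ext1 i j
        exact u.apply_symm_apply (x i j)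
      rw [e2] at e
      exact e.symm.le
  rw [h1, Real.log_one]

/-- TARGET 3 (no finite-dimensionality). Complete isometry is an equivalence relation. -/
theorem completelyIsometric_equiv (E : Type) [NormedAddCommGroup E] [NormedSpace ℂ E] :
    Equivalence (fun N M : MatNorms E => CompletelyIsometric N M) := by
  refine ⟨fun N => ⟨LinearEquiv.refl ℂ E, fun n x => ?_⟩, ?_, ?_⟩
  · have : x.map (LinearEquiv.refl ℂ E) = x := by
      ext1 i j; rfl
    rw [this]
  · rintro N M ⟨u, hu⟩
    refine ⟨u.symm, fun n x => ?_⟩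
    have e := hu n (x.map u.symm)
    have e2 : (x.map u.symm).map u = x := by
      ext1 i j
      exact u.apply_symm_apply (x i j)
    rw [e2] at e
    exact e.symm
  · rintro N M P ⟨u, hu⟩ ⟨v, hv⟩
    refine ⟨u.trans v, fun n x => ?_⟩
    have e : x.map (u.trans v) = (x.map u).map v := by
      ext1 i j; rfl
    rw [e, hv, hu]

end Pool.Agent.Helper685.OSep
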