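import Mathlib
import Pool.Agent.Helper685.OSep.Defs
import Pool.Agent.Helper685.OSep.B

set_option autoImplicit false
set_option linter.unusedSectionVars false

open scoped Matrix.Norms.L2Operator Kronecker

namespace Pool.Agent.Helper685.OSep

variable {E : Type} [NormedAddCommGroup E] [NormedSpace ℂ E]

/-- minimal norm for a general index type -/
noncomputable def minG {μ : Type} [Fintype μ] [DecidableEq μ] (x : Matrix μ μ E) : ℝ :=
  sSup {r : ℝ | ∃ f : E →L[ℂ] ℂ, ‖f‖ ≤ 1 ∧ r = ‖x.map f‖}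

/-- matrix norm for general index types -/
noncomputable def matG {μ κ : Type} [Fintype μ] [DecidableEq μ] [Fintype κ] [DecidableEq κ]
    (w : E →ₗ[ℂ] Matrix κ κ ℂ) (x : Matrix μ μ E) : ℝ :=
  ‖(Matrix.of fun (p q : μ × κ) => w (x p.1 q.1) p.2 q.2 : Matrix (μ × κ) (μ × κ) ℂ)‖

theorem minNorm_eq (n : ℕ) (x : Matrix (Fin n) (Fin n) E) : minNorm n x = minG x := rfl

theorem matNorm_eq {κ : Type} [Fintype κ] [DecidableEq κ] (w : E →ₗ[ℂ] Matrix κ κ ℂ) (n : ℕ)
    (x : Matrix (Fin n) (Fin n) E) : matNorm w n x = matG w x := rfl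

section

variable {μ : Type} [Fintype μ] [DecidableEq μ]

theorem crude (A : Matrix μ μ ℂ) : ‖A‖ ≤ ∑ a, ∑ b, ‖A a b‖ := by
  have h : A = ∑ a, ∑ b, Matrix.single a b (A a b) := Matrix.matrix_eq_sum_single A
  conv_lhs => rw [h]
  refine (norm_sum_le _ _).trans (Finset.sum_le_sum fun a _ => ?_)
  refine (norm_sum_le _ _).trans (Finset.sum_le_sum fun b _ => ?_)
  refine l2norm_le _ _ (norm_nonneg _) fun v => ?_
  rw [Finset.sum_eq_single a]
  · rw [Finset.sum_eq_single b]
    · rw [Matrix.single_apply_same, norm_mul, mul_pow]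
      gcongr
      exact Finset.single_le_sum (f := fun j => ‖v j‖ ^ 2) (fun j _ => by positivity)
        (Finset.mem_univ b)
    · intro j _ hj
      rw [Matrix.single_apply_of_ne (h := by simp [Ne.symm hj]), zero_mul]
    · intro h; exact absurd (Finset.mem_univ _) h
  · intro i _ hi
    rw [Finset.sum_eq_zero]
    · simp
    · intro j _
      rw [Matrix.single_apply_of_ne (h := by simp [Ne.symm hi]), zero_mul]
  · intro h; exact absurd (Finset.mem_univ _) h

theorem minG_bdd (x : Matrix μ μ E) :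
    BddAbove {r : ℝ | ∃ f : E →L[ℂ] ℂ, ‖f‖ ≤ 1 ∧ r = ‖x.map f‖} := by
  refine ⟨∑ a, ∑ b, ‖x a b‖, ?_⟩
  rintro r ⟨f, hf, rfl⟩
  refine (crude _).trans (Finset.sum_le_sum fun a _ => Finset.sum_le_sum fun b _ => ?_)
  rw [Matrix.map_apply]
  exact (f.le_opNorm _).trans (mul_le_of_le_one_left (norm_nonneg _) hf)

theorem le_minG (x : Matrix μ μ E) (f : E →L[ℂ] ℂ) (hf : ‖f‖ ≤ 1) : ‖x.map f‖ ≤ minG x :=
  le_csSup (minG_bdd x) ⟨f, hf, rfl⟩

theorem minG_le (x : Matrix μ μ E) (C : ℝ) (h : ∀ f : E →L[ℂ] ℂ, ‖f‖ ≤ 1 → ‖x.map f‖ ≤ C) :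
    minG x ≤ C := by
  refine csSup_le ⟨‖x.map (0 : E →L[ℂ] ℂ)‖, 0, by simp, rfl⟩ ?_
  rintro r ⟨f, hf, rfl⟩
  exact h f hf

theorem minG_nonneg (x : Matrix μ μ E) : 0 ≤ minG x :=
  (norm_nonneg _).trans (le_minG x 0 (by simp))

theorem norm_transpose (A : Matrix μ μ ℂ) : ‖A.transpose‖ = ‖A‖ := by
  have key : ∀ B : Matrix μ μ ℂ, ‖B.transpose‖ ≤ ‖B‖ := by
    intro B
    rw [← Matrix.l2_opNorm_conjTranspose B]
    refine l2norm_le _ _ (norm_nonneg _) fun v => ?_
    have h := l2norm_mulVec_sq B.conjTranspose fun j => star (v j)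
    have e1 : ∀ i, ‖∑ j, B.conjTranspose i j * star (v j)‖ = ‖∑ j, B.transpose i j * v j‖ := by
      intro i
      rw [← norm_star (∑ j, B.transpose i j * v j), star_sum]
      congr 1
      refine Finset.sum_congr rfl fun j _ => ?_
      rw [star_mul', Matrix.conjTranspose_apply, Matrix.transpose_apply]
    simp only [e1, norm_star] at h
    exact h
  refine le_antisymm (key A) ?_
  have := key A.transpose
  rwa [Matrix.transpose_transpose] at this

theorem minG_transpose (x : Matrix μ μ E) : minG x.transpose ≤ minG x := by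
  refine minG_le _ _ fun f hf => ?_
  have : x.transpose.map f = (x.map f).transpose := rfl
  rw [this, norm_transpose]
  exact le_minG x f hf

end

section reindex

variable {μ μ' : Type} [Fintype μ] [DecidableEq μ] [Fintype μ'] [DecidableEq μ']

theorem norm_reindex (e : μ ≃ μ') (A : Matrix μ μ ℂ) : ‖A.submatrix e.symm e.symm‖ = ‖A‖ := by
  have key : ∀ {a b : Type} [Fintype a] [DecidableEq a] [Fintype b] [DecidableEq b] (e : a ≃ b)
      (A : Matrix a a ℂ), ‖A.submatrix e.symm e.symm‖ ≤ ‖A‖ := by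
    intro a b _ _ _ _ e A
    refine l2norm_le _ _ (norm_nonneg _) fun v => ?_
    have h := l2norm_mulVec_sq A fun j => v (e j)
    have e1 : ∑ j, ‖v (e j)‖ ^ 2 = ∑ j, ‖v j‖ ^ 2 := Equiv.sum_comp e fun j => ‖v j‖ ^ 2
    have e2 : ∑ i, ‖∑ j, A.submatrix e.symm e.symm i j * v j‖ ^ 2 =
        ∑ i, ‖∑ j, A i j * v (e j)‖ ^ 2 := by
      rw [← Equiv.sum_comp e]
      refine Finset.sum_congr rfl fun i _ => ?_
      rw [← Equiv.sum_comp e]
      simp [Matrix.submatrix_apply]
    rw [e2, ← e1]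
    exact h
  refine le_antisymm (key e A) ?_
  have h := key e.symm (A.submatrix e.symm e.symm)
  simpa using h

theorem minG_reindex (e : μ ≃ μ') (x : Matrix μ μ E) : minG (x.submatrix e.symm e.symm) = minG x := by
  refine le_antisymm (minG_le _ _ fun f hf => ?_) (minG_le _ _ fun f hf => ?_)
  · have : (x.submatrix e.symm e.symm).map f = (x.map f).submatrix e.symm e.symm := rfl
    rw [this, norm_reindex]
    exact le_minG x f hf
  · have : (x.submatrix e.symm e.symm).map f = (x.map f).submatrix e.symm e.symm := rfl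
    rw [← norm_reindex e, ← this]
    exact le_minG _ f hf

/-- reindexed map -/
noncomputable def reU {κ κ' : Type} (e : κ ≃ κ') (u : E →ₗ[ℂ] Matrix κ κ ℂ) :
    E →ₗ[ℂ] Matrix κ' κ' ℂ where
  toFun y := (u y).submatrix e.symm e.symm
  map_add' x y := by rw [map_add]; rfl
  map_smul' c x := by rw [map_smul]; rfl

theorem matG_reindex {κ κ' : Type} [Fintype κ] [DecidableEq κ] [Fintype κ'] [DecidableEq κ']
    (e : μ ≃ μ') (e' : κ ≃ κ') (u : E →ₗ[ℂ] Matrix κ κ ℂ) (x : Matrix μ μ E) :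
    matG (reU e' u) (x.submatrix e.symm e.symm) = matG u x := by
  unfold matG
  rw [← norm_reindex (e.prodCongr e')]
  rfl

end reindex

end Pool.Agent.Helper685.OSep
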