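import Mathlib
import Pool.Agent.Helper685.OSep.Bridge
import Pool.Agent.Helper685.OSep.MinN

set_option autoImplicit false
set_option linter.unusedSectionVars false

open scoped Matrix.Norms.L2Operator InnerProductSpace Kronecker

namespace Pool.Agent.Helper685.OSep

section lin

variable {I J : Type} [Fintype I] [Fintype J] [DecidableEq I] [DecidableEq J]

theorem mt_inj {y z : EuclideanSpace ℂ (I × J)} (h : mt y = mt z) : y = z := by
  ext p
  have := congrFun (congrFun h p.1) p.2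
  simpa [mt] using this

theorem mt_smul (c : ℂ) (y : EuclideanSpace ℂ (I × J)) : mt (c • y) = c • mt y := by
  ext i j; simp [mt]

/-- the auxiliary matrix -/
noncomputable def Aux (θ : ℝ) (A H : Matrix I I ℂ) : Matrix I I ℂ :=
  (1 / 2 : ℂ) • (A - (θ : ℂ) • (H * H))

theorem lm_Aux (θ : ℝ) (A H : Matrix I I ℂ) :
    (lm (Aux θ A H) : EuclideanSpace ℂ (I × J) →ₗ[ℂ] _) =
      (1 / 2 : ℂ) • (lm A - (θ : ℂ) • (lm H ∘ₗ lm H)) := by
  refine LinearMap.ext fun y => mt_inj ?_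
  rw [mt_lm, LinearMap.smul_apply, mt_smul, LinearMap.sub_apply, mt_sub, LinearMap.smul_apply,
    mt_smul, LinearMap.comp_apply, mt_lm, mt_lm, mt_lm, Aux, Matrix.smul_mul, Matrix.sub_mul,
    Matrix.smul_mul, Matrix.mul_assoc]

theorem rm_Aux (θ : ℝ) (B L : Matrix J J ℂ) :
    (rm (Aux θ B L) : EuclideanSpace ℂ (I × J) →ₗ[ℂ] _) =
      (1 / 2 : ℂ) • (rm B - (θ : ℂ) • (rm L ∘ₗ rm L)) := by
  refine LinearMap.ext fun y => mt_inj ?_
  rw [mt_rm, LinearMap.smul_apply, mt_smul, LinearMap.sub_apply, mt_sub, LinearMap.smul_apply,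
    mt_smul, LinearMap.comp_apply, mt_rm, mt_rm, mt_rm, Aux, Matrix.mul_smul, Matrix.mul_sub,
    Matrix.mul_smul, Matrix.mul_assoc]

theorem lm_symm {A : Matrix I I ℂ} (hA : A.conjTranspose = A) :
    (lm A : EuclideanSpace ℂ (I × J) →ₗ[ℂ] _).IsSymmetric := by
  intro y z
  rw [inner_lm, hA]

theorem rm_symm {B : Matrix J J ℂ} (hB : B.conjTranspose = B) :
    (rm B : EuclideanSpace ℂ (I × J) →ₗ[ℂ] _).IsSymmetric := by
  intro y z
  rw [inner_rm, hB]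

theorem lm_smul' (c : ℂ) (A : Matrix I I ℂ) (y : EuclideanSpace ℂ (I × J)) :
    lm (c • A) y = c • lm A y := by
  refine mt_inj ?_
  rw [mt_lm, mt_smul, mt_lm, Matrix.smul_mul]

theorem rm_smul' (c : ℂ) (B : Matrix J J ℂ) (y : EuclideanSpace ℂ (I × J)) :
    rm (c • B) y = c • rm B y := by
  refine mt_inj ?_
  rw [mt_rm, mt_smul, mt_rm, Matrix.mul_smul]

theorem norm_le_of_lm (A : Matrix I I ℂ) (C : ℝ) (hC : 0 ≤ C) (q0 : J)
    (h : ∀ y : EuclideanSpace ℂ (I × J), ‖lm A y‖ ≤ C * ‖y‖) : ‖A‖ ≤ C := by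
  refine l2norm_le _ _ hC fun v => ?_
  have h1 := h (WithLp.toLp 2 fun p => if p.2 = q0 then v p.1 else 0)
  have h2 := pow_le_pow_left₀ (norm_nonneg _) h1 2
  rw [mul_pow, norm_sq_mt, norm_sq_mt, mt_lm] at h2
  simp only [PS.hs, mt, Matrix.mul_apply, Matrix.of_apply] at h2
  have e1 : ∀ i : I, ∑ x : J, ‖if x = q0 then v i else 0‖ ^ 2 = ‖v i‖ ^ 2 := by
    intro i
    rw [Finset.sum_eq_single q0]
    · simp
    · intro b _ hb; simp [hb]
    · intro h; exact absurd (Finset.mem_univ _) h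
  have e2 : ∀ i : I, ∑ x : J, ‖∑ j, A i j * (if x = q0 then v j else 0)‖ ^ 2 =
      ‖∑ j, A i j * v j‖ ^ 2 := by
    intro i
    rw [Finset.sum_eq_single q0]
    · simp
    · intro b _ hb; simp [hb]
    · intro h; exact absurd (Finset.mem_univ _) h
  simpa only [e1, e2] using h2

end lin

theorem Lam_nonneg : 0 ≤ Lam := by unfold Lam; norm_num

theorem norm_Hm (N : ℕ) [NeZero N] : ‖Hm N‖ ≤ 3 * Lam :=
  norm_le_of_lm (J := Fin 4 × ZMod 1) _ _ (mul_nonneg (by norm_num) Lam_nonneg) (0, 0)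
    fun y => lmH_bound y

theorem norm_Am (N : ℕ) [NeZero N] : ‖Am N‖ ≤ 10 ^ 15 :=
  norm_le_of_lm (J := Fin 4 × ZMod 1) _ _ (by norm_num) (0, 0) fun y => lmA_bound y

theorem norm_one_le {a : Type} [Fintype a] [DecidableEq a] : ‖(1 : Matrix a a ℂ)‖ ≤ 1 := by
  rw [← Matrix.diagonal_one, Matrix.l2_opNorm_diagonal]
  refine (pi_norm_le_iff_of_nonneg zero_le_one).mpr fun i => ?_
  simp

theorem norm_Gmat {κ I : Type} [Fintype κ] [DecidableEq κ] [Fintype I] [DecidableEq I]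
    (ρ : Matrix κ κ ℂ) (H A : Matrix I I ℂ) (ε h a r : ℝ) (hε : 0 ≤ ε) (hε1 : ε ≤ 1)
    (hρ : ‖ρ‖ ≤ r) (hH : ‖H‖ ≤ h) (hA : ‖A‖ ≤ a) : ‖Gmat ρ H A (ε : ℂ)‖ ≤ 1 + ε * (r * h + a) := by
  unfold Gmat
  have hr0 : 0 ≤ r := (norm_nonneg _).trans hρ
  have ha0 : 0 ≤ a := (norm_nonneg _).trans hA
  have h1 : ‖(ε : ℂ) • (ρ ⊗ₖ H)‖ ≤ ε * (r * h) := by
    rw [norm_smul, Complex.norm_real, Real.norm_eq_abs, abs_of_nonneg hε]
    refine mul_le_mul_of_nonneg_left ((norm_kron_le _ _).trans ?_) hε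
    exact mul_le_mul hρ hH (norm_nonneg _) hr0
  have h2 : ‖(ε : ℂ) ^ 2 • ((1 : Matrix κ κ ℂ) ⊗ₖ A)‖ ≤ ε * a := by
    rw [norm_smul, norm_pow, Complex.norm_real, Real.norm_eq_abs, abs_of_nonneg hε]
    have h3 : ‖(1 : Matrix κ κ ℂ) ⊗ₖ A‖ ≤ a := (norm_kron_one_left A).trans hA
    have h4 : ε ^ 2 ≤ ε := by nlinarith
    exact mul_le_mul h4 h3 (norm_nonneg _) hε
  refine (norm_add_le _ _).trans ?_
  refine (add_le_add (norm_add_le _ _) le_rfl).trans ?_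
  have h5 := norm_one_le (a := κ × I)
  linarith

theorem norm_Dmat {μ J : Type} [Fintype μ] [DecidableEq μ] [Fintype J] [DecidableEq J]
    (lam : Matrix μ μ ℂ) (L B : Matrix J J ℂ) (ε h a r : ℝ) (hε : 0 ≤ ε) (hε1 : ε ≤ 1)
    (hρ : ‖lam‖ ≤ r) (hH : ‖L‖ ≤ h) (hA : ‖B‖ ≤ a) : ‖Dmat lam L B (ε : ℂ)‖ ≤ 1 + ε * (r * h + a) :=
  norm_Gmat lam L.transpose B.transpose ε h a r hε hε1 hρ (by rw [norm_transpose]; exact hH)
    (by rw [norm_transpose]; exact hA)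

section ux

variable {μ κ I J : Type} [Fintype μ] [Fintype κ] [Fintype I] [Fintype J]
  [DecidableEq μ] [DecidableEq κ] [DecidableEq I] [DecidableEq J]
variable {E : Type} [NormedAddCommGroup E] [NormedSpace ℂ E]

theorem norm_uG (G : Matrix (κ × I) (κ × I) ℂ) (u : E →ₗ[ℂ] Matrix κ κ ℂ) (K g : ℝ)
    (hu : ∀ e, ‖u e‖ ≤ K * ‖e‖) (hG : ‖G‖ ≤ g) (e : E) : ‖uG G u e‖ ≤ g * K * ‖e‖ := by
  change ‖G * (u e ⊗ₖ (1 : Matrix I I ℂ))‖ ≤ _
  refine (Matrix.l2_opNorm_mul _ _).trans ?_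
  have h1 := (norm_kron_one_right (b := I) (u e)).trans (hu e)
  have h2 : 0 ≤ g := (norm_nonneg _).trans hG
  rw [mul_assoc]
  exact mul_le_mul hG h1 (norm_nonneg _) h2

theorem minG_xD (D : Matrix (μ × J) (μ × J) ℂ) (x : Matrix μ μ E) (d : ℝ) (hD : ‖D‖ ≤ d) :
    minG (xD D x) ≤ d * minG x := by
  refine minG_le _ _ fun f hf => ?_
  have e1 : (xD D x).map f = D * (x.map f ⊗ₖ (1 : Matrix J J ℂ)) := by
    ext ⟨a, q⟩ ⟨a', q'⟩
    rw [Matrix.map_apply, Matrix.mul_apply, Fintype.sum_prod_type]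
    simp only [xD, Matrix.of_apply, map_sum, map_smul, smul_eq_mul]
    refine Finset.sum_congr rfl fun b'' _ => ?_
    rw [Finset.sum_eq_single q']
    · simp [Matrix.kroneckerMap_apply]
    · intro j' _ hj'
      simp [Matrix.kroneckerMap_apply, Matrix.one_apply_ne hj']
    · intro h; exact absurd (Finset.mem_univ _) h
  rw [e1]
  refine (Matrix.l2_opNorm_mul _ _).trans ?_
  have h1 := (norm_kron_one_right (b := J) (x.map f)).trans (le_minG x f hf)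
  have h2 : 0 ≤ d := (norm_nonneg _).trans hD
  exact mul_le_mul hD h1 (norm_nonneg _) h2

end ux

theorem choose_eps (c Kμ C C1 C2 ε₀ : ℝ) (hc : 0 < c) (hKμ : 0 ≤ Kμ) (h : Kμ < c) (hC : 0 ≤ C)
    (hε₀ : 0 < ε₀) :
    ∃ ε : ℝ, 0 < ε ∧ ε ≤ ε₀ ∧ ε ≤ 1 ∧ 0 < 1 + ε ^ 2 * Elow + C * ε ^ 3 ∧
      1 + ε ^ 2 * Elow + C * ε ^ 3 < 1 + ε ^ 2 * Etop - C * ε ^ 3 ∧
      ((1 + ε * C2) * (1 + ε * C1) * Kμ) ^ 2 < c ^ 2 * (1 + ε ^ 2 * Etop - C * ε ^ 3) := by
  have hE := Elow_lt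
  have hEl := Elow_abs
  let f : ℝ → ℝ := fun ε => c ^ 2 * (1 + ε ^ 2 * Etop - C * ε ^ 3) -
    ((1 + ε * C2) * (1 + ε * C1) * Kμ) ^ 2
  have hf : Continuous f := by fun_prop
  have hf0 : 0 < f 0 := by
    simp only [f]
    nlinarith
  have hev : ∀ᶠ ε in nhds (0 : ℝ), 0 < f ε := hf.continuousAt.eventually (lt_mem_nhds hf0)
  obtain ⟨r, hr, hball⟩ := Metric.eventually_nhds_iff.mp hev
  set ε : ℝ := min (min (ε₀) (1 / 2)) (min (r / 2) ((Etop - Elow) / (2 * C + 1) / 2)) with hεdef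
  have hpos : 0 < ε := by
    rw [hεdef]
    refine lt_min (lt_min hε₀ (by norm_num)) (lt_min (by linarith) ?_)
    exact div_pos (div_pos (by linarith) (by linarith)) (by norm_num)
  have h1 : ε ≤ ε₀ := (min_le_left _ _).trans (min_le_left _ _)
  have h2 : ε ≤ 1 / 2 := (min_le_left _ _).trans (min_le_right _ _)
  have h3 : ε ≤ r / 2 := (min_le_right _ _).trans (min_le_left _ _)
  have h4 : ε ≤ (Etop - Elow) / (2 * C + 1) / 2 := (min_le_right _ _).trans (min_le_right _ _)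
  refine ⟨ε, hpos, h1, by linarith, ?_, ?_, ?_⟩
  · have := (abs_le.mp hEl).1
    have h5 : 0 ≤ C * ε ^ 3 := by positivity
    have h6 : ε ^ 2 ≤ 1 / 4 := by nlinarith
    nlinarith [sq_nonneg ε]
  · have h7 : (2 * C + 1) * ε < Etop - Elow := by
      have h8 : ε < (Etop - Elow) / (2 * C + 1) := by
        have : 0 < (Etop - Elow) / (2 * C + 1) := div_pos (by linarith) (by linarith)
        linarith
      rw [lt_div_iff₀ (by linarith)] at h8
      linarith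
    have h9 : 0 < ε ^ 2 := by positivity
    have h10 : ε ^ 2 * ((2 * C + 1) * ε) < ε ^ 2 * (Etop - Elow) := mul_lt_mul_of_pos_left h7 h9
    have h11 : 0 ≤ ε ^ 3 := by positivity
    nlinarith
  · have := hball (y := ε) (by rw [Real.dist_eq, sub_zero, abs_of_pos hpos]; linarith)
    simp only [f] at this
    linarith

theorem choose_delta (P Q M : ℝ) (h1 : P < Q) (h2 : M < Q) :
    ∃ δ : ℝ, 0 < δ ∧ (1 + δ) ^ 2 * P ≤ Q ∧ (1 + δ) ^ 2 * M ≤ Q := by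
  let f : ℝ → ℝ := fun δ => Q - (1 + δ) ^ 2 * P
  let g : ℝ → ℝ := fun δ => Q - (1 + δ) ^ 2 * M
  have hf : Continuous f := by fun_prop
  have hg : Continuous g := by fun_prop
  have hf0 : 0 < f 0 := by simp only [f]; linarith
  have hg0 : 0 < g 0 := by simp only [g]; linarith
  have hev : ∀ᶠ δ in nhds (0 : ℝ), 0 < f δ ∧ 0 < g δ :=
    (hf.continuousAt.eventually (lt_mem_nhds hf0)).and (hg.continuousAt.eventually (lt_mem_nhds hg0))
  obtain ⟨r, hr, hball⟩ := Metric.eventually_nhds_iff.mp hev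
  have := hball (y := r / 2) (by rw [Real.dist_eq, sub_zero, abs_of_pos (by linarith)]; linarith)
  simp only [f, g] at this
  exact ⟨r / 2, by linarith, by linarith, by linarith⟩

end Pool.Agent.Helper685.OSep
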