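import Mathlib
import Pool.Agent.Helper685.OSep.Defs2

set_option autoImplicit false

open scoped InnerProductSpace

namespace Pool.Agent.Helper685.OSep.Pert

section abs

variable {V : Type} [NormedAddCommGroup V] [InnerProductSpace ℂ V]

/-- real part of the inner product -/
noncomputable def rip (x y : V) : ℝ := (⟪x, y⟫_ℂ).re

theorem rip_add_left (x y z : V) : rip (x + y) z = rip x z + rip y z := by
  simp [rip, inner_add_left]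

theorem rip_add_right (x y z : V) : rip x (y + z) = rip x y + rip x z := by
  simp [rip, inner_add_right]

theorem rip_smul_left (r : ℝ) (x y : V) : rip ((r : ℂ) • x) y = r * rip x y := by
  simp [rip, inner_smul_left]

theorem rip_smul_right (r : ℝ) (x y : V) : rip x ((r : ℂ) • y) = r * rip x y := by
  simp [rip, inner_smul_right]

theorem rip_comm (x y : V) : rip x y = rip y x := by
  rw [rip, rip, ← inner_conj_symm, Complex.conj_re]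

theorem rip_self (x : V) : rip x x = ‖x‖ ^ 2 := by
  rw [rip, inner_self_eq_norm_sq_to_K]
  norm_cast

theorem abs_rip_le (x y : V) : |rip x y| ≤ ‖x‖ * ‖y‖ :=
  (Complex.abs_re_le_norm _).trans (norm_inner_le_norm _ _)

theorem stepA (x p q u : V) (ε M : ℝ) (h0 : 0 ≤ ε) (h1 : ε ≤ 1) (hM : 0 ≤ M)
    (hp : ‖p‖ ≤ M * ‖x‖) (hq : ‖q‖ ≤ M * ‖x‖) (hu : ‖u‖ ≤ M * ‖x‖) :
    |‖x + (ε : ℂ) • p + ((ε ^ 2 : ℝ) : ℂ) • q + ((ε ^ 3 : ℝ) : ℂ) • u‖ ^ 2 -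
      (‖x‖ ^ 2 + 2 * ε * rip x p + ε ^ 2 * (‖p‖ ^ 2 + 2 * rip x q))| ≤
      (8 * M ^ 2 + 2 * M) * ε ^ 3 * ‖x‖ ^ 2 := by
  have hexp : ‖x + (ε : ℂ) • p + ((ε ^ 2 : ℝ) : ℂ) • q + ((ε ^ 3 : ℝ) : ℂ) • u‖ ^ 2 =
      ‖x‖ ^ 2 + 2 * ε * rip x p + ε ^ 2 * (‖p‖ ^ 2 + 2 * rip x q) +
      (ε ^ 4 * ‖q‖ ^ 2 + ε ^ 6 * ‖u‖ ^ 2 + 2 * (ε ^ 3 * rip x u) + 2 * (ε ^ 3 * rip p q) +
        2 * (ε ^ 4 * rip p u) + 2 * (ε ^ 5 * rip q u)) := by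
    rw [← rip_self]
    simp only [rip_add_left, rip_add_right, rip_smul_left, rip_smul_right]
    rw [rip_comm p x, rip_comm q x, rip_comm u x, rip_comm q p, rip_comm u p, rip_comm u q,
      rip_self, rip_self, rip_self, rip_self]
    ring
  have hx := norm_nonneg x
  have hMx : 0 ≤ M * ‖x‖ := mul_nonneg hM hx
  have b1 : |‖q‖ ^ 2| ≤ M ^ 2 * ‖x‖ ^ 2 := by
    rw [abs_of_nonneg (sq_nonneg _), ← mul_pow]
    exact pow_le_pow_left₀ (norm_nonneg _) hq 2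
  have b2 : |‖u‖ ^ 2| ≤ M ^ 2 * ‖x‖ ^ 2 := by
    rw [abs_of_nonneg (sq_nonneg _), ← mul_pow]
    exact pow_le_pow_left₀ (norm_nonneg _) hu 2
  have b3 : |rip x u| ≤ M * ‖x‖ ^ 2 := by
    refine (abs_rip_le _ _).trans ?_
    nlinarith [mul_le_mul_of_nonneg_left hu hx]
  have hprod : ∀ s t : V, ‖s‖ ≤ M * ‖x‖ → ‖t‖ ≤ M * ‖x‖ → |rip s t| ≤ M ^ 2 * ‖x‖ ^ 2 := by
    intro s t hs ht
    refine (abs_rip_le _ _).trans ?_
    calc ‖s‖ * ‖t‖ ≤ (M * ‖x‖) * (M * ‖x‖) := mul_le_mul hs ht (norm_nonneg _) hMx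
      _ = M ^ 2 * ‖x‖ ^ 2 := by ring
  have b4 := hprod p q hp hq
  have b5 := hprod p u hp hu
  have b6 := hprod q u hq hu
  have hk : ∀ (k : ℕ) (t B : ℝ), 3 ≤ k → |t| ≤ B → |ε ^ k * t| ≤ ε ^ 3 * B := by
    intro k t B hk ht
    rw [abs_mul, abs_of_nonneg (pow_nonneg h0 k)]
    exact mul_le_mul (pow_le_pow_of_le_one h0 h1 hk) ht (abs_nonneg _) (pow_nonneg h0 3)
  have c1 := abs_le.1 (hk 4 _ _ (by norm_num) b1)
  have c2 := abs_le.1 (hk 6 _ _ (by norm_num) b2)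
  have c3 := abs_le.1 (hk 3 _ _ (by norm_num) b3)
  have c4 := abs_le.1 (hk 3 _ _ (by norm_num) b4)
  have c5 := abs_le.1 (hk 4 _ _ (by norm_num) b5)
  have c6 := abs_le.1 (hk 5 _ _ (by norm_num) b6)
  rw [hexp, abs_le]
  constructor
  · linarith [c1.1, c2.1, c3.1, c4.1, c5.1, c6.1]
  · linarith [c1.2, c2.2, c3.2, c4.2, c5.2, c6.2]

/-- constant of `stepB` -/
def KB (M c : ℝ) : ℝ := (8 * M ^ 2 + 2 * M) * (c ^ 2 + 1) + 4 * M + c * M ^ 2 + 2 * c * M + M ^ 2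

theorem KB_nonneg (M c : ℝ) (hM : 0 ≤ M) (hc : 0 ≤ c) : 0 ≤ KB M c := by
  unfold KB; positivity

theorem stepB_real1 (E F ε : ℝ) (h0 : 0 ≤ ε) (h1 : ε ≤ 1) :
    ε ^ 2 * F ^ 2 ≤ ε * F ^ 2 ∧ ε ^ 3 * F ^ 2 ≤ ε * F ^ 2 ∧
    ε ^ 2 * (E * F) ≤ (ε ^ 3 * E ^ 2 + ε * F ^ 2) / 2 := by
  refine ⟨?_, ?_, ?_⟩
  · have : ε ^ 2 ≤ ε := by nlinarith
    exact mul_le_mul_of_nonneg_right this (sq_nonneg _)
  · have : ε ^ 3 ≤ ε := by
      have := pow_le_pow_of_le_one h0 h1 (show 1 ≤ 3 by norm_num)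
      simpa using this
    exact mul_le_mul_of_nonneg_right this (sq_nonneg _)
  · have : 0 ≤ ε * (ε * E - F) ^ 2 := mul_nonneg h0 (sq_nonneg _)
    nlinarith

theorem stepB_real2 (E F ε M c : ℝ) (hc : 0 ≤ c) (h0 : 0 ≤ ε) (h1 : ε ≤ 1) (hM : 0 ≤ M) :
    (8 * M ^ 2 + 2 * M) * ε ^ 3 * (c ^ 2 * E ^ 2 + F ^ 2) + 2 * (ε ^ 1 * (M * F ^ 2)) +
      2 * (c * (ε ^ 2 * (M ^ 2 * (E * F)))) + ε ^ 2 * (M ^ 2 * F ^ 2) +
      2 * (c * (ε ^ 2 * (M * (E * F)))) + 2 * (c * (ε ^ 2 * (M * (E * F)))) +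
      2 * (ε ^ 2 * (M * F ^ 2)) ≤ KB M c * (ε ^ 3 * E ^ 2 + ε * F ^ 2) := by
  obtain ⟨g1, g2, g3⟩ := stepB_real1 E F ε h0 h1
  have ha0 : 0 ≤ ε ^ 3 * E ^ 2 := mul_nonneg (pow_nonneg h0 3) (sq_nonneg _)
  have hb0 : 0 ≤ ε * F ^ 2 := mul_nonneg h0 (sq_nonneg _)
  generalize hA : ε ^ 3 * E ^ 2 = a at *
  generalize hB : ε * F ^ 2 = b at *
  generalize hC : ε ^ 2 * (E * F) = x at *
  generalize hD : ε ^ 3 * F ^ 2 = y at *
  generalize hE : ε ^ 2 * F ^ 2 = z at *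
  have e : (8 * M ^ 2 + 2 * M) * ε ^ 3 * (c ^ 2 * E ^ 2 + F ^ 2) + 2 * (ε ^ 1 * (M * F ^ 2)) +
      2 * (c * (ε ^ 2 * (M ^ 2 * (E * F)))) + ε ^ 2 * (M ^ 2 * F ^ 2) +
      2 * (c * (ε ^ 2 * (M * (E * F)))) + 2 * (c * (ε ^ 2 * (M * (E * F)))) +
      2 * (ε ^ 2 * (M * F ^ 2)) =
      (8 * M ^ 2 + 2 * M) * (c ^ 2 * a + y) + 2 * (M * b) + 2 * (c * M ^ 2 * x) + M ^ 2 * z +
      4 * (c * M * x) + 2 * (M * z) := by
    rw [← hA, ← hB, ← hC, ← hD, ← hE]; ring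
  rw [e]
  have hP : 0 ≤ 8 * M ^ 2 + 2 * M := by positivity
  have h1' : (8 * M ^ 2 + 2 * M) * (c ^ 2 * a + y) ≤ (8 * M ^ 2 + 2 * M) * ((c ^ 2 + 1) * (a + b)) := by
    apply mul_le_mul_of_nonneg_left _ hP
    have := mul_nonneg (sq_nonneg c) hb0
    linarith
  have h2' : c * M ^ 2 * x ≤ c * M ^ 2 * ((a + b) / 2) :=
    mul_le_mul_of_nonneg_left g3 (mul_nonneg hc (sq_nonneg _))
  have h3' : c * M * x ≤ c * M * ((a + b) / 2) :=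
    mul_le_mul_of_nonneg_left g3 (mul_nonneg hc hM)
  have h4' : M ^ 2 * z ≤ M ^ 2 * (a + b) :=
    mul_le_mul_of_nonneg_left (by linarith) (sq_nonneg _)
  have h5' : M * z ≤ M * (a + b) := mul_le_mul_of_nonneg_left (by linarith) hM
  have h6' : M * b ≤ M * (a + b) := mul_le_mul_of_nonneg_left (by linarith) hM
  unfold KB
  linarith

theorem stepB (e φ e1 φ1 e2 φ2 u : V) (c ε M : ℝ) (hc : 0 ≤ c) (h0 : 0 ≤ ε) (h1 : ε ≤ 1)
    (hM : 0 ≤ M) (o1 : rip e φ = 0) (o2 : rip e e1 = 0) (o3 : rip e φ1 = rip φ e1)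
    (n1 : ‖e1‖ ≤ M * ‖e‖) (n2 : ‖φ1‖ ≤ M * ‖φ‖) (n3 : ‖e2‖ ≤ M * ‖e‖) (n4 : ‖φ2‖ ≤ M * ‖φ‖)
    (m1 : ‖(c : ℂ) • e1 + φ1‖ ≤ M * ‖(c : ℂ) • e + φ‖)
    (m2 : ‖(c : ℂ) • e2 + φ2‖ ≤ M * ‖(c : ℂ) • e + φ‖)
    (m3 : ‖u‖ ≤ M * ‖(c : ℂ) • e + φ‖) :
    |‖((c : ℂ) • e + φ) + (ε : ℂ) • ((c : ℂ) • e1 + φ1) + ((ε ^ 2 : ℝ) : ℂ) • ((c : ℂ) • e2 + φ2)
        + ((ε ^ 3 : ℝ) : ℂ) • u‖ ^ 2 -
      (c ^ 2 * ‖e‖ ^ 2 + ‖φ‖ ^ 2 + 4 * ε * c * rip φ e1 +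
        ε ^ 2 * c ^ 2 * (‖e1‖ ^ 2 + 2 * rip e e2))| ≤
      KB M c * (ε ^ 3 * ‖e‖ ^ 2 + ε * ‖φ‖ ^ 2) := by
  have hA := stepA ((c : ℂ) • e + φ) ((c : ℂ) • e1 + φ1) ((c : ℂ) • e2 + φ2) u ε M h0 h1 hM m1 m2 m3
  have x1 : ‖(c : ℂ) • e + φ‖ ^ 2 = c ^ 2 * ‖e‖ ^ 2 + ‖φ‖ ^ 2 := by
    rw [← rip_self]
    simp only [rip_add_left, rip_add_right, rip_smul_left, rip_smul_right]
    rw [rip_comm φ e, o1, rip_self, rip_self]
    ring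
  have x2 : rip ((c : ℂ) • e + φ) ((c : ℂ) • e1 + φ1) = 2 * c * rip φ e1 + rip φ φ1 := by
    simp only [rip_add_left, rip_add_right, rip_smul_left, rip_smul_right]
    rw [o2, o3]
    ring
  have x3 : ‖(c : ℂ) • e1 + φ1‖ ^ 2 = c ^ 2 * ‖e1‖ ^ 2 + 2 * c * rip e1 φ1 + ‖φ1‖ ^ 2 := by
    rw [← rip_self]
    simp only [rip_add_left, rip_add_right, rip_smul_left, rip_smul_right]
    rw [rip_comm φ1 e1, rip_self, rip_self]
    ring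
  have x4 : rip ((c : ℂ) • e + φ) ((c : ℂ) • e2 + φ2) =
      c ^ 2 * rip e e2 + c * rip e φ2 + c * rip φ e2 + rip φ φ2 := by
    simp only [rip_add_left, rip_add_right, rip_smul_left, rip_smul_right]
    ring
  rw [x1, x2, x3, x4] at hA
  have he := norm_nonneg e
  have hφ := norm_nonneg φ
  -- bounds
  have d1 : |rip φ φ1| ≤ M * ‖φ‖ ^ 2 := by
    refine (abs_rip_le _ _).trans ?_
    calc ‖φ‖ * ‖φ1‖ ≤ ‖φ‖ * (M * ‖φ‖) := mul_le_mul_of_nonneg_left n2 hφ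
      _ = _ := by ring
  have d2 : |rip e1 φ1| ≤ M ^ 2 * (‖e‖ * ‖φ‖) := by
    refine (abs_rip_le _ _).trans ?_
    calc ‖e1‖ * ‖φ1‖ ≤ (M * ‖e‖) * (M * ‖φ‖) :=
          mul_le_mul n1 n2 (norm_nonneg _) (mul_nonneg hM he)
      _ = _ := by ring
  have d3 : |‖φ1‖ ^ 2| ≤ M ^ 2 * ‖φ‖ ^ 2 := by
    rw [abs_of_nonneg (sq_nonneg _), ← mul_pow]
    exact pow_le_pow_left₀ (norm_nonneg _) n2 2
  have d4 : |rip e φ2| ≤ M * (‖e‖ * ‖φ‖) := by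
    refine (abs_rip_le _ _).trans ?_
    calc ‖e‖ * ‖φ2‖ ≤ ‖e‖ * (M * ‖φ‖) := mul_le_mul_of_nonneg_left n4 he
      _ = _ := by ring
  have d5 : |rip φ e2| ≤ M * (‖e‖ * ‖φ‖) := by
    refine (abs_rip_le _ _).trans ?_
    calc ‖φ‖ * ‖e2‖ ≤ ‖φ‖ * (M * ‖e‖) := mul_le_mul_of_nonneg_left n3 hφ
      _ = _ := by ring
  have d6 : |rip φ φ2| ≤ M * ‖φ‖ ^ 2 := by
    refine (abs_rip_le _ _).trans ?_
    calc ‖φ‖ * ‖φ2‖ ≤ ‖φ‖ * (M * ‖φ‖) := mul_le_mul_of_nonneg_left n4 hφ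
      _ = _ := by ring
  have hk : ∀ (k : ℕ) (t B : ℝ), |t| ≤ B → |ε ^ k * t| ≤ ε ^ k * B := by
    intro k t B ht
    rw [abs_mul, abs_of_nonneg (pow_nonneg h0 k)]
    exact mul_le_mul_of_nonneg_left ht (pow_nonneg h0 k)
  have hkc : ∀ (k : ℕ) (t B : ℝ), |t| ≤ B → |c * (ε ^ k * t)| ≤ c * (ε ^ k * B) := by
    intro k t B ht
    rw [abs_mul, abs_of_nonneg hc]
    exact mul_le_mul_of_nonneg_left (hk k t B ht) hc
  have f1 := abs_le.1 (hk 1 _ _ d1)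
  have f2 := abs_le.1 (hkc 2 _ _ d2)
  have f3 := abs_le.1 (hk 2 _ _ d3)
  have f4 := abs_le.1 (hkc 2 _ _ d4)
  have f5 := abs_le.1 (hkc 2 _ _ d5)
  have f6 := abs_le.1 (hk 2 _ _ d6)
  have hA' := abs_le.1 hA
  have hR := stepB_real2 ‖e‖ ‖φ‖ ε M c hc h0 h1 hM
  rw [abs_le]
  constructor
  · linarith [f1.1, f2.1, f3.1, f4.1, f5.1, f6.1, hA'.1]
  · linarith [f1.2, f2.2, f3.2, f4.2, f5.2, f6.2, hA'.2]

end abs


section realpart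

theorem upper_real (ε K c g R q1 Y2 Z2 F X w2 J en E N T C : ℝ)
    (hε : 0 < ε) (hε1 : ε ≤ 1) (hK : 0 ≤ K) (hg : 0 < g) (hR : 0 ≤ R) (hq : 0 ≤ q1)
    (hY : 0 ≤ Y2) (hZ : 0 ≤ Z2)
    (hT : T = (K + R) * c ^ 2 / g) (hεT : T * ε ≤ 1 / 4)
    (hX : X = c ^ 2 * Z2 - F) (hgX : g * Z2 ≤ X)
    (hw : w2 ≤ 4 * R ^ 2 * Y2)
    (hJ : ∀ s : ℝ, 2 * s * J ≤ X + s ^ 2 * (q1 * w2))
    (hw0 : 0 ≤ w2)
    (hen : en ≤ E * Y2) (hE : |E| ≤ R)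
    (hN : N ≤ c ^ 2 * Y2 + F + 4 * ε * c * J + ε ^ 2 * c ^ 2 * (en - 4 * q1 * w2) +
      K * (ε ^ 3 * Y2 + ε * F))
    (hC : K + 32 * T * c ^ 2 * q1 * R ^ 2 ≤ c ^ 2 * C) :
    N ≤ c ^ 2 * (1 + ε ^ 2 * E + C * ε ^ 3) * (Y2 + Z2) := by
  have hT0 : 0 ≤ T := by rw [hT]; positivity
  set t := T * ε with ht
  have ht0 : 0 ≤ t := mul_nonneg hT0 hε.le
  have h1t : 0 < 1 - t := by linarith
  have hq0 : 0 ≤ q1 * w2 := mul_nonneg hq hw0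
  have hX0 : 0 ≤ X := le_trans (mul_nonneg hg.le hZ) hgX
  -- (a)
  have hFZ : F ≤ c ^ 2 * Z2 := by linarith
  have hTg : T * g = (K + R) * c ^ 2 := by rw [hT]; field_simp
  have ha : K * (ε * F) + ε ^ 2 * c ^ 2 * R * Z2 ≤ t * X := by
    have e1 : K * (ε * F) ≤ K * (ε * (c ^ 2 * Z2)) :=
      mul_le_mul_of_nonneg_left (mul_le_mul_of_nonneg_left hFZ hε.le) hK
    have e2 : ε ^ 2 * (c ^ 2 * R * Z2) ≤ ε * (c ^ 2 * R * Z2) := by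
      apply mul_le_mul_of_nonneg_right _ (by positivity)
      nlinarith
    have e3 : t * (g * Z2) ≤ t * X := mul_le_mul_of_nonneg_left hgX ht0
    have e4 : t * (g * Z2) = ε * ((K + R) * c ^ 2) * Z2 := by
      rw [ht, ← hTg]; ring
    linarith
  -- (b)
  have hb : 4 * ε * c * J ≤ (1 - t) * X + 4 * ε ^ 2 * c ^ 2 * (q1 * w2) * (1 + 2 * t) := by
    have h1 := hJ (2 * ε * c / (1 - t))
    have h2 := mul_le_mul_of_nonneg_left h1 h1t.le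
    have e1 : (1 - t) * (2 * (2 * ε * c / (1 - t)) * J) = 4 * ε * c * J := by
      field_simp; ring
    have e2 : (1 - t) * (X + (2 * ε * c / (1 - t)) ^ 2 * (q1 * w2)) =
        (1 - t) * X + 4 * ε ^ 2 * c ^ 2 * (q1 * w2) * (1 / (1 - t)) := by
      field_simp; ring
    rw [e1, e2] at h2
    have h3 : 1 / (1 - t) ≤ 1 + 2 * t := by
      rw [div_le_iff₀ h1t]; nlinarith
    have h4 : 4 * ε ^ 2 * c ^ 2 * (q1 * w2) * (1 / (1 - t)) ≤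
        4 * ε ^ 2 * c ^ 2 * (q1 * w2) * (1 + 2 * t) :=
      mul_le_mul_of_nonneg_left h3 (by positivity)
    linarith
  -- (c)
  have hE' := abs_le.1 hE
  have hc1 : ε ^ 2 * c ^ 2 * en ≤ ε ^ 2 * c ^ 2 * (E * Y2) :=
    mul_le_mul_of_nonneg_left hen (by positivity)
  have hc2 : -(ε ^ 2 * c ^ 2 * E * Z2) ≤ ε ^ 2 * c ^ 2 * R * Z2 := by
    have : 0 ≤ ε ^ 2 * c ^ 2 * Z2 * (R + E) := mul_nonneg (by positivity) (by linarith)
    linarith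
  have hd : 8 * t * ε ^ 2 * c ^ 2 * (q1 * w2) ≤ 32 * T * c ^ 2 * q1 * R ^ 2 * (ε ^ 3 * Y2) := by
    have : 8 * t * ε ^ 2 * c ^ 2 * (q1 * w2) ≤ 8 * t * ε ^ 2 * c ^ 2 * (q1 * (4 * R ^ 2 * Y2)) :=
      mul_le_mul_of_nonneg_left (mul_le_mul_of_nonneg_left hw hq) (by positivity)
    refine this.trans (le_of_eq ?_)
    rw [ht]; ring
  have hεY : 0 ≤ ε ^ 3 * Y2 := by positivity
  have hεZ : 0 ≤ ε ^ 3 * Z2 := by positivity
  have hC0 : 0 ≤ c ^ 2 * C := le_trans (by positivity) hC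
  have he : (K + 32 * T * c ^ 2 * q1 * R ^ 2) * (ε ^ 3 * Y2) ≤ c ^ 2 * C * (ε ^ 3 * Y2) :=
    mul_le_mul_of_nonneg_right hC hεY
  have hf : 0 ≤ c ^ 2 * C * (ε ^ 3 * Z2) := mul_nonneg hC0 hεZ
  linarith

theorem lower_real (ε K c R q1 o Y2 Z2 F X w2 J en E N C : ℝ)
    (hε : 0 < ε) (hε1 : ε ≤ 1) (hK : 0 ≤ K) (hR : 0 ≤ R) (ho : 0 ≤ o)
    (hY : 0 ≤ Y2) (hZ : 0 ≤ Z2)
    (hX : X = c ^ 2 * Z2 - F) (hX0 : 0 ≤ X)
    (hXe : X = 4 * ε ^ 2 * c ^ 2 * (q1 * w2)) (hJ : J = 2 * ε * c * (q1 * w2))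
    (hZe : Z2 = 4 * ε ^ 2 * c ^ 2 * (o * w2))
    (hw : w2 ≤ 4 * R ^ 2 * Y2)
    (hen : E * Y2 ≤ en) (hE : |E| ≤ R)
    (hN : c ^ 2 * Y2 + F + 4 * ε * c * J + ε ^ 2 * c ^ 2 * (en - 4 * q1 * w2) -
      K * (ε ^ 3 * Y2 + ε * F) ≤ N)
    (hC : K + (K * c ^ 2 + c ^ 2 * R) * (16 * c ^ 2 * o * R ^ 2) ≤ c ^ 2 * C) :
    c ^ 2 * (1 + ε ^ 2 * E - C * ε ^ 3) * (Y2 + Z2) ≤ N := by
  have hFZ : F ≤ c ^ 2 * Z2 := by linarith
  have hZ3 : Z2 ≤ 16 * c ^ 2 * o * R ^ 2 * (ε ^ 2 * Y2) := by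
    rw [hZe]
    have : 4 * ε ^ 2 * c ^ 2 * (o * w2) ≤ 4 * ε ^ 2 * c ^ 2 * (o * (4 * R ^ 2 * Y2)) :=
      mul_le_mul_of_nonneg_left (mul_le_mul_of_nonneg_left hw ho) (by positivity)
    refine this.trans (le_of_eq ?_)
    ring
  set K3 := 16 * c ^ 2 * o * R ^ 2 with hK3
  have hK30 : 0 ≤ K3 := by rw [hK3]; positivity
  have h1 : K * (ε * F) ≤ K * c ^ 2 * K3 * (ε ^ 3 * Y2) := by
    have e1 : K * (ε * F) ≤ K * (ε * (c ^ 2 * (K3 * (ε ^ 2 * Y2)))) := by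
      apply mul_le_mul_of_nonneg_left _ hK
      apply mul_le_mul_of_nonneg_left _ hε.le
      exact hFZ.trans (mul_le_mul_of_nonneg_left hZ3 (sq_nonneg _))
    refine e1.trans (le_of_eq ?_)
    ring
  have hE' := abs_le.1 hE
  have h2 : ε ^ 2 * c ^ 2 * E * Z2 ≤ c ^ 2 * R * K3 * (ε ^ 3 * Y2) := by
    have e1 : ε ^ 2 * c ^ 2 * Z2 * E ≤ ε ^ 2 * c ^ 2 * Z2 * R :=
      mul_le_mul_of_nonneg_left hE'.2 (by positivity)
    have e2 : ε ^ 2 * c ^ 2 * R * Z2 ≤ ε ^ 2 * c ^ 2 * R * (K3 * (ε ^ 2 * Y2)) :=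
      mul_le_mul_of_nonneg_left hZ3 (by positivity)
    have e3 : ε ^ 4 ≤ ε ^ 3 := pow_le_pow_of_le_one hε.le hε1 (by norm_num)
    have e4 : ε ^ 4 * (c ^ 2 * R * K3 * Y2) ≤ ε ^ 3 * (c ^ 2 * R * K3 * Y2) :=
      mul_le_mul_of_nonneg_right e3 (by positivity)
    linarith
  have h3 : ε ^ 2 * c ^ 2 * (E * Y2) ≤ ε ^ 2 * c ^ 2 * en :=
    mul_le_mul_of_nonneg_left hen (by positivity)
  have hεY : 0 ≤ ε ^ 3 * Y2 := by positivity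
  have hεZ : 0 ≤ ε ^ 3 * Z2 := by positivity
  have hC0 : 0 ≤ c ^ 2 * C := le_trans (by positivity) hC
  have he : (K + (K * c ^ 2 + c ^ 2 * R) * K3) * (ε ^ 3 * Y2) ≤ c ^ 2 * C * (ε ^ 3 * Y2) :=
    mul_le_mul_of_nonneg_right hC hεY
  have hf : 0 ≤ c ^ 2 * C * (ε ^ 3 * Z2) := mul_nonneg hC0 hεZ
  have hJJ : 4 * ε * c * J = 8 * ε ^ 2 * c ^ 2 * (q1 * w2) := by rw [hJ]; ring
  linarith

end realpart


section conc

variable {ι : Type} [Fintype ι] {Y : Type} [NormedAddCommGroup Y] [InnerProductSpace ℂ Y]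

/-- the Hilbert sum -/
noncomputable def E2 (Φ : ι → Y) : PiLp 2 (fun _ : ι => Y) := WithLp.toLp 2 Φ

theorem E2_add (Φ Ψ : ι → Y) : E2 (Φ + Ψ) = E2 Φ + E2 Ψ := rfl

theorem E2_sub (Φ Ψ : ι → Y) : E2 (Φ - Ψ) = E2 Φ - E2 Ψ := rfl

theorem E2_smul (k : ℂ) (Φ : ι → Y) : E2 (k • Φ) = k • E2 Φ := rfl

theorem norm_E2 (Φ : ι → Y) : ‖E2 Φ‖ ^ 2 = ∑ a, ‖Φ a‖ ^ 2 := by
  rw [PiLp.norm_sq_eq_of_L2]
  rfl

theorem rip_E2 (Φ Ψ : ι → Y) : rip (E2 Φ) (E2 Ψ) = ∑ a, rip (Φ a) (Ψ a) := by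
  unfold rip
  rw [PiLp.inner_apply, Complex.re_sum]
  rfl

/-- elementary tensor -/
def tens (v : ι → ℂ) (y : Y) : ι → Y := fun a => v a • y

theorem tens_add_right (v : ι → ℂ) (y y' : Y) : tens v (y + y') = tens v y + tens v y' := by
  funext a; simp [tens]

theorem act_add (M : Matrix ι ι ℂ) (S : Y →ₗ[ℂ] Y) (Φ Ψ : ι → Y) :
    act M S (Φ + Ψ) = act M S Φ + act M S Ψ := by
  funext a
  simp [act, Finset.sum_add_distrib]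

theorem act_smul (M : Matrix ι ι ℂ) (S : Y →ₗ[ℂ] Y) (k : ℂ) (Φ : ι → Y) :
    act M S (k • Φ) = k • act M S Φ := by
  funext a
  simp only [act, Pi.smul_apply, map_smul, Finset.smul_sum]
  exact Finset.sum_congr rfl fun b _ => smul_comm _ _ _

theorem act_sub (M : Matrix ι ι ℂ) (S : Y →ₗ[ℂ] Y) (Φ Ψ : ι → Y) :
    act M S (Φ - Ψ) = act M S Φ - act M S Ψ := by
  funext a
  simp [act, smul_sub]

theorem act_tens (M : Matrix ι ι ℂ) (S : Y →ₗ[ℂ] Y) (v : ι → ℂ) (y : Y) :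
    act M S (tens v y) = tens (M.mulVec v) (S y) := by
  funext a
  simp only [act, tens, Matrix.mulVec, dotProduct, map_smul, Finset.sum_smul, smul_smul]

theorem inner_act (M : Matrix ι ι ℂ) (S : Y →ₗ[ℂ] Y) (hS : S.IsSymmetric) (Φ Ψ : ι → Y) :
    ∑ a, ⟪act M S Φ a, Ψ a⟫_ℂ = ∑ a, ⟪Φ a, act M.conjTranspose S Ψ a⟫_ℂ := by
  simp only [act, sum_inner, inner_sum, inner_smul_left, inner_smul_right]
  rw [Finset.sum_comm]
  refine Finset.sum_congr rfl fun a _ => Finset.sum_congr rfl fun b _ => ?_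
  rw [Matrix.conjTranspose_apply, hS (Φ a) (Ψ b)]
  rfl

theorem rip_act (M : Matrix ι ι ℂ) (S : Y →ₗ[ℂ] Y) (hS : S.IsSymmetric) (Φ Ψ : ι → Y) :
    rip (E2 (act M S Φ)) (E2 Ψ) = rip (E2 Φ) (E2 (act M.conjTranspose S Ψ)) := by
  rw [rip_E2, rip_E2]
  have h := congrArg Complex.re (inner_act M S hS Φ Ψ)
  rw [Complex.re_sum, Complex.re_sum] at h
  exact h

theorem inner_tens (v v' : ι → ℂ) (y y' : Y) :
    rip (E2 (tens v y)) (E2 (tens v' y')) = ((∑ a, star (v a) * v' a) * ⟪y, y'⟫_ℂ).re := by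
  rw [rip_E2, Finset.sum_mul, Complex.re_sum]
  refine Finset.sum_congr rfl fun a _ => ?_
  simp only [rip, tens, inner_smul_left, inner_smul_right]
  congr 1
  rw [← mul_assoc, mul_comm (v' a)]
  rfl

theorem sum_star_self (v : ι → ℂ) : ∑ a, star (v a) * v a = ((∑ a, ‖v a‖ ^ 2 : ℝ) : ℂ) := by
  push_cast
  refine Finset.sum_congr rfl fun a _ => ?_
  rw [Complex.star_def, mul_comm, Complex.mul_conj, Complex.normSq_eq_norm_sq]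
  push_cast; rfl

theorem rip_tens_same (v : ι → ℂ) (y y' : Y) :
    rip (E2 (tens v y)) (E2 (tens v y')) = (∑ a, ‖v a‖ ^ 2) * rip y y' := by
  rw [inner_tens, sum_star_self, Complex.re_ofReal_mul]
  rfl

theorem norm_tens (v : ι → ℂ) (y : Y) : ‖E2 (tens v y)‖ ^ 2 = (∑ a, ‖v a‖ ^ 2) * ‖y‖ ^ 2 := by
  rw [← rip_self, rip_tens_same, rip_self]

theorem rip_tens_left (v : ι → ℂ) (y : Y) (Z : ι → Y) :
    rip (E2 (tens v y)) (E2 Z) = rip y (∑ a, star (v a) • Z a) := by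
  rw [rip_E2]
  unfold rip
  rw [inner_sum, Complex.re_sum]
  refine Finset.sum_congr rfl fun a _ => ?_
  simp only [tens, inner_smul_left, inner_smul_right]
  rfl

/-- Hilbert-Schmidt norm -/
noncomputable def hs (M : Matrix ι ι ℂ) : ℝ := Real.sqrt (∑ a, ∑ b, ‖M a b‖ ^ 2)

theorem hs_nonneg (M : Matrix ι ι ℂ) : 0 ≤ hs M := Real.sqrt_nonneg _

theorem norm_act_le (M : Matrix ι ι ℂ) (S : Y →ₗ[ℂ] Y) (s : ℝ) (hs0 : 0 ≤ s)
    (hS : ∀ y, ‖S y‖ ≤ s * ‖y‖) (Φ : ι → Y) :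
    ‖E2 (act M S Φ)‖ ≤ hs M * s * ‖E2 Φ‖ := by
  have h0 : 0 ≤ hs M * s * ‖E2 Φ‖ := mul_nonneg (mul_nonneg (hs_nonneg M) hs0) (norm_nonneg _)
  refine abs_le_of_sq_le_sq' ?_ h0 |>.2
  rw [mul_pow, mul_pow, norm_E2, norm_E2]
  have hsq : hs M ^ 2 = ∑ a, ∑ b, ‖M a b‖ ^ 2 :=
    Real.sq_sqrt (Finset.sum_nonneg fun a _ => Finset.sum_nonneg fun b _ => sq_nonneg _)
  rw [hsq, Finset.sum_mul, Finset.sum_mul]
  refine Finset.sum_le_sum fun a _ => ?_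
  have h1 : ‖act M S Φ a‖ ≤ ∑ b, ‖M a b‖ * (s * ‖Φ b‖) := by
    unfold act
    refine (norm_sum_le _ _).trans (Finset.sum_le_sum fun b _ => ?_)
    rw [norm_smul]
    exact mul_le_mul_of_nonneg_left (hS _) (norm_nonneg _)
  calc ‖act M S Φ a‖ ^ 2 ≤ (∑ b, ‖M a b‖ * (s * ‖Φ b‖)) ^ 2 :=
        pow_le_pow_left₀ (norm_nonneg _) h1 2
    _ ≤ (∑ b, ‖M a b‖ ^ 2) * ∑ b, (s * ‖Φ b‖) ^ 2 := Finset.sum_mul_sq_le_sq_mul_sq _ _ _
    _ = (∑ b, ‖M a b‖ ^ 2) * s ^ 2 * ∑ b, ‖Φ b‖ ^ 2 := by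
        have hh : ∑ b, (s * ‖Φ b‖) ^ 2 = s ^ 2 * ∑ b, ‖Φ b‖ ^ 2 := by
          rw [Finset.mul_sum]
          exact Finset.sum_congr rfl fun b _ => by ring
        rw [hh, mul_assoc]

theorem gapY (T : Matrix ι ι ℂ) (c g : ℝ) (ξ η : ι → ℂ) (hT : SimpleTop T c g ξ η)
    (Z : ι → Y) (hZ : ∑ a, star (ξ a) • Z a = 0) :
    ‖E2 (act T LinearMap.id Z)‖ ^ 2 ≤ (c ^ 2 - g) * ‖E2 Z‖ ^ 2 := by
  classical
  set W : Submodule ℂ Y := Submodule.span ℂ (Set.range Z) with hW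
  haveI : FiniteDimensional ℂ W := FiniteDimensional.span_of_finite ℂ (Set.finite_range Z)
  set b := stdOrthonormalBasis ℂ W with hb
  set Z' : ι → W := fun a => ⟨Z a, Submodule.subset_span ⟨a, rfl⟩⟩ with hZ'
  have hcoe : ∀ a, ((Z' a : W) : Y) = Z a := fun a => rfl
  -- norms in coordinates
  have hnorm : ∀ x : W, ‖(x : Y)‖ ^ 2 = ∑ k, ‖⟪b k, x⟫_ℂ‖ ^ 2 := by
    intro x
    rw [b.sum_sq_norm_inner_right]
    rfl
  have hzero : ∑ a, star (ξ a) • Z' a = 0 := by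
    apply Subtype.ext
    rw [Submodule.coe_sum]
    simpa using hZ
  set v : Fin (Module.finrank ℂ W) → ι → ℂ := fun k a => ⟪b k, Z' a⟫_ℂ with hv
  have hv0 : ∀ k, ∑ a, star (ξ a) * v k a = 0 := by
    intro k
    have h := congrArg (fun x => ⟪b k, x⟫_ℂ) hzero
    simp only [inner_sum, inner_smul_right, inner_zero_right] at h
    exact h
  have hTv : ∀ k a, T.mulVec (v k) a = ⟪b k, ∑ b', T a b' • Z' b'⟫_ℂ := by
    intro k a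
    rw [inner_sum]
    simp only [Matrix.mulVec, dotProduct, inner_smul_right, hv]
  have hAct : ∀ a, act T LinearMap.id Z a = ((∑ b', T a b' • Z' b' : W) : Y) := by
    intro a
    rw [Submodule.coe_sum]
    simp [act, hZ']
  rw [norm_E2, norm_E2]
  calc ∑ a, ‖act T LinearMap.id Z a‖ ^ 2 = ∑ a, ∑ k, ‖T.mulVec (v k) a‖ ^ 2 := by
        refine Finset.sum_congr rfl fun a _ => ?_
        rw [hAct, hnorm]
        refine Finset.sum_congr rfl fun k _ => ?_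
        rw [hTv]
    _ = ∑ k, ∑ a, ‖T.mulVec (v k) a‖ ^ 2 := Finset.sum_comm
    _ ≤ ∑ k, (c ^ 2 - g) * ∑ a, ‖v k a‖ ^ 2 := Finset.sum_le_sum fun k _ => hT.gap (v k) (hv0 k)
    _ = (c ^ 2 - g) * ∑ a, ‖Z a‖ ^ 2 := by
        rw [← Finset.mul_sum, Finset.sum_comm]
        congr 1
        refine Finset.sum_congr rfl fun a _ => ?_
        rw [← hcoe a, hnorm]

theorem rip_zero_tens {v v' : ι → ℂ} (h : ∑ a, star (v a) * v' a = 0) (y y' : Y) :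
    rip (E2 (tens v y)) (E2 (tens v' y')) = 0 := by
  rw [inner_tens, h, zero_mul, Complex.zero_re]

end conc

section omega

variable {ι : Type} [Fintype ι]

theorem star_dot_mulVec (M : Matrix ι ι ℂ) (v w : ι → ℂ) :
    ∑ a, star (v a) * M.mulVec w a = ∑ a, star (M.conjTranspose.mulVec v a) * w a := by
  simp only [Matrix.mulVec, dotProduct, Finset.mul_sum, star_sum, Finset.sum_mul]
  rw [Finset.sum_comm]
  refine Finset.sum_congr rfl fun a _ => Finset.sum_congr rfl fun b _ => ?_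
  rw [Matrix.conjTranspose_apply, star_mul', star_star]
  ring

theorem exists_omega (T : Matrix ι ι ℂ) (c g : ℝ) (ξ η ζ : ι → ℂ) (hT : SimpleTop T c g ξ η)
    (h3 : ∑ a, star (η a) * ζ a = 0) :
    ∃ ω : ι → ℂ, ∑ a, star (ξ a) * ω a = 0 ∧
      ∀ a, (c : ℂ) ^ 2 * ω a - T.conjTranspose.mulVec (T.mulVec ω) a = T.conjTranspose.mulVec ζ a := by
  classical
  -- `⟨ξ, Sᵀ v⟩ = c² ⟨ξ, v⟩`
  have hS : ∀ v : ι → ℂ, ∑ a, star (ξ a) * T.conjTranspose.mulVec (T.mulVec v) a =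
      (c : ℂ) ^ 2 * ∑ a, star (ξ a) * v a := by
    intro v
    rw [star_dot_mulVec, Matrix.conjTranspose_conjTranspose, hT.T_xi]
    have e1 : ∑ a, star ((c : ℂ) * η a) * T.mulVec v a = (c : ℂ) * ∑ a, star (η a) * T.mulVec v a := by
      rw [Finset.mul_sum]
      refine Finset.sum_congr rfl fun a _ => ?_
      rw [star_mul', Complex.star_def, Complex.conj_ofReal]
      ring
    rw [e1, star_dot_mulVec, hT.Tt_eta, sq, mul_assoc]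
    congr 1
    rw [Finset.mul_sum]
    refine Finset.sum_congr rfl fun a _ => ?_
    rw [star_mul', Complex.star_def, Complex.conj_ofReal]
    ring
  have hxi : ∑ a, star (ξ a) * ξ a = 1 := by
    rw [sum_star_self, hT.xi_norm]; simp
  let Nl : (ι → ℂ) →ₗ[ℂ] (ι → ℂ) :=
    { toFun := fun v a => (c : ℂ) ^ 2 * v a - T.conjTranspose.mulVec (T.mulVec v) a +
        (∑ a', star (ξ a') * v a') * ξ a
      map_add' := by
        intro v w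
        funext a
        simp only [Pi.add_apply, Matrix.mulVec_add, mul_add, Finset.sum_add_distrib]
        ring
      map_smul' := by
        intro k v
        funext a
        simp only [Pi.smul_apply, Matrix.mulVec_smul, smul_eq_mul, RingHom.id_apply]
        have : ∑ a', star (ξ a') * (k * v a') = k * ∑ a', star (ξ a') * v a' := by
          rw [Finset.mul_sum]
          exact Finset.sum_congr rfl fun a' _ => by ring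
        rw [this]
        ring }
  have hNl : ∀ v a, Nl v a = (c : ℂ) ^ 2 * v a - T.conjTranspose.mulVec (T.mulVec v) a +
        (∑ a', star (ξ a') * v a') * ξ a := fun v a => rfl
  -- inner product with ξ
  have hNξ : ∀ v, ∑ a, star (ξ a) * Nl v a = ∑ a, star (ξ a) * v a := by
    intro v
    have e1 : ∀ a, star (ξ a) * Nl v a = (c : ℂ) ^ 2 * (star (ξ a) * v a) -
        star (ξ a) * T.conjTranspose.mulVec (T.mulVec v) a +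
        (∑ a', star (ξ a') * v a') * (star (ξ a) * ξ a) := by
      intro a; rw [hNl]; ring
    rw [Finset.sum_congr rfl fun a _ => e1 a, Finset.sum_add_distrib, Finset.sum_sub_distrib,
      ← Finset.mul_sum, ← Finset.mul_sum, hS, hxi]
    ring
  have hinj : Function.Injective Nl := by
    rw [← LinearMap.ker_eq_bot, LinearMap.ker_eq_bot']
    intro v hv
    have h0 : ∑ a, star (ξ a) * v a = 0 := by
      rw [← hNξ v, hv]; simp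
    have h1 : ∀ a, (c : ℂ) ^ 2 * v a = T.conjTranspose.mulVec (T.mulVec v) a := by
      intro a
      have := congrFun hv a
      rw [hNl, h0, zero_mul, add_zero] at this
      exact sub_eq_zero.1 this
    have h2 : ∑ a, star (v a) * T.conjTranspose.mulVec (T.mulVec v) a =
        ∑ a, star (T.mulVec v a) * T.mulVec v a := by
      rw [star_dot_mulVec, Matrix.conjTranspose_conjTranspose]
    have h3 : (c : ℂ) ^ 2 * ∑ a, star (v a) * v a = ∑ a, star (T.mulVec v a) * T.mulVec v a := by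
      rw [← h2, Finset.mul_sum]
      refine Finset.sum_congr rfl fun a _ => ?_
      rw [← h1]; ring
    rw [sum_star_self, sum_star_self] at h3
    have h4 : c ^ 2 * ∑ a, ‖v a‖ ^ 2 = ∑ a, ‖T.mulVec v a‖ ^ 2 := by exact_mod_cast h3
    have h5 := hT.gap v h0
    have h6 : ∑ a, ‖v a‖ ^ 2 = 0 := by
      have h7 : 0 ≤ ∑ a, ‖v a‖ ^ 2 := Finset.sum_nonneg fun a _ => sq_nonneg _
      have h8 := hT.g_pos
      nlinarith
    funext a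
    have := (Finset.sum_eq_zero_iff_of_nonneg (fun a _ => sq_nonneg _)).1 h6 a (Finset.mem_univ a)
    simpa using this
  have hsurj : Function.Surjective Nl := LinearMap.injective_iff_surjective.1 hinj
  obtain ⟨ω, hω⟩ := hsurj (T.conjTranspose.mulVec ζ)
  have hω0 : ∑ a, star (ξ a) * ω a = 0 := by
    rw [← hNξ ω, hω, star_dot_mulVec, Matrix.conjTranspose_conjTranspose, hT.T_xi]
    have e1 : ∑ a, star ((c : ℂ) * η a) * ζ a = (c : ℂ) * ∑ a, star (η a) * ζ a := by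
      rw [Finset.mul_sum]
      refine Finset.sum_congr rfl fun a _ => ?_
      rw [star_mul', Complex.star_def, Complex.conj_ofReal]
      ring
    rw [e1, h3, mul_zero]
  refine ⟨ω, hω0, fun a => ?_⟩
  have := congrFun hω a
  rw [hNl, hω0, zero_mul, add_zero] at this
  exact this

end omega


section main

variable {ι : Type} [Fintype ι] {Y : Type} [NormedAddCommGroup Y] [InnerProductSpace ℂ Y]

/-- the number `q₁` -/
noncomputable def q1c (T : Matrix ι ι ℂ) (c : ℝ) (ω : ι → ℂ) : ℝ :=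
  c ^ 2 * ∑ a, ‖ω a‖ ^ 2 - ∑ a, ‖T.mulVec ω a‖ ^ 2

theorem id_symm : (LinearMap.id : Y →ₗ[ℂ] Y).IsSymmetric := fun _ _ => rfl

theorem q1_eq (T : Matrix ι ι ℂ) (c : ℝ) (ζ ω : ι → ℂ)
    (hω : ∀ a, (c : ℂ) ^ 2 * ω a - T.conjTranspose.mulVec (T.mulVec ω) a = T.conjTranspose.mulVec ζ a) :
    ∑ a, star (T.mulVec ω a) * ζ a = ((q1c T c ω : ℝ) : ℂ) := by
  have h1 : ∑ a, star (ω a) * T.conjTranspose.mulVec ζ a = ∑ a, star (T.mulVec ω a) * ζ a := by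
    rw [star_dot_mulVec, Matrix.conjTranspose_conjTranspose]
  have h2 : ∑ a, star (ω a) * T.conjTranspose.mulVec (T.mulVec ω) a =
      ∑ a, star (T.mulVec ω a) * T.mulVec ω a := by
    rw [star_dot_mulVec, Matrix.conjTranspose_conjTranspose]
  have h3 : ∑ a, star (ω a) * T.conjTranspose.mulVec ζ a =
      (c : ℂ) ^ 2 * (∑ a, star (ω a) * ω a) - ∑ a, star (ω a) * T.conjTranspose.mulVec (T.mulVec ω) a := by
    rw [Finset.mul_sum, ← Finset.sum_sub_distrib]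
    refine Finset.sum_congr rfl fun a _ => ?_
    rw [← hω]; ring
  rw [← h1, h3, h2, sum_star_self, sum_star_self]
  unfold q1c
  push_cast
  ring

theorem form_ineq (T : Matrix ι ι ℂ) (c g : ℝ) (ξ η ζ ω : ι → ℂ) (hT : SimpleTop T c g ξ η)
    (hω0 : ∑ a, star (ξ a) * ω a = 0)
    (hω : ∀ a, (c : ℂ) ^ 2 * ω a - T.conjTranspose.mulVec (T.mulVec ω) a = T.conjTranspose.mulVec ζ a)
    (Z : ι → Y) (hZ : ∑ a, star (ξ a) • Z a = 0) (w : Y) (s : ℝ) :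
    2 * s * rip (E2 (act T LinearMap.id Z)) (E2 (tens ζ w)) ≤
      (c ^ 2 * ‖E2 Z‖ ^ 2 - ‖E2 (act T LinearMap.id Z)‖ ^ 2) + s ^ 2 * (q1c T c ω * ‖w‖ ^ 2) := by
  set Z' : ι → Y := Z + ((-s : ℝ) : ℂ) • tens ω w with hZ'
  have hZ'0 : ∑ a, star (ξ a) • Z' a = 0 := by
    have e1 : ∀ a, star (ξ a) • Z' a = star (ξ a) • Z a + ((-s : ℝ) : ℂ) • ((star (ξ a) * ω a) • w) := by
      intro a
      simp only [hZ', Pi.add_apply, Pi.smul_apply, tens, smul_add, smul_smul]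
      congr 2
      ring
    rw [Finset.sum_congr rfl fun a _ => e1 a, Finset.sum_add_distrib, hZ, ← Finset.smul_sum,
      ← Finset.sum_smul, hω0, zero_smul, smul_zero, add_zero]
  have hgap := gapY T c g ξ η hT Z' hZ'0
  have hg := hT.g_pos
  have hge : ‖E2 (act T LinearMap.id Z')‖ ^ 2 ≤ c ^ 2 * ‖E2 Z'‖ ^ 2 := by
    have : 0 ≤ g * ‖E2 Z'‖ ^ 2 := mul_nonneg hg.le (sq_nonneg _)
    linarith
  have hE : E2 Z' = E2 Z + ((-s : ℝ) : ℂ) • E2 (tens ω w) := rfl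
  have hA : act T LinearMap.id Z' = act T LinearMap.id Z + ((-s : ℝ) : ℂ) • tens (T.mulVec ω) w := by
    rw [hZ', act_add, act_smul, act_tens]
    rfl
  have hEA : E2 (act T LinearMap.id Z') =
      E2 (act T LinearMap.id Z) + ((-s : ℝ) : ℂ) • E2 (tens (T.mulVec ω) w) := by
    rw [hA]; rfl
  have hn1 : ‖E2 Z'‖ ^ 2 = ‖E2 Z‖ ^ 2 - 2 * s * rip (E2 Z) (E2 (tens ω w)) +
      s ^ 2 * ‖E2 (tens ω w)‖ ^ 2 := by
    rw [hE, ← rip_self]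
    simp only [rip_add_left, rip_add_right, rip_smul_left, rip_smul_right]
    rw [rip_comm (E2 (tens ω w)) (E2 Z), rip_self, rip_self]
    ring
  have hn2 : ‖E2 (act T LinearMap.id Z')‖ ^ 2 = ‖E2 (act T LinearMap.id Z)‖ ^ 2 -
      2 * s * rip (E2 (act T LinearMap.id Z)) (E2 (tens (T.mulVec ω) w)) +
      s ^ 2 * ‖E2 (tens (T.mulVec ω) w)‖ ^ 2 := by
    rw [hEA, ← rip_self]
    simp only [rip_add_left, rip_add_right, rip_smul_left, rip_smul_right]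
    rw [rip_comm (E2 (tens (T.mulVec ω) w)) (E2 (act T LinearMap.id Z)), rip_self, rip_self]
    ring
  have hkey : rip (E2 (act T LinearMap.id Z)) (E2 (tens ζ w)) =
      c ^ 2 * rip (E2 Z) (E2 (tens ω w)) -
        rip (E2 (act T LinearMap.id Z)) (E2 (tens (T.mulVec ω) w)) := by
    rw [rip_act T LinearMap.id id_symm, rip_act T LinearMap.id id_symm, act_tens, act_tens]
    have e1 : tens (T.conjTranspose.mulVec ζ) ((LinearMap.id : Y →ₗ[ℂ] Y) w) =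
        ((c ^ 2 : ℝ) : ℂ) • tens ω w +
        ((-1 : ℝ) : ℂ) • tens (T.conjTranspose.mulVec (T.mulVec ω)) ((LinearMap.id : Y →ₗ[ℂ] Y) w) := by
      funext a
      simp only [tens, Pi.add_apply, Pi.smul_apply, LinearMap.id_apply]
      rw [← hω a, sub_smul, smul_smul, smul_smul]
      push_cast
      module
    rw [e1, E2_add, E2_smul, E2_smul, rip_add_right, rip_smul_right, rip_smul_right]
    ring
  rw [hn1, hn2, norm_tens, norm_tens] at hge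
  rw [hkey]
  unfold q1c
  nlinarith [hge]

/-- first order part -/
def P1c (ρ lam : Matrix ι ι ℂ) (H L : Y →ₗ[ℂ] Y) (Φ : ι → Y) : ι → Y := act ρ H Φ + act lam L Φ

variable [DecidableEq ι]

/-- second order part -/
def P2c (ρ lam : Matrix ι ι ℂ) (H L A B : Y →ₗ[ℂ] Y) (Φ : ι → Y) : ι → Y :=
  act 1 A Φ + act 1 B Φ + act ρ H (act lam L Φ)

/-- the rest -/
def Uc (ρ lam : Matrix ι ι ℂ) (H L A B : Y →ₗ[ℂ] Y) (ε : ℝ) (Φ : ι → Y) : ι → Y :=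
  act ρ H (act 1 B Φ) + act 1 A (act lam L Φ) + (ε : ℂ) • act 1 A (act 1 B Φ)

/-- bound -/
noncomputable def Mc (ρ lam : Matrix ι ι ℂ) (R a : ℝ) : ℝ :=
  (hs ρ * R + hs lam * R) + (hs (1 : Matrix ι ι ℂ) * a + hs (1 : Matrix ι ι ℂ) * a +
    hs ρ * R * (hs lam * R)) +
  (hs ρ * R * (hs (1 : Matrix ι ι ℂ) * a) + hs (1 : Matrix ι ι ℂ) * a * (hs lam * R) +
    hs (1 : Matrix ι ι ℂ) * a * (hs (1 : Matrix ι ι ℂ) * a))

theorem Mc_parts (ρ lam : Matrix ι ι ℂ) (R a : ℝ) (hR : 0 ≤ R) (ha : 0 ≤ a) :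
    0 ≤ Mc ρ lam R a ∧ hs ρ * R + hs lam * R ≤ Mc ρ lam R a ∧
    (hs (1 : Matrix ι ι ℂ) * a + hs (1 : Matrix ι ι ℂ) * a +
    hs ρ * R * (hs lam * R)) ≤ Mc ρ lam R a ∧
    (hs ρ * R * (hs (1 : Matrix ι ι ℂ) * a) + hs (1 : Matrix ι ι ℂ) * a * (hs lam * R) +
    hs (1 : Matrix ι ι ℂ) * a * (hs (1 : Matrix ι ι ℂ) * a)) ≤ Mc ρ lam R a := by
  have h1 := hs_nonneg ρ
  have h2 := hs_nonneg lam
  have h3 := hs_nonneg (1 : Matrix ι ι ℂ)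
  have k1 : 0 ≤ hs ρ * R := mul_nonneg h1 hR
  have k2 : 0 ≤ hs lam * R := mul_nonneg h2 hR
  have k3 : 0 ≤ hs (1 : Matrix ι ι ℂ) * a := mul_nonneg h3 ha
  have k4 := mul_nonneg k1 k2
  have k5 := mul_nonneg k1 k3
  have k6 := mul_nonneg k3 k2
  have k7 := mul_nonneg k3 k3
  unfold Mc
  refine ⟨by linarith, by linarith, by linarith, by linarith⟩

theorem GD_eq (ρ lam : Matrix ι ι ℂ) (H L A B : Y →ₗ[ℂ] Y) (ε : ℝ) (G D : (ι → Y) → (ι → Y))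
    (hG : ∀ Φ, G Φ = Φ + (ε : ℂ) • act ρ H Φ + ((ε : ℂ) ^ 2) • act 1 A Φ)
    (hD : ∀ Φ, D Φ = Φ + (ε : ℂ) • act lam L Φ + ((ε : ℂ) ^ 2) • act 1 B Φ) (Φ : ι → Y) :
    G (D Φ) = Φ + (ε : ℂ) • P1c ρ lam H L Φ + ((ε ^ 2 : ℝ) : ℂ) • P2c ρ lam H L A B Φ +
      ((ε ^ 3 : ℝ) : ℂ) • Uc ρ lam H L A B ε Φ := by
  rw [hG, hD]
  simp only [act_add, act_smul, P1c, P2c, Uc]
  push_cast
  module

theorem norm_parts (ρ lam : Matrix ι ι ℂ) (H L A B : Y →ₗ[ℂ] Y) (R a ε : ℝ) (hR : 0 ≤ R)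
    (ha : 0 ≤ a) (hε : 0 ≤ ε) (hε1 : ε ≤ 1)
    (hH : ∀ y, ‖H y‖ ≤ R * ‖y‖) (hL : ∀ y, ‖L y‖ ≤ R * ‖y‖) (hA : ∀ y, ‖A y‖ ≤ a * ‖y‖)
    (hB : ∀ y, ‖B y‖ ≤ a * ‖y‖) (Φ : ι → Y) :
    ‖E2 (P1c ρ lam H L Φ)‖ ≤ Mc ρ lam R a * ‖E2 Φ‖ ∧
    ‖E2 (P2c ρ lam H L A B Φ)‖ ≤ Mc ρ lam R a * ‖E2 Φ‖ ∧
    ‖E2 (Uc ρ lam H L A B ε Φ)‖ ≤ Mc ρ lam R a * ‖E2 Φ‖ := by
  obtain ⟨hM0, hM1, hM2, hM3⟩ := Mc_parts ρ lam R a hR ha
  have n0 := norm_nonneg (E2 Φ)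
  have bH : ∀ Ψ : ι → Y, ‖E2 (act ρ H Ψ)‖ ≤ hs ρ * R * ‖E2 Ψ‖ := norm_act_le ρ H R hR hH
  have bL : ∀ Ψ : ι → Y, ‖E2 (act lam L Ψ)‖ ≤ hs lam * R * ‖E2 Ψ‖ := norm_act_le lam L R hR hL
  have bA : ∀ Ψ : ι → Y, ‖E2 (act 1 A Ψ)‖ ≤ hs (1 : Matrix ι ι ℂ) * a * ‖E2 Ψ‖ :=
    norm_act_le 1 A a ha hA
  have bB : ∀ Ψ : ι → Y, ‖E2 (act 1 B Ψ)‖ ≤ hs (1 : Matrix ι ι ℂ) * a * ‖E2 Ψ‖ :=
    norm_act_le 1 B a ha hB
  have k1 : 0 ≤ hs ρ * R := mul_nonneg (hs_nonneg _) hR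
  have k3 : 0 ≤ hs (1 : Matrix ι ι ℂ) * a := mul_nonneg (hs_nonneg _) ha
  refine ⟨?_, ?_, ?_⟩
  · refine le_trans ?_ (mul_le_mul_of_nonneg_right hM1 n0)
    unfold P1c
    rw [E2_add, add_mul]
    exact (norm_add_le _ _).trans (add_le_add (bH Φ) (bL Φ))
  · refine le_trans ?_ (mul_le_mul_of_nonneg_right hM2 n0)
    unfold P2c
    rw [E2_add, E2_add, add_mul, add_mul]
    refine (norm_add₃_le).trans (add_le_add (add_le_add (bA Φ) (bB Φ)) ?_)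
    refine (bH _).trans ?_
    rw [mul_assoc (hs ρ * R)]
    exact mul_le_mul_of_nonneg_left (bL Φ) k1
  · refine le_trans ?_ (mul_le_mul_of_nonneg_right hM3 n0)
    unfold Uc
    rw [E2_add, E2_add, E2_smul, add_mul, add_mul]
    refine (norm_add₃_le).trans (add_le_add (add_le_add ?_ ?_) ?_)
    · refine (bH _).trans ?_
      rw [mul_assoc (hs ρ * R)]
      exact mul_le_mul_of_nonneg_left (bB Φ) k1
    · refine (bA _).trans ?_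
      rw [mul_assoc (hs (1 : Matrix ι ι ℂ) * a)]
      exact mul_le_mul_of_nonneg_left (bL Φ) k3
    · rw [norm_smul, Complex.norm_real, Real.norm_eq_abs, abs_of_nonneg hε]
      refine (mul_le_of_le_one_left (norm_nonneg _) hε1).trans ?_
      refine (bA _).trans ?_
      rw [mul_assoc (hs (1 : Matrix ι ι ℂ) * a)]
      exact mul_le_mul_of_nonneg_left (bB Φ) k3

end main


section final

variable {ι : Type} [Fintype ι] [DecidableEq ι]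

theorem P1c_symm {Y : Type} [NormedAddCommGroup Y] [InnerProductSpace ℂ Y]
    (ρ lam : Matrix ι ι ℂ) (hρ : ρ.IsHermitian) (hlam : lam.IsHermitian)
    (H L : Y →ₗ[ℂ] Y) (hH : H.IsSymmetric) (hL : L.IsSymmetric) (Φ Ψ : ι → Y) :
    rip (E2 (P1c ρ lam H L Φ)) (E2 Ψ) = rip (E2 Φ) (E2 (P1c ρ lam H L Ψ)) := by
  unfold P1c
  rw [E2_add, E2_add, rip_add_left, rip_add_right, rip_act ρ H hH, rip_act lam L hL, hρ.eq, hlam.eq]

theorem P1c_lin {Y : Type} [NormedAddCommGroup Y] [InnerProductSpace ℂ Y]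
    (ρ lam : Matrix ι ι ℂ) (H L : Y →ₗ[ℂ] Y) (k : ℂ) (Φ Ψ : ι → Y) :
    P1c ρ lam H L (k • Φ + Ψ) = k • P1c ρ lam H L Φ + P1c ρ lam H L Ψ := by
  unfold P1c
  rw [act_add, act_add, act_smul, act_smul]
  module

theorem P2c_lin {Y : Type} [NormedAddCommGroup Y] [InnerProductSpace ℂ Y]
    (ρ lam : Matrix ι ι ℂ) (H L A B : Y →ₗ[ℂ] Y) (k : ℂ) (Φ Ψ : ι → Y) :
    P2c ρ lam H L A B (k • Φ + Ψ) = k • P2c ρ lam H L A B Φ + P2c ρ lam H L A B Ψ := by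
  unfold P2c
  simp only [act_add, act_smul]
  module

theorem energy_id {Y : Type} [NormedAddCommGroup Y] [InnerProductSpace ℂ Y]
    (H L A₀ B₀ A B : Y →ₗ[ℂ] Y) (hH : H.IsSymmetric) (hL : L.IsSymmetric)
    (z q κ θ : ℝ) (hθ : θ = z + 4 * q) (hκ : κ = 4 * z + 8 * q)
    (hA : A = (1 / 2 : ℂ) • (A₀ - (θ : ℂ) • (H ∘ₗ H)))
    (hB : B = (1 / 2 : ℂ) • (B₀ - (θ : ℂ) • (L ∘ₗ L))) (y : Y) :
    z * ‖H y + L y‖ ^ 2 + 2 * (rip y (A y) + rip y (B y) + z * rip (H y) (L y)) =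
      (rip y (A₀ y) + rip y (B₀ y) + κ * rip (H y) (L y)) - 4 * q * ‖H y + L y‖ ^ 2 := by
  have e1 : rip y (A y) = (1 / 2) * (rip y (A₀ y) - θ * ‖H y‖ ^ 2) := by
    have h1 : A y = ((1 / 2 : ℝ) : ℂ) • (A₀ y + ((-θ : ℝ) : ℂ) • H (H y)) := by
      rw [hA]
      simp only [LinearMap.smul_apply, LinearMap.sub_apply, LinearMap.comp_apply]
      push_cast
      module
    have h2 : rip y (H (H y)) = ‖H y‖ ^ 2 := by
      rw [← rip_self]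
      unfold rip
      rw [hH y (H y)]
    rw [h1, rip_smul_right, rip_add_right, rip_smul_right, h2]
    ring
  have e2 : rip y (B y) = (1 / 2) * (rip y (B₀ y) - θ * ‖L y‖ ^ 2) := by
    have h1 : B y = ((1 / 2 : ℝ) : ℂ) • (B₀ y + ((-θ : ℝ) : ℂ) • L (L y)) := by
      rw [hB]
      simp only [LinearMap.smul_apply, LinearMap.sub_apply, LinearMap.comp_apply]
      push_cast
      module
    have h2 : rip y (L (L y)) = ‖L y‖ ^ 2 := by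
      rw [← rip_self]
      unfold rip
      rw [hL y (L y)]
    rw [h1, rip_smul_right, rip_add_right, rip_smul_right, h2]
    ring
  have e3 : ‖H y + L y‖ ^ 2 = ‖H y‖ ^ 2 + 2 * rip (H y) (L y) + ‖L y‖ ^ 2 := by
    rw [← rip_self, rip_add_left, rip_add_right, rip_add_right, rip_comm (L y) (H y), rip_self,
      rip_self]
    ring
  rw [e1, e2, e3, hκ, hθ]
  ring

theorem expand {Y : Type} [NormedAddCommGroup Y] [InnerProductSpace ℂ Y]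
    (T ρ lam : Matrix ι ι ℂ)
    (c g : ℝ) (ξ η ζ : ι → ℂ) (hT : SimpleTop T c g ξ η)
    (hρ : ρ.IsHermitian) (hlam : lam.IsHermitian)
    (h1 : ρ.mulVec η = ζ) (h2 : lam.mulVec η = ζ)
    (h3 : ∑ a, star (η a) * ζ a = 0)
    (q κ θ : ℝ) (hθ : θ = (∑ a, ‖ζ a‖ ^ 2) + 4 * q) (hκ : κ = 4 * (∑ a, ‖ζ a‖ ^ 2) + 8 * q)
    (R a ε : ℝ) (hR : 0 ≤ R) (ha : 0 ≤ a) (hε : 0 ≤ ε) (hε1 : ε ≤ 1)
    (H L A₀ B₀ A B : Y →ₗ[ℂ] Y) (hH : H.IsSymmetric) (hL : L.IsSymmetric)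
    (nH : ∀ y, ‖H y‖ ≤ R * ‖y‖) (nL : ∀ y, ‖L y‖ ≤ R * ‖y‖) (nA : ∀ y, ‖A y‖ ≤ a * ‖y‖)
    (nB : ∀ y, ‖B y‖ ≤ a * ‖y‖)
    (hA : A = (1 / 2 : ℂ) • (A₀ - (θ : ℂ) • (H ∘ₗ H)))
    (hB : B = (1 / 2 : ℂ) • (B₀ - (θ : ℂ) • (L ∘ₗ L)))
    (G D : (ι → Y) → (ι → Y))
    (hG : ∀ Φ, G Φ = Φ + (ε : ℂ) • act ρ H Φ + ((ε : ℂ) ^ 2) • act 1 A Φ)
    (hD : ∀ Φ, D Φ = Φ + (ε : ℂ) • act lam L Φ + ((ε : ℂ) ^ 2) • act 1 B Φ)
    (y : Y) (Z : ι → Y) (hZ : ∑ a, star (ξ a) • Z a = 0) :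
    |‖E2 (G (D (act T LinearMap.id (tens ξ y + Z))))‖ ^ 2 -
      (c ^ 2 * ‖y‖ ^ 2 + ‖E2 (act T LinearMap.id Z)‖ ^ 2 +
        4 * ε * c * rip (E2 (act T LinearMap.id Z)) (E2 (tens ζ (H y + L y))) +
        ε ^ 2 * c ^ 2 * ((rip y (A₀ y) + rip y (B₀ y) + κ * rip (H y) (L y)) -
          4 * q * ‖H y + L y‖ ^ 2))| ≤
      KB (Mc ρ lam R a) c * (ε ^ 3 * ‖y‖ ^ 2 + ε * ‖E2 (act T LinearMap.id Z)‖ ^ 2) := by
  set Φ' : ι → Y := act T LinearMap.id Z with hΦ'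
  have hΦ : act T LinearMap.id (tens ξ y + Z) = (c : ℂ) • tens η y + Φ' := by
    rw [act_add, act_tens, hT.T_xi]
    congr 1
    funext b
    simp only [tens, Pi.smul_apply, LinearMap.id_apply, smul_smul]
  have hP1η : P1c ρ lam H L (tens η y) = tens ζ (H y + L y) := by
    unfold P1c
    rw [act_tens, act_tens, h1, h2, tens_add_right]
  have hn := fun Ψ : ι → Y => norm_parts ρ lam H L A B R a ε hR ha hε hε1 nH nL nA nB Ψ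
  have hM0 := (Mc_parts ρ lam R a hR ha).1
  have hE : E2 ((c : ℂ) • tens η y + Φ') = (c : ℂ) • E2 (tens η y) + E2 Φ' := rfl
  have hE1 : E2 (P1c ρ lam H L ((c : ℂ) • tens η y + Φ')) =
      (c : ℂ) • E2 (tens ζ (H y + L y)) + E2 (P1c ρ lam H L Φ') := by
    rw [P1c_lin, hP1η]; rfl
  have hE2 : E2 (P2c ρ lam H L A B ((c : ℂ) • tens η y + Φ')) =
      (c : ℂ) • E2 (P2c ρ lam H L A B (tens η y)) + E2 (P2c ρ lam H L A B Φ') := by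
    rw [P2c_lin]; rfl
  have o1 : rip (E2 (tens η y)) (E2 Φ') = 0 := by
    rw [rip_comm, hΦ', rip_act T LinearMap.id id_symm, act_tens, hT.Tt_eta]
    have e1 : tens (fun a => (c : ℂ) * ξ a) ((LinearMap.id : Y →ₗ[ℂ] Y) y) = (c : ℂ) • tens ξ y := by
      funext b
      simp only [tens, Pi.smul_apply, LinearMap.id_apply, smul_smul]
    rw [e1, E2_smul, rip_smul_right, rip_comm, rip_tens_left, hZ]
    simp [rip]
  have o2 : rip (E2 (tens η y)) (E2 (tens ζ (H y + L y))) = 0 := rip_zero_tens h3 _ _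
  have o3 : rip (E2 (tens η y)) (E2 (P1c ρ lam H L Φ')) = rip (E2 Φ') (E2 (tens ζ (H y + L y))) := by
    rw [← P1c_symm ρ lam hρ hlam H L hH hL, hP1η, rip_comm]
  have n1 : ‖E2 (tens ζ (H y + L y))‖ ≤ Mc ρ lam R a * ‖E2 (tens η y)‖ := by
    rw [← hP1η]; exact (hn _).1
  have m1 : ‖(c : ℂ) • E2 (tens ζ (H y + L y)) + E2 (P1c ρ lam H L Φ')‖ ≤
      Mc ρ lam R a * ‖(c : ℂ) • E2 (tens η y) + E2 Φ'‖ := by
    rw [← hE1, ← hE]; exact (hn _).1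
  have m2 : ‖(c : ℂ) • E2 (P2c ρ lam H L A B (tens η y)) + E2 (P2c ρ lam H L A B Φ')‖ ≤
      Mc ρ lam R a * ‖(c : ℂ) • E2 (tens η y) + E2 Φ'‖ := by
    rw [← hE2, ← hE]; exact (hn _).2.1
  have m3 : ‖E2 (Uc ρ lam H L A B ε ((c : ℂ) • tens η y + Φ'))‖ ≤
      Mc ρ lam R a * ‖(c : ℂ) • E2 (tens η y) + E2 Φ'‖ := by
    rw [← hE]; exact (hn _).2.2
  have hB := stepB (E2 (tens η y)) (E2 Φ') (E2 (tens ζ (H y + L y))) (E2 (P1c ρ lam H L Φ'))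
    (E2 (P2c ρ lam H L A B (tens η y))) (E2 (P2c ρ lam H L A B Φ'))
    (E2 (Uc ρ lam H L A B ε ((c : ℂ) • tens η y + Φ'))) c ε (Mc ρ lam R a) hT.c_pos.le hε hε1 hM0
    o1 o2 o3 n1 (hn _).1 (hn _).2.1 (hn _).2.1 m1 m2 m3
  have hGD : E2 (G (D (act T LinearMap.id (tens ξ y + Z)))) =
      ((c : ℂ) • E2 (tens η y) + E2 Φ') +
      (ε : ℂ) • ((c : ℂ) • E2 (tens ζ (H y + L y)) + E2 (P1c ρ lam H L Φ')) +
      ((ε ^ 2 : ℝ) : ℂ) • ((c : ℂ) • E2 (P2c ρ lam H L A B (tens η y)) + E2 (P2c ρ lam H L A B Φ')) +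
      ((ε ^ 3 : ℝ) : ℂ) • E2 (Uc ρ lam H L A B ε ((c : ℂ) • tens η y + Φ')) := by
    rw [hΦ, GD_eq ρ lam H L A B ε G D hG hD, ← hE1, ← hE2, ← hE]
    rfl
  have hne : ‖E2 (tens η y)‖ ^ 2 = ‖y‖ ^ 2 := by
    rw [norm_tens, hT.eta_norm, one_mul]
  have hne1 : ‖E2 (tens ζ (H y + L y))‖ ^ 2 = (∑ a, ‖ζ a‖ ^ 2) * ‖H y + L y‖ ^ 2 := norm_tens _ _
  have one_tens : ∀ S : Y →ₗ[ℂ] Y, act 1 S (tens η y) = tens η (S y) := by
    intro S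
    rw [act_tens, Matrix.one_mulVec]
  have hre2 : rip (E2 (tens η y)) (E2 (P2c ρ lam H L A B (tens η y))) =
      rip y (A y) + rip y (B y) + (∑ a, ‖ζ a‖ ^ 2) * rip (H y) (L y) := by
    unfold P2c
    rw [E2_add, E2_add, rip_add_right, rip_add_right, one_tens, one_tens, rip_tens_same,
      rip_tens_same, hT.eta_norm, one_mul, one_mul]
    congr 1
    have e1 : rip (E2 (tens η y)) (E2 (act ρ H (act lam L (tens η y)))) =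
        rip (E2 (act ρ H (tens η y))) (E2 (act lam L (tens η y))) := by
      rw [rip_act ρ H hH, hρ.eq]
    rw [e1, act_tens, act_tens, h1, h2, rip_tens_same]
  rw [← hGD, hne, hne1, hre2, energy_id H L A₀ B₀ A B hH hL _ q κ θ hθ hκ hA ‹_› y] at hB
  exact hB

end final

/-- TARGET. Second order perturbation of a simple largest singular value, uniformly in the
multiplicity space `Y`. -/
theorem perturb {ι : Type} [Fintype ι] [DecidableEq ι] (T ρ lam : Matrix ι ι ℂ)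
    (c g : ℝ) (ξ η ζ : ι → ℂ) (hT : SimpleTop T c g ξ η)
    (hρ : ρ.IsHermitian) (hlam : lam.IsHermitian)
    (h1 : ρ.mulVec η = ζ) (h2 : lam.mulVec η = ζ)
    (h3 : ∑ a, star (η a) * ζ a = 0) (h4 : ζ ≠ 0) :
    ∃ κ θ : ℝ, 0 < κ ∧ 0 ≤ θ ∧ ∀ R : ℝ, 0 ≤ R → ∃ C ε₀ : ℝ, 0 ≤ C ∧ 0 < ε₀ ∧
      ∀ (Y : Type) [NormedAddCommGroup Y] [InnerProductSpace ℂ Y]
        (H L A₀ B₀ : Y →ₗ[ℂ] Y), H.IsSymmetric → L.IsSymmetric → A₀.IsSymmetric → B₀.IsSymmetric →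
        (∀ y, ‖H y‖ ≤ R * ‖y‖) → (∀ y, ‖L y‖ ≤ R * ‖y‖) → (∀ y, ‖A₀ y‖ ≤ R * ‖y‖) →
        (∀ y, ‖B₀ y‖ ≤ R * ‖y‖) →
        ∀ (A B : Y →ₗ[ℂ] Y), A = (1 / 2 : ℂ) • (A₀ - (θ : ℂ) • (H ∘ₗ H)) →
        B = (1 / 2 : ℂ) • (B₀ - (θ : ℂ) • (L ∘ₗ L)) →
        ∀ ε : ℝ, 0 < ε → ε ≤ ε₀ →
        ∀ (G D : (ι → Y) → (ι → Y)),
          (∀ Φ, G Φ = Φ + (ε : ℂ) • act ρ H Φ + ((ε : ℂ) ^ 2) • act 1 A Φ) →
          (∀ Φ, D Φ = Φ + (ε : ℂ) • act lam L Φ + ((ε : ℂ) ^ 2) • act 1 B Φ) →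
          (∀ E : ℝ, |E| ≤ R →
            (∀ y : Y, (⟪y, A₀ y⟫_ℂ).re + (⟪y, B₀ y⟫_ℂ).re + κ * (⟪H y, L y⟫_ℂ).re ≤ E * ‖y‖ ^ 2) →
            ∀ Ξ : ι → Y, ∑ a, ‖G (D (act T LinearMap.id Ξ)) a‖ ^ 2 ≤
              c ^ 2 * (1 + ε ^ 2 * E + C * ε ^ 3) * ∑ a, ‖Ξ a‖ ^ 2) ∧
          (∀ (E : ℝ) (y : Y), |E| ≤ R →
            E * ‖y‖ ^ 2 ≤ (⟪y, A₀ y⟫_ℂ).re + (⟪y, B₀ y⟫_ℂ).re + κ * (⟪H y, L y⟫_ℂ).re →
            ∃ Ξ : ι → Y, ‖y‖ ^ 2 ≤ ∑ a, ‖Ξ a‖ ^ 2 ∧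
              c ^ 2 * (1 + ε ^ 2 * E - C * ε ^ 3) * ∑ a, ‖Ξ a‖ ^ 2 ≤
                ∑ a, ‖G (D (act T LinearMap.id Ξ)) a‖ ^ 2) := by
  obtain ⟨ω, hω0, hω⟩ := exists_omega T c g ξ η ζ hT h3
  have hcp := hT.c_pos
  have hgp := hT.g_pos
  set z : ℝ := ∑ a, ‖ζ a‖ ^ 2 with hz
  set q : ℝ := q1c T c ω with hq
  set o : ℝ := ∑ a, ‖ω a‖ ^ 2 with ho
  have ho0 : 0 ≤ o := Finset.sum_nonneg fun a _ => sq_nonneg _
  have hz0 : 0 < z := by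
    obtain ⟨b, hb⟩ := Function.ne_iff.1 h4
    have hb' : 0 < ‖ζ b‖ ^ 2 := by
      have : 0 < ‖ζ b‖ := norm_pos_iff.2 (by simpa using hb)
      positivity
    exact lt_of_lt_of_le hb' (Finset.single_le_sum (f := fun a => ‖ζ a‖ ^ 2)
      (fun a _ => sq_nonneg _) (Finset.mem_univ b))
  have hq0 : 0 ≤ q := by
    have h5 := hT.gap ω hω0
    have : 0 ≤ g * ∑ a, ‖ω a‖ ^ 2 := mul_nonneg hgp.le ho0
    rw [hq]
    unfold q1c
    linarith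
  refine ⟨4 * z + 8 * q, z + 4 * q, by positivity, by positivity, ?_⟩
  intro R hR
  set a : ℝ := R + (z + 4 * q) * R ^ 2 with ha
  have ha0 : 0 ≤ a := by positivity
  set K : ℝ := KB (Mc ρ lam R a) c with hK
  have hK0 : 0 ≤ K := KB_nonneg _ _ (Mc_parts ρ lam R a hR ha0).1 hcp.le
  set T' : ℝ := (K + R) * c ^ 2 / g with hT'
  have hT'0 : 0 ≤ T' := by positivity
  set C : ℝ := (K + 32 * T' * c ^ 2 * q * R ^ 2 + (K * c ^ 2 + c ^ 2 * R) * (16 * c ^ 2 * o * R ^ 2)) / c ^ 2 with hC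
  have hC0 : 0 ≤ C := by positivity
  have hCc : c ^ 2 * C = K + 32 * T' * c ^ 2 * q * R ^ 2 +
      (K * c ^ 2 + c ^ 2 * R) * (16 * c ^ 2 * o * R ^ 2) := by
    rw [hC]; field_simp
  have hCa : K + 32 * T' * c ^ 2 * q * R ^ 2 ≤ c ^ 2 * C := by
    rw [hCc]
    have : 0 ≤ (K * c ^ 2 + c ^ 2 * R) * (16 * c ^ 2 * o * R ^ 2) := by positivity
    linarith
  have hCb : K + (K * c ^ 2 + c ^ 2 * R) * (16 * c ^ 2 * o * R ^ 2) ≤ c ^ 2 * C := by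
    rw [hCc]
    have : 0 ≤ 32 * T' * c ^ 2 * q * R ^ 2 := by positivity
    linarith
  refine ⟨C, min 1 (1 / (4 * T' + 4)), hC0, by positivity, ?_⟩
  intro Y _ _ H L A₀ B₀ sH sL sA sB nH nL nA nB A B hA hB ε hε hεε G D hG hD
  have hε1 : ε ≤ 1 := hεε.trans (min_le_left _ _)
  have hεT : T' * ε ≤ 1 / 4 := by
    have h6 : ε ≤ 1 / (4 * T' + 4) := hεε.trans (min_le_right _ _)
    have h7 : T' * ε ≤ T' * (1 / (4 * T' + 4)) := mul_le_mul_of_nonneg_left h6 hT'0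
    refine h7.trans ?_
    rw [mul_one_div, div_le_div_iff₀ (by positivity) (by norm_num)]
    linarith
  -- bounds of `A`, `B`
  have hthR : 0 ≤ z + 4 * q := by positivity
  have bnd : ∀ (S S₀ X : Y →ₗ[ℂ] Y), (∀ y, ‖X y‖ ≤ R * ‖y‖) → (∀ y, ‖S₀ y‖ ≤ R * ‖y‖) →
      S = (1 / 2 : ℂ) • (S₀ - ((z + 4 * q : ℝ) : ℂ) • (X ∘ₗ X)) → ∀ y, ‖S y‖ ≤ a * ‖y‖ := by
    intro S S₀ X nX nS₀ hS y
    rw [hS]
    simp only [LinearMap.smul_apply, LinearMap.sub_apply, LinearMap.comp_apply]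
    rw [norm_smul]
    have e1 : ‖(1 / 2 : ℂ)‖ = 1 / 2 := by norm_num
    rw [e1]
    have e2 : ‖S₀ y - ((z + 4 * q : ℝ) : ℂ) • X (X y)‖ ≤ R * ‖y‖ + (z + 4 * q) * (R * (R * ‖y‖)) := by
      refine (norm_sub_le _ _).trans (add_le_add (nS₀ y) ?_)
      rw [norm_smul, Complex.norm_real, Real.norm_eq_abs, abs_of_nonneg hthR]
      apply mul_le_mul_of_nonneg_left _ hthR
      exact (nX _).trans (mul_le_mul_of_nonneg_left (nX y) hR)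
    have e3 : 0 ≤ R * ‖y‖ + (z + 4 * q) * (R * (R * ‖y‖)) := le_trans (norm_nonneg _) e2
    have e4 : a * ‖y‖ = R * ‖y‖ + (z + 4 * q) * (R * (R * ‖y‖)) := by rw [ha]; ring
    rw [e4]
    linarith
  have nA' := bnd A A₀ H nH nA hA
  have nB' := bnd B B₀ L nL nB hB
  have hexp := fun (y : Y) (Z : ι → Y) (hZ : ∑ a, star (ξ a) • Z a = 0) =>
    expand T ρ lam c g ξ η ζ hT hρ hlam h1 h2 h3 q (4 * z + 8 * q) (z + 4 * q) rfl rfl R a ε hR ha0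
      hε.le hε1 H L A₀ B₀ A B sH sL nH nL nA' nB' hA hB G D hG hD y Z hZ
  have hw : ∀ y : Y, ‖H y + L y‖ ^ 2 ≤ 4 * R ^ 2 * ‖y‖ ^ 2 := by
    intro y
    have e1 : ‖H y + L y‖ ≤ 2 * (R * ‖y‖) := by
      refine (norm_add_le _ _).trans ?_
      linarith [nH y, nL y]
    calc ‖H y + L y‖ ^ 2 ≤ (2 * (R * ‖y‖)) ^ 2 := pow_le_pow_left₀ (norm_nonneg _) e1 2
      _ = _ := by ring
  have hsplit : ∀ (y : Y) (Z : ι → Y), ∑ a, star (ξ a) • Z a = 0 →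
      ‖E2 (tens ξ y + Z)‖ ^ 2 = ‖y‖ ^ 2 + ‖E2 Z‖ ^ 2 := by
    intro y Z hZ
    have e0 : rip (E2 (tens ξ y)) (E2 Z) = 0 := by
      rw [rip_tens_left, hZ]; simp [rip]
    rw [E2_add, ← rip_self, rip_add_left, rip_add_right, rip_add_right, rip_comm (E2 Z), e0,
      rip_self, rip_self, norm_tens, hT.xi_norm]
    ring
  constructor
  · intro E hE hen Ξ
    set y : Y := ∑ a, star (ξ a) • Ξ a with hy
    set Z : ι → Y := Ξ - tens ξ y with hZdef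
    have hxi : ∑ a, star (ξ a) * ξ a = 1 := by
      rw [sum_star_self, hT.xi_norm]; simp
    have hZ : ∑ a, star (ξ a) • Z a = 0 := by
      have e1 : ∀ a, star (ξ a) • Z a = star (ξ a) • Ξ a - (star (ξ a) * ξ a) • y := by
        intro a
        simp only [hZdef, Pi.sub_apply, tens, smul_sub, smul_smul]
      rw [Finset.sum_congr rfl fun a _ => e1 a, Finset.sum_sub_distrib, ← Finset.sum_smul, hxi,
        one_smul, ← hy, sub_self]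
    have hΞ : Ξ = tens ξ y + Z := by rw [hZdef]; abel
    have hX := hexp y Z hZ
    rw [← hΞ] at hX
    have hX2 := (abs_le.1 hX).2
    rw [← norm_E2, ← norm_E2]
    have hn : ‖E2 Ξ‖ ^ 2 = ‖y‖ ^ 2 + ‖E2 Z‖ ^ 2 := by
      have := hsplit y Z hZ
      rwa [← hΞ] at this
    rw [hn]
    have hgapZ := gapY T c g ξ η hT Z hZ
    refine upper_real ε K c g R q (‖y‖ ^ 2) (‖E2 Z‖ ^ 2) (‖E2 (act T LinearMap.id Z)‖ ^ 2)
      (c ^ 2 * ‖E2 Z‖ ^ 2 - ‖E2 (act T LinearMap.id Z)‖ ^ 2) (‖H y + L y‖ ^ 2)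
      (rip (E2 (act T LinearMap.id Z)) (E2 (tens ζ (H y + L y))))
      (rip y (A₀ y) + rip y (B₀ y) + (4 * z + 8 * q) * rip (H y) (L y)) E _ T' C hε hε1 hK0 hgp hR
      hq0 (sq_nonneg _) (sq_nonneg _) hT' hεT rfl (by linarith) (hw y) ?_ (sq_nonneg _) (hen y) hE
      ?_ hCa
    · intro s
      exact form_ineq T c g ξ η ζ ω hT hω0 hω Z hZ (H y + L y) s
    · linarith
  · intro E y hE hen
    set w : Y := H y + L y with hwdef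
    set Z : ι → Y := tens ω (((2 * ε * c : ℝ) : ℂ) • w) with hZdef
    have hZ : ∑ a, star (ξ a) • Z a = 0 := by
      have e1 : ∀ a, star (ξ a) • Z a = (star (ξ a) * ω a) • (((2 * ε * c : ℝ) : ℂ) • w) := by
        intro a
        simp only [hZdef, tens, smul_smul]
        congr 1
        ring
      rw [Finset.sum_congr rfl fun a _ => e1 a, ← Finset.sum_smul, hω0, zero_smul]
    refine ⟨tens ξ y + Z, ?_, ?_⟩
    · rw [← norm_E2, hsplit y Z hZ]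
      linarith [sq_nonneg ‖E2 Z‖]
    · rw [← norm_E2, ← norm_E2, hsplit y Z hZ]
      have hX := hexp y Z hZ
      have hX1 := (abs_le.1 hX).1
      have hnw : ‖((2 * ε * c : ℝ) : ℂ) • w‖ ^ 2 = 4 * ε ^ 2 * c ^ 2 * ‖w‖ ^ 2 := by
        rw [norm_smul, Complex.norm_real, mul_pow, Real.norm_eq_abs, sq_abs]
        ring
      have hZn : ‖E2 Z‖ ^ 2 = 4 * ε ^ 2 * c ^ 2 * (o * ‖w‖ ^ 2) := by
        rw [hZdef, norm_tens, hnw]
        ring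
      have hFZ : ‖E2 (act T LinearMap.id Z)‖ ^ 2 =
          (∑ a, ‖T.mulVec ω a‖ ^ 2) * (4 * ε ^ 2 * c ^ 2 * ‖w‖ ^ 2) := by
        rw [hZdef, act_tens, norm_tens, LinearMap.id_apply, hnw]
      have hXe : c ^ 2 * ‖E2 Z‖ ^ 2 - ‖E2 (act T LinearMap.id Z)‖ ^ 2 =
          4 * ε ^ 2 * c ^ 2 * (q * ‖w‖ ^ 2) := by
        rw [hZn, hFZ, hq]
        unfold q1c
        ring
      have hJ : rip (E2 (act T LinearMap.id Z)) (E2 (tens ζ w)) = 2 * ε * c * (q * ‖w‖ ^ 2) := by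
        rw [hZdef, act_tens, inner_tens, q1_eq T c ζ ω hω, LinearMap.id_apply, Complex.re_ofReal_mul,
          ← hq]
        have : (⟪((2 * ε * c : ℝ) : ℂ) • w, w⟫_ℂ).re = rip (((2 * ε * c : ℝ) : ℂ) • w) w := rfl
        rw [this, rip_smul_left, rip_self]
        ring
      refine lower_real ε K c R q o (‖y‖ ^ 2) (‖E2 Z‖ ^ 2) (‖E2 (act T LinearMap.id Z)‖ ^ 2)
        (c ^ 2 * ‖E2 Z‖ ^ 2 - ‖E2 (act T LinearMap.id Z)‖ ^ 2) (‖w‖ ^ 2)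
        (rip (E2 (act T LinearMap.id Z)) (E2 (tens ζ w)))
        (rip y (A₀ y) + rip y (B₀ y) + (4 * z + 8 * q) * rip (H y) (L y)) E _ C hε hε1 hK0 hR ho0
        (sq_nonneg _) (sq_nonneg _) rfl ?_ hXe hJ hZn (hw y) hen hE ?_ hCb
      · rw [hXe]; positivity
      · linarith


end Pool.Agent.Helper685.OSep.Pert
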