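import Mathlib
import Pool.Agent.Helper685.OSep.MinN
import Pool.Agent.Helper685.OSep.C
import Pool.Agent.Helper685.OSep.J3
import Pool.Agent.Helper685.OSep.J4
import Pool.Agent.Helper685.OSep.Bridge

set_option autoImplicit false
set_option linter.unusedSectionVars false

open scoped Matrix.Norms.L2Operator Kronecker

namespace Pool.Agent.Helper685.OSep

variable {E : Type} [NormedAddCommGroup E] [NormedSpace ℂ E]

/-- the matrix `u(x)` -/
noncomputable def TT {μ κ : Type} (u : E →ₗ[ℂ] Matrix κ κ ℂ) (x : Matrix μ μ E) :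
    Matrix (μ × κ) (μ × κ) ℂ :=
  Matrix.of fun (p q : μ × κ) => u (x p.1 q.1) p.2 q.2

/-- left multiplication of a map by a matrix -/
noncomputable def lmap {κ : Type} [Fintype κ] (ρ : Matrix κ κ ℂ) (u : E →ₗ[ℂ] Matrix κ κ ℂ) :
    E →ₗ[ℂ] Matrix κ κ ℂ where
  toFun e := ρ * u e
  map_add' x y := by rw [map_add, Matrix.mul_add]
  map_smul' c x := by rw [map_smul, Matrix.mul_smul]; rfl

/-- left multiplication of a matrix over `E` -/
noncomputable def lmat {μ : Type} [Fintype μ] (lam : Matrix μ μ ℂ) (x : Matrix μ μ E) : Matrix μ μ E :=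
  Matrix.of fun a a' => ∑ a'', lam a a'' • x a'' a'

theorem TT_lmul {μ κ : Type} [Fintype μ] [DecidableEq μ] [Fintype κ] [DecidableEq κ]
    (lam : Matrix μ μ ℂ) (ρ : Matrix κ κ ℂ) (u : E →ₗ[ℂ] Matrix κ κ ℂ) (x : Matrix μ μ E) :
    TT (lmap ρ u) (lmat lam x) = Matrix.kroneckerMap (· * ·) lam ρ * TT u x := by
  ext ⟨a, b⟩ ⟨a', b'⟩
  change (ρ * u (∑ a'', lam a a'' • x a'' a')) b b' = _
  rw [map_sum, Matrix.mul_sum, Matrix.sum_apply, Matrix.mul_apply, Fintype.sum_prod_type]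
  refine Finset.sum_congr rfl fun a'' _ => ?_
  rw [map_smul, Matrix.mul_smul, Matrix.smul_apply, smul_eq_mul, Matrix.mul_apply, Finset.mul_sum]
  refine Finset.sum_congr rfl fun b'' _ => ?_
  simp only [Matrix.kroneckerMap_apply, TT, Matrix.of_apply]
  ring

theorem minG_lmat {μ : Type} [Fintype μ] [DecidableEq μ] (lam : Matrix μ μ ℂ) (x : Matrix μ μ E) :
    minG (lmat lam x) ≤ ‖lam‖ * minG x := by
  refine minG_le _ _ fun f hf => ?_
  have h : (lmat lam x).map f = lam * x.map f := by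
    ext a a'
    simp [lmat, Matrix.mul_apply]
  rw [h]
  refine (Matrix.l2_opNorm_mul _ _).trans ?_
  exact mul_le_mul_of_nonneg_left (le_minG x f hf) (norm_nonneg _)

theorem step1 {m k : ℕ} (u0 : E →ₗ[ℂ] Matrix (Fin k) (Fin k) ℂ) (hu0 : ∀ e, ‖u0 e‖ ≤ ‖e‖)
    (x0 : Matrix (Fin m) (Fin m) E) (h : minG x0 < ‖TT u0 x0‖) :
    ∃ (u : E →ₗ[ℂ] Matrix (Fin k) (Fin k) ℂ) (x : Matrix (Fin m) (Fin m) E) (K c g : ℝ)
      (ξ η : Fin m × Fin k → ℂ), 0 < K ∧ (∀ e, ‖u e‖ ≤ K * ‖e‖) ∧ K * minG x < c ∧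
      SimpleTop (TT u x) c g ξ η := by
  set t := ‖TT u0 x0‖ with ht
  have hμ := minG_nonneg x0
  have ht0 : 0 < t := lt_of_le_of_lt hμ h
  have hT0 : TT u0 x0 ≠ 0 := by
    intro h0
    rw [h0, norm_zero] at ht
    linarith
  set ε := (t - minG x0) / (8 * t) with hε
  have hε0 : 0 < ε := div_pos (by linarith) (by linarith)
  have hε1 : ε ≤ 1 / 8 := by
    rw [hε, div_le_iff₀ (by linarith)]
    linarith
  have hεt : 8 * ε * t = t - minG x0 := by
    rw [hε]; field_simp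
  obtain ⟨lam, rho, c, g, ξ, η, hlam, hrho, hS⟩ := exists_simpleTop (TT u0 x0) hT0 ε hε0
  have hlam1 : ‖lam‖ ≤ 1 + ε := by
    have h1 := norm_add_le (lam - 1) 1
    rw [sub_add_cancel] at h1
    have h2 : ‖(1 : Matrix (Fin m) (Fin m) ℂ)‖ ≤ 1 := by
      rw [← Matrix.diagonal_one, Matrix.l2_opNorm_diagonal]
      refine (pi_norm_le_iff_of_nonneg zero_le_one).mpr fun i => ?_
      simp
    linarith
  have hone : ‖(1 : Matrix (Fin k) (Fin k) ℂ)‖ ≤ 1 := by
    rw [← Matrix.diagonal_one, Matrix.l2_opNorm_diagonal]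
    refine (pi_norm_le_iff_of_nonneg zero_le_one).mpr fun i => ?_
    simp
  have hone' : ‖(1 : Matrix (Fin m) (Fin m) ℂ)‖ ≤ 1 := by
    rw [← Matrix.diagonal_one, Matrix.l2_opNorm_diagonal]
    refine (pi_norm_le_iff_of_nonneg zero_le_one).mpr fun i => ?_
    simp
  have hrho1 : ‖rho‖ ≤ 1 + ε := by
    have h1 := norm_add_le (rho - 1) 1
    rw [sub_add_cancel] at h1
    linarith
  rw [← TT_lmul] at hS
  refine ⟨lmap rho u0, lmat lam x0, 1 + ε, c, g, ξ, η, by linarith, ?_, ?_, hS⟩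
  · intro e
    change ‖rho * u0 e‖ ≤ _
    refine (Matrix.l2_opNorm_mul _ _).trans ?_
    exact mul_le_mul hrho1 (hu0 e) (norm_nonneg _) (by linarith)
  · have hc := hS.norm_eq
    rw [TT_lmul] at hc
    have h3 : ‖TT u0 x0‖ ≤ ‖Matrix.kroneckerMap (· * ·) lam rho * TT u0 x0‖ +
        (ε * (1 + ε) + ε) * t := by
      have e1 : TT u0 x0 = lam ⊗ₖ rho * TT u0 x0 -
          (((lam - 1) ⊗ₖ rho) + ((1 : Matrix (Fin m) (Fin m) ℂ) ⊗ₖ (rho - 1))) * TT u0 x0 := by
        have e2 : ((lam - 1) ⊗ₖ rho) + ((1 : Matrix (Fin m) (Fin m) ℂ) ⊗ₖ (rho - 1)) =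
            lam ⊗ₖ rho - 1 := by
          ext ⟨a, b⟩ ⟨a', b'⟩
          simp only [Matrix.add_apply, Matrix.sub_apply, Matrix.kroneckerMap_apply]
          have : (1 : Matrix (Fin m × Fin k) (Fin m × Fin k) ℂ) (a, b) (a', b') =
              (1 : Matrix (Fin m) (Fin m) ℂ) a a' * (1 : Matrix (Fin k) (Fin k) ℂ) b b' := by
            simp only [Matrix.one_apply, Prod.mk.injEq]
            split_ifs <;> simp_all
          rw [this]
          ring
        rw [e2, Matrix.sub_mul, Matrix.one_mul]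
        abel
      conv_lhs => rw [e1]
      refine (norm_sub_le _ _).trans ?_
      refine add_le_add le_rfl ((Matrix.l2_opNorm_mul _ _).trans ?_)
      refine mul_le_mul_of_nonneg_right ((norm_add_le _ _).trans ?_) (norm_nonneg _)
      refine add_le_add ((norm_kron_le _ _).trans ?_) ((norm_kron_le _ _).trans ?_)
      · exact mul_le_mul hlam.le hrho1 (norm_nonneg _) hε0.le
      · calc ‖(1 : Matrix (Fin m) (Fin m) ℂ)‖ * ‖rho - 1‖ ≤ 1 * ε :=
              mul_le_mul hone' hrho.le (norm_nonneg _) zero_le_one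
          _ = ε := one_mul _
    rw [hc, ← ht] at h3
    have h4 : (1 + ε) * minG (lmat lam x0) ≤ (1 + ε) * ((1 + ε) * minG x0) := by
      refine mul_le_mul_of_nonneg_left ((minG_lmat lam x0).trans ?_) (by linarith)
      exact mul_le_mul_of_nonneg_right hlam1 hμ
    have h5 : (2 * ε + ε ^ 2) * minG x0 ≤ (2 * ε + ε ^ 2) * t :=
      mul_le_mul_of_nonneg_left h.le (by positivity)
    have h6 : 0 < ε * t := mul_pos hε0 ht0
    have h7 : ε * (ε * t) ≤ 1 / 8 * (ε * t) := mul_le_mul_of_nonneg_right hε1 h6.le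
    have h8 : (1 + ε) * ((1 + ε) * minG x0) = minG x0 + (2 * ε + ε ^ 2) * minG x0 := by ring
    have h9 : (ε * (1 + ε) + ε) * t = 2 * (ε * t) + ε * (ε * t) := by ring
    have h10 : (2 * ε + ε ^ 2) * t = 2 * (ε * t) + ε * (ε * t) := by ring
    have h11 : 8 * (ε * t) = t - minG x0 := by rw [← hεt]; ring
    linarith

theorem step2 {m k : ℕ} (u0 : E →ₗ[ℂ] Matrix (Fin k) (Fin k) ℂ) (hu0 : ∀ e, ‖u0 e‖ ≤ ‖e‖)
    (x0 : Matrix (Fin m) (Fin m) E) (h : minG x0 < ‖TT u0 x0‖) :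
    ∃ (u : E →ₗ[ℂ] Matrix (Fin k) (Fin k) ℂ) (x : Matrix (Fin m) (Fin m) E) (K c g : ℝ)
      (ξ η : Fin m × Fin k → ℂ), 0 < K ∧ (∀ e, ‖u e‖ ≤ K * ‖e‖) ∧ K * minG x < c ∧
      SimpleTop (TT u x) c g ξ η ∧
      ¬ ∃ (α : Fin m → ℂ) (β : Fin k → ℂ), ∀ p, η p = α p.1 * β p.2 := by
  obtain ⟨u, x, K, c, g, ξ, η, hK, hu, hc, hS⟩ := step1 u0 hu0 x0 h
  by_cases hη : ∃ (α : Fin m → ℂ) (β : Fin k → ℂ), ∀ p, η p = α p.1 * β p.2
  · obtain ⟨α, β, hαβ⟩ := hη
    let ut : E →ₗ[ℂ] Matrix (Fin k) (Fin k) ℂ :=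
      { toFun := fun e => (u e).transpose
        map_add' := fun x y => by rw [map_add, Matrix.transpose_add]
        map_smul' := fun c x => by rw [map_smul, Matrix.transpose_smul]; rfl }
    refine ⟨ut, x.transpose, K, c, g, _, _, hK, ?_, ?_, hS.transpose, ?_⟩
    · intro e
      change ‖(u e).transpose‖ ≤ _
      rw [norm_transpose]
      exact hu e
    · exact lt_of_le_of_lt (mul_le_mul_of_nonneg_left (minG_transpose x) hK.le) hc
    · rintro ⟨γ, δ, hγδ⟩
      have hle := hS.le_of_product u K hK.le hu x α (fun a => star (γ a)) β (fun b => star (δ b))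
        hαβ (fun p => by
          have := congrArg star (hγδ p)
          simpa using this)
      change c ≤ K * minG x at hle
      linarith
  · exact ⟨u, x, K, c, g, ξ, η, hK, hu, hc, hS, hη⟩

end Pool.Agent.Helper685.OSep
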