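import Mathlib
import Pool.Agent.Helper685.OSep.Key1
import Pool.Agent.Helper685.OSep.Prep
import Pool.Agent.Helper685.OSep.Pert

set_option autoImplicit false
set_option linter.unusedSectionVars false

open scoped Matrix.Norms.L2Operator InnerProductSpace Kronecker

namespace Pool.Agent.Helper685.OSep

variable {E : Type} [NormedAddCommGroup E] [NormedSpace ℂ E]

/-- the label matrix, scaled -/
noncomputable def Hsm (s : ℝ) (i : ℕ) : Matrix (Fin 4 × ZMod (Nn i)) (Fin 4 × ZMod (Nn i)) ℂ :=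
  (s : ℂ) • Hm (Nn i)

theorem Hsm_herm (s : ℝ) (i : ℕ) : (Hsm s i).conjTranspose = Hsm s i := by
  rw [Hsm, Matrix.conjTranspose_smul, Hm_herm]
  simp

theorem norm_Hsm (s : ℝ) (hs : 0 ≤ s) (i : ℕ) : ‖Hsm s i‖ ≤ s * (3 * Lam) := by
  rw [Hsm, norm_smul, Complex.norm_real, Real.norm_eq_abs, abs_of_nonneg hs]
  exact mul_le_mul_of_nonneg_left (norm_Hm _) hs

theorem norm_Aux (θ s : ℝ) (hθ : 0 ≤ θ) (hs : 0 ≤ s) (i : ℕ) :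
    ‖Aux θ (Am (Nn i)) (Hsm s i)‖ ≤ 1 / 2 * (10 ^ 15 + θ * (s * (3 * Lam)) ^ 2) := by
  rw [Aux, norm_smul]
  have h1 : ‖(1 / 2 : ℂ)‖ = 1 / 2 := by norm_num
  rw [h1]
  refine mul_le_mul_of_nonneg_left ((norm_sub_le _ _).trans ?_) (by norm_num)
  refine add_le_add (norm_Am _) ?_
  rw [norm_smul, Complex.norm_real, Real.norm_eq_abs, abs_of_nonneg hθ]
  refine mul_le_mul_of_nonneg_left ((Matrix.l2_opNorm_mul _ _).trans ?_) hθ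
  have := norm_Hsm s hs i
  nlinarith [norm_nonneg (Hsm s i)]

/-- the two-sided estimate -/
theorem bigM_est {m k : ℕ} (u : E →ₗ[ℂ] Matrix (Fin k) (Fin k) ℂ) (x : Matrix (Fin m) (Fin m) E)
    (c g : ℝ) (ξ η : Fin m × Fin k → ℂ) (hS : SimpleTop (TT u x) c g ξ η)
    (hη : ¬ ∃ (α : Fin m → ℂ) (β : Fin k → ℂ), ∀ p, η p = α p.1 * β p.2) :
    ∃ (lam0 : Matrix (Fin m) (Fin m) ℂ) (rho0 : Matrix (Fin k) (Fin k) ℂ) (s θ C ε₀ : ℝ),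
      0 ≤ s ∧ 0 ≤ θ ∧ 0 ≤ C ∧ 0 < ε₀ ∧ ∀ ε : ℝ, 0 < ε → ε ≤ ε₀ →
        (∀ i j, i ≠ j →
          ‖bigM (Gmat rho0 (Hsm s i) (Aux θ (Am (Nn i)) (Hsm s i)) (ε : ℂ))
            (Dmat lam0 (Hsm s j) (Aux θ (Am (Nn j)) (Hsm s j)) (ε : ℂ)) u x‖ ^ 2 ≤
            max (c ^ 2 * (1 + ε ^ 2 * Elow + C * ε ^ 3)) 0) ∧
        (∀ i, c ^ 2 * (1 + ε ^ 2 * Etop - C * ε ^ 3) ≤
          ‖bigM (Gmat rho0 (Hsm s i) (Aux θ (Am (Nn i)) (Hsm s i)) (ε : ℂ))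
            (Dmat lam0 (Hsm s i) (Aux θ (Am (Nn i)) (Hsm s i)) (ε : ℂ)) u x‖ ^ 2) := by
  obtain ⟨lam0, rho0, ζ, hlam0, hrho0, hz1, hz2, hz3, hz4⟩ := exists_local η hS.eta_norm hη
  have hρ : ((1 : Matrix (Fin m) (Fin m) ℂ) ⊗ₖ rho0).IsHermitian := by
    rw [Matrix.IsHermitian, Matrix.conjTranspose_kronecker, hrho0.eq, Matrix.conjTranspose_one]
  have hl : (lam0 ⊗ₖ (1 : Matrix (Fin k) (Fin k) ℂ)).IsHermitian := by
    rw [Matrix.IsHermitian, Matrix.conjTranspose_kronecker, hlam0.eq, Matrix.conjTranspose_one]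
  obtain ⟨κ, θ, hκ, hθ, hP⟩ := Pert.perturb (TT u x) ((1 : Matrix (Fin m) (Fin m) ℂ) ⊗ₖ rho0)
    (lam0 ⊗ₖ (1 : Matrix (Fin k) (Fin k) ℂ)) c g ξ η ζ hS hρ hl hz1 hz2 hz3 hz4
  set s : ℝ := 1 / √κ with hs
  have hs0 : 0 ≤ s := by positivity
  have hκs : κ * s ^ 2 = 1 := by
    rw [hs, div_pow, Real.sq_sqrt hκ.le]
    field_simp
  have hL := Lam_nonneg
  set R : ℝ := 10 ^ 15 + s * (3 * Lam) + 1 with hR
  have hR0 : 0 ≤ R := by positivity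
  obtain ⟨C, ε₀, hC, hε₀, hmain⟩ := hP R hR0
  refine ⟨lam0, rho0, s, θ, C, ε₀, hs0, hθ, hC, hε₀, fun ε hε hεε => ?_⟩
  have hHl : ∀ i j (y : EuclideanSpace ℂ ((Fin 4 × ZMod (Nn i)) × (Fin 4 × ZMod (Nn j)))),
      ‖lm (Hsm s i) y‖ ≤ R * ‖y‖ := by
    intro i j y
    rw [Hsm, lm_smul', norm_smul, Complex.norm_real, Real.norm_eq_abs, abs_of_nonneg hs0]
    have h1 := mul_le_mul_of_nonneg_left (lmH_bound y) hs0
    have h2 : s * (3 * Lam * ‖y‖) = (s * (3 * Lam)) * ‖y‖ := by ring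
    rw [h2] at h1
    refine h1.trans (mul_le_mul_of_nonneg_right ?_ (norm_nonneg _))
    rw [hR]; linarith
  have hHr : ∀ i j (y : EuclideanSpace ℂ ((Fin 4 × ZMod (Nn i)) × (Fin 4 × ZMod (Nn j)))),
      ‖rm (Hsm s j) y‖ ≤ R * ‖y‖ := by
    intro i j y
    rw [Hsm, rm_smul', norm_smul, Complex.norm_real, Real.norm_eq_abs, abs_of_nonneg hs0]
    have h1 := mul_le_mul_of_nonneg_left (rmH_bound y) hs0
    have h2 : s * (3 * Lam * ‖y‖) = (s * (3 * Lam)) * ‖y‖ := by ring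
    rw [h2] at h1
    refine h1.trans (mul_le_mul_of_nonneg_right ?_ (norm_nonneg _))
    rw [hR]; linarith
  have hsL : 0 ≤ s * (3 * Lam) := by positivity
  have hAl : ∀ i j (y : EuclideanSpace ℂ ((Fin 4 × ZMod (Nn i)) × (Fin 4 × ZMod (Nn j)))),
      ‖lm (Am (Nn i)) y‖ ≤ R * ‖y‖ := by
    intro i j y
    refine (lmA_bound y).trans (mul_le_mul_of_nonneg_right ?_ (norm_nonneg _))
    rw [hR]; linarith
  have hAr : ∀ i j (y : EuclideanSpace ℂ ((Fin 4 × ZMod (Nn i)) × (Fin 4 × ZMod (Nn j)))),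
      ‖rm (Am (Nn j)) y‖ ≤ R * ‖y‖ := by
    intro i j y
    refine (rmA_bound y).trans (mul_le_mul_of_nonneg_right ?_ (norm_nonneg _))
    rw [hR]; linarith
  have hen : ∀ i j (y : EuclideanSpace ℂ ((Fin 4 × ZMod (Nn i)) × (Fin 4 × ZMod (Nn j)))),
      (⟪y, lm (Am (Nn i)) y⟫_ℂ).re + (⟪y, rm (Am (Nn j)) y⟫_ℂ).re +
        κ * (⟪lm (Hsm s i) y, rm (Hsm s j) y⟫_ℂ).re =
      energy (Am (Nn i)) (Hm (Nn i)) (Am (Nn j)) (Hm (Nn j)) y := by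
    intro i j y
    rw [energy, Hsm, Hsm, lm_smul', rm_smul', inner_smul_left, inner_smul_right]
    have h1 : ((starRingEnd ℂ) (s : ℂ) * ((s : ℂ) * ⟪lm (Hm (Nn i)) y, rm (Hm (Nn j)) y⟫_ℂ)).re =
        s ^ 2 * (⟪lm (Hm (Nn i)) y, rm (Hm (Nn j)) y⟫_ℂ).re := by
      rw [Complex.conj_ofReal, ← mul_assoc, ← Complex.ofReal_mul, Complex.re_ofReal_mul]
      ring
    rw [h1, ← mul_assoc, hκs, one_mul]
  have hEl : |Elow| ≤ R := Elow_abs.trans (by rw [hR]; linarith)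
  have hEt : |Etop| ≤ R := Etop_abs.trans (by rw [hR]; linarith)
  have hmain' := fun (i j : ℕ) => hmain
    (EuclideanSpace ℂ ((Fin 4 × ZMod (Nn i)) × (Fin 4 × ZMod (Nn j))))
    (lm (Hsm s i)) (rm (Hsm s j)) (lm (Am (Nn i))) (rm (Am (Nn j)))
    (lm_symm (Hsm_herm s i)) (rm_symm (Hsm_herm s j)) (lm_symm (Am_herm _)) (rm_symm (Am_herm _))
    (hHl i j) (hHr i j) (hAl i j) (hAr i j)
    (lm (Aux θ (Am (Nn i)) (Hsm s i))) (rm (Aux θ (Am (Nn j)) (Hsm s j)))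
    (lm_Aux θ _ _) (rm_Aux θ _ _) ε hε hεε
    (Gop (Gmat rho0 (Hsm s i) (Aux θ (Am (Nn i)) (Hsm s i)) (ε : ℂ)))
    (Dop (Dmat lam0 (Hsm s j) (Aux θ (Am (Nn j)) (Hsm s j)) (ε : ℂ)))
    (fun Φ => Gop_Gmat rho0 _ _ _ Φ) (fun Φ => Dop_Dmat lam0 _ _ _ Φ)
  refine ⟨fun i j hij => ?_, fun i => ?_⟩
  · have h1 := (hmain' i j).1 Elow hEl (fun y => by rw [hen]; exact energy_gap hij y)
    set P := c ^ 2 * (1 + ε ^ 2 * Elow + C * ε ^ 3) with hPdef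
    have h2 := bigM_norm_le (Gmat rho0 (Hsm s i) (Aux θ (Am (Nn i)) (Hsm s i)) (ε : ℂ))
      (Dmat lam0 (Hsm s j) (Aux θ (Am (Nn j)) (Hsm s j)) (ε : ℂ)) u x (√(max P 0))
      (Real.sqrt_nonneg _) (fun Ξ => by
        rw [Real.sq_sqrt (le_max_right _ _)]
        refine (h1 Ξ).trans (mul_le_mul_of_nonneg_right (le_max_left _ _) (by positivity)))
    have h3 := pow_le_pow_left₀ (norm_nonneg _) h2 2
    rwa [Real.sq_sqrt (le_max_right _ _)] at h3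
  · obtain ⟨y, hy0, hy⟩ := energy_top i
    obtain ⟨Ξ, hΞ1, hΞ2⟩ := (hmain' i i).2 Etop y hEt (by rw [hen]; exact hy)
    refine le_bigM_norm _ _ _ _ _ Ξ (lt_of_lt_of_le ?_ hΞ1) hΞ2
    positivity

theorem key_aux {m k : ℕ} (u0 : E →ₗ[ℂ] Matrix (Fin k) (Fin k) ℂ) (hu0 : ∀ e, ‖u0 e‖ ≤ ‖e‖)
    (x0 : Matrix (Fin m) (Fin m) E) (h : minG x0 < ‖TT u0 x0‖) :
    ∃ δ : ℝ, 0 < δ ∧ ∃ (U : (i : ℕ) → E →ₗ[ℂ]
        Matrix (Fin k × (Fin 4 × ZMod (Nn i))) (Fin k × (Fin 4 × ZMod (Nn i))) ℂ)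
      (X : (i : ℕ) → Matrix (Fin m × (Fin 4 × ZMod (Nn i))) (Fin m × (Fin 4 × ZMod (Nn i))) E),
      (∀ i e, ‖U i e‖ ≤ ‖e‖) ∧ (∀ i, 0 < matG (U i) (X i)) ∧
      (∀ i, (1 + δ) * minG (X i) ≤ matG (U i) (X i)) ∧
      (∀ i j, i ≠ j → (1 + δ) * matG (U i) (X j) ≤ matG (U j) (X j)) := by
  obtain ⟨u, x, K, c, g, ξ, η, hK, hu, hc, hS, hη⟩ := step2 u0 hu0 x0 h
  obtain ⟨lam0, rho0, s, θ, C, ε₀, hs0, hθ, hC, hε₀, hmain⟩ := bigM_est u x c g ξ η hS hη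
  have hL := Lam_nonneg
  have hcp := hS.c_pos
  have hμ := minG_nonneg x
  set hh : ℝ := s * (3 * Lam) with hhh
  set a : ℝ := 1 / 2 * (10 ^ 15 + θ * (s * (3 * Lam)) ^ 2) with ha
  have hh0 : 0 ≤ hh := by positivity
  have ha0 : 0 ≤ a := by positivity
  set C1 : ℝ := ‖rho0‖ * hh + a with hC1
  set C2 : ℝ := ‖lam0‖ * hh + a with hC2
  have hC10 : 0 ≤ C1 := by positivity
  have hC20 : 0 ≤ C2 := by positivity
  obtain ⟨ε, hε, hεε, hε1, hPpos, hPQ, hMQ⟩ := choose_eps c (K * minG x) C C1 C2 ε₀ hcp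
    (by positivity) hc hC hε₀
  set P : ℝ := 1 + ε ^ 2 * Elow + C * ε ^ 3 with hP
  set Q : ℝ := 1 + ε ^ 2 * Etop - C * ε ^ 3 with hQ
  obtain ⟨δ, hδ, hδP, hδM⟩ := choose_delta (c ^ 2 * P) (c ^ 2 * Q)
    (((1 + ε * C2) * (1 + ε * C1) * (K * minG x)) ^ 2)
    (mul_lt_mul_of_pos_left hPQ (by positivity)) hMQ
  obtain ⟨hup, hlow⟩ := hmain ε hε hεε
  have hup' : ∀ i j, i ≠ j →
      ‖bigM (Gmat rho0 (Hsm s i) (Aux θ (Am (Nn i)) (Hsm s i)) (ε : ℂ))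
        (Dmat lam0 (Hsm s j) (Aux θ (Am (Nn j)) (Hsm s j)) (ε : ℂ)) u x‖ ^ 2 ≤ c ^ 2 * P := by
    intro i j hij
    refine (hup i j hij).trans (le_of_eq (max_eq_left ?_))
    positivity
  set t : ℝ := (K * (1 + ε * C1))⁻¹ with ht
  have hKC : 0 < K * (1 + ε * C1) := by positivity
  have ht0 : 0 < t := inv_pos.mpr hKC
  refine ⟨δ, hδ,
    fun i => (t : ℂ) • uG (Gmat rho0 (Hsm s i) (Aux θ (Am (Nn i)) (Hsm s i)) (ε : ℂ)) u,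
    fun j => xD (Dmat lam0 (Hsm s j) (Aux θ (Am (Nn j)) (Hsm s j)) (ε : ℂ)) x, ?_⟩
  have hmat : ∀ i j, matG
      ((t : ℂ) • uG (Gmat rho0 (Hsm s i) (Aux θ (Am (Nn i)) (Hsm s i)) (ε : ℂ)) u)
      (xD (Dmat lam0 (Hsm s j) (Aux θ (Am (Nn j)) (Hsm s j)) (ε : ℂ)) x) =
      t * ‖bigM (Gmat rho0 (Hsm s i) (Aux θ (Am (Nn i)) (Hsm s i)) (ε : ℂ))
        (Dmat lam0 (Hsm s j) (Aux θ (Am (Nn j)) (Hsm s j)) (ε : ℂ)) u x‖ := by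
    intro i j
    have h1 : (Matrix.of fun (p q : (Fin m × (Fin 4 × ZMod (Nn j))) × (Fin k × (Fin 4 × ZMod (Nn i)))) =>
        ((t : ℂ) • uG (Gmat rho0 (Hsm s i) (Aux θ (Am (Nn i)) (Hsm s i)) (ε : ℂ)) u)
          (xD (Dmat lam0 (Hsm s j) (Aux θ (Am (Nn j)) (Hsm s j)) (ε : ℂ)) x p.1 q.1) p.2 q.2) =
        (t : ℂ) • bigM (Gmat rho0 (Hsm s i) (Aux θ (Am (Nn i)) (Hsm s i)) (ε : ℂ))
          (Dmat lam0 (Hsm s j) (Aux θ (Am (Nn j)) (Hsm s j)) (ε : ℂ)) u x := rfl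
    rw [matG, h1, norm_smul, Complex.norm_real, Real.norm_eq_abs, abs_of_pos ht0]
  have hQpos : 0 < c ^ 2 * Q := by
    have : 0 < Q := hPpos.trans hPQ
    positivity
  have hbpos : ∀ i, 0 < ‖bigM (Gmat rho0 (Hsm s i) (Aux θ (Am (Nn i)) (Hsm s i)) (ε : ℂ))
      (Dmat lam0 (Hsm s i) (Aux θ (Am (Nn i)) (Hsm s i)) (ε : ℂ)) u x‖ := by
    intro i
    have h1 := hQpos.trans_le (hlow i)
    refine lt_of_le_of_ne (norm_nonneg _) fun h0 => ?_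
    rw [← h0] at h1
    norm_num at h1
  refine ⟨?_, ?_, ?_, ?_⟩
  · intro i e
    change ‖(t : ℂ) • uG (Gmat rho0 (Hsm s i) (Aux θ (Am (Nn i)) (Hsm s i)) (ε : ℂ)) u e‖ ≤ _
    rw [norm_smul, Complex.norm_real, Real.norm_eq_abs, abs_of_pos ht0]
    have h1 := norm_uG (Gmat rho0 (Hsm s i) (Aux θ (Am (Nn i)) (Hsm s i)) (ε : ℂ)) u K (1 + ε * C1)
      hu (norm_Gmat rho0 _ _ ε hh a ‖rho0‖ hε.le hε1 le_rfl (norm_Hsm s hs0 i)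
        (norm_Aux θ s hθ hs0 i)) e
    calc t * _ ≤ t * ((1 + ε * C1) * K * ‖e‖) := mul_le_mul_of_nonneg_left h1 ht0.le
      _ = ‖e‖ := by rw [ht]; field_simp
  · intro i
    rw [hmat]
    exact mul_pos ht0 (hbpos i)
  · intro i
    rw [hmat]
    have h1 := minG_xD (Dmat lam0 (Hsm s i) (Aux θ (Am (Nn i)) (Hsm s i)) (ε : ℂ)) x (1 + ε * C2)
      (norm_Dmat lam0 _ _ ε hh a ‖lam0‖ hε.le hε1 le_rfl (norm_Hsm s hs0 i)
        (norm_Aux θ s hθ hs0 i))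
    have h2 : (1 + δ) * ((1 + ε * C2) * (1 + ε * C1) * (K * minG x)) ≤
        ‖bigM (Gmat rho0 (Hsm s i) (Aux θ (Am (Nn i)) (Hsm s i)) (ε : ℂ))
          (Dmat lam0 (Hsm s i) (Aux θ (Am (Nn i)) (Hsm s i)) (ε : ℂ)) u x‖ := by
      refine le_of_sq_le_sq ?_ (norm_nonneg _)
      rw [mul_pow]
      exact hδM.trans (hlow i)
    calc (1 + δ) * minG (xD (Dmat lam0 (Hsm s i) (Aux θ (Am (Nn i)) (Hsm s i)) (ε : ℂ)) x)
        ≤ (1 + δ) * ((1 + ε * C2) * minG x) := mul_le_mul_of_nonneg_left h1 (by positivity)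
      _ = t * ((1 + δ) * ((1 + ε * C2) * (1 + ε * C1) * (K * minG x))) := by
          rw [ht]; field_simp
      _ ≤ _ := mul_le_mul_of_nonneg_left h2 ht0.le
  · intro i j hij
    rw [hmat, hmat]
    have h1 := hup' i j hij
    have h2 := hlow j
    have h3 : (1 + δ) * ‖bigM (Gmat rho0 (Hsm s i) (Aux θ (Am (Nn i)) (Hsm s i)) (ε : ℂ))
          (Dmat lam0 (Hsm s j) (Aux θ (Am (Nn j)) (Hsm s j)) (ε : ℂ)) u x‖ ≤
        ‖bigM (Gmat rho0 (Hsm s j) (Aux θ (Am (Nn j)) (Hsm s j)) (ε : ℂ))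
          (Dmat lam0 (Hsm s j) (Aux θ (Am (Nn j)) (Hsm s j)) (ε : ℂ)) u x‖ := by
      refine le_of_sq_le_sq ?_ (norm_nonneg _)
      rw [mul_pow]
      calc (1 + δ) ^ 2 * _ ≤ (1 + δ) ^ 2 * (c ^ 2 * P) := mul_le_mul_of_nonneg_left h1 (by positivity)
        _ ≤ c ^ 2 * Q := hδP
        _ ≤ _ := h2
    calc _ = t * ((1 + δ) * ‖bigM (Gmat rho0 (Hsm s i) (Aux θ (Am (Nn i)) (Hsm s i)) (ε : ℂ))
          (Dmat lam0 (Hsm s j) (Aux θ (Am (Nn j)) (Hsm s j)) (ε : ℂ)) u x‖) := by ring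
      _ ≤ _ := mul_le_mul_of_nonneg_left h3 ht0.le

/-- the key construction -/
theorem key {m k : ℕ} (u0 : E →ₗ[ℂ] Matrix (Fin k) (Fin k) ℂ) (hu0 : ∀ e, ‖u0 e‖ ≤ ‖e‖)
    (x0 : Matrix (Fin m) (Fin m) E) (h : minNorm m x0 < matNorm u0 m x0) :
    ∃ δ : ℝ, 0 < δ ∧ ∃ (κ n : ℕ → ℕ)
      (w : (i : ℕ) → E →ₗ[ℂ] Matrix (Fin (κ i)) (Fin (κ i)) ℂ)
      (X : (i : ℕ) → Matrix (Fin (n i)) (Fin (n i)) E), (∀ i e, ‖w i e‖ ≤ ‖e‖) ∧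
      (∀ i, 0 < matNorm (w i) (n i) (X i)) ∧
      (∀ i, (1 + δ) * minNorm (n i) (X i) ≤ matNorm (w i) (n i) (X i)) ∧
      (∀ i j, i ≠ j → (1 + δ) * matNorm (w i) (n j) (X j) ≤ matNorm (w j) (n j) (X j)) := by
  obtain ⟨δ, hδ, U, X, h1, h2, h3, h4⟩ := key_aux u0 hu0 x0 h
  let e1 : (i : ℕ) → (Fin k × (Fin 4 × ZMod (Nn i))) ≃ Fin (Fintype.card (Fin k × (Fin 4 × ZMod (Nn i)))) :=
    fun i => Fintype.equivFin _
  let e2 : (i : ℕ) → (Fin m × (Fin 4 × ZMod (Nn i))) ≃ Fin (Fintype.card (Fin m × (Fin 4 × ZMod (Nn i)))) :=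
    fun i => Fintype.equivFin _
  have hm : ∀ i j, matNorm (reU (e1 i) (U i)) _ ((X j).submatrix (e2 j).symm (e2 j).symm) =
      matG (U i) (X j) := fun i j => by rw [matNorm_eq, matG_reindex]
  have hn : ∀ j, minNorm _ ((X j).submatrix (e2 j).symm (e2 j).symm) = minG (X j) := fun j => by
    rw [minNorm_eq, minG_reindex]
  refine ⟨δ, hδ, fun i => _, fun i => _, fun i => reU (e1 i) (U i),
    fun j => (X j).submatrix (e2 j).symm (e2 j).symm, ?_, ?_, ?_, ?_⟩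
  · intro i e
    change ‖(U i e).submatrix (e1 i).symm (e1 i).symm‖ ≤ _
    rw [norm_reindex]
    exact h1 i e
  · intro i
    rw [hm]; exact h2 i
  · intro i
    rw [hm, hn]; exact h3 i
  · intro i j hij
    rw [hm, hm]; exact h4 i j hij

end Pool.Agent.Helper685.OSep
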