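import Mathlib
import Pool.Agent.Helper685.OSep.K1

set_option autoImplicit false

namespace Pool.Agent.Helper685.OSep

/-- Complete isometry, as an equivalence relation on the operator space structures of `E`. -/
def ciSetoid (E : Type) [NormedAddCommGroup E] [NormedSpace ℂ E] : Setoid (OS E) where
  r N M := CompletelyIsometric N.norms M.norms
  iseqv := ⟨fun N => (completelyIsometric_equiv E).refl N.norms,
    fun {_ _} h => (completelyIsometric_equiv E).symm h,
    fun {_ _ _} h h' => (completelyIsometric_equiv E).trans h h'⟩

/-- The set `OS(E)` of the operator space structures on the normed space `E`, up to complete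
isometry. -/
def OSClass (E : Type) [NormedAddCommGroup E] [NormedSpace ℂ E] : Type := Quotient (ciSetoid E)

/-- The class of a structure. -/
def OSClass.mk {E : Type} [NormedAddCommGroup E] [NormedSpace ℂ E] (N : OS E) : OSClass E :=
  Quotient.mk (ciSetoid E) N

theorem log_dcb_congr {E : Type} [NormedAddCommGroup E] [NormedSpace ℂ E] [FiniteDimensional ℂ E]
    (N M N' M' : OS E) (h : CompletelyIsometric N.norms N'.norms)
    (h' : CompletelyIsometric M.norms M'.norms) :
    Real.log (dcb N.norms M.norms) = Real.log (dcb N'.norms M'.norms) := by
  obtain ⟨h0, hs, ht⟩ := log_dcb_pseudo E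
  have e1 := log_dcb_of_completelyIsometric _ _ N.isOS N'.isOS h
  have e2 := log_dcb_of_completelyIsometric _ _ M.isOS M'.isOS h'
  have e1' := hs _ _ N.isOS N'.isOS
  have e2' := hs _ _ M.isOS M'.isOS
  have t1 := ht _ _ _ N.isOS N'.isOS M.isOS
  have t2 := ht _ _ _ N'.isOS M'.isOS M.isOS
  have t3 := ht _ _ _ N'.isOS N.isOS M'.isOS
  have t4 := ht _ _ _ N.isOS M.isOS M'.isOS
  apply le_antisymm <;> linarith

/-- The metric `δ_cb = log d_cb` on `OS(E)`. -/
noncomputable def deltaCb {E : Type} [NormedAddCommGroup E] [NormedSpace ℂ E]
    [FiniteDimensional ℂ E] (p q : OSClass E) : ℝ :=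
  Quotient.lift₂ (s₁ := ciSetoid E) (s₂ := ciSetoid E)
    (fun N M : OS E => Real.log (dcb N.norms M.norms))
    (fun N M N' M' h h' => log_dcb_congr N M N' M' h h') p q

/-- `OS(E)` is a metric space for `δ_cb`. -/
noncomputable instance instMetricOSClass (E : Type) [NormedAddCommGroup E] [NormedSpace ℂ E]
    [FiniteDimensional ℂ E] : MetricSpace (OSClass E) where
  dist := deltaCb
  dist_self p := by
    induction p using Quotient.inductionOn with
    | _ N => exact (log_dcb_pseudo E).1 N.norms N.isOS
  dist_comm p q := by
    induction p using Quotient.inductionOn with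
    | _ N =>
      induction q using Quotient.inductionOn with
      | _ M => exact (log_dcb_pseudo E).2.1 N.norms M.norms N.isOS M.isOS
  dist_triangle p q r := by
    induction p using Quotient.inductionOn with
    | _ N =>
      induction q using Quotient.inductionOn with
      | _ M =>
        induction r using Quotient.inductionOn with
        | _ P => exact (log_dcb_pseudo E).2.2 N.norms M.norms P.norms N.isOS M.isOS P.isOS
  eq_of_dist_eq_zero {p q} h := by
    induction p using Quotient.inductionOn with
    | _ N =>
      induction q using Quotient.inductionOn with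
      | _ M =>
        exact Quotient.sound (s := ciSetoid E)
          (completelyIsometric_of_log_dcb N.norms M.norms N.isOS M.isOS h)

theorem dist_mk {E : Type} [NormedAddCommGroup E] [NormedSpace ℂ E] [FiniteDimensional ℂ E]
    (N M : OS E) : dist (OSClass.mk N) (OSClass.mk M) = Real.log (dcb N.norms M.norms) := rfl

end Pool.Agent.Helper685.OSep
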